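import Mathlib

set_option autoImplicit false
open Filter Topology

namespace Pool.Agent.Lib.MP_4e4ac8_an

variable {V : Type*} [NormedAddCommGroup V] [NormedSpace ℂ V]

/-- A closed real cone that meets every complex line in at most one real line. -/
structure RealCone (L : Set V) : Prop where
  smul : ∀ μ ∈ L, ∀ ρ : ℝ, ρ ≠ 0 → (ρ : ℂ) • μ ∈ L
  closed : ∀ (u : ℕ → V) (v : V), (∀ n, u n ∈ L) → Tendsto u atTop (𝓝 v) → v ≠ 0 → v ∈ L
  real : ∀ μ ∈ L, ∀ κ : ℂ, κ • μ ∈ L → κ.im = 0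

lemma tend_shift (d τ : ℂ) : Tendsto (fun n : ℕ => d + τ * (n : ℂ)⁻¹) atTop (𝓝 d) := by
  have h : Tendsto (fun n : ℕ => (n : ℂ)⁻¹) atTop (𝓝 0) := tendsto_inv_atTop_nhds_zero_nat
  simpa using (h.const_mul τ).const_add d

lemma tend_small (β d τ : ℂ) (hβ : β.re < 0) (j K : ℕ) :
    Tendsto (fun n : ℕ => Complex.exp (β * n) * ((n : ℂ) * d + τ) ^ j / (n : ℂ) ^ K) atTop (𝓝 0) := by
  have h0 : Tendsto (fun n : ℕ => (n : ℂ)⁻¹) atTop (𝓝 0) := tendsto_inv_atTop_nhds_zero_nat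
  have h1 : Tendsto (fun n : ℕ => Complex.exp (β * n) * (n : ℂ) ^ j) atTop (𝓝 0) := by
    rw [tendsto_zero_iff_norm_tendsto_zero]
    have hr : |Real.exp β.re| < 1 := by
      rw [abs_of_pos (Real.exp_pos _)]; exact Real.exp_lt_one_iff.2 hβ
    refine (tendsto_pow_const_mul_const_pow_of_abs_lt_one j hr).congr fun n => ?_
    rw [norm_mul, Complex.norm_exp, norm_pow, Complex.norm_natCast, ← Real.exp_nat_mul]
    simp [mul_comm]
  have h2 := (h1.mul ((tend_shift d τ).pow j)).mul (h0.pow K)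
  simp only [zero_mul] at h2
  refine h2.congr' ?_
  filter_upwards [eventually_gt_atTop 0] with n hn
  have hn' : (n : ℂ) ≠ 0 := by exact_mod_cast hn.ne'
  have : (n : ℂ) * d + τ = n * (d + τ * (n : ℂ)⁻¹) := by field_simp
  rw [this, mul_pow, inv_pow]
  field_simp

lemma tend_main (d τ : ℂ) (j K : ℕ) (hj : j ≤ K) :
    Tendsto (fun n : ℕ => ((n : ℂ) * d + τ) ^ j / (n : ℂ) ^ K) atTop
      (𝓝 (if j = K then d ^ K else 0)) := by
  have h0 : Tendsto (fun n : ℕ => (n : ℂ)⁻¹) atTop (𝓝 0) := tendsto_inv_atTop_nhds_zero_nat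
  have h2 := ((tend_shift d τ).pow j).mul (h0.pow (K - j))
  have he : d ^ j * (0 : ℂ) ^ (K - j) = if j = K then d ^ K else 0 := by
    split_ifs with h
    · subst h; simp
    · rw [zero_pow (by omega)]; simp
  rw [he] at h2
  refine h2.congr' ?_
  filter_upwards [eventually_gt_atTop 0] with n hn
  have hn' : (n : ℂ) ≠ 0 := by exact_mod_cast hn.ne'
  have : (n : ℂ) * d + τ = n * (d + τ * (n : ℂ)⁻¹) := by field_simp
  obtain ⟨m, rfl⟩ := Nat.exists_eq_add_of_le hj
  rw [this, mul_pow, inv_pow, Nat.add_sub_cancel_left, pow_add]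
  field_simp

/-- exponential polynomial with data `T, k, c` -/
noncomputable def expPoly (T : Finset ℂ) (k : ℂ → ℕ) (c : ℂ → ℕ → V) (w : ℂ) : V :=
  ∑ ν ∈ T, ∑ j ∈ Finset.range (k ν + 1), (Complex.exp (ν * w) * w ^ j) • c ν j

lemma expPoly_asym (T : Finset ℂ) (k : ℂ → ℕ) (c : ℂ → ℕ → V) (d τ ν0 : ℂ) (h0 : ν0 ∈ T)
    (hmax : ∀ ν ∈ T, ν ≠ ν0 → (d * ν).re < (d * ν0).re) :
    Tendsto (fun n : ℕ => (Complex.exp (-(ν0 * (n * d))) / (n : ℂ) ^ (k ν0)) •
      expPoly T k c (n * d + τ)) atTop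
      (𝓝 ((Complex.exp (ν0 * τ) * d ^ (k ν0)) • c ν0 (k ν0))) := by
  classical
  have key : ∀ ν ∈ T, ∀ j ∈ Finset.range (k ν + 1),
      Tendsto (fun n : ℕ => (Complex.exp (-(ν0 * (n * d))) / (n : ℂ) ^ (k ν0)) •
        ((Complex.exp (ν * (n * d + τ)) * ((n : ℂ) * d + τ) ^ j) • c ν j)) atTop
        (𝓝 (if ν = ν0 ∧ j = k ν0 then (Complex.exp (ν0 * τ) * d ^ (k ν0)) • c ν0 (k ν0)
          else 0)) := by
    intro ν hν j hj
    by_cases h : ν = ν0
    · subst h
      have hj' : j ≤ k ν := by simpa [Nat.lt_succ_iff] using hj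
      have h1 := ((tend_main d τ j (k ν) hj').const_mul (Complex.exp (ν * τ))).smul_const (c ν j)
      have he : (Complex.exp (ν * τ) * if j = k ν then d ^ k ν else 0) • c ν j =
          (if ν = ν ∧ j = k ν then (Complex.exp (ν * τ) * d ^ (k ν)) • c ν (k ν) else 0) := by
        by_cases hjk : j = k ν
        · simp [hjk]
        · simp [hjk]
      rw [he] at h1
      refine h1.congr fun n => ?_
      rw [smul_smul]
      congr 1
      rw [mul_add ν, Complex.exp_add, Complex.exp_neg]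
      have := Complex.exp_ne_zero (ν * (n * d))
      field_simp
    · have hβ : (d * ν - d * ν0).re < 0 := by
        have := hmax ν hν h
        rw [Complex.sub_re]; linarith
      have h1 := ((tend_small _ d τ hβ j (k ν0)).const_mul (Complex.exp (ν * τ))).smul_const (c ν j)
      simp only [mul_zero, zero_smul] at h1
      simp only [h, false_and, if_false]
      refine h1.congr fun n => ?_
      rw [smul_smul]
      congr 1
      have e1 : Complex.exp ((d * ν - d * ν0) * n) * Complex.exp (ν * τ) =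
          Complex.exp (-(ν0 * (n * d))) * Complex.exp (ν * (n * d + τ)) := by
        rw [← Complex.exp_add, ← Complex.exp_add]; congr 1; ring
      calc Complex.exp (ν * τ) * (Complex.exp ((d * ν - d * ν0) * n) * ((n : ℂ) * d + τ) ^ j /
            (n : ℂ) ^ k ν0)
          = (Complex.exp ((d * ν - d * ν0) * n) * Complex.exp (ν * τ)) * ((n : ℂ) * d + τ) ^ j /
            (n : ℂ) ^ k ν0 := by ring
        _ = _ := by rw [e1]; ring
  have hs := tendsto_finsetSum T fun ν hν => tendsto_finsetSum _ fun j hj => key ν hν j hj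
  have he : (∑ ν ∈ T, ∑ j ∈ Finset.range (k ν + 1),
      (if ν = ν0 ∧ j = k ν0 then (Complex.exp (ν0 * τ) * d ^ (k ν0)) • c ν0 (k ν0) else 0)) =
      (Complex.exp (ν0 * τ) * d ^ (k ν0)) • c ν0 (k ν0) := by
    rw [Finset.sum_eq_single ν0]
    · rw [Finset.sum_eq_single (k ν0)]
      · simp
      · intro j _ hj; simp [hj]
      · intro h; simp at h
    · intro ν _ hν; simp [hν]
    · intro h; exact absurd h0 h
  rw [he] at hs
  refine hs.congr fun n => ?_
  simp only [expPoly, Finset.smul_sum]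

lemma RealCone.ratio {L : Set V} (hL : RealCone L) {v : V} {a b : ℂ} (ha : a ≠ 0)
    (h1 : a • v ∈ L) (h2 : b • v ∈ L) : (b / a).im = 0 := by
  apply hL.real _ h1
  rw [smul_smul, div_mul_cancel₀ _ ha]; exact h2

lemma RealCone.seq {L : Set V} (hL : RealCone L) {u u' : ℕ → V} {κ : ℕ → ℂ} {v : V} {b : ℂ}
    (hv : v ≠ 0) (hb : b ≠ 0) (hκ : ∀ᶠ n in atTop, κ n ≠ 0 ∧ κ n • u n ∈ L ∧ κ n • u' n ∈ L)
    (hu : Tendsto u atTop (𝓝 v)) (hu' : Tendsto u' atTop (𝓝 (b • v))) : b.im = 0 := by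
  obtain ⟨N, hN⟩ := eventually_atTop.1 hκ
  let θ : ℕ → ℂ := fun n => ((‖κ (n + N)‖⁻¹ : ℝ) : ℂ) * κ (n + N)
  have hθ : ∀ n, θ n ∈ Metric.sphere (0 : ℂ) 1 := by
    intro n
    have := (hN (n + N) (by omega)).1
    simp [θ, this]
  obtain ⟨θ0, hθ0, φ, hφ, hlim⟩ := (isCompact_sphere (0 : ℂ) 1).tendsto_subseq hθ
  have hθ0' : θ0 ≠ 0 := by
    intro h; rw [h] at hθ0; simp at hθ0
  have hφN : Tendsto (fun n => φ n + N) atTop atTop :=
    tendsto_atTop_mono (fun n => Nat.le_add_right _ _) hφ.tendsto_atTop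
  have m1 : θ0 • v ∈ L := by
    refine hL.closed (fun n => θ (φ n) • u (φ n + N)) _ (fun n => ?_)
      (hlim.smul (hu.comp hφN)) (smul_ne_zero hθ0' hv)
    have h := hN (φ n + N) (by omega)
    have := hL.smul _ h.2.1 (‖κ (φ n + N)‖⁻¹) (by simpa using h.1)
    rwa [smul_smul] at this
  have m2 : θ0 • b • v ∈ L := by
    refine hL.closed (fun n => θ (φ n) • u' (φ n + N)) _ (fun n => ?_)
      (hlim.smul (hu'.comp hφN)) (smul_ne_zero hθ0' (smul_ne_zero hb hv))
    have h := hN (φ n + N) (by omega)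
    have := hL.smul _ h.2.2 (‖κ (φ n + N)‖⁻¹) (by simpa using h.1)
    rwa [smul_smul] at this
  apply hL.real _ m1
  rwa [smul_comm] at m2

lemma im_zero_of_exp (ν : ℂ) (h : ∀ t : ℝ, (Complex.exp (ν * t)).im = 0) : ν.im = 0 := by
  by_contra hν
  have := h (Real.pi / 2 / ν.im)
  rw [Complex.exp_im] at this
  have e : (ν * ((Real.pi / 2 / ν.im : ℝ) : ℂ)).im = Real.pi / 2 := by
    rw [Complex.mul_im, Complex.ofReal_re, Complex.ofReal_im]; field_simp; ring
  rw [e, Real.sin_pi_div_two, mul_one] at this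
  exact (Real.exp_pos _).ne' this

lemma dominant_real {L : Set V} (hL : RealCone L) (T : Finset ℂ) (k : ℂ → ℕ) (c : ℂ → ℕ → V)
    (hc : ∀ ν ∈ T, c ν (k ν) ≠ 0)
    (hF : ∀ w : ℂ, ∃ κ : ℂ, κ ≠ 0 ∧ ∀ t : ℝ, κ • expPoly T k c (w + t) ∈ L)
    (d ν0 : ℂ) (hd : d ≠ 0) (h0 : ν0 ∈ T)
    (hmax : ∀ ν ∈ T, ν ≠ ν0 → (d * ν).re < (d * ν0).re) : ν0.im = 0 := by
  apply im_zero_of_exp
  intro t
  choose κ hκ0 hκ using hF
  have a0 := expPoly_asym T k c d 0 ν0 h0 hmax
  have a1 := expPoly_asym T k c d t ν0 h0 hmax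
  simp only [mul_zero, Complex.exp_zero, one_mul] at a0
  rw [mul_smul] at a1
  refine hL.seq (κ := fun n => κ (n * d) / (Complex.exp (-(ν0 * (n * d))) / (n : ℂ) ^ (k ν0)))
    (smul_ne_zero (pow_ne_zero _ hd) (hc _ h0)) (Complex.exp_ne_zero _) ?_ a0 a1
  filter_upwards [eventually_gt_atTop 0] with n hn
  have hn' : (n : ℂ) ≠ 0 := by exact_mod_cast hn.ne'
  have hne : Complex.exp (-(ν0 * (n * d))) / (n : ℂ) ^ (k ν0) ≠ 0 :=
    div_ne_zero (Complex.exp_ne_zero _) (pow_ne_zero _ hn')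
  refine ⟨div_ne_zero (hκ0 _) hne, ?_, ?_⟩
  · rw [smul_smul, div_mul_cancel₀ _ hne]
    simpa using hκ (n * d) 0
  · rw [smul_smul, div_mul_cancel₀ _ hne]
    exact hκ (n * d) t

lemma exists_strict_max (T : Finset ℂ) (hT : T.Nonempty) (d : ℂ)
    (hinj : ∀ a ∈ T, ∀ b ∈ T, (d * a).re = (d * b).re → a = b) :
    ∃ ν0 ∈ T, ∀ ν ∈ T, ν ≠ ν0 → (d * ν).re < (d * ν0).re := by
  obtain ⟨ν0, h0, hm⟩ := T.exists_max_image (fun ν => (d * ν).re) hT
  exact ⟨ν0, h0, fun ν hν hne => lt_of_le_of_ne (hm ν hν) fun h => hne (hinj _ hν _ h0 h)⟩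

lemma all_real (T : Finset ℂ)
    (h : ∀ d ν0 : ℂ, d ≠ 0 → ν0 ∈ T → (∀ ν ∈ T, ν ≠ ν0 → (d * ν).re < (d * ν0).re) → ν0.im = 0) :
    ∀ ν ∈ T, ν.im = 0 := by
  classical
  intro ν1 h1
  by_contra hne
  -- sign s with s * im > 0
  set s : ℝ := ν1.im with hs
  have hpos : 0 < s * s := mul_self_pos.2 hne
  -- bound on real parts
  obtain ⟨R, hR⟩ : ∃ R : ℝ, ∀ ν ∈ T, |ν.re| ≤ R := by
    obtain ⟨ν, -, hm⟩ := T.exists_max_image (fun ν => |ν.re|) ⟨ν1, h1⟩
    exact ⟨_, hm⟩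
  have hR0 : 0 ≤ R := (abs_nonneg _).trans (hR _ h1)
  let B : Finset ℝ := (T ×ˢ T).image fun p => s * (p.2.im - p.1.im) / (p.1.re - p.2.re)
  have hinf : (Set.Ioo (0 : ℝ) (s * s / (2 * R + 1))).Infinite :=
    Set.Ioo_infinite (by positivity)
  obtain ⟨δ, hδ, hδB⟩ := hinf.exists_notMem_finset B
  let d : ℂ := ⟨δ, -s⟩
  have hre : ∀ ν : ℂ, (d * ν).re = δ * ν.re + s * ν.im := by
    intro ν; simp [d, Complex.mul_re]
  have hd : d ≠ 0 := by
    intro h0
    have : δ = 0 := by simpa [d] using congrArg Complex.re h0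
    exact hδ.1.ne' this
  obtain ⟨ν0, h0, hm⟩ := exists_strict_max T ⟨ν1, h1⟩ d (by
    intro a ha b hb hab
    rw [hre, hre] at hab
    by_cases hr : a.re = b.re
    · apply Complex.ext hr
      rw [hr] at hab
      have : s * a.im = s * b.im := by linarith
      exact mul_left_cancel₀ hne this
    · exfalso
      apply hδB
      refine Finset.mem_image.2 ⟨(a, b), Finset.mem_product.2 ⟨ha, hb⟩, ?_⟩
      have : a.re - b.re ≠ 0 := sub_ne_zero.2 hr
      simp only
      field_simp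
      linarith)
  have him := h d ν0 hd h0 hm
  have hne' : ν1 ≠ ν0 := by
    rintro rfl; exact hne him
  have := hm ν1 h1 hne'
  rw [hre, hre, him] at this
  have e1 := abs_le.1 (hR _ h0)
  have e2 := abs_le.1 (hR _ h1)
  have e3 : δ * (2 * R + 1) < s * s := by
    have := hδ.2
    rwa [lt_div_iff₀ (by positivity)] at this
  have e4 := hδ.1
  nlinarith

lemma expPoly_rigid {L : Set V} (hL : RealCone L) (T : Finset ℂ) (hT : T.Nonempty) (k : ℂ → ℕ)
    (c : ℂ → ℕ → V) (hc : ∀ ν ∈ T, c ν (k ν) ≠ 0)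
    (hF : ∀ w : ℂ, ∃ κ : ℂ, κ ≠ 0 ∧ ∀ t : ℝ, κ • expPoly T k c (w + t) ∈ L) :
    ∃ ν : ℂ, T = {ν} ∧ k ν = 0 := by
  have hreal : ∀ ν ∈ T, ν.im = 0 :=
    all_real T fun d ν0 hd h0 hm => dominant_real hL T k c hc hF d ν0 hd h0 hm
  choose κ hκ0 hκ using hF
  -- limits along horizontal lines
  have hor : ∀ (d : ℝ) (ν0 : ℂ), d ≠ 0 → ν0 ∈ T →
      (∀ ν ∈ T, ν ≠ ν0 → ((d : ℂ) * ν).re < ((d : ℂ) * ν0).re) → ∀ τ : ℂ,
      (κ τ * Complex.exp (ν0 * τ)) • ((d : ℂ) ^ (k ν0) • c ν0 (k ν0)) ∈ L := by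
    intro d ν0 hd h0 hm τ
    have hd' : (d : ℂ) ≠ 0 := by exact_mod_cast hd
    have a := (expPoly_asym T k c d τ ν0 h0 hm).const_smul (κ τ)
    have a' := a.comp (tendsto_add_atTop_nat 1)
    rw [mul_smul, smul_smul] at a'
    refine hL.closed _ _ (fun n => ?_) a'
      (smul_ne_zero (mul_ne_zero (hκ0 _) (Complex.exp_ne_zero _))
        (smul_ne_zero (pow_ne_zero _ hd') (hc _ h0)))
    have h1 := hκ τ (((n + 1 : ℕ) : ℝ) * d)
    have h2 := hL.smul _ h1 (Real.exp (-(ν0.re * (((n + 1 : ℕ) : ℝ) * d))) /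
      ((n + 1 : ℕ) : ℝ) ^ (k ν0)) (by positivity)
    have hν : ν0 = (ν0.re : ℂ) := Complex.ext (by simp) (by simp [hreal _ h0])
    simp only [Function.comp]
    rw [smul_comm]
    have e1 : ((Real.exp (-(ν0.re * (((n + 1 : ℕ) : ℝ) * d))) / ((n + 1 : ℕ) : ℝ) ^ (k ν0) : ℝ) : ℂ)
        = Complex.exp (-(ν0 * (((n + 1 : ℕ) : ℂ) * d))) / ((n + 1 : ℕ) : ℂ) ^ (k ν0) := by
      conv_rhs => rw [hν]
      rw [← hν]
      push_cast
      rw [← hν]
    have e2 : τ + ((((n + 1 : ℕ) : ℝ) * d : ℝ) : ℂ) = ((n + 1 : ℕ) : ℂ) * d + τ := by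
      push_cast; ring
    rw [e1, e2] at h2
    exact h2
  have inj : ∀ d : ℝ, d ≠ 0 → ∀ a ∈ T, ∀ b ∈ T, ((d : ℂ) * a).re = ((d : ℂ) * b).re → a = b := by
    intro d hd a ha b hb hab
    simp only [Complex.re_ofReal_mul] at hab
    exact Complex.ext (mul_left_cancel₀ hd hab) (by rw [hreal _ ha, hreal _ hb])
  obtain ⟨νp, hp, hmp⟩ := exists_strict_max T hT ((1 : ℝ) : ℂ) (inj 1 one_ne_zero)
  obtain ⟨νm, hm, hmm⟩ := exists_strict_max T hT ((-1 : ℝ) : ℂ) (inj (-1) (by norm_num))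
  have rp : ∀ τ : ℂ, (κ τ * Complex.exp (νp * τ) / κ 0).im = 0 := fun τ => by
    have h0 := hor 1 νp one_ne_zero hp hmp 0
    simp only [mul_zero, Complex.exp_zero, mul_one] at h0
    exact hL.ratio (hκ0 0) h0 (hor 1 νp one_ne_zero hp hmp τ)
  have rm : ∀ τ : ℂ, (κ τ * Complex.exp (νm * τ) / κ 0).im = 0 := fun τ => by
    have h0 := hor (-1) νm (by norm_num) hm hmm 0
    simp only [mul_zero, Complex.exp_zero, mul_one] at h0
    exact hL.ratio (hκ0 0) h0 (hor (-1) νm (by norm_num) hm hmm τ)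
  have heq : νp = νm := by
    have h1 : ((νp - νm) * Complex.I).im = 0 := by
      apply im_zero_of_exp
      intro t
      have e : Complex.exp ((νp - νm) * Complex.I * t) =
          (κ (Complex.I * t) * Complex.exp (νp * (Complex.I * t)) / κ 0) /
          (κ (Complex.I * t) * Complex.exp (νm * (Complex.I * t)) / κ 0) := by
        have := hκ0 0
        have := hκ0 (Complex.I * t)
        have := Complex.exp_ne_zero (νm * (Complex.I * t))
        field_simp
        rw [← Complex.exp_add]; congr 1; ring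
      rw [e, Complex.div_im, rp, rm]; simp
    apply Complex.ext
    · simpa [sub_eq_zero] using h1
    · rw [hreal _ hp, hreal _ hm]
  subst heq
  have hT1 : T = {νp} := by
    refine Finset.eq_singleton_iff_unique_mem.2 ⟨hp, fun ν hν => ?_⟩
    by_contra hne
    have a := hmp ν hν hne
    have b := hmm ν hν hne
    simp at a b
    linarith
  refine ⟨νp, hT1, ?_⟩
  by_contra hk
  have hall : ∀ w : ℂ, (κ 0 * Complex.exp (-(νp * w))) • expPoly T k c w ∈ L := by
    intro w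
    have h1 := hκ w 0
    simp only [Complex.ofReal_zero, add_zero] at h1
    have hne : κ w * Complex.exp (νp * w) / κ 0 ≠ 0 :=
      div_ne_zero (mul_ne_zero (hκ0 _) (Complex.exp_ne_zero _)) (hκ0 _)
    have hre : κ w * Complex.exp (νp * w) / κ 0 = ((κ w * Complex.exp (νp * w) / κ 0).re : ℂ) :=
      Complex.ext (by simp only [Complex.ofReal_re]) (by rw [rp, Complex.ofReal_im])
    have h2 := hL.smul _ h1 ((κ w * Complex.exp (νp * w) / κ 0).re)⁻¹ (by
      apply inv_ne_zero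
      intro h0; apply hne; rw [hre, h0]; simp)
    rw [smul_smul, Complex.ofReal_inv, ← hre] at h2
    have e : (κ w * Complex.exp (νp * w) / κ 0)⁻¹ * κ w = κ 0 * Complex.exp (-(νp * w)) := by
      have := hκ0 0
      have := hκ0 w
      have := Complex.exp_ne_zero (νp * w)
      rw [Complex.exp_neg]; field_simp
    rwa [e] at h2
  have hd : ∀ d : ℂ, d ≠ 0 → (κ 0 * d ^ (k νp)) • c νp (k νp) ∈ L := by
    intro d hd
    have a := (expPoly_asym T k c d 0 νp hp (by
      intro ν hν hne; rw [hT1] at hν; exact absurd (Finset.mem_singleton.1 hν) hne)).const_smul (κ 0)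
    have a' := a.comp (tendsto_add_atTop_nat 1)
    simp only [mul_zero, Complex.exp_zero, one_mul, add_zero] at a'
    rw [smul_smul] at a'
    refine hL.closed _ _ (fun n => ?_) a'
      (smul_ne_zero (mul_ne_zero (hκ0 _) (pow_ne_zero _ hd)) (hc _ hp))
    have h2 := hL.smul _ (hall (((n + 1 : ℕ) : ℂ) * d)) (((n + 1 : ℕ) : ℝ) ^ (k νp))⁻¹ (by positivity)
    simp only [Function.comp, smul_smul] at h2 ⊢
    have e : ((((((n + 1 : ℕ) : ℝ) ^ (k νp))⁻¹ : ℝ) : ℂ)) *
        (κ 0 * Complex.exp (-(νp * (((n + 1 : ℕ) : ℂ) * d)))) =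
        κ 0 * (Complex.exp (-(νp * (((n + 1 : ℕ) : ℂ) * d))) / ((n + 1 : ℕ) : ℂ) ^ (k νp)) := by
      push_cast; ring
    rwa [e] at h2
  have h1 := hd 1 one_ne_zero
  have h2 := hd (Complex.exp (Real.pi / 2 * Complex.I / (k νp))) (Complex.exp_ne_zero _)
  have hk' : (k νp : ℂ) ≠ 0 := by exact_mod_cast hk
  rw [← Complex.exp_nat_mul, mul_div_cancel₀ _ hk', Complex.exp_pi_div_two_mul_I] at h2
  rw [one_pow, mul_one] at h1
  have := hL.ratio (hκ0 0) h1 h2
  rw [mul_div_cancel_left₀ _ (hκ0 0)] at this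
  simp at this

lemma exp_smul_add [CompleteSpace V] (A : V →L[ℂ] V) (a b : ℂ) :
    NormedSpace.exp ((a + b) • A) = NormedSpace.exp (a • A) * NormedSpace.exp (b • A) := by
  letI : NormedAlgebra ℚ (V →L[ℂ] V) := NormedAlgebra.restrictScalars ℚ ℂ _
  rw [add_smul]
  exact NormedSpace.exp_add_of_commute (((Commute.refl A).smul_left a).smul_right b)

lemma exp_smul_neg [CompleteSpace V] (A : V →L[ℂ] V) (a : ℂ) :
    NormedSpace.exp (a • A) * NormedSpace.exp ((-a) • A) = 1 := by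
  rw [← exp_smul_add]; simp

lemma ode_unique [CompleteSpace V] (A : V →L[ℂ] V) (F G : ℂ → V)
    (hF : ∀ w, HasDerivAt F (A (F w)) w) (hG : ∀ w, HasDerivAt G (A (G w)) w) (h0 : F 0 = G 0) :
    F = G := by
  let H : ℂ → V := fun w => NormedSpace.exp (w • (-A)) (F w - G w)
  have hH : ∀ w, HasDerivAt H 0 w := by
    intro w
    have h1 := (hasDerivAt_exp_smul_const (𝕂 := ℂ) (-A) w).clm_apply ((hF w).sub (hG w))
    have e : (NormedSpace.exp (w • (-A)) * -A) (F w - G w) +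
        NormedSpace.exp (w • (-A)) (A (F w) - A (G w)) = 0 := by
      rw [mul_apply_eq_comp, ← map_add]
      simp
    exact e ▸ h1
  have hc : ∀ w, H w = H 0 := fun w =>
    is_const_of_deriv_eq_zero (fun w => (hH w).differentiableAt) (fun w => (hH w).deriv) w 0
  funext w
  have h1 : H w = 0 := by rw [hc w]; simp [H, h0]
  have h2 : NormedSpace.exp (w • A) * NormedSpace.exp (w • (-A)) = 1 := by
    rw [smul_neg, ← neg_smul]; exact exp_smul_neg A w
  have h3 : (NormedSpace.exp (w • A) * NormedSpace.exp (w • (-A))) (F w - G w) = 0 := by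
    rw [mul_apply_eq_comp]
    change NormedSpace.exp (w • A) (H w) = 0
    rw [h1, map_zero]
  rw [h2] at h3
  exact sub_eq_zero.1 h3

lemma block_deriv (A : V →L[ℂ] V) (ν : ℂ) (k : ℕ) (c : ℕ → V)
    (hc : ∀ j, A (c j) = ν • c j + ((j + 1 : ℕ) : ℂ) • c (j + 1)) (hk : c (k + 1) = 0) (w : ℂ) :
    HasDerivAt (fun w => ∑ j ∈ Finset.range (k + 1), (Complex.exp (ν * w) * w ^ j) • c j)
      (A (∑ j ∈ Finset.range (k + 1), (Complex.exp (ν * w) * w ^ j) • c j)) w := by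
  have h1 : ∀ j ∈ Finset.range (k + 1), HasDerivAt (fun w => (Complex.exp (ν * w) * w ^ j) • c j)
      ((Complex.exp (ν * w) * ν * w ^ j + Complex.exp (ν * w) * (j * w ^ (j - 1))) • c j) w := by
    intro j _
    have a : HasDerivAt (fun w => Complex.exp (ν * w)) (Complex.exp (ν * w) * ν) w := by
      simpa using ((hasDerivAt_id w).const_mul ν).cexp
    exact (a.mul (hasDerivAt_pow j w)).smul_const (c j)
  have h2 := HasDerivAt.fun_sum h1
  have e : (∑ j ∈ Finset.range (k + 1),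
      (Complex.exp (ν * w) * ν * w ^ j + Complex.exp (ν * w) * (j * w ^ (j - 1))) • c j) =
      A (∑ j ∈ Finset.range (k + 1), (Complex.exp (ν * w) * w ^ j) • c j) := by
    simp only [map_sum, map_smul, hc, smul_add, add_smul, Finset.sum_add_distrib, smul_smul]
    congr 1
    · exact Finset.sum_congr rfl fun j _ => by congr 1; ring
    · rw [Finset.sum_range_succ', Finset.sum_range_succ _ k, hk]
      simp only [Nat.cast_zero, zero_mul, mul_zero, zero_smul, add_zero, smul_zero,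
        Nat.add_sub_cancel]
      exact Finset.sum_congr rfl fun j _ => by congr 1; ring
  exact e ▸ h2

lemma exists_expPoly [FiniteDimensional ℂ V] (A : V →L[ℂ] V) (F : ℂ → V)
    (hF : ∀ w, HasDerivAt F (A (F w)) w) :
    ∃ (T : Finset ℂ) (k : ℂ → ℕ) (c : ℂ → ℕ → V), (∀ ν ∈ T, c ν (k ν) ≠ 0) ∧ F = expPoly T k c := by
  classical
  have : CompleteSpace V := FiniteDimensional.complete ℂ V
  let f : Module.End ℂ V := (A : V →ₗ[ℂ] V)
  have hmem : F 0 ∈ ⨆ μ, f.maxGenEigenspace μ := by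
    rw [Module.End.iSup_maxGenEigenspace_eq_top]; trivial
  obtain ⟨g, hg, hsum⟩ := (Submodule.mem_iSup_iff_exists_finsupp _ _).1 hmem
  have hex : ∀ ν, ∃ m : ℕ, ((f - ν • (1 : Module.End ℂ V)) ^ (m + 1)) (g ν) = 0 := by
    intro ν
    obtain ⟨m, hm⟩ := (Module.End.mem_maxGenEigenspace _ _ _).1 (hg ν)
    exact ⟨m, by rw [pow_succ', Module.End.mul_apply, hm, map_zero]⟩
  let k : ℂ → ℕ := fun ν => Nat.find (hex ν)
  let c : ℂ → ℕ → V := fun ν j =>
    ((j.factorial : ℂ))⁻¹ • ((f - ν • (1 : Module.End ℂ V)) ^ j) (g ν)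
  refine ⟨g.support, k, c, fun ν hν => ?_, ?_⟩
  · refine smul_ne_zero (inv_ne_zero (by exact_mod_cast (Nat.factorial_pos _).ne')) ?_
    rcases Nat.eq_zero_or_pos (k ν) with h | h
    · rw [h]; simpa using hν
    · have := Nat.find_min (hex ν) (m := k ν - 1) (by change k ν - 1 < k ν; omega)
      rwa [Nat.sub_add_cancel h] at this
  · apply ode_unique A _ _ hF
    · intro w
      have h1 : ∀ ν ∈ g.support, _ := fun ν _ => block_deriv A ν (k ν) (c ν) (fun j => by
        have hj : (j.factorial : ℂ) ≠ 0 := by exact_mod_cast (Nat.factorial_pos _).ne'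
        have hj1 : ((j + 1 : ℕ) : ℂ) ≠ 0 := by exact_mod_cast (Nat.succ_ne_zero j)
        simp only [c, smul_smul, Nat.factorial_succ, pow_succ', Module.End.mul_apply]
        have e : ((j + 1 : ℕ) : ℂ) * (((j + 1) * j.factorial : ℕ) : ℂ)⁻¹ = (j.factorial : ℂ)⁻¹ := by
          rw [Nat.cast_mul]; field_simp
        rw [e, map_smul]
        simp only [LinearMap.sub_apply, LinearMap.smul_apply, Module.End.one_apply, smul_sub,
          smul_smul, f, ContinuousLinearMap.coe_coe]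
        rw [mul_comm ν]; abel)
        (by simp only [c]; rw [Nat.find_spec (hex ν), smul_zero]) w
      have h2 := HasDerivAt.fun_sum h1
      rw [← map_sum] at h2
      exact h2
    · rw [← hsum, expPoly, Finsupp.sum]
      refine Finset.sum_congr rfl fun ν _ => ?_
      rw [Finset.sum_range_succ']
      simp [c]

/-- A nonzero solution of `F' = A F` whose horizontal lines lie, up to a constant factor, in a
real cone starts at an eigenvector. -/
theorem eigen_of_cone [FiniteDimensional ℂ V] {L : Set V} (hL : RealCone L) (A : V →L[ℂ] V)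
    (F : ℂ → V) (hF : ∀ w, HasDerivAt F (A (F w)) w) (h0 : F 0 ≠ 0)
    (hc : ∀ w : ℂ, ∃ κ : ℂ, κ ≠ 0 ∧ ∀ t : ℝ, κ • F (w + t) ∈ L) :
    ∃ ν : ℂ, A (F 0) = ν • F 0 := by
  obtain ⟨T, k, c, hck, rfl⟩ := exists_expPoly A F hF
  have hT : T.Nonempty := by
    rw [Finset.nonempty_iff_ne_empty]
    rintro rfl
    exact h0 (by simp [expPoly])
  obtain ⟨ν, rfl, hk⟩ := expPoly_rigid hL T hT k c hck hc
  have e : expPoly {ν} k c = fun w => Complex.exp (ν * w) • c ν 0 := by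
    funext w; simp [expPoly, hk]
  refine ⟨ν, ?_⟩
  have a : HasDerivAt (fun w => Complex.exp (ν * w)) (Complex.exp (ν * 0) * ν) 0 := by
    simpa using ((hasDerivAt_id (0 : ℂ)).const_mul ν).cexp
  have h1 := hF 0
  rw [e] at h1 ⊢
  rw [h1.unique (a.smul_const (c ν 0))]
  simp

end Pool.Agent.Lib.MP_4e4ac8_an
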