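import Pool.Agent.Lib.MP_4e4ac8_an.Frankel

/-!
Linear algebra in three complex dimensions: bilinear product, cross product, derivatives.
-/

set_option autoImplicit false
open Filter Topology Complex ComplexConjugate

namespace Pool.Agent.Lib.MP_4e4ac8_an

/-- the standard bilinear product -/
def dot (g v : E) : ℂ := g 0 * v 0 + g 1 * v 1 + g 2 * v 2

/-- the cross product -/
def crs (p u : E) : E := ![p 1 * u 2 - p 2 * u 1, p 2 * u 0 - p 0 * u 2, p 0 * u 1 - p 1 * u 0]

@[simp] lemma crs0 (p u : E) : crs p u 0 = p 1 * u 2 - p 2 * u 1 := rfl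
@[simp] lemma crs1 (p u : E) : crs p u 1 = p 2 * u 0 - p 0 * u 2 := rfl
@[simp] lemma crs2 (p u : E) : crs p u 2 = p 0 * u 1 - p 1 * u 0 := rfl

lemma ext3 {x y : E} (h0 : x 0 = y 0) (h1 : x 1 = y 1) (h2 : x 2 = y 2) : x = y := by
  funext i; fin_cases i
  · exact h0
  · exact h1
  · exact h2

lemma dot_comm (g v : E) : dot g v = dot v g := by simp only [dot]; ring
lemma dot_add_right (g v w : E) : dot g (v + w) = dot g v + dot g w := by simp [dot]; ring
lemma dot_sub_right (g v w : E) : dot g (v - w) = dot g v - dot g w := by simp [dot]; ring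
lemma dot_smul_right (c : ℂ) (g v : E) : dot g (c • v) = c * dot g v := by simp [dot]; ring
lemma dot_add_left (g v w : E) : dot (g + v) w = dot g w + dot v w := by simp [dot]; ring
lemma dot_sub_left (g v w : E) : dot (g - v) w = dot g w - dot v w := by simp [dot]; ring
lemma dot_smul_left (c : ℂ) (g v : E) : dot (c • g) v = c * dot g v := by simp [dot]; ring
lemma dot_zero_right (g : E) : dot g 0 = 0 := by simp [dot]
lemma dot_crs_left (p u : E) : dot (crs p u) p = 0 := by simp [dot]; ring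
lemma dot_crs_right (p u : E) : dot (crs p u) u = 0 := by simp [dot]; ring

lemma hm_eq_dot (x y : E) : hm x y = dot x (star y) := by simp [hm, dot]

lemma nn_star (x : E) : nn (star x) = nn x := by simp [nn]

lemma lagr (p u : E) : nn (crs p u) = nn p * nn u - normSq (hm u p) := by
  simp only [nn, hm, crs0, crs1, crs2, normSq_apply, sub_re, sub_im, mul_re, mul_im, add_re,
    add_im, conj_re, conj_im]
  ring

lemma cs_hm (u p : E) : normSq (hm u p) ≤ nn u * nn p := by
  have := nn_nonneg (crs p u)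
  rw [lagr] at this
  linarith

lemma cs_dot (g v : E) : normSq (dot g v) ≤ nn g * nn v := by
  have := cs_hm g (star v)
  rwa [hm_eq_dot, star_star, nn_star] at this

lemma nn_crs_le (p u : E) : nn (crs p u) ≤ nn p * nn u := by
  rw [lagr]; linarith [normSq_nonneg (hm u p)]

lemma nn_crs_comm (p u : E) : nn (crs p u) = nn (crs u p) := by
  rw [lagr, lagr, hm_conj p u, normSq_conj]; ring

lemma crs_add_smul (p u : E) (α c : ℂ) : crs p (α • p + c • u) = c • crs p u := by
  apply ext3 <;> simp <;> ring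

lemma crs_smul_smul (p u : E) (a c : ℂ) : crs (a • p) (c • u) = (a * c) • crs p u := by
  apply ext3 <;> simp <;> ring

lemma crs_smul_left (p u : E) (a : ℂ) : crs (a • p) u = a • crs p u := by
  apply ext3 <;> simp <;> ring

lemma crs_zero_right (p : E) : crs p 0 = 0 := by
  apply ext3 <;> simp

lemma frame_decomp {a e v : E} (h : dot (crs v e) a = 1) (x : E) :
    x = dot (crs v e) x • a + dot (crs a v) x • e + dot (crs e a) x • v := by
  simp only [dot, crs0, crs1, crs2] at h
  apply ext3 <;> simp only [dot, crs0, crs1, crs2, Pi.add_apply, Pi.smul_apply, smul_eq_mul]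
  · linear_combination (-(x 0)) * h
  · linear_combination (-(x 1)) * h
  · linear_combination (-(x 2)) * h

lemma frame_me {a e v : E} (h : dot (crs v e) a = 1) : dot (crs a v) e = 1 := by
  rw [← h]; simp only [dot, crs0, crs1, crs2]; ring

lemma conormal_eq {g F e v : E} {b : ℂ} (h1 : dot g F = 0) (h2 : dot g (e + b • v) = 0)
    (h3 : dot (crs v e) F = 1) : g = (-dot g v) • crs F (e + b • v) := by
  simp only [dot, crs0, crs1, crs2, Pi.add_apply, Pi.smul_apply, smul_eq_mul] at h1 h2 h3
  apply ext3 <;> simp only [dot, crs0, crs1, crs2, Pi.add_apply, Pi.smul_apply, smul_eq_mul]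
  · linear_combination (-(g 0)) * h3 + (v 1 * e 2 - v 2 * e 1) * h1 + (F 1 * v 2 - F 2 * v 1) * h2
  · linear_combination (-(g 1)) * h3 + (v 2 * e 0 - v 0 * e 2) * h1 + (F 2 * v 0 - F 0 * v 2) * h2
  · linear_combination (-(g 2)) * h3 + (v 0 * e 1 - v 1 * e 0) * h1 + (F 0 * v 1 - F 1 * v 0) * h2

lemma dot_crs_frame {F e v : E} (b : ℂ) (h3 : dot (crs v e) F = 1) :
    dot (crs F (e + b • v)) v = -1 := by
  rw [← h3]; simp only [dot, crs0, crs1, crs2, Pi.add_apply, Pi.smul_apply, smul_eq_mul]; ring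

lemma sq_norm_le_nn (x : E) : ‖x‖ ^ 2 ≤ nn x := by
  have h0 := normSq_nonneg (x 0); have h1 := normSq_nonneg (x 1); have h2 := normSq_nonneg (x 2)
  have hs : ‖x‖ ≤ √(nn x) := by
    refine (pi_norm_le_iff_of_nonneg (Real.sqrt_nonneg _)).2 fun i => Real.le_sqrt_of_sq_le ?_
    rw [← normSq_eq_norm_sq]
    unfold nn
    fin_cases i
    · change normSq (x 0) ≤ _; linarith
    · change normSq (x 1) ≤ _; linarith
    · change normSq (x 2) ≤ _; linarith
  calc ‖x‖ ^ 2 ≤ √(nn x) ^ 2 := by gcongr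
    _ = nn x := Real.sq_sqrt (nn_nonneg x)

lemma norm_le_sqrt_nn (x : E) : ‖x‖ ≤ √(nn x) := Real.le_sqrt_of_sq_le (sq_norm_le_nn x)

lemma nn_le (x : E) : nn x ≤ 3 * ‖x‖ ^ 2 := by
  have k : ∀ i, normSq (x i) ≤ ‖x‖ ^ 2 := fun i => by
    rw [normSq_eq_norm_sq]; gcongr; exact norm_le_pi_norm x i
  unfold nn; linarith [k 0, k 1, k 2]

lemma norm_dot_le (g v : E) : ‖dot g v‖ ≤ 3 * (‖g‖ * ‖v‖) := by
  have k : ∀ i, ‖g i * v i‖ ≤ ‖g‖ * ‖v‖ := fun i => by
    rw [norm_mul]; gcongr <;> exact norm_le_pi_norm _ i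
  calc ‖dot g v‖ ≤ ‖g 0 * v 0‖ + ‖g 1 * v 1‖ + ‖g 2 * v 2‖ := norm_add₃_le
    _ ≤ _ := by linarith [k 0, k 1, k 2]

lemma norm_hm_le (g v : E) : ‖hm g v‖ ≤ 3 * (‖g‖ * ‖v‖) := by
  rw [hm_eq_dot]; simpa using norm_dot_le g (star v)

lemma norm_crs_le (g v : E) : ‖crs g v‖ ≤ 2 * (‖g‖ * ‖v‖) := by
  have k : ∀ i j, ‖g i * v j‖ ≤ ‖g‖ * ‖v‖ := fun i j => by
    rw [norm_mul]; gcongr <;> exact norm_le_pi_norm _ _
  refine (pi_norm_le_iff_of_nonneg (by positivity)).2 fun i => ?_
  fin_cases i
  · exact (norm_sub_le _ _).trans (by linarith [k 1 2, k 2 1])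
  · exact (norm_sub_le _ _).trans (by linarith [k 2 0, k 0 2])
  · exact (norm_sub_le _ _).trans (by linarith [k 0 1, k 1 0])

lemma nn_zero : nn (0 : E) = 0 := by simp [nn]

lemma nn_perp {p : E} (hp : p ≠ 0) (u : E) :
    nn (u - (hm u p / nn p) • p) = nn (crs p u) / nn p := by
  have h := (nn_pos hp).ne'
  have h' : (nn p : ℂ) ≠ 0 := by exact_mod_cast h
  have e : crs p (u - (hm u p / nn p) • p) = crs p u := by
    have := crs_add_smul p u (-(hm u p / nn p)) 1
    rw [one_smul, one_smul] at this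
    rw [← this]; congr 1; rw [neg_smul]; abel
  have o : hm (u - (hm u p / nn p) • p) p = 0 := by
    rw [sub_eq_add_neg, hm_add_left, ← neg_smul, hm_smul_left, hm_self]; field_simp; ring
  have l := lagr p (u - (hm u p / nn p) • p)
  rw [e, o] at l
  rw [l]; simp; field_simp

section cont
variable {Y : Type*} [TopologicalSpace Y]

@[fun_prop] lemma continuous_dot {f g : Y → E} (hf : Continuous f) (hg : Continuous g) :
    Continuous fun y => dot (f y) (g y) := by unfold dot; fun_prop

@[fun_prop] lemma continuous_hm {f g : Y → E} (hf : Continuous f) (hg : Continuous g) :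
    Continuous fun y => hm (f y) (g y) := by unfold hm; fun_prop

@[fun_prop] lemma continuous_nn {f : Y → E} (hf : Continuous f) :
    Continuous fun y => nn (f y) := nn_cd.continuous.comp hf

@[fun_prop] lemma continuous_crs {f g : Y → E} (hf : Continuous f) (hg : Continuous g) :
    Continuous fun y => crs (f y) (g y) := by
  refine continuous_pi fun i => ?_
  fin_cases i
  · change Continuous fun y => f y 1 * g y 2 - f y 2 * g y 1; fun_prop
  · change Continuous fun y => f y 2 * g y 0 - f y 0 * g y 2; fun_prop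
  · change Continuous fun y => f y 0 * g y 1 - f y 1 * g y 0; fun_prop

@[fun_prop] lemma continuousAt_dot {f g : Y → E} {y : Y} (hf : ContinuousAt f y)
    (hg : ContinuousAt g y) : ContinuousAt (fun y => dot (f y) (g y)) y :=
  ContinuousAt.comp (f := fun y => (f y, g y)) (g := fun z : E × E => dot z.1 z.2)
    (continuous_dot continuous_fst continuous_snd).continuousAt (hf.prodMk hg)

@[fun_prop] lemma continuousAt_hm {f g : Y → E} {y : Y} (hf : ContinuousAt f y)
    (hg : ContinuousAt g y) : ContinuousAt (fun y => hm (f y) (g y)) y :=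
  ContinuousAt.comp (f := fun y => (f y, g y)) (g := fun z : E × E => hm z.1 z.2)
    (continuous_hm continuous_fst continuous_snd).continuousAt (hf.prodMk hg)

@[fun_prop] lemma continuousAt_nn {f : Y → E} {y : Y} (hf : ContinuousAt f y) :
    ContinuousAt (fun y => nn (f y)) y := nn_cd.continuous.continuousAt.comp hf

end cont

section der
variable {𝕜 : Type*} [NontriviallyNormedField 𝕜] [NormedAlgebra 𝕜 ℂ]

lemma hasDerivAt_dot {p q : 𝕜 → E} {p' q' : E} {s : 𝕜} (hp : HasDerivAt p p' s)
    (hq : HasDerivAt q q' s) :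
    HasDerivAt (fun s => dot (p s) (q s)) (dot p' (q s) + dot (p s) q') s := by
  have a := hasDerivAt_pi.1 hp
  have b := hasDerivAt_pi.1 hq
  have := (((a 0).mul (b 0)).add ((a 1).mul (b 1))).add ((a 2).mul (b 2))
  exact this.congr_deriv (by simp only [dot]; ring)

lemma hasDerivAt_dot_right (g : E) {q : 𝕜 → E} {q' : E} {s : 𝕜} (hq : HasDerivAt q q' s) :
    HasDerivAt (fun s => dot g (q s)) (dot g q') s := by
  simpa [dot_comm (0 : E), dot_zero_right] using hasDerivAt_dot (hasDerivAt_const s g) hq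

lemma hasDerivAt_dot_left (g : E) {q : 𝕜 → E} {q' : E} {s : 𝕜} (hq : HasDerivAt q q' s) :
    HasDerivAt (fun s => dot (q s) g) (dot q' g) s := by
  simpa [dot_zero_right] using hasDerivAt_dot hq (hasDerivAt_const s g)

lemma hasDerivAt_hm_left (g : E) {q : 𝕜 → E} {q' : E} {s : 𝕜} (hq : HasDerivAt q q' s) :
    HasDerivAt (fun s => hm (q s) g) (hm q' g) s := by
  simp only [hm_eq_dot]; exact hasDerivAt_dot_left _ hq

lemma differentiableAt_crs {p q : 𝕜 → E} {s : 𝕜} (hp : DifferentiableAt 𝕜 p s)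
    (hq : DifferentiableAt 𝕜 q s) : DifferentiableAt 𝕜 (fun s => crs (p s) (q s)) s := by
  have a := differentiableAt_pi.1 hp
  have b := differentiableAt_pi.1 hq
  refine differentiableAt_pi.2 fun i => ?_
  fin_cases i
  · exact ((a 1).mul (b 2)).sub ((a 2).mul (b 1))
  · exact ((a 2).mul (b 0)).sub ((a 0).mul (b 2))
  · exact ((a 0).mul (b 1)).sub ((a 1).mul (b 0))

end der

lemma hasDerivAt_nn {p : ℝ → E} {p' : E} {s : ℝ} (hp : HasDerivAt p p' s) :
    HasDerivAt (fun s => nn (p s)) (2 * (hm p' (p s)).re) s := by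
  have h := hasDerivAt_dot hp hp.star
  have h2 := (reCLM.hasFDerivAt.comp_hasDerivAt s h)
  have e : (fun s => nn (p s)) = reCLM ∘ fun s => dot (p s) (star (p s)) := by
    funext t
    simp only [Function.comp, reCLM_apply, ← hm_eq_dot, hm_self, ofReal_re]
  rw [e]
  refine h2.congr_deriv ?_
  simp only [reCLM_apply, ← hm_eq_dot, add_re]
  rw [hm_conj p' (p s), conj_re]; ring

/-- the bilinear product as a continuous linear form -/
noncomputable def dotL (g : E) : E →L[ℂ] ℂ :=
  g 0 • ContinuousLinearMap.proj 0 + g 1 • ContinuousLinearMap.proj 1 +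
    g 2 • ContinuousLinearMap.proj 2

@[simp] lemma dotL_apply (g v : E) : dotL g v = dot g v := by simp [dotL, dot]

/-- the vector of a linear form -/
noncomputable def vecf (A : E →L[ℂ] ℂ) : E := fun i => A (Pi.single i 1)

lemma dot_vecf (A : E →L[ℂ] ℂ) (x : E) : dot (vecf A) x = A x := by
  have : x = x 0 • Pi.single 0 1 + x 1 • Pi.single 1 1 + x 2 • (Pi.single 2 1 : E) := by
    apply ext3 <;> simp
  conv_rhs => rw [this]
  simp only [map_add, map_smul, smul_eq_mul, dot, vecf]; ring

lemma eq_of_dot {g g' : E} (h : ∀ v, dot g v = dot g' v) : g = g' := by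
  apply ext3
  · simpa [dot] using h (Pi.single 0 1)
  · simpa [dot] using h (Pi.single 1 1)
  · simpa [dot] using h (Pi.single 2 1)

end Pool.Agent.Lib.MP_4e4ac8_an
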