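import Pool.Agent.Lib.MP_4e4ac8_an.CAlg

/-!
Four point averages of holomorphic families.
-/

set_option autoImplicit false
open Filter Topology Complex ComplexConjugate Metric

namespace Pool.Agent.Lib.MP_4e4ac8_an

lemma tay {F : Type} [NormedAddCommGroup F] [NormedSpace ℂ F] [CompleteSpace F] {f : ℂ → F}
    {ρ M : ℝ} (hρ : 0 < ρ) (hd : DifferentiableOn ℂ f (ball 0 ρ))
    (hb : ∀ z ∈ ball (0 : ℂ) ρ, ‖f z‖ ≤ M) :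
    ∃ g : ℂ → F, DifferentiableOn ℂ g (ball 0 ρ) ∧ (∀ z ∈ ball (0 : ℂ) ρ, ‖g z‖ ≤ 2 * M / ρ) ∧
      g 0 = deriv f 0 ∧ ∀ z, f z = f 0 + z • g z := by
  refine ⟨dslope f 0, (differentiableOn_dslope (ball_mem_nhds 0 hρ)).2 hd, fun z hz => ?_,
    dslope_same f 0, fun z => ?_⟩
  · refine norm_dslope_le_div_of_mapsTo_ball hd (fun w hw => ?_) hz
    rw [mem_closedBall, dist_eq_norm]
    exact (norm_sub_le _ _).trans (by linarith [hb w hw, hb 0 (mem_ball_self hρ)])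
  · have := sub_smul_dslope f 0 z
    rw [sub_zero] at this
    rw [this]; abel

lemma norm_one_add_le {u : ℂ} (h : ‖u‖ ≤ 1 / 2) :
    ‖1 + u‖ ≤ 1 + u.re + u.im ^ 2 / 2 + ‖u‖ ^ 3 := by
  have h1 : |u.re| ≤ ‖u‖ := abs_re_le_norm u
  have h2 : u.im ^ 2 ≤ ‖u‖ ^ 2 := by
    rw [← sq_abs]; exact pow_le_pow_left₀ (abs_nonneg _) (abs_im_le_norm u) 2
  have h3 := abs_le.1 h1
  have n0 := norm_nonneg u
  have h4 : 0 ≤ ‖u‖ ^ 3 := by positivity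
  have h5 : ‖1 + u‖ ^ 2 = (1 + u.re) ^ 2 + u.im ^ 2 := by
    rw [← normSq_eq_norm_sq, normSq_apply]; simp; ring
  refine le_of_sq_le_sq ?_ (by nlinarith [sq_nonneg u.im])
  rw [h5]
  have h6 : -(u.re * u.im ^ 2) ≤ ‖u‖ ^ 3 := by
    calc -(u.re * u.im ^ 2) = -u.re * u.im ^ 2 := by ring
      _ ≤ ‖u‖ * ‖u‖ ^ 2 := mul_le_mul (by linarith) h2 (sq_nonneg _) n0
      _ = ‖u‖ ^ 3 := by ring
  have h7 : ‖u‖ ^ 3 ≤ 2 * (1 + u.re) * ‖u‖ ^ 3 := by nlinarith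
  nlinarith [sq_nonneg (u.im ^ 2 / 2 + ‖u‖ ^ 3)]

lemma inv_pow_le {ν : ℝ} (h : 0 ≤ ν) :
    1 / ((1 + ν) * √(1 + ν)) ≤ 1 - 3 / 2 * ν + 2 * ν ^ 2 := by
  have p1 : 0 < 1 - 3 / 2 * ν + 2 * ν ^ 2 := by nlinarith [sq_nonneg (ν - 1 / 2)]
  have p2 : 0 < √(1 + ν) := Real.sqrt_pos.2 (by linarith)
  rw [div_le_iff₀ (by positivity)]
  refine le_of_sq_le_sq ?_ (by positivity)
  rw [mul_pow, mul_pow, Real.sq_sqrt (by linarith)]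
  have e : (1 - 3 / 2 * ν + 2 * ν ^ 2) ^ 2 * ((1 + ν) ^ 2 * (1 + ν)) = 1 + (1 / 4 * ν ^ 2
    + 19 / 4 * ν ^ 3 + 7 / 4 * ν ^ 4 + 1 / 4 * ν ^ 5 + 6 * ν ^ 6 + 4 * ν ^ 7) := by ring
  rw [e]
  have : 0 ≤ 1 / 4 * ν ^ 2 + 19 / 4 * ν ^ 3 + 7 / 4 * ν ^ 4 + 1 / 4 * ν ^ 5 + 6 * ν ^ 6
    + 4 * ν ^ 7 := by positivity
  linarith

lemma avg_pt {C : ℝ} (hC : 1 ≤ C) {a b ε ζ : ℂ} {g0 g2 : E} (ha : ‖a‖ ≤ C) (hb : ‖b‖ ≤ C)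
    (hε : ‖ε‖ ≤ C) (h0 : ‖g0‖ ≤ C) (h2 : ‖g2‖ ≤ C) (ht : ‖ζ‖ ≤ 1 / (6 * C)) :
    ‖1 + ζ * (a + ζ * (b + ζ * ε))‖ /
        ((1 + nn (ζ • (g0 + ζ • g2))) * √(1 + nn (ζ • (g0 + ζ • g2)))) ≤
      1 + (a * ζ + b * ζ ^ 2).re + (a * ζ).im ^ 2 / 2 - 3 / 2 * (nn g0 * ‖ζ‖ ^ 2)
        + 700 * C ^ 4 * ‖ζ‖ ^ 3 := by
  set t := ‖ζ‖ with htd
  have t0 : 0 ≤ t := norm_nonneg _
  have tC : C * t ≤ 1 / 6 := by
    rw [le_div_iff₀ (by positivity)] at ht; linarith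
  have t1 : t ≤ 1 := by nlinarith
  set u := ζ * (a + ζ * (b + ζ * ε)) with hu
  set ν := nn (ζ • (g0 + ζ • g2)) with hν
  have ν0 : 0 ≤ ν := nn_nonneg _
  have n1 : ‖b + ζ * ε‖ ≤ 2 * C := by
    refine (norm_add_le _ _).trans ?_
    rw [norm_mul]; nlinarith [norm_nonneg ε]
  have n2 : ‖u‖ ≤ 3 * C * t := by
    rw [hu, norm_mul, mul_comm]
    refine mul_le_mul_of_nonneg_right ((norm_add_le _ _).trans ?_) t0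
    rw [norm_mul]; nlinarith [norm_nonneg (b + ζ * ε)]
  have n3 : ‖u‖ ≤ 1 / 2 := by linarith
  have n4 : u.re ≤ (a * ζ + b * ζ ^ 2).re + C * t ^ 3 := by
    have e : u = (a * ζ + b * ζ ^ 2) + ζ ^ 3 * ε := by rw [hu]; ring
    rw [e, add_re]
    have := (re_le_norm (ζ ^ 3 * ε))
    rw [norm_mul, norm_pow] at this
    have := mul_le_mul_of_nonneg_left hε (pow_nonneg t0 3)
    linarith
  have n5 : u.im ^ 2 ≤ (a * ζ).im ^ 2 + 8 * C ^ 2 * t ^ 3 := by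
    have e : u = a * ζ + ζ ^ 2 * (b + ζ * ε) := by rw [hu]; ring
    have k1 : |(ζ ^ 2 * (b + ζ * ε)).im| ≤ 2 * C * t ^ 2 := by
      refine (abs_im_le_norm _).trans ?_
      rw [norm_mul, norm_pow, mul_comm]
      exact mul_le_mul_of_nonneg_right n1 (by positivity)
    have k2 : |(a * ζ).im| ≤ C * t := by
      refine (abs_im_le_norm _).trans ?_
      rw [norm_mul]; exact mul_le_mul_of_nonneg_right ha t0
    rw [e, add_im]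
    set x := (a * ζ).im
    set w := (ζ ^ 2 * (b + ζ * ε)).im
    have k3 : x * w ≤ C * t * (2 * C * t ^ 2) :=
      (le_abs_self _).trans (by rw [abs_mul]; gcongr)
    have k4 : w ^ 2 ≤ (2 * C * t ^ 2) ^ 2 := by
      rw [← sq_abs]; gcongr
    have k5 : (2 * C * t ^ 2) ^ 2 ≤ 4 * C ^ 2 * t ^ 3 := by
      have : t ^ 4 ≤ t ^ 3 := pow_le_pow_of_le_one t0 t1 (by norm_num)
      nlinarith [sq_nonneg C]
    nlinarith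
  have n6 : ‖u‖ ^ 3 ≤ 27 * C ^ 3 * t ^ 3 := by
    calc ‖u‖ ^ 3 ≤ (3 * C * t) ^ 3 := by gcongr
      _ = _ := by ring
  have n7 : ν ≤ 12 * C ^ 2 * t ^ 2 := by
    rw [hν, nn_smul, normSq_eq_norm_sq, mul_comm]
    refine mul_le_mul_of_nonneg_right ((nn_le _).trans ?_) (by positivity)
    have : ‖g0 + ζ • g2‖ ≤ 2 * C := by
      refine (norm_add_le _ _).trans ?_
      rw [norm_smul]; nlinarith [norm_nonneg g2]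
    nlinarith [norm_nonneg (g0 + ζ • g2)]
  have n8 : nn g0 * t ^ 2 - 6 * C ^ 2 * t ^ 3 ≤ ν := by
    rw [hν, nn_smul, normSq_eq_norm_sq, nn_add]
    have k1 := nn_nonneg g2
    have k2 := normSq_nonneg ζ
    have k3 : ‖ζ * hm g2 g0‖ ≤ t * (3 * (C * C)) := by
      rw [norm_mul]
      refine mul_le_mul_of_nonneg_left ((norm_hm_le _ _).trans ?_) t0
      gcongr
    have k4 := (abs_le.1 ((abs_re_le_norm _).trans k3)).1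
    have k5 : 0 ≤ normSq ζ * nn g2 := by positivity
    have k6 : nn g0 - 6 * C ^ 2 * t ≤ nn g0 + 2 * (ζ * hm g2 g0).re + normSq ζ * nn g2 := by
      nlinarith
    nlinarith [mul_le_mul_of_nonneg_left k6 (sq_nonneg t)]
  have m1 := norm_one_add_le n3
  have m2 : 1 - ‖u‖ ≤ ‖1 + u‖ := by simpa using norm_sub_norm_le (1 : ℂ) (-u)
  have m3 : ‖1 + u‖ ≤ 2 := (norm_add_le _ _).trans (by rw [norm_one]; linarith)
  have m4 : ‖1 + u‖ / ((1 + ν) * √(1 + ν)) ≤ ‖1 + u‖ * (1 - 3 / 2 * ν + 2 * ν ^ 2) := by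
    rw [div_eq_mul_one_div]
    exact mul_le_mul_of_nonneg_left (inv_pow_le ν0) (norm_nonneg _)
  have m5 : ν * (1 - ‖u‖) ≤ ν * ‖1 + u‖ := mul_le_mul_of_nonneg_left m2 ν0
  have m6 : ν ^ 2 * ‖1 + u‖ ≤ ν ^ 2 * 2 := mul_le_mul_of_nonneg_left m3 (sq_nonneg _)
  have m7 : ν * ‖u‖ ≤ 12 * C ^ 2 * t ^ 2 * (3 * C * t) := by gcongr
  have m8 : ν ^ 2 ≤ 144 * C ^ 4 * t ^ 3 := by
    have : t ^ 4 ≤ t ^ 3 := pow_le_pow_of_le_one t0 t1 (by norm_num)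
    calc ν ^ 2 ≤ (12 * C ^ 2 * t ^ 2) ^ 2 := by gcongr
      _ = 144 * C ^ 4 * t ^ 4 := by ring
      _ ≤ _ := by gcongr
  have t3 : 0 ≤ t ^ 3 := by positivity
  have c1 : C * t ^ 3 ≤ C ^ 4 * t ^ 3 := by
    gcongr; exact le_self_pow₀ hC (by norm_num)
  have c2 : C ^ 2 * t ^ 3 ≤ C ^ 4 * t ^ 3 := by gcongr; norm_num
  have c3 : C ^ 3 * t ^ 3 ≤ C ^ 4 * t ^ 3 := by gcongr; norm_num
  have c4 : 0 ≤ C ^ 4 * t ^ 3 := by positivity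
  nlinarith

lemma avg0 {ρ M : ℝ} (hρ : 0 < ρ) (hM : 0 ≤ M) : ∃ C : ℝ, 0 ≤ C ∧ ∀ᶠ r : ℝ in 𝓝[>] (0 : ℝ),
    ∀ (Ψ : ℂ → ℂ) (V : ℂ → E), DifferentiableOn ℂ Ψ (ball 0 ρ) → DifferentiableOn ℂ V (ball 0 ρ) →
      (∀ z ∈ ball (0 : ℂ) ρ, ‖Ψ z‖ ≤ M) → (∀ z ∈ ball (0 : ℂ) ρ, ‖V z‖ ≤ M) → Ψ 0 = 1 → V 0 = 0 →
      ∑ j ∈ Finset.range 4, ‖Ψ (r * I ^ j)‖ /
          ((1 + nn (V (r * I ^ j))) * √(1 + nn (V (r * I ^ j)))) ≤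
        4 + r ^ 2 * ‖deriv Ψ 0‖ ^ 2 - 6 * r ^ 2 * nn (deriv V 0) + C * r ^ 3 := by
  set C := 1 + 2 * M / ρ + 2 * (2 * M / ρ) / ρ + 2 * (2 * (2 * M / ρ) / ρ) / ρ with hC
  have p1 : 0 ≤ 2 * M / ρ := by positivity
  have p2 : 0 ≤ 2 * (2 * M / ρ) / ρ := by positivity
  have p3 : 0 ≤ 2 * (2 * (2 * M / ρ) / ρ) / ρ := by positivity
  have C1 : 1 ≤ C := by linarith
  refine ⟨2800 * C ^ 4, by positivity, ?_⟩
  filter_upwards [Ioo_mem_nhdsGT hρ, Ioo_mem_nhdsGT (show 0 < 1 / (6 * C) by positivity)] with r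
    hr hr' Ψ V dΨ dV bΨ bV Ψ0 V0
  obtain ⟨f1, d1, b1, e1, k1⟩ := tay hρ dΨ bΨ
  obtain ⟨f2, d2, b2, -, k2⟩ := tay hρ d1 b1
  obtain ⟨f3, -, b3, -, k3⟩ := tay hρ d2 b2
  obtain ⟨g1, c1, a1, l1, m1⟩ := tay hρ dV bV
  obtain ⟨g2, -, a2, -, m2⟩ := tay hρ c1 a1
  have z0 : (0 : ℂ) ∈ ball (0 : ℂ) ρ := mem_ball_self hρ
  have key : ∀ ζ : ℂ, ‖ζ‖ = r → ‖Ψ ζ‖ / ((1 + nn (V ζ)) * √(1 + nn (V ζ))) ≤
      1 + (f1 0 * ζ + f2 0 * ζ ^ 2).re + (f1 0 * ζ).im ^ 2 / 2 - 3 / 2 * (nn (g1 0) * r ^ 2)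
        + 700 * C ^ 4 * r ^ 3 := by
    intro ζ hζ
    have hz : ζ ∈ ball (0 : ℂ) ρ := by rw [mem_ball_zero_iff, hζ]; exact hr.2
    have := avg_pt C1 (a := f1 0) (b := f2 0) (ε := f3 ζ) (ζ := ζ) (g0 := g1 0) (g2 := g2 ζ)
      (by linarith [b1 0 z0]) (by linarith [b2 0 z0]) (by linarith [b3 ζ hz])
      (by linarith [a1 0 z0]) (by linarith [a2 ζ hz]) (by rw [hζ]; exact hr'.2.le)
    rw [hζ] at this
    rw [k1 ζ, k2 ζ, k3 ζ, m1 ζ, m2 ζ, Ψ0, V0, zero_add]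
    simpa only [smul_eq_mul] using this
  have nr : ∀ j : ℕ, ‖(r : ℂ) * I ^ j‖ = r := fun j => by simp [abs_of_pos hr.1]
  refine (Finset.sum_le_sum fun j _ => key _ (nr j)).trans (le_of_eq ?_)
  rw [← e1, ← l1, ← normSq_eq_norm_sq, normSq_apply]
  have i3 : I ^ 3 = -I := by rw [pow_succ, I_sq]; ring
  simp only [Finset.sum_range_succ, Finset.sum_range_zero, pow_zero, pow_one, I_sq, i3, mul_pow,
    mul_neg, neg_sq, ← ofReal_pow, add_re, mul_re, mul_im, ofReal_re, ofReal_im, I_re, I_im,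
    neg_re, neg_im, one_re, one_im, mul_one, one_pow]
  ring

end Pool.Agent.Lib.MP_4e4ac8_an
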