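import Pool.Agent.Lib.MP_4e4ac8_an.CAvg

/-!
The four point average of the weighted speed in a leaf chart.
-/

set_option autoImplicit false
open Filter Topology Complex ComplexConjugate Metric

namespace Pool.Agent.Lib.MP_4e4ac8_an

lemma crs_chart (P e v : E) (z w : ℂ) :
    crs P (P + z • e + w • v) = z • crs P e + w • crs P v := by
  apply ext3 <;> simp <;> ring

lemma crs_chart' (P e v : E) (w : ℂ) : crs P (e + w • v) = crs P e + w • crs P v := by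
  apply ext3 <;> simp <;> ring

lemma hm_chart (P e v : E) (z w : ℂ) :
    hm (P + z • e + w • v) P = nn P + z * hm e P + w * hm v P := by
  rw [hm_add_left, hm_add_left, hm_smul_left, hm_smul_left, hm_self]

lemma one_le_nn_mul {l P : E} (h : dot l P = 1) : 1 ≤ nn l * nn P := by
  have := cs_dot l P
  rwa [h, normSq_one] at this

lemma norm_le_of_nn {P : E} {η : ℝ} (hη : 0 < η) (h : nn P * η ≤ 1) : ‖P‖ ≤ 1 + 1 / η := by
  have h1 : nn P ≤ 1 / η := by rwa [le_div_iff₀ hη]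
  have h2 := sq_norm_le_nn P
  nlinarith [norm_nonneg P, sq_nonneg (‖P‖ - 1)]

lemma avg1 (e v : E) {ρ M η K : ℝ} (hρ : 0 < ρ) (hM : 0 ≤ M) (hη : 0 < η) (hK : 0 < K) :
    ∃ C : ℝ, 0 ≤ C ∧ ∀ᶠ r : ℝ in 𝓝[>] (0 : ℝ), ∀ (P : E) (W q : ℂ → ℂ) (τ a : ℂ),
      dot (crs v e) P = 1 → nn P * η ≤ 1 → DifferentiableOn ℂ W (ball 0 ρ) →
      DifferentiableOn ℂ q (ball 0 ρ) → W 0 = 0 → q 0 = 1 →
      (∀ z ∈ ball (0 : ℂ) ρ, ‖W z‖ ≤ M * ‖z‖) → (∀ z ∈ ball (0 : ℂ) ρ, ‖q z - 1‖ ≤ 1 / 2) →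
      ‖τ‖ ≤ K → ‖a‖ ≤ K →
      ∑ j ∈ Finset.range 4, ‖1 + a * (r * I ^ j)‖ * ‖q (τ * (r * I ^ j))‖ * (nn P * √(nn P)) /
          (nn (P + (τ * (r * I ^ j)) • e + W (τ * (r * I ^ j)) • v) *
            √(nn (P + (τ * (r * I ^ j)) • e + W (τ * (r * I ^ j)) • v))) ≤
        4 + r ^ 2 * ‖a + τ * (deriv q 0 - 3 * (hm (e + deriv W 0 • v) P / nn P))‖ ^ 2
          - 6 * r ^ 2 * (‖τ‖ ^ 2 * (nn (crs P (e + deriv W 0 • v)) / nn P ^ 2)) + C * r ^ 3 := by
  set N := nn (crs v e) with hN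
  have N0 : 0 ≤ N := nn_nonneg _
  set p0 := 1 + 1 / η with hp0
  have p00 : 0 < p0 := by positivity
  set D := 3 * (‖e‖ * p0) + M * (3 * (‖v‖ * p0)) with hD
  have D0 : 0 ≤ D := by positivity
  set ρ2 := min (min 1 (ρ / K)) (1 / (2 * (K * D * N + 1))) with hρ2
  have r0 : 0 < ρ2 := by positivity
  have r1 : ρ2 ≤ 1 := (min_le_left _ _).trans (min_le_left _ _)
  have r2 : K * ρ2 ≤ ρ := by
    have : ρ2 ≤ ρ / K := (min_le_left _ _).trans (min_le_right _ _)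
    rwa [le_div_iff₀ hK, mul_comm] at this
  have r3 : ρ2 * (K * D * N) ≤ 1 / 2 := by
    have : ρ2 ≤ 1 / (2 * (K * D * N + 1)) := min_le_right _ _
    rw [le_div_iff₀ (by positivity)] at this
    nlinarith
  obtain ⟨C, C0, hC⟩ := avg0 r0 (M := 12 * (1 + K) + 2 * N * (K * D)) (by positivity)
  refine ⟨C, C0, ?_⟩
  filter_upwards [hC, Ioo_mem_nhdsGT r0] with r hr hr2 P W q τ a hP hPη dW dq W0 q0 bW bq bτ ba
  have nP := norm_le_of_nn hη hPη
  have lP := one_le_nn_mul hP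
  have P0 : 0 < nn P := by
    refine lt_of_le_of_ne (nn_nonneg _) fun h => ?_
    rw [← h, mul_zero] at lP; linarith
  have P0' : (nn P : ℂ) ≠ 0 := by exact_mod_cast P0.ne'
  have iP : (nn P)⁻¹ ≤ N := by rw [inv_le_iff_one_le_mul₀ P0]; exact lP
  have nz : ∀ ζ ∈ ball (0 : ℂ) ρ2, ‖τ * ζ‖ ≤ K * ρ2 ∧ τ * ζ ∈ ball (0 : ℂ) ρ := fun ζ hζ => by
    rw [mem_ball_zero_iff] at hζ ⊢
    have : ‖τ * ζ‖ ≤ K * ‖ζ‖ := by rw [norm_mul]; gcongr
    have := mul_lt_mul_of_pos_left hζ hK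
    constructor <;> linarith
  set h : ℂ → ℂ := fun ζ => 1 + ((τ * ζ) * hm e P + W (τ * ζ) * hm v P) / nn P with hh
  have bh : ∀ ζ ∈ ball (0 : ℂ) ρ2, 1 / 2 ≤ ‖h ζ‖ := fun ζ hζ => by
    have k1 : ‖(τ * ζ) * hm e P + W (τ * ζ) * hm v P‖ ≤ K * ρ2 * D := by
      have a1 : ‖hm e P‖ ≤ 3 * (‖e‖ * p0) := (norm_hm_le _ _).trans (by gcongr)
      have a2 : ‖hm v P‖ ≤ 3 * (‖v‖ * p0) := (norm_hm_le _ _).trans (by gcongr)
      have a3 := (bW _ (nz ζ hζ).2).trans (mul_le_mul_of_nonneg_left (nz ζ hζ).1 hM)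
      refine (norm_add_le _ _).trans ?_
      rw [norm_mul, norm_mul (W _)]
      calc _ ≤ K * ρ2 * (3 * (‖e‖ * p0)) + M * (K * ρ2) * (3 * (‖v‖ * p0)) := by
            gcongr; exact (nz ζ hζ).1
        _ = _ := by rw [hD]; ring
    have k2 : ‖((τ * ζ) * hm e P + W (τ * ζ) * hm v P) / nn P‖ ≤ 1 / 2 := by
      rw [norm_div, norm_real, Real.norm_eq_abs, abs_of_pos P0, div_eq_mul_inv]
      calc _ ≤ K * ρ2 * D * N := by gcongr
        _ ≤ _ := by linarith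
    have := norm_sub_norm_le (1 : ℂ) (-(((τ * ζ) * hm e P + W (τ * ζ) * hm v P) / nn P))
    rw [sub_neg_eq_add, norm_neg, norm_one] at this
    simp only [hh]; linarith
  have hne : ∀ ζ ∈ ball (0 : ℂ) ρ2, h ζ ≠ 0 := fun ζ hζ h0 => by
    have := bh ζ hζ; rw [h0, norm_zero] at this; linarith
  have dτ : DifferentiableOn ℂ (fun ζ => τ * ζ) (ball 0 ρ2) := by fun_prop
  have dW' : DifferentiableOn ℂ (fun ζ => W (τ * ζ)) (ball 0 ρ2) :=
    dW.comp dτ fun ζ hζ => (nz ζ hζ).2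
  have dq' : DifferentiableOn ℂ (fun ζ => q (τ * ζ)) (ball 0 ρ2) :=
    dq.comp dτ fun ζ hζ => (nz ζ hζ).2
  have dh : DifferentiableOn ℂ h (ball 0 ρ2) :=
    (((dτ.mul_const _).add (dW'.mul_const _)).div_const _).const_add 1
  set Ψ : ℂ → ℂ := fun ζ => (1 + a * ζ) * q (τ * ζ) / h ζ ^ 3 with hΨ
  set V : ℂ → E := fun ζ => ((nn P : ℂ)⁻¹ / h ζ) • ((τ * ζ) • crs P e + W (τ * ζ) • crs P v)
    with hV
  have h0 : h 0 = 1 := by simp [hh, W0]
  have key := hr Ψ V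
    (((show DifferentiableOn ℂ (fun ζ => 1 + a * ζ) _ by fun_prop).mul dq').div (dh.pow 3)
      fun ζ hζ => pow_ne_zero 3 (hne ζ hζ))
    (((differentiableOn_const _).div dh hne).smul ((dτ.smul_const _).add (dW'.smul_const _)))
    (fun ζ hζ => by
      have a1 : ‖1 + a * ζ‖ ≤ 1 + K := by
        refine (norm_add_le _ _).trans ?_
        rw [norm_one, norm_mul]
        have : ‖ζ‖ ≤ 1 := (mem_ball_zero_iff.1 hζ).le.trans r1
        nlinarith [norm_nonneg a, norm_nonneg ζ]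
      have a2 : ‖q (τ * ζ)‖ ≤ 3 / 2 := by
        have := norm_add_le (q (τ * ζ) - 1) 1
        rw [sub_add_cancel, norm_one] at this
        linarith [bq _ (nz ζ hζ).2]
      have a3 : (1 / 2) ^ 3 ≤ ‖h ζ‖ ^ 3 := by gcongr; exact bh ζ hζ
      simp only [hΨ, norm_div, norm_mul, norm_pow]
      calc _ ≤ (1 + K) * (3 / 2) / (1 / 2) ^ 3 := by gcongr
        _ = 12 * (1 + K) := by ring
        _ ≤ _ := le_add_of_nonneg_right (by positivity))
    (fun ζ hζ => by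
      have a1 : ‖crs P e‖ ≤ 3 * (‖e‖ * p0) := (norm_crs_le _ _).trans (by
        nlinarith [norm_nonneg e, norm_nonneg P, mul_le_mul_of_nonneg_left nP (norm_nonneg e)])
      have a2 : ‖crs P v‖ ≤ 3 * (‖v‖ * p0) := (norm_crs_le _ _).trans (by
        nlinarith [norm_nonneg v, norm_nonneg P, mul_le_mul_of_nonneg_left nP (norm_nonneg v)])
      have a0 : ‖τ * ζ‖ ≤ K := (nz ζ hζ).1.trans (mul_le_of_le_one_right hK.le r1)
      have a3 := (bW _ (nz ζ hζ).2).trans (mul_le_mul_of_nonneg_left a0 hM)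
      have a4 : ‖(τ * ζ) • crs P e + W (τ * ζ) • crs P v‖ ≤ K * D := by
        refine (norm_add_le _ _).trans ?_
        rw [norm_smul, norm_smul]
        calc _ ≤ K * (3 * (‖e‖ * p0)) + M * K * (3 * (‖v‖ * p0)) := by gcongr
          _ = _ := by rw [hD]; ring
      have a5 : ‖(nn P : ℂ)⁻¹ / h ζ‖ ≤ 2 * N := by
        rw [norm_div, norm_inv, norm_real, Real.norm_eq_abs, abs_of_pos P0]
        calc _ ≤ N / (1 / 2) := by gcongr; exact bh ζ hζ
          _ = _ := by ring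
      simp only [hV, norm_smul]
      calc _ ≤ 2 * N * (K * D) := by gcongr
        _ ≤ _ := le_add_of_nonneg_left (by positivity))
    (by simp [hΨ, h0, q0]) (by simp [hV, W0])
  have z0 : ball (0 : ℂ) ρ ∈ 𝓝 (τ * 0) := by rw [mul_zero]; exact ball_mem_nhds 0 hρ
  have t1 : HasDerivAt (fun ζ => τ * ζ) τ 0 := by simpa using (hasDerivAt_id (0 : ℂ)).const_mul τ
  have t2 : HasDerivAt (fun ζ => W (τ * ζ)) (deriv W 0 * τ) 0 := by
    exact ((dW.differentiableAt z0).hasDerivAt.comp 0 t1).congr_deriv (by rw [mul_zero])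
  have t3 : HasDerivAt (fun ζ => q (τ * ζ)) (deriv q 0 * τ) 0 := by
    exact ((dq.differentiableAt z0).hasDerivAt.comp 0 t1).congr_deriv (by rw [mul_zero])
  have t4 : HasDerivAt h ((τ * hm e P + deriv W 0 * τ * hm v P) / nn P) 0 :=
    (((t1.mul_const _).add (t2.mul_const _)).div_const _).const_add 1
  have t5 : HasDerivAt (fun ζ => 1 + a * ζ) a 0 := by
    simpa using ((hasDerivAt_id (0 : ℂ)).const_mul a).const_add 1
  have e1 : deriv Ψ 0 = a + τ * (deriv q 0 - 3 * (hm (e + deriv W 0 • v) P / nn P)) := by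
    rw [((t5.fun_mul t3).fun_div (t4.fun_pow 3) (by simp [h0])).deriv]
    simp only [h0, mul_zero, q0, hm_add_left, hm_smul_left]
    field_simp
    ring
  have e2 : deriv V 0 = (τ / nn P) • crs P (e + deriv W 0 • v) := by
    rw [(((hasDerivAt_const (0 : ℂ) ((nn P : ℂ)⁻¹)).fun_div t4 (by simp [h0])).fun_smul
      ((t1.smul_const (crs P e)).fun_add (t2.smul_const (crs P v)))).deriv]
    simp only [h0, mul_zero, W0, zero_smul, add_zero, smul_zero, crs_chart', smul_add, smul_smul]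
    congr 2 <;> ring
  rw [e1, e2, nn_smul, normSq_eq_norm_sq, norm_div, norm_real, Real.norm_eq_abs, abs_of_pos P0,
    div_pow, div_mul_eq_mul_div, mul_div_assoc] at key
  refine le_trans (le_of_eq (Finset.sum_congr rfl fun j _ => ?_)) key
  set ζ := (r : ℂ) * I ^ j with hζ
  have hz : ζ ∈ ball (0 : ℂ) ρ2 := by
    rw [mem_ball_zero_iff]; simpa [hζ, abs_of_pos hr2.1] using hr2.2
  have hp : 0 < ‖h ζ‖ := norm_pos_iff.2 (hne ζ hz)
  set F := P + (τ * ζ) • e + W (τ * ζ) • v with hF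
  have f1 : hm F P = nn P * h ζ := by rw [hF, hm_chart]; simp only [hh]; field_simp; ring
  have f2 : 1 + nn (V ζ) = nn F / (nn P * ‖h ζ‖ ^ 2) := by
    simp only [hV]
    rw [← crs_chart, ← hF, nn_smul, lagr, f1, normSq_eq_norm_sq, normSq_eq_norm_sq, norm_mul,
      norm_div, norm_inv, norm_real, Real.norm_eq_abs, abs_of_pos P0]
    field_simp
    ring
  have F0 : 0 < nn F := by
    have a1 := cs_hm F P
    rw [f1, normSq_eq_norm_sq, norm_mul, norm_real, Real.norm_eq_abs, abs_of_pos P0] at a1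
    have : 0 < (nn P * ‖h ζ‖) ^ 2 := by positivity
    exact pos_of_mul_pos_left (this.trans_le a1) P0.le
  rw [f2, Real.sqrt_div F0.le, Real.sqrt_mul P0.le, Real.sqrt_sq hp.le]
  simp only [hΨ, norm_div, norm_mul, norm_pow]
  have s1 : 0 < √(nn F) := Real.sqrt_pos.2 F0
  have s2 : 0 < √(nn P) := Real.sqrt_pos.2 P0
  field_simp

end Pool.Agent.Lib.MP_4e4ac8_an
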