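import Pool.Agent.Lib.MP_4e4ac8_an.CAlg

/-!
A finite family of frames such that every pair of curves of bounded length is uniformly
transverse to one of them.
-/

set_option autoImplicit false
open Filter Topology Complex ComplexConjugate

namespace Pool.Agent.Lib.MP_4e4ac8_an

lemma grid_sep {a b a' b' : ℕ} (h : (a, b) ≠ (a', b')) :
    1 ≤ ‖((a : ℂ) + b * I) - ((a' : ℂ) + b' * I)‖ := by
  have h1 : (1 : ℤ) ≤ ((a : ℤ) - a') ^ 2 + ((b : ℤ) - b') ^ 2 := by
    by_contra hc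
    have h2 : (a : ℤ) - a' = 0 := by nlinarith [sq_nonneg ((a : ℤ) - a'), sq_nonneg ((b : ℤ) - b')]
    have h3 : (b : ℤ) - b' = 0 := by nlinarith [sq_nonneg ((a : ℤ) - a'), sq_nonneg ((b : ℤ) - b')]
    exact h (Prod.ext (by simp only; omega) (by simp only; omega))
  have h2 : (1 : ℝ) ≤ ((a : ℝ) - a') ^ 2 + ((b : ℝ) - b') ^ 2 := by exact_mod_cast h1
  rw [norm_def]
  refine Real.one_le_sqrt.2 ?_
  simp only [normSq_apply, sub_re, add_re, natCast_re, mul_re, I_re, mul_zero, natCast_im, I_im,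
    mul_one, sub_self, add_zero, sub_im, add_im, mul_im, zero_add]
  nlinarith

lemma avoid {K Λ c : ℝ} (hK : 0 < K) (hΛ : 0 < Λ) (hc : 0 < c) :
    ∃ (Γ : Finset ℂ) (η : ℝ), 0 < η ∧ η ≤ c ∧ (∀ x ∈ Γ, ‖x‖ ≤ 2) ∧
      ∀ (ι : Type) (σ : ι → ℝ) (A B : ι → ℂ) (D : ι → ℝ), (∀ s, σ s ∈ Set.Icc 0 Λ) →
        (∀ s t, ‖A s - A t‖ ≤ K * |σ s - σ t|) → (∀ s t, ‖B s - B t‖ ≤ K * |σ s - σ t|) →
        (∀ s, c ≤ ‖A s‖ ∨ c ≤ ‖B s‖ ∨ c ≤ D s) →
        ∃ x ∈ Γ, ∀ s, η ≤ ‖A s + x * B s‖ ∨ η ≤ D s := by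
  classical
  obtain ⟨k, hk⟩ := exists_nat_ge (24 * K * Λ / c + 2)
  have hq : 0 < 24 * K * Λ / c := by positivity
  have k2 : (2 : ℝ) ≤ k := by linarith
  have k0 : (0 : ℝ) < k := by linarith
  set gr : ℕ × ℕ → ℂ := fun ab => ((ab.1 : ℂ) + ab.2 * I) / k with hgr
  have gb : ∀ ab ∈ Finset.range k ×ˢ Finset.range k, ‖gr ab‖ ≤ 2 := by
    intro ab hab
    rw [Finset.mem_product, Finset.mem_range, Finset.mem_range] at hab
    have h1 : (ab.1 : ℝ) ≤ k := by exact_mod_cast hab.1.le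
    have h2 : (ab.2 : ℝ) ≤ k := by exact_mod_cast hab.2.le
    simp only [hgr, norm_div, Complex.norm_natCast]
    rw [div_le_iff₀ k0]
    refine (norm_add_le _ _).trans ?_
    simp only [Complex.norm_natCast, norm_mul, norm_I, mul_one]
    linarith
  set η := c / (16 * k) with hη
  set δ := c / (24 * K * k) with hδ
  have η0 : 0 < η := by positivity
  have δ0 : 0 < δ := by positivity
  have ηc : η ≤ c / 32 := div_le_div_of_nonneg_left hc.le (by norm_num) (by linarith)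
  refine ⟨(Finset.range k ×ˢ Finset.range k).image gr, η, η0, by linarith, ?_, ?_⟩
  · intro x hx
    obtain ⟨ab, hab, rfl⟩ := Finset.mem_image.1 hx
    exact gb ab hab
  intro ι σ A B D hσ hA hB hcc
  by_contra hno
  push Not at hno
  have hs : ∀ ab : ℕ × ℕ, ab ∈ Finset.range k ×ˢ Finset.range k →
      ∃ s, ‖A s + gr ab * B s‖ < η ∧ D s < η :=
    fun ab hab => hno _ (Finset.mem_image_of_mem gr hab)
  have hne : Nonempty ι := by
    have : 0 < k := by exact_mod_cast k0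
    exact ⟨(hs (0, 0) (by simp [this])).choose⟩
  choose! s hs using hs
  have hcard : (Finset.range (⌊Λ / δ⌋₊ + 1)).card < (Finset.range k ×ˢ Finset.range k).card := by
    rw [Finset.card_product, Finset.card_range, Finset.card_range]
    have h1 : (⌊Λ / δ⌋₊ : ℝ) ≤ Λ / δ := Nat.floor_le (by positivity)
    have h2 : Λ / δ = 24 * K * Λ / c * k := by rw [hδ]; field_simp
    have h3 : ((⌊Λ / δ⌋₊ + 1 : ℕ) : ℝ) < ((k * k : ℕ) : ℝ) := by
      push_cast
      nlinarith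
    exact_mod_cast h3
  obtain ⟨x, hx, y, hy, hxy, hf⟩ := Finset.exists_ne_map_eq_of_card_lt_of_maps_to hcard
    (f := fun ab => ⌊σ (s ab) / δ⌋₊) (fun ab _ => Finset.mem_coe.2 (Finset.mem_range.2
      (Nat.lt_succ_of_le (Nat.floor_le_floor (div_le_div_of_nonneg_right (hσ _).2 δ0.le)))))
  have hd : |σ (s x) - σ (s y)| ≤ δ := by
    have a1 := Nat.floor_le (div_nonneg (hσ (s x)).1 δ0.le)
    have a2 := Nat.lt_floor_add_one (σ (s x) / δ)
    have a3 := Nat.floor_le (div_nonneg (hσ (s y)).1 δ0.le)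
    have a4 := Nat.lt_floor_add_one (σ (s y) / δ)
    rw [hf] at a1 a2
    have : |σ (s x) / δ - σ (s y) / δ| ≤ 1 := abs_le.2 ⟨by linarith, by linarith⟩
    rwa [← sub_div, abs_div, abs_of_pos δ0, div_le_one δ0] at this
  have b1 := (hA (s x) (s y)).trans (mul_le_mul_of_nonneg_left hd hK.le)
  have b2 := (hB (s x) (s y)).trans (mul_le_mul_of_nonneg_left hd hK.le)
  have b3 : ‖(gr x - gr y) * B (s x)‖ ≤ 2 * η + 3 * (K * δ) := by
    have e : (gr x - gr y) * B (s x) = (A (s x) + gr x * B (s x)) - (A (s y) + gr y * B (s y))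
        - (A (s x) - A (s y)) - gr y * (B (s x) - B (s y)) := by ring
    rw [e]
    have n1 := norm_sub_le ((A (s x) + gr x * B (s x)) - (A (s y) + gr y * B (s y))
        - (A (s x) - A (s y))) (gr y * (B (s x) - B (s y)))
    have n2 := norm_sub_le ((A (s x) + gr x * B (s x)) - (A (s y) + gr y * B (s y)))
        (A (s x) - A (s y))
    have n3 := norm_sub_le (A (s x) + gr x * B (s x)) (A (s y) + gr y * B (s y))
    have n4 : ‖gr y * (B (s x) - B (s y))‖ ≤ 2 * (K * δ) := by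
      rw [norm_mul]; exact mul_le_mul (gb y hy) b2 (norm_nonneg _) (by norm_num)
    linarith [(hs x hx).1, (hs y hy).1]
  have b4 : 1 / (k : ℝ) ≤ ‖gr x - gr y‖ := by
    simp only [hgr, ← sub_div, norm_div, Complex.norm_natCast]
    exact div_le_div_of_nonneg_right (grid_sep hxy) k0.le
  have b5 : ‖B (s x)‖ ≤ c / 4 := by
    rw [norm_mul] at b3
    have e : 2 * η + 3 * (K * δ) = 1 / k * (c / 4) := by rw [hη, hδ]; field_simp; ring
    have := (mul_le_mul_of_nonneg_right b4 (norm_nonneg (B (s x)))).trans b3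
    rw [e] at this
    exact le_of_mul_le_mul_left this (by positivity)
  have b6 : ‖A (s x)‖ ≤ η + 2 * (c / 4) := by
    have e : A (s x) = (A (s x) + gr x * B (s x)) - gr x * B (s x) := by ring
    rw [e]
    refine (norm_sub_le _ _).trans (add_le_add (hs x hx).1.le ?_)
    rw [norm_mul]; exact mul_le_mul (gb x hx) b5 (norm_nonneg _) (by norm_num)
  rcases hcc (s x) with h | h | h <;> linarith [(hs x hx).2]

lemma comp_le {P Q : E} {b : ℝ} (h : ‖P - Q‖ ≤ b) (i : Fin 3) : ‖P i - Q i‖ ≤ b :=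
  (norm_le_pi_norm (P - Q) i).trans h

lemma lip_comb {a b a' b' x : ℂ} {K d : ℝ} (hx : ‖x‖ ≤ 2) (h1 : ‖a - a'‖ ≤ K * d)
    (h2 : ‖b - b'‖ ≤ K * d) : ‖(a + x * b) - (a' + x * b')‖ ≤ 3 * K * d := by
  have e : (a + x * b) - (a' + x * b') = (a - a') + x * (b - b') := by ring
  rw [e]
  refine (norm_add_le _ _).trans ?_
  rw [norm_mul]
  have := mul_le_mul hx h2 (norm_nonneg _) (by norm_num)
  linarith

lemma frames {K Λ : ℝ} (hK : 0 < K) (hΛ : 0 < Λ) :
    ∃ (T : Finset (E × E × E)) (η : ℝ), 0 < η ∧ (∀ f ∈ T, dot (crs f.2.2 f.2.1) f.1 = 1) ∧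
      ∀ (ι : Type) (σ : ι → ℝ) (P G : ι → E), (∀ s, σ s ∈ Set.Icc 0 Λ) →
        (∀ s t, ‖P s - P t‖ ≤ K * |σ s - σ t|) → (∀ s t, ‖G s - G t‖ ≤ K * |σ s - σ t|) →
        (∀ s, nn (P s) = 1) → (∀ s, nn (G s) = 1) → (∀ s, dot (G s) (P s) = 0) →
        ∃ f ∈ T, ∀ s, η ≤ normSq (dot (crs f.2.2 f.2.1) (P s)) ∧ η ≤ normSq (dot (G s) f.2.2) := by
  classical
  obtain ⟨Γ1, η1, p1, -, n1, h1⟩ := avoid hK hΛ (show (0 : ℝ) < 1 / 2 by norm_num)
  obtain ⟨Γ2, η2, p2, q2, n2, h2⟩ := avoid (show 0 < 3 * K by positivity) hΛ p1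
  obtain ⟨Γ3, η3, p3, -, n3, h3⟩ := avoid (show 0 < 3 * K by positivity) hΛ
    (show 0 < min η2 1 / 10 by positivity)
  set fr : ℂ × ℂ × ℂ → E × E × E := fun w =>
    (![1, 0, 0], ![-w.2.1, 0, 1], ![-w.1 - w.2.2 * w.2.1, 1, w.2.2]) with hfr
  refine ⟨(Γ1 ×ˢ Γ2 ×ˢ Γ3).image fr, min (η2 ^ 2) (η3 ^ 2), by positivity, ?_, ?_⟩
  · intro f hf
    obtain ⟨w, -, rfl⟩ := Finset.mem_image.1 hf
    simp [hfr, dot]
  intro ι σ P G hσ hP hG uP uG ho
  have dK : ∀ s t, K * |σ s - σ t| ≤ 3 * K * |σ s - σ t| := fun s t => by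
    have := abs_nonneg (σ s - σ t); nlinarith
  obtain ⟨x, hx, k1⟩ := h1 ι σ (fun s => P s 0) (fun s => P s 1) (fun s => ‖P s 2‖) hσ
    (fun s t => comp_le (hP s t) 0) (fun s t => comp_le (hP s t) 1) (fun s => by
      by_contra hc
      push Not at hc
      have := uP s
      simp only [nn, normSq_eq_norm_sq] at this
      nlinarith [norm_nonneg (P s 0), norm_nonneg (P s 1), norm_nonneg (P s 2), hc.1, hc.2.1,
        hc.2.2])
  obtain ⟨y, hy, k2⟩ := h2 ι σ (fun s => P s 0 + x * P s 1) (fun s => P s 2) (fun _ => 0) hσ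
    (fun s t => lip_comb (n1 x hx) (comp_le (hP s t) 0) (comp_le (hP s t) 1))
    (fun s t => (comp_le (hP s t) 2).trans (dK s t)) (fun s => by
      rcases k1 s with h | h
      · exact Or.inl h
      · exact Or.inr (Or.inl h))
  have k2' : ∀ s, η2 ≤ ‖P s 0 + x * P s 1 + y * P s 2‖ := fun s =>
    (k2 s).resolve_right (not_le.2 p2)
  obtain ⟨z, hz, k3⟩ := h3 ι σ (fun s => G s 1 + (-x) * G s 0) (fun s => G s 2 + (-y) * G s 0)
    (fun _ => 0) hσ
    (fun s t => lip_comb (by simpa using n1 x hx) (comp_le (hG s t) 1) (comp_le (hG s t) 0))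
    (fun s t => lip_comb (by simpa using n2 y hy) (comp_le (hG s t) 2) (comp_le (hG s t) 0))
    (fun s => by
      by_contra hc
      push Not at hc
      obtain ⟨c1, c2, -⟩ := hc
      set m := min η2 1 with hm
      have m0 : 0 < m := by positivity
      have m1 : m ≤ 1 := min_le_right _ _
      have m2 : m ≤ ‖P s 0 + x * P s 1 + y * P s 2‖ := (min_le_left _ _).trans (k2' s)
      have pn : ∀ i, ‖P s i‖ ≤ 1 := fun i => (norm_le_pi_norm _ i).trans
        ((norm_le_sqrt_nn _).trans (by rw [uP s, Real.sqrt_one]))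
      have e : G s 0 * (P s 0 + x * P s 1 + y * P s 2) =
          -((G s 1 + (-x) * G s 0) * P s 1) - (G s 2 + (-y) * G s 0) * P s 2 := by
        have := ho s
        simp only [dot] at this
        linear_combination this
      have g0 : ‖G s 0‖ * m ≤ m / 5 := by
        calc ‖G s 0‖ * m ≤ ‖G s 0 * (P s 0 + x * P s 1 + y * P s 2)‖ := by
              rw [norm_mul]; gcongr
          _ ≤ ‖G s 1 + (-x) * G s 0‖ * ‖P s 1‖ + ‖G s 2 + (-y) * G s 0‖ * ‖P s 2‖ := by
              rw [e]; refine (norm_sub_le _ _).trans ?_; rw [norm_neg, norm_mul, norm_mul]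
          _ ≤ m / 10 * 1 + m / 10 * 1 := by
              gcongr
              · exact pn 1
              · exact pn 2
          _ = m / 5 := by ring
      have g0' : ‖G s 0‖ ≤ 1 / 5 := le_of_mul_le_mul_right (by linarith) m0
      have gi : ∀ a w : ℂ, ‖w‖ ≤ 2 → ‖a + (-w) * G s 0‖ < m / 10 → ‖a‖ ≤ 1 / 2 := by
        intro a w hw ha
        have e : a = (a + (-w) * G s 0) + w * G s 0 := by ring
        rw [e]
        refine (norm_add_le _ _).trans ?_
        rw [norm_mul]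
        have := mul_le_mul hw g0' (norm_nonneg _) (by norm_num)
        linarith
      have g1 := gi _ _ (n1 x hx) c1
      have g2 := gi _ _ (n2 y hy) c2
      have := uG s
      simp only [nn, normSq_eq_norm_sq] at this
      nlinarith [norm_nonneg (G s 0), norm_nonneg (G s 1), norm_nonneg (G s 2)])
  refine ⟨fr (x, y, z), Finset.mem_image_of_mem fr (by simp [hx, hy, hz]), fun s => ⟨?_, ?_⟩⟩
  · refine (min_le_left _ _).trans ?_
    have e : dot (crs (fr (x, y, z)).2.2 (fr (x, y, z)).2.1) (P s) =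
        P s 0 + x * P s 1 + y * P s 2 := by
      simp only [hfr, dot, crs0, crs1, crs2]; simp only [Matrix.cons_val]; ring
    rw [e, normSq_eq_norm_sq]
    exact pow_le_pow_left₀ p2.le (k2' s) 2
  · refine (min_le_right _ _).trans ?_
    have e : dot (G s) (fr (x, y, z)).2.2 =
        G s 1 + (-x) * G s 0 + z * (G s 2 + (-y) * G s 0) := by simp [hfr, dot]; ring
    rw [e, normSq_eq_norm_sq]
    exact pow_le_pow_left₀ p3.le ((k3 s).resolve_right (not_le.2 p3)) 2

end Pool.Agent.Lib.MP_4e4ac8_an
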