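import Mathlib

/-!
A long bump function with negative index form.
-/

set_option autoImplicit false
open Set

namespace Pool.Agent.Lib.MP_4e4ac8_an

lemma bump {A δ : ℝ} (hA : 0 < A) (hδ : 0 < δ) : ∃ (Λ : ℝ) (y y' : ℝ → ℝ), 0 < Λ ∧
    (∀ u, HasDerivAt y (y' u) u) ∧ Continuous y' ∧ (∀ u, u ≤ 0 → y u = 0) ∧
    (∀ u, Λ ≤ u → y u = 0) ∧ (∀ u, 0 ≤ y u ∧ y u ≤ 1) ∧ (∀ u ∈ Icc 0 (Λ + 1), |y' u| ≤ 1) ∧
    ∫ u in (0 : ℝ)..(Λ + 1), (A * y' u ^ 2 - δ * y u ^ 2) < 0 := by
  set y1 : ℝ → ℝ := fun u => Real.smoothTransition (3 * u) * Real.smoothTransition (3 - 3 * u)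
    with hy1
  have c1 : ContDiff ℝ 1 y1 :=
    (Real.smoothTransition.contDiff.comp (by fun_prop)).mul
      (Real.smoothTransition.contDiff.comp (by fun_prop))
  have c2 : Continuous (deriv y1) := c1.continuous_deriv le_rfl
  obtain ⟨D, hD⟩ := (isCompact_Icc (a := (0 : ℝ)) (b := 2)).exists_bound_of_continuousOn
    c2.continuousOn
  have D0 : 0 ≤ D := (norm_nonneg _).trans (hD 0 (by simp))
  set Λ := 1 + D + 6 * A * D ^ 2 / δ with hΛ
  have q0 : 0 ≤ 6 * A * D ^ 2 / δ := by positivity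
  have L1 : 1 ≤ Λ := by linarith
  have L0 : 0 < Λ := by linarith
  have hd : ∀ u, HasDerivAt (fun u => y1 (u / Λ)) (deriv y1 (u / Λ) / Λ) u := fun u => by
    have := ((c1.differentiable one_ne_zero) (u / Λ)).hasDerivAt.comp u
      ((hasDerivAt_id u).div_const Λ)
    exact this.congr_deriv (by ring)
  have hb : ∀ u ∈ Icc 0 (Λ + 1), |deriv y1 (u / Λ) / Λ| ≤ D / Λ := fun u hu => by
    rw [abs_div, abs_of_pos L0]
    refine div_le_div_of_nonneg_right (hD _ ⟨div_nonneg hu.1 L0.le, ?_⟩) L0.le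
    rw [div_le_iff₀ L0]; linarith [hu.2]
  have cy : Continuous fun u => y1 (u / Λ) := c1.continuous.comp (by fun_prop)
  have cy' : Continuous fun u => deriv y1 (u / Λ) / Λ := (c2.comp (by fun_prop)).div_const _
  refine ⟨Λ, fun u => y1 (u / Λ), fun u => deriv y1 (u / Λ) / Λ, L0, hd, cy', fun u hu => ?_,
    fun u hu => ?_, fun u => ⟨?_, ?_⟩, fun u hu => (hb u hu).trans ?_, ?_⟩
  · simp only [hy1]
    rw [Real.smoothTransition.zero_of_nonpos (x := 3 * (u / Λ))
      (by have := div_nonpos_of_nonpos_of_nonneg hu L0.le; linarith), zero_mul]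
  · simp only [hy1]
    rw [Real.smoothTransition.zero_of_nonpos (x := 3 - 3 * (u / Λ))
      (by have := (one_le_div L0).2 hu; linarith), mul_zero]
  · exact mul_nonneg (Real.smoothTransition.nonneg _) (Real.smoothTransition.nonneg _)
  · exact mul_le_one₀ (Real.smoothTransition.le_one _) (Real.smoothTransition.nonneg _)
      (Real.smoothTransition.le_one _)
  · rw [div_le_one L0]; linarith
  set f : ℝ → ℝ := fun u => A * (deriv y1 (u / Λ) / Λ) ^ 2 - δ * y1 (u / Λ) ^ 2 with hf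
  have cf : Continuous f := by simp only [hf]; fun_prop
  set κ := A * (D / Λ) ^ 2 with hκ
  have b1 : ∀ u ∈ Icc 0 (Λ + 1), A * (deriv y1 (u / Λ) / Λ) ^ 2 ≤ κ := fun u hu => by
    rw [hκ, ← sq_abs]
    exact mul_le_mul_of_nonneg_left (pow_le_pow_left₀ (abs_nonneg _) (hb u hu) 2) hA.le
  have i1 : ∀ a b c : ℝ, a ≤ b → (∀ u ∈ Icc a b, f u ≤ c) → ∫ u in a..b, f u ≤ (b - a) * c := by
    intro a b c hab h
    have := intervalIntegral.integral_mono_on hab (cf.intervalIntegrable a b)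
      (continuous_const.intervalIntegrable (μ := MeasureTheory.volume) a b) h
    simpa using this
  have j1 := i1 0 (Λ / 3) κ (by positivity) fun u hu => by
    have := b1 u ⟨hu.1, by linarith [hu.2]⟩
    have : 0 ≤ δ * y1 (u / Λ) ^ 2 := by positivity
    simp only [hf]; linarith
  have j2 := i1 (Λ / 3) (2 * Λ / 3) (κ - δ) (by linarith) fun u hu => by
    have := b1 u ⟨by linarith [hu.1], by linarith [hu.2]⟩
    have e : y1 (u / Λ) = 1 := by
      have a1 : 1 / 3 ≤ u / Λ := by rw [le_div_iff₀ L0]; linarith [hu.1]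
      have a2 : u / Λ ≤ 2 / 3 := by rw [div_le_iff₀ L0]; linarith [hu.2]
      simp only [hy1]
      rw [Real.smoothTransition.one_of_one_le (by linarith),
        Real.smoothTransition.one_of_one_le (by linarith), mul_one]
    simp only [hf, e]; linarith
  have j3 := i1 (2 * Λ / 3) (Λ + 1) κ (by linarith) fun u hu => by
    have := b1 u ⟨by linarith [hu.1], hu.2⟩
    have : 0 ≤ δ * y1 (u / Λ) ^ 2 := by positivity
    simp only [hf]; linarith
  have s1 := intervalIntegral.integral_add_adjacent_intervals (μ := MeasureTheory.volume)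
    (cf.intervalIntegrable 0 (Λ / 3)) (cf.intervalIntegrable (Λ / 3) (2 * Λ / 3))
  have s2 := intervalIntegral.integral_add_adjacent_intervals (μ := MeasureTheory.volume)
    (cf.intervalIntegrable 0 (2 * Λ / 3)) (cf.intervalIntegrable (2 * Λ / 3) (Λ + 1))
  have k1 : κ * Λ * Λ = A * D ^ 2 := by rw [hκ]; field_simp
  have k0 : 0 ≤ κ := by positivity
  have k2 : 6 * A * D ^ 2 < δ * Λ := by
    have : δ * (6 * A * D ^ 2 / δ) = 6 * A * D ^ 2 := by field_simp
    rw [hΛ]; nlinarith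
  have k3 : κ * Λ ≤ κ * Λ * Λ := le_mul_of_one_le_right (by positivity) L1
  have k4 : κ ≤ κ * Λ := le_mul_of_one_le_right k0 L1
  show ∫ u in (0 : ℝ)..(Λ + 1), f u < 0
  nlinarith

end Pool.Agent.Lib.MP_4e4ac8_an
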