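import Pool.Agent.Lib.MP_4e4ac8_an.CLeaf

/-!
The holomorphic conormal along a leaf, obtained from nearby leaves, and uniform charts.
-/

set_option autoImplicit false
open Filter Topology Complex ComplexConjugate Metric Set

namespace Pool.Agent.Lib.MP_4e4ac8_an

variable {S U : Set E} {r : E → ℝ}

lemma unif_lim {D : ℕ → ℂ → ℂ} {β : ℕ → ℝ} {s : Set ℂ} (hβ : Tendsto β atTop (𝓝 0))
    (h : ∀ m n, ∀ z ∈ s, ‖D m z - D n z‖ ≤ β m + β n) :
    ∃ q, TendstoUniformlyOn D q atTop s := by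
  have u : UniformCauchySeqOn D atTop s := by
    rw [Metric.uniformCauchySeqOn_iff]
    intro ε hε
    obtain ⟨N, hN⟩ := eventually_atTop.1 (hβ.eventually (gt_mem_nhds (half_pos hε)))
    refine ⟨N, fun m hm n hn z hz => ?_⟩
    rw [dist_eq_norm]
    linarith [h m n z hz, hN m hm, hN n hn]
  exact ⟨fun z => limUnder atTop fun n => D n z, u.tendstoUniformlyOn_of_tendsto fun z hz =>
    (u.cauchySeq hz).tendsto_limUnder⟩

lemma near_pts (h : LocDef S U r) {p v : E} (hU : p ∈ U) (hS : p ∈ S)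
    (hv : cf (fderiv ℝ r p) v ≠ 0) {O : Set E} (hO : O ∈ 𝓝 p) :
    ∀ᶠ ε : ℝ in 𝓝[>] 0, ∃ c : ℂ, ‖c‖ = ε ∧ p + c • v ∈ S ∧ p + c • v ∈ O := by
  set c0 := conj (cf (fderiv ℝ r p) v) / (‖cf (fderiv ℝ r p) v‖ : ℝ) with hc0
  have n0 := norm_pos_iff.2 hv
  have n1 : ‖c0‖ = 1 := by simp [hc0, hv]
  have d0 : fderiv ℝ r p (c0 • v) = ‖cf (fderiv ℝ r p) v‖ := by
    rw [← cf_re, map_smul, smul_eq_mul, hc0, div_mul_eq_mul_div, conj_mul', div_ofReal_re,
      ← ofReal_pow, ofReal_re]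
    field_simp
  have r0 : r p = 0 := (h.zero p hU).1 hS
  have sg : ∀ w : E, ∀ κ : ℝ, 0 < κ * fderiv ℝ r p w →
      ∀ᶠ ε : ℝ in 𝓝[>] 0, 0 < κ * r (p + ε • w) := by
    intro w κ hw
    have l1 : HasDerivAt (fun t : ℝ => p + t • w) w 0 := by
      simpa using ((hasDerivAt_id (0 : ℝ)).smul_const w).const_add p
    have l2 : HasFDerivAt r (fderiv ℝ r p) (p + (0 : ℝ) • w) := by simpa using h.fd hU
    have l3 := ((l2.comp_hasDerivAt 0 l1).const_mul κ).tendsto_slope_zero_right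
    filter_upwards [l3.eventually (lt_mem_nhds hw), self_mem_nhdsWithin] with t h1 h2
    simp only [Function.comp, zero_add, zero_smul, add_zero, r0, mul_zero, sub_zero,
      smul_eq_mul] at h1
    exact pos_of_mul_pos_left (mul_comm t⁻¹ _ ▸ h1) (inv_pos.2 h2).le
  have c1 : ContinuousAt (fun c : ℂ => p + c • v) 0 := by fun_prop
  obtain ⟨δ, hδ, hb⟩ := Metric.eventually_nhds_iff_ball.1 (c1.eventually_mem
    (show U ∩ O ∈ 𝓝 (p + (0 : ℂ) • v) by simpa using ⟨h.op.mem_nhds hU, hO⟩))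
  filter_upwards [sg (c0 • v) 1 (by rw [d0]; linarith),
    sg (-(c0 • v)) (-1) (by rw [map_neg, d0]; linarith), Ioo_mem_nhdsGT hδ] with ε h1 h2 h3
  set cc : ℝ → ℂ := fun θ => ε * c0 * exp (θ * I) with hcc
  have n2 : ∀ θ, ‖cc θ‖ = ε := fun θ => by simp [hcc, n1, abs_of_pos h3.1]
  have m : ∀ θ, p + cc θ • v ∈ U ∩ O := fun θ =>
    hb _ (by rw [mem_ball_zero_iff, n2]; exact h3.2)
  have c2 : Continuous fun θ => r (p + cc θ • v) :=
    h.sm.continuousOn.comp_continuous (by simp only [hcc]; fun_prop) fun θ => (m θ).1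
  obtain ⟨θ, -, hθ⟩ := intermediate_value_Icc' Real.pi_pos.le c2.continuousOn
    (show (0 : ℝ) ∈ Icc (r (p + cc Real.pi • v)) (r (p + cc 0 • v)) by
      constructor
      · have : cc Real.pi • v = ε • -(c0 • v) := by
          simp [hcc, exp_pi_mul_I, mul_smul]
        rw [this]; linarith
      · have : cc 0 • v = ε • c0 • v := by simp [hcc, mul_smul]
        rw [this]; linarith)
  exact ⟨cc θ, n2 θ, (h.zero _ (m θ).1).2 hθ, (m θ).2⟩

lemma ray_der {f : ℂ → ℂ} {f' z : ℂ} {t : ℝ} (h : HasDerivAt f f' (t * z)) :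
    HasDerivWithinAt (fun t : ℝ => f (t * z)) (z * f') (Icc 0 1) t := by
  have a1 : HasDerivAt (fun t : ℝ => (t : ℂ) * z) z t := by
    simpa using (ofRealCLM.hasDerivAt (x := t)).mul_const z
  exact (h.scomp t a1).hasDerivWithinAt

lemma exp_quarter : Real.exp (1 / 4) ≤ 2 := by
  have := Real.exp_bound_div_one_sub_of_interval (x := 1 / 4) (by norm_num) (by norm_num)
  linarith

namespace LocA
variable {e v p0 : E} {R L : ℝ} {a : E → ℂ} {Da : E → E →L[ℝ] ℂ}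

lemma conormal (h : LocDef S U r) (A : LocA S U r e v p0 R L a Da) {ρ : ℝ} (hρ : 0 < ρ)
    (hR : ρ * (‖e‖ + L * ‖v‖) ≤ R / 2) (hK : ρ * (L * ‖v‖) ≤ 1 / 4) {p : E} (hS : p ∈ S)
    (hp : p ∈ ball p0 (R / 2)) {W : ℂ → ℂ} (W0 : W 0 = 0)
    (hW : ∀ z ∈ ball (0 : ℂ) ρ, p + z • e + W z • v ∈ S ∧ p + z • e + W z • v ∈ ball p0 R ∧
      ‖W z‖ ≤ L * ‖z‖ ∧ HasDerivAt W (a (p + z • e + W z • v)) z) :
    ∃ q : ℂ → ℂ, DifferentiableOn ℂ q (ball 0 ρ) ∧ ‖q 0‖ = 1 ∧ ∀ z ∈ ball (0 : ℂ) ρ,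
      ‖q z - q 0‖ ≤ 1 / 2 ∧ fderiv ℝ r (p + z • e + W z • v) (q z • v) = 0 := by
  have L0 := A.L0
  have hp' : p ∈ ball p0 R := ball_subset_ball (by linarith [A.R0]) hp
  obtain ⟨ε0, ε00, hε⟩ := (nhdsGT_basis (0 : ℝ)).eventually_iff.1
    (near_pts h (A.sub hp') hS (A.ne p hp') (isOpen_ball.mem_nhds hp))
  set ε : ℕ → ℝ := fun n => ε0 / 2 * (1 / ((n : ℝ) + 1)) with hεd
  have ε1 : ∀ n, ε n ∈ Ioo 0 ε0 := fun n => ⟨by positivity, by
    have : 1 / ((n : ℝ) + 1) ≤ 1 := by rw [div_le_one (by positivity)]; simp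
    simp only [hεd]; nlinarith⟩
  have ε2 : Tendsto ε atTop (𝓝 0) := by
    simpa only [mul_zero] using tendsto_one_div_add_atTop_nhds_zero_nat.const_mul (ε0 / 2)
  choose c c1 c2 c3 using fun n => hε (ε1 n)
  choose V V0 hV using fun n => A.leaf h hρ hR (c2 n) (c3 n)
  set F : ℂ → E := fun z => p + z • e + W z • v with hF
  set ω : ℕ → ℂ → ℂ := fun n z => c n + V n z - W z with hω
  have e1 : ∀ n z, p + c n • v + z • e + V n z • v = F z + ω n z • v := fun n z => by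
    simp only [hF, hω, add_smul, sub_smul]; abel
  simp only [e1] at hV
  have dω : ∀ n, ∀ z ∈ ball (0 : ℂ) ρ, HasDerivAt (ω n) (a (F z + ω n z • v) - a (F z)) z :=
    fun n z hz => ((hV n z hz).2.2.2.const_add (c n)).fun_sub (hW z hz).2.2.2
  have ω0 : ∀ n, ω n 0 = c n := fun n => by simp [hω, V0, W0]
  have tz : ∀ z ∈ ball (0 : ℂ) ρ, ∀ t ∈ Icc (0 : ℝ) 1, (t : ℂ) * z ∈ ball (0 : ℂ) ρ := by
    intro z hz t ht
    rw [mem_ball_zero_iff] at hz ⊢
    rw [norm_mul, norm_real, Real.norm_eq_abs, abs_of_nonneg ht.1]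
    exact (mul_le_of_le_one_left (norm_nonneg _) ht.2).trans_lt hz
  have b1 : ∀ n, ∀ z ∈ ball (0 : ℂ) ρ, ∀ w ∈ ball (0 : ℂ) ρ,
      ‖z * (a (F w + ω n w • v) - a (F w))‖ ≤ 1 / 4 * ‖ω n w‖ := fun n z hz w hw => by
    have := A.lip (hW w hw).2.1 (hV n w hw).2.1
    rw [add_sub_cancel_left, norm_smul] at this
    have z1 := (mem_ball_zero_iff.1 hz).le
    rw [norm_mul]
    calc _ ≤ ρ * (L * (‖ω n w‖ * ‖v‖)) := by gcongr
      _ = ρ * (L * ‖v‖) * ‖ω n w‖ := by ring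
      _ ≤ _ := by gcongr
  have b2 : ∀ n, ∀ z ∈ ball (0 : ℂ) ρ, ‖ω n z‖ ≤ 2 * ε n := fun n z hz => by
    have := gron1 (f := fun t : ℝ => ω n (t * z)) (δ := ε n) (K := 1 / 4) (ε := 0) (by norm_num)
      (ε1 n).1.le le_rfl (fun t ht => ray_der (dω n _ (tz z hz t ht))) (by simp [ω0, c1])
      (fun t ht => by rw [add_zero]; exact b1 n z hz _ (tz z hz t ht)) ⟨zero_le_one, le_rfl⟩
    simp only [ofReal_one, one_mul, zero_div, add_zero] at this
    nlinarith [exp_quarter, (ε1 n).1]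
  have b3 : ∀ n, ∀ z ∈ ball (0 : ℂ) ρ, ‖ω n z - c n‖ ≤ 1 / 2 * ε n := fun n z hz => by
    have := norm_image_sub_le_of_norm_deriv_le_segment_01' (f := fun t : ℝ => ω n (t * z))
      (fun t ht => ray_der (dω n _ (tz z hz t ht))) (C := 1 / 2 * ε n) fun t ht => by
        have k := tz z hz t (Ico_subset_Icc_self ht)
        linarith [b1 n z hz _ k, b2 n _ k]
    simpa [ω0] using this
  have b4 : ∀ n, ∀ w ∈ ball (0 : ℂ) ρ, ‖(a (F w + ω n w • v) - a (F w)) / ε n -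
      Da (F w) ((ω n w / ε n) • v)‖ ≤ 4 * L * ‖v‖ ^ 2 * ε n := fun n w hw => by
    have k := A.b2 _ (hW w hw).2.1 _ (hV n w hw).2.1
    rw [add_sub_cancel_left, norm_smul] at k
    have p1 := (ε1 n).1
    have p2 : (ε n : ℂ) ≠ 0 := by exact_mod_cast p1.ne'
    have e2 : Da (F w) ((ω n w / ε n) • v) = Da (F w) (ω n w • v) / ε n := by
      rw [div_eq_inv_mul, mul_smul, ← ofReal_inv, coe_smul, map_smul, real_smul, ofReal_inv,
        div_eq_inv_mul]
    rw [e2, ← sub_div, norm_div, norm_real, Real.norm_eq_abs, abs_of_pos p1, div_le_iff₀ p1]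
    refine k.trans ?_
    calc L * (‖ω n w‖ * ‖v‖) ^ 2 ≤ L * (2 * ε n * ‖v‖) ^ 2 := by gcongr; exact b2 n w hw
      _ = _ := by ring
  have b5 : ∀ m n, ∀ z ∈ ball (0 : ℂ) ρ, ‖ω m z / ε m - ω n z / ε n‖ ≤
      (‖c m / ε m - c n / ε n‖ + 4 * (‖v‖ * (ε m + ε n))) * 2 := fun m n z hz => by
    have p1 := (ε1 m).1
    have p2 := (ε1 n).1
    have := gron1 (f := fun t : ℝ => ω m (t * z) / ε m - ω n (t * z) / ε n)
      (δ := ‖c m / ε m - c n / ε n‖) (K := 1 / 4) (ε := ‖v‖ * (ε m + ε n)) (by norm_num)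
      (norm_nonneg _) (by positivity)
      (fun t ht => ((ray_der (dω m _ (tz z hz t ht))).div_const (ε m : ℂ)).fun_sub
        ((ray_der (dω n _ (tz z hz t ht))).div_const (ε n : ℂ))) (by simp [ω0])
      (fun t ht => by
        have k := tz z hz t ht
        set w := (t : ℂ) * z
        have k1 := b4 m w k
        have k2 := b4 n w k
        have k3 : ‖Da (F w) ((ω m w / ε m - ω n w / ε n) • v)‖ ≤
            L * (‖ω m w / ε m - ω n w / ε n‖ * ‖v‖) :=
          ((Da (F w)).le_opNorm _).trans (by rw [norm_smul]; gcongr; exact A.b1 _ (hW w k).2.1)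
        have e2 : z * (a (F w + ω m w • v) - a (F w)) / ε m -
            z * (a (F w + ω n w • v) - a (F w)) / ε n =
            z * (Da (F w) ((ω m w / ε m - ω n w / ε n) • v) +
              ((a (F w + ω m w • v) - a (F w)) / ε m - Da (F w) ((ω m w / ε m) • v)) +
              -((a (F w + ω n w • v) - a (F w)) / ε n - Da (F w) ((ω n w / ε n) • v))) := by
          rw [sub_smul (ω m w / ε m), map_sub]; ring
        have z1 := (mem_ball_zero_iff.1 hz).le
        rw [e2, norm_mul]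
        calc _ ≤ ρ * (L * (‖ω m w / ε m - ω n w / ε n‖ * ‖v‖) + 4 * L * ‖v‖ ^ 2 * ε m
              + 4 * L * ‖v‖ ^ 2 * ε n) := by
              gcongr
              exact norm_add₃_le.trans (by rw [norm_neg]; gcongr)
          _ = ρ * (L * ‖v‖) * (‖ω m w / ε m - ω n w / ε n‖ + 4 * (‖v‖ * (ε m + ε n))) := by ring
          _ ≤ 1 / 4 * (‖ω m w / ε m - ω n w / ε n‖ + 4 * (‖v‖ * (ε m + ε n))) := by gcongr
          _ = _ := by ring) ⟨zero_le_one, le_rfl⟩
    simp only [ofReal_one, one_mul] at this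
    refine this.trans ?_
    rw [div_div_eq_mul_div, div_one, mul_comm _ (4 : ℝ)]
    gcongr; exact exp_quarter
  have un : ∀ n, c n / ε n ∈ sphere (0 : ℂ) 1 := fun n => by
    simp [c1, abs_of_pos (ε1 n).1, (ε1 n).1.ne']
  obtain ⟨u, hu, φ, hφ, hl⟩ := (isCompact_sphere (0 : ℂ) 1).tendsto_subseq un
  have ε3 := ε2.comp hφ.tendsto_atTop
  obtain ⟨q, hq⟩ := unif_lim (D := fun n z => ω (φ n) z / ε (φ n)) (s := ball 0 ρ)
    (β := fun n => (‖c (φ n) / ε (φ n) - u‖ + 4 * (‖v‖ * ε (φ n))) * 2) (by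
      simpa using (((tendsto_iff_norm_sub_tendsto_zero.1 hl).add
        ((ε3.const_mul ‖v‖).const_mul 4)).mul_const 2)) fun m n z hz => by
      have := norm_sub_le_norm_sub_add_norm_sub (c (φ m) / ε (φ m)) u (c (φ n) / ε (φ n))
      rw [norm_sub_rev u] at this
      linarith [b5 (φ m) (φ n) z hz]
  have q0 : q 0 = u := tendsto_nhds_unique (hq.tendsto_at (mem_ball_self hρ))
    (by simp only [ω0]; exact hl)
  refine ⟨q, hq.tendstoLocallyUniformlyOn.differentiableOn (Eventually.of_forall fun n z hz =>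
    ((dω _ z hz).div_const _).differentiableAt.differentiableWithinAt) isOpen_ball,
    by rw [q0]; simpa using hu, fun z hz => ⟨?_, ?_⟩⟩
  · rw [q0]
    refine le_of_tendsto' ((hq.tendsto_at hz).sub hl).norm fun n => ?_
    simp only [Function.comp]
    rw [← sub_div, norm_div, norm_real, Real.norm_eq_abs, abs_of_pos (ε1 _).1,
      div_le_iff₀ (ε1 _).1]
    exact b3 _ z hz
  · refine tan_limit h (A.sub (hW z hz).2.1) tendsto_const_nhds
      ((hq.tendsto_at hz).smul_const v) ε3 (Eventually.of_forall fun n => ⟨(ε1 _).1.ne',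
        (hW z hz).1, ?_⟩)
    have p2 : (ε (φ n) : ℂ) ≠ 0 := by exact_mod_cast (ε1 _).1.ne'
    simp only [Function.comp]
    rw [← coe_smul, smul_smul, mul_div_cancel₀ _ p2]
    exact (hV _ z hz).1

lemma chart (hS : LF S) (h : LocDef S U r) (A : LocA S U r e v p0 R L a Da) {ρ : ℝ} (hρ : 0 < ρ)
    (hR : ρ * (‖e‖ + L * ‖v‖) ≤ R / 2) (hK : ρ * (L * ‖v‖) ≤ 1 / 4) {x : E × E} (hx : x ∈ XS S)
    (hp : x.1 ∈ ball p0 (R / 2)) (h1 : dot (crs v e) x.1 = 1) :
    ∃ W G, Chart (XS S) e v ρ L x W G := by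
  obtain ⟨W, W0, hW⟩ := A.leaf h hρ hR hx.1 hp
  obtain ⟨q, dq, q0, hq⟩ := A.conormal h hρ hR hK hx.1 hp W0 hW
  set F : ℂ → E := fun z => x.1 + z • e + W z • v with hF
  have dW : DifferentiableOn ℂ W (ball 0 ρ) := fun z hz =>
    (hW z hz).2.2.2.differentiableAt.differentiableWithinAt
  have z0 : (0 : ℂ) ∈ ball (0 : ℂ) ρ := mem_ball_self hρ
  have F0 : F 0 = x.1 := by simp [hF, W0]
  have qn : ∀ z ∈ ball (0 : ℂ) ρ, q z ≠ 0 := fun z hz h0 => by
    have := (hq z hz).1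
    rw [h0, zero_sub, norm_neg, q0] at this; norm_num at this
  have key : ∀ z ∈ ball (0 : ℂ) ρ, vecf (cf (fderiv ℝ r (F z))) =
      (-cf (fderiv ℝ r (F z)) v) • crs (F z) (e + deriv W z • v) := fun z hz => by
    rw [← dot_vecf (cf (fderiv ℝ r (F z))) v]
    refine conormal_eq ?_ ?_ (dot_chart h1 _ _)
    · rw [dot_vecf]
      exact (con_of_one (a := cf (fderiv ℝ r (F z))) h (A.sub (hW z hz).2.1) (hW z hz).1
        one_ne_zero fun v => by rw [ofReal_one, one_mul]).self hS (hW z hz).1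
    · rw [dot_vecf, (hW z hz).2.2.2.deriv]; exact A.eq _ (hW z hz).2.1
  have im : ∀ z ∈ ball (0 : ℂ) ρ, ∃ s : ℝ, s ≠ 0 ∧ q z * cf (fderiv ℝ r (F z)) v = s * I := by
    intro z hz
    have a1 := (hq z hz).2
    rw [← cf_re, map_smul, smul_eq_mul] at a1
    have a2 : q z * cf (fderiv ℝ r (F z)) v = (q z * cf (fderiv ℝ r (F z)) v).im * I :=
      Complex.ext (by simpa using a1) (by simp)
    refine ⟨_, fun h0 => ?_, a2⟩
    rw [h0] at a2
    exact mul_ne_zero (qn z hz) (A.ne _ (hW z hz).2.1) (by simpa using a2)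
  obtain ⟨μ, μ0, hμ⟩ := XS_mu hx h (F0 ▸ A.sub (hW 0 z0).2.1)
  obtain ⟨s0, s00, hs0⟩ := im 0 z0
  rw [F0] at hs0
  set G : ℂ → E := fun z => (-(dot x.2 v * q 0 / q z)) • crs (F z) (e + deriv W z • v) with hG
  have gv : ∀ z, dot (G z) v = dot x.2 v * q 0 / q z := fun z => by
    simp only [hG]
    rw [dot_smul_left, dot_crs_frame _ (dot_chart h1 _ _)]; ring
  have ge : ∀ z ∈ ball (0 : ℂ) ρ, ∀ s : ℝ, s ≠ 0 → q z * cf (fderiv ℝ r (F z)) v = s * I →
      ∀ w, dot (G z) w = (μ * s0 / s : ℝ) * cf (fderiv ℝ r (F z)) w := fun z hz s hs e w => by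
    rw [← dot_vecf (cf (fderiv ℝ r (F z))) w, key z hz]
    simp only [hG, dot_smul_left]
    have a1 := qn z hz
    have a2 : (s : ℂ) ≠ 0 := by exact_mod_cast hs
    have a3 : cf (fderiv ℝ r (F z)) v = s * I / q z := by rw [← e]; field_simp
    rw [a3, hμ, mul_assoc, mul_comm _ (q 0), hs0]
    push_cast; field_simp
  have g0 : dot x.2 v ≠ 0 := by
    rw [hμ]; exact mul_ne_zero (by exact_mod_cast μ0) (F0 ▸ A.ne _ (hW 0 z0).2.1)
  refine ⟨W, G, dW, ?_, W0, ?_, fun z hz => ⟨(hW z hz).1, ?_⟩, fun z hz => (hW z hz).2.2.1,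
    fun z hz => ?_⟩
  · refine ((differentiableOn_const _).div dq qn).neg.smul fun z hz =>
      (differentiableAt_crs ?_ ?_).differentiableWithinAt
    · exact ((differentiableAt_id.smul_const e).const_add _).add
        ((hW z hz).2.2.2.differentiableAt.smul_const v)
    · exact (((dW.deriv isOpen_ball).differentiableAt (isOpen_ball.mem_nhds hz)).smul_const
        v).const_add e
  · refine eq_of_dot fun w => ?_
    rw [ge 0 z0 s0 s00 (F0 ▸ hs0), F0, hμ, mul_div_cancel_right₀ _ s00]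
  · obtain ⟨s, hs, e⟩ := im z hz
    exact con_of_one h (A.sub (hW z hz).2.1) (hW z hz).1
      (div_ne_zero (mul_ne_zero μ0 s00) hs) fun w => by rw [dotL_apply]; exact ge z hz s hs e w
  · have a1 := qn z hz
    have a2 := qn 0 z0
    have e : dot x.2 v / dot (G z) v - 1 = (q z - q 0) / q 0 := by rw [gv]; field_simp
    rw [e, norm_div, q0, div_one]; exact (hq z hz).1

end LocA

end Pool.Agent.Lib.MP_4e4ac8_an
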