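import Pool.Agent.Lib.MP_4e4ac8_an.CVar2
import Pool.Agent.Lib.MP_4e4ac8_an.CBump

/-!
The weighted Bonnet-Myers argument.
-/

set_option autoImplicit false
open Filter Topology Complex ComplexConjugate Metric

namespace Pool.Agent.Lib.MP_4e4ac8_an

variable {X : Set (E × E)} {x0 : E × E} {γ γ' : ℝ → E × E} {L B C : ℝ}

lemma gain_pt (hX : Pk X B C) (hB : B ≤ 25) (x0 : E × E) {a e v : E} (ha : dot (crs v e) a = 1)
    {η Λ ε : ℝ} (hη : 0 < η) (hΛ : 0 < Λ) (hε : 0 < ε) {y y' : ℝ → ℝ}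
    (dy : ∀ u, HasDerivAt y (y' u) u) (cy : Continuous y') (y0 : ∀ u, u ≤ 0 → y u = 0)
    (y1 : ∀ u, Λ ≤ u → y u = 0) (y2 : ∀ u, 0 ≤ y u ∧ y u ≤ 1)
    (y3 : ∀ u ∈ Set.Icc 0 (Λ + 1), |y' u| ≤ 1) :
    ∃ C1 : ℝ, 0 ≤ C1 ∧ ∀ᶠ r : ℝ in 𝓝[>] (0 : ℝ), ∀ γ γ' L, Pth X x0 γ γ' L → Λ < len γ γ' L →
      (∀ s, len γ γ' s ≤ Λ + 2 → Mg e v η (γ s)) →
      ∃ δ δ' : ℕ → ℝ → E × E, (∀ j, Pth X x0 (δ j) (δ' j) L ∧ δ j L = γ L ∧
        ∀ s, Λ < len γ γ' s → dens (δ j s) (δ' j s) = dens (γ s) (γ' s)) ∧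
        ∀ s, len γ γ' s ≤ Λ + 1 → ∑ j ∈ Finset.range 4, dens (δ j s) (δ' j s) ≤
          4 * dens (γ s) (γ' s) + sp (γ s) (γ' s) * (r ^ 2 * ((1 + 1 / ε) * y' (len γ γ' s) ^ 2
            - (6 - (1 + ε) * B / 4) * y (len γ γ' s) ^ 2) + C1 * r ^ 3) := by
  obtain ⟨ρ, hρ, M, hM, hch⟩ := hX.chart e v η hη
  set E1 := Real.exp ((|lw x0| + 5 * (Λ + 2)) / 2) with hE1
  have E0 : 0 < E1 := Real.exp_pos _
  have v0 := nn_nonneg v
  set K := E1 * (1 + nn v) / η + 4 * E1 with hK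
  have K0 : 0 < K := by positivity
  obtain ⟨C0, hC0, hav⟩ := avg2 (X := X) e v hρ hM hη K0
  refine ⟨C0 * E1 ^ 2, by positivity, ?_⟩
  filter_upwards [hav, Ioo_mem_nhdsGT (show 0 < ρ / 2 / K by positivity)] with r hr hr2 γ γ' L h
    hL hmg
  set l := crs v e with hl
  have c0 : ∀ s, len γ γ' s < Λ + 2 → dot l (γ s).1 ≠ 0 := fun s hs =>
    (hmg s hs.le).ne hX hη (h.mem s)
  have nm := fun s (hs : len γ γ' s < Λ + 2) => (hmg s hs.le).norm hX hη (h.mem s)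
  choose! W G hWG using fun s (hs : len γ γ' s < Λ + 2) =>
    hch (nst l (γ s)) (nm s hs).1 (nm s hs).2.1 (nm s hs).2.2.1 (nm s hs).2.2.2
  have c1 := h.cont
  have c2 := h.cγ
  obtain ⟨Θ, dΘ, nΘ, -⟩ := hlift (K := 1) zero_le_one (fun s => (h.der s).fst)
    (by fun_prop) (fun s => hX.nz1 _ (h.mem s)) (h.dlen hX) (fun s => sp_nonneg _ _) fun s => by
      rw [← sp_sq, one_mul]
  set Ex : ℝ → ℝ := fun s => Real.exp (-lw (γ s) / 2) with hEx
  have Ex0 : ∀ s, 0 < Ex s := fun s => Real.exp_pos _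
  have Exb : ∀ s, len γ γ' s < Λ + 2 → Ex s ≤ E1 ∧ 1 ≤ E1 * Ex s := fun s hs => by
    have a1 := abs_le.1 (h.lw_le hX hB s)
    have a2 := le_abs_self (lw x0)
    have a3 := neg_abs_le (lw x0)
    refine ⟨Real.exp_le_exp.2 (by linarith [a1.1]), ?_⟩
    rw [hE1, ← Real.exp_add]
    exact Real.one_le_exp (by linarith [a1.2])
  set Y : ℝ → ℝ := fun s => Ex s * y (len γ γ' s) with hY
  have dY : ∀ s, HasDerivAt Y (Ex s * (y' (len γ γ' s) * sp (γ s) (γ' s)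
      - dlw (γ s) (γ' s) * y (len γ γ' s) / 2)) s := fun s =>
    (((h.dlw' hX s).neg.div_const 2).exp.fun_mul ((dy _).comp s (h.dlen hX s))).congr_deriv (by
      simp only [hEx, Function.comp, Pi.neg_apply]; ring)
  set T : ℝ → ℂ := fun s => dot (nst l (γ s)).2 v * (Θ s / dot l (γ s).1) ^ 3 with hT
  have nT : ∀ s, len γ γ' s < Λ + 2 → ‖T s‖ =
      ‖dot (nst l (γ s)).2 v‖ * (nn (nst l (γ s)).1 * √(nn (nst l (γ s)).1)) := fun s hs => by
    have e1 : nn (nst l (γ s)).1 = ‖Θ s / dot l (γ s).1‖ ^ 2 := by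
      simp only [nst, sc]
      rw [nn_smul, ← nΘ, ← normSq_eq_norm_sq, map_div₀, map_inv₀, div_eq_inv_mul]
    rw [e1, Real.sqrt_sq (norm_nonneg _)]
    simp only [hT, norm_mul, norm_pow]; ring
  have T0 : ∀ s, len γ γ' s < Λ + 2 → 0 < ‖T s‖ := fun s hs => by
    have a1 := (hWG s hs).dot_ne (mem_ball_self hρ)
    rw [(hWG s hs).G0] at a1
    have a2 := nn_pos (hX.nz1 _ (nm s hs).1)
    rw [nT s hs]
    exact mul_pos (norm_pos_iff.2 a1) (mul_pos a2 (Real.sqrt_pos.2 a2))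
  set τ : ℝ → ℂ := fun s => T s * Y s with hτ
  have nτ : ∀ s, ‖τ s‖ = ‖T s‖ * (Ex s * y (len γ γ' s)) := fun s => by
    simp only [hτ, norm_mul, norm_real, Real.norm_eq_abs]
    rw [abs_of_nonneg (mul_nonneg (Ex0 s).le (y2 _).1)]
  have bτ : ∀ s, len γ γ' s < Λ + 2 → ‖τ s‖ ≤ K := fun s hs => by
    have a1 := cs_dot (nst l (γ s)).2 v
    have a2 := nn_mul_eq hX (h.mem s)
    rw [← nn_sc (inv_ne_zero (c0 s hs))] at a2
    have a3 : nn (nst l (γ s)).1 * η ≤ 1 := (nm s hs).2.2.1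
    have a4 := nn_nonneg (nst l (γ s)).1
    have a5 := nn_nonneg (nst l (γ s)).2
    have a6 := Ex0 s
    have a7 : (‖T s‖ * Ex s * (η * Ex s)) ^ 2 ≤ (1 + nn v) ^ 2 := by
      rw [nT s hs]
      calc _ = normSq (dot (nst l (γ s)).2 v) * nn (nst l (γ s)).1 * Ex s ^ 4 *
            (nn (nst l (γ s)).1 * η) ^ 2 := by
            rw [normSq_eq_norm_sq]
            simp only [mul_pow, Real.sq_sqrt a4]; ring
        _ ≤ nn (nst l (γ s)).2 * nn v * nn (nst l (γ s)).1 * Ex s ^ 4 * 1 ^ 2 := by gcongr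
        _ = nn v * (nn (nst l (γ s)).1 * nn (nst l (γ s)).2 * Ex s ^ 4) := by ring
        _ = nn v := by rw [show nn (nst l (γ s)).1 * nn (nst l (γ s)).2 * Ex s ^ 4 = 1 from a2,
            mul_one]
        _ ≤ _ := by nlinarith
    have a8 := le_of_sq_le_sq a7 (by positivity)
    have a9 : ‖T s‖ * Ex s ≤ E1 * (1 + nn v) / η := by
      rw [le_div_iff₀ hη]
      calc ‖T s‖ * Ex s * η ≤ ‖T s‖ * Ex s * η * (E1 * Ex s) :=
            le_mul_of_one_le_right (by positivity) (Exb s hs).2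
        _ = E1 * (‖T s‖ * Ex s * (η * Ex s)) := by ring
        _ ≤ _ := by gcongr
    rw [nτ, ← mul_assoc]
    refine (mul_le_of_le_one_right (by positivity) (y2 _).2).trans (a9.trans ?_)
    exact le_add_of_nonneg_right (by positivity)
  have cγ : ContDiff ℝ 1 γ := cd1 h.der h.cont
  have cΘ : ContDiff ℝ 1 Θ := cd1 dΘ
    ((continuous_iff_continuousAt.2 fun s => (dΘ s).continuousAt).mul
      (Continuous.div (by fun_prop) (by fun_prop) fun s => by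
        exact_mod_cast (nn_pos (hX.nz1 _ (h.mem s))).ne'))
  have cY : ContDiff ℝ 1 Y := by
    have a1 : ContDiff ℝ 1 fun s => lw (γ s) :=
      (((nn_cd.comp cγ.fst).mul (nn_cd.comp cγ.snd)).log fun s =>
        (mul_pos (nn_pos (hX.nz1 _ (h.mem s))) (nn_pos (hX.nz2 _ (h.mem s)))).ne').div_const 2
    exact (a1.neg.div_const 2).exp.mul ((cd1 dy cy).comp (cd1 (h.dlen hX) (h.csp hX)))
  have cτ : ∀ s, len γ γ' s < Λ + 2 → ContDiffAt ℝ 1 τ s := fun s hs => by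
    have b1 : ContDiffAt ℝ 1 (fun s => dot l (γ s).1) s :=
      contDiffAt_dot contDiffAt_const cγ.contDiffAt.fst
    have b2 : ContDiffAt ℝ 1 (fun s => Θ s / dot l (γ s).1) s := by
      simp only [div_eq_mul_inv]; exact cΘ.contDiffAt.mul (b1.inv (c0 s hs))
    exact ((contDiffAt_dot (((b1.inv (c0 s hs)).inv (inv_ne_zero (c0 s hs))).smul
      cγ.contDiffAt.snd) contDiffAt_const).mul (b2.pow 3)).mul
      (ofRealCLM.contDiff.comp cY).contDiffAt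
  have nr : ∀ j : ℕ, ‖(r : ℂ) * I ^ j‖ = r := fun j => by simp [abs_of_pos hr2.1]
  choose δ δ' hδ using fun j : ℕ => h.vary hX ha hρ hΛ hL (W := W) (G := G)
    (ω := fun s => τ s * (r * I ^ j)) (fun s hs => ⟨c0 s hs, hWG s hs,
      (cτ s hs).mul contDiffAt_const, by
        have a1 := hr2.2
        rw [lt_div_iff₀ K0] at a1
        rw [norm_mul, nr]
        nlinarith [bτ s hs, hr2.1]⟩)
    (fun s hs => by simp [hτ, hY, h.len_neg hs, y0 0 le_rfl])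
    (fun s hs => by simp [hτ, hY, y1 _ hs])
  refine ⟨δ, δ', fun j => ⟨(hδ j).1, (hδ j).2.1, (hδ j).2.2.1⟩, fun s hs' => ?_⟩
  have hs : len γ γ' s < Λ + 2 := by linarith
  have hv := h.vel hX ha hρ (c0 s hs) (hWG s hs)
  set ξ := dot (crs a v) (nst' l (γ s) (γ' s)).1 with hξ
  set Y' := Ex s * (y' (len γ γ' s) * sp (γ s) (γ' s)
      - dlw (γ s) (γ' s) * y (len γ γ' s) / 2) with hY'
  have g0 : dot (nst l (γ s)).2 v ≠ 0 := by
    have a1 := (hWG s hs).dot_ne (mem_ball_self hρ)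
    rwa [(hWG s hs).G0] at a1
  have dτ : HasDerivAt τ (T s * Y' + ξ * τ s * (dot (deriv (G s) 0) v / dot (nst l (γ s)).2 v +
      3 * (hm (e + deriv (W s) 0 • v) (nst l (γ s)).1 / nn (nst l (γ s)).1))) s := by
    have a1 := hm_nst' (γ' s) (hX.nz1 _ (h.mem s)) (c0 s hs)
    have a2 := ((hasDerivAt_dot_left v (h.dnst (c0 s hs)).snd).fun_mul
      (((dΘ s).fun_div (hasDerivAt_dot_right l (h.der s).fst) (c0 s hs)).fun_pow 3)).fun_mul
      (dY s).ofReal_comp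
    refine a2.congr_deriv ?_
    rw [hv] at a1 ⊢
    simp only [Prod.smul_fst, Prod.smul_snd, hm_smul_left, dot_smul_left] at a1 ⊢
    have a3 := c0 s hs
    rw [mul_div_assoc] at a1
    rw [eq_sub_iff_add_eq] at a1
    rw [← a1, ← hY']
    simp only [hτ, hT]
    generalize hm (e + deriv (W s) 0 • v) (nst l (γ s)).1 / nn (nst l (γ s)).1 = κ
    norm_num
    field_simp
    ring
  have m0 := (nm s hs).1
  have t1 := (hWG s hs).tan (mem_ball_self hρ) 1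
  have t2 := (hWG s hs).tan (mem_ball_self hρ) I
  have e0 : (nst l (γ s)) = ((nst l (γ s)).1 + (0 : ℂ) • e + W s 0 • v, G s 0) :=
    (hWG s hs).disc0.symm
  rw [← e0] at t1 t2
  rw [one_smul] at t1
  have e1 : ‖ξ‖ = ‖T s‖ * sp (γ s) (γ' s) * Ex s ^ 2 := by
    have a1 := dens_chart (ξ := ξ) (ξ • deriv (G s) 0) (hX.nz2 _ m0) (hX.orth _ m0)
      (hX.ann _ m0 _ t1 t2) (nm s hs).2.1
    have a2 : dens (nst l (γ s)) (nst' l (γ s) (γ' s)) = dens (γ s) (γ' s) :=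
      dens_sc _ (inv_ne_zero (c0 s hs)) _ _
    rw [hv, dens_eq hX (h.mem s)] at a2
    have a3 := a1.symm.trans a2
    rw [show ‖dot (sc (dot l (γ s).1)⁻¹ (γ s)).2 v‖ * (nn (sc (dot l (γ s).1)⁻¹ (γ s)).1 *
      √(nn (sc (dot l (γ s).1)⁻¹ (γ s)).1)) = ‖T s‖ from (nT s hs).symm,
      div_eq_iff (T0 s hs).ne'] at a3
    rw [a3]; ring
  have e2 : sp (γ s) (γ' s) ^ 2 = ‖ξ‖ ^ 2 * (nn (crs (nst l (γ s)).1 (e + deriv (W s) 0 • v)) /
      nn (nst l (γ s)).1 ^ 2) := by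
    have a2 : sp (nst l (γ s)) (nst' l (γ s) (γ' s)) = sp (γ s) (γ' s) :=
      sp_sc _ (inv_ne_zero (c0 s hs)) _ _
    have a1 := sp_chart (nst l (γ s)).1 (nst l (γ s)).2 (e + deriv (W s) 0 • v)
      (ξ • deriv (G s) 0) ξ
    rw [hv] at a2
    rw [← a2, show sp (nst l (γ s)) (ξ • (e + deriv (W s) 0 • v, deriv (G s) 0)) = _ from a1,
      div_pow, mul_pow, Real.sq_sqrt (nn_nonneg _), mul_div_assoc]
  have nβ : ‖T s * Y'‖ = ‖T s‖ * |Y'| := by rw [norm_mul, norm_real, Real.norm_eq_abs]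
  have sp0 := sp_nonneg (γ s) (γ' s)
  have bβ : ‖T s * Y'‖ ≤ K * ‖ξ‖ := by
    have a1 : |dlw (γ s) (γ' s)| ≤ 5 * sp (γ s) (γ' s) := by
      refine abs_le_of_sq_le_sq ?_ (by positivity)
      nlinarith [h.dlw_le hX s, sq_nonneg (sp (γ s) (γ' s))]
    have a2 := y3 _ ⟨h.len_nonneg hX s, hs'⟩
    have a3 : |y' (len γ γ' s) * sp (γ s) (γ' s) - dlw (γ s) (γ' s) * y (len γ γ' s) / 2|
        ≤ 4 * sp (γ s) (γ' s) := by
      refine (abs_sub _ _).trans ?_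
      rw [abs_mul, abs_div, abs_mul, abs_of_nonneg sp0, abs_of_nonneg (y2 _).1, abs_two]
      nlinarith [(y2 (len γ γ' s)).1, (y2 (len γ γ' s)).2, abs_nonneg (dlw (γ s) (γ' s))]
    have a4 := Ex0 s
    rw [nβ, e1, hY', abs_mul, abs_of_pos a4]
    calc _ ≤ ‖T s‖ * (Ex s * (4 * sp (γ s) (γ' s))) := by gcongr
      _ ≤ ‖T s‖ * (Ex s * (4 * sp (γ s) (γ' s))) * (E1 * Ex s) :=
        le_mul_of_one_le_right (by positivity) (Exb s hs).2
      _ = 4 * E1 * (‖T s‖ * sp (γ s) (γ' s) * Ex s ^ 2) := by ring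
      _ ≤ _ := by gcongr; exact le_add_of_nonneg_left (by positivity)
  have key := hr _ _ _ (τ s) ξ (T s * Y') (hWG s hs) (nm s hs).2.1 (nm s hs).2.2.1 (bτ s hs) bβ
  rw [← nT s hs, nβ, nτ] at key
  have key2 := key.trans (pt_real (T0 s hs) (Ex0 s) sp0 hε e1 e2 (h.dlw_le hX s))
  rw [dens_eq hX (h.mem s)]
  refine le_trans (le_of_eq (Finset.sum_congr rfl fun j _ => ?_)) (key2.trans ?_)
  · rw [(hδ j).2.2.2 s hs, (dτ.mul_const _).deriv]
  · have a1 := (Exb s hs).1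
    have a2 := Ex0 s
    have a3 := hr2.1
    gcongr

/-- the weighted length -/
noncomputable def cost (γ γ' : ℝ → E × E) (L : ℝ) : ℝ := ∫ s in (0 : ℝ)..L, dens (γ s) (γ' s)

lemma gain_int (hX : Pk X B C) (h : Pth X x0 γ γ' L) {Λ : ℝ} (hΛ : 0 < Λ)
    (hL : Λ + 1 ≤ len γ γ' L) {δ δ' : ℕ → ℝ → E × E} {g : ℝ → ℝ} (hg : Continuous g)
    (h1 : ∀ j, Pth X x0 (δ j) (δ' j) L ∧ δ j L = γ L ∧
        ∀ s, Λ < len γ γ' s → dens (δ j s) (δ' j s) = dens (γ s) (γ' s))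
    (h2 : ∀ s, len γ γ' s ≤ Λ + 1 → ∑ j ∈ Finset.range 4, dens (δ j s) (δ' j s) ≤
          4 * dens (γ s) (γ' s) + sp (γ s) (γ' s) * g (len γ γ' s)) :
    ∑ j ∈ Finset.range 4, cost (δ j) (δ' j) L ≤
      4 * cost γ γ' L + ∫ u in (0 : ℝ)..(Λ + 1), g u := by
  have cl : Continuous (len γ γ') :=
    continuous_iff_continuousAt.2 fun s => (h.dlen hX s).continuousAt
  obtain ⟨s2, hs2, e2⟩ := intermediate_value_Icc h.L0 cl.continuousOn
    (show Λ + 1 ∈ Set.Icc (len γ γ' 0) (len γ γ' L) from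
      ⟨by rw [h.len_neg le_rfl]; linarith, hL⟩)
  set D : ℝ → ℝ := fun s => ∑ j ∈ Finset.range 4, dens (δ j s) (δ' j s) - 4 * dens (γ s) (γ' s)
    with hD
  have c1 : Continuous fun s => ∑ j ∈ Finset.range 4, dens (δ j s) (δ' j s) :=
    continuous_finsetSum _ fun j _ => (h1 j).1.cdens hX
  have c2 : Continuous fun s => 4 * dens (γ s) (γ' s) := continuous_const.mul (h.cdens hX)
  have cD : Continuous D := c1.sub c2
  have e1 : ∫ s in (0 : ℝ)..L, D s =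
      ∑ j ∈ Finset.range 4, cost (δ j) (δ' j) L - 4 * cost γ γ' L := by
    simp only [hD, cost]
    rw [intervalIntegral.integral_sub (c1.intervalIntegrable _ _) (c2.intervalIntegrable _ _),
      intervalIntegral.integral_finsetSum fun j _ => ((h1 j).1.cdens hX).intervalIntegrable _ _,
      intervalIntegral.integral_const_mul]
  have e3 := intervalIntegral.integral_add_adjacent_intervals (μ := MeasureTheory.volume)
    (cD.intervalIntegrable 0 s2) (cD.intervalIntegrable s2 L)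
  have e4 : ∫ s in s2..L, D s = 0 := by
    rw [intervalIntegral.integral_congr (g := fun _ => 0), intervalIntegral.integral_zero]
    intro s hs
    rw [Set.uIcc_of_le hs2.2] at hs
    have : Λ < len γ γ' s := by linarith [h.len_mono hX hs.1]
    simp only [hD, fun j => (h1 j).2.2 s this]
    simp
  have e5 := intervalIntegral.integral_comp_mul_deriv (a := 0) (b := s2)
    (fun s _ => h.dlen hX s) (h.csp hX).continuousOn hg
  rw [h.len_neg le_rfl, e2] at e5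
  have e6 := intervalIntegral.integral_mono_on (μ := MeasureTheory.volume) hs2.1
    (cD.intervalIntegrable 0 s2) (((hg.comp cl).mul (h.csp hX)).intervalIntegrable 0 s2)
    fun s hs => by
      have := h2 s (by linarith [h.len_mono hX hs.2])
      simp only [hD, Pi.mul_apply, Function.comp]
      linarith
  have e7 : ∫ u in (0 : ℝ)..s2, ((g ∘ len γ γ') * fun s => sp (γ s) (γ' s)) u =
      ∫ u in (0 : ℝ)..(Λ + 1), g u := e5
  linarith

theorem Pk.false (hX : Pk X B C) (hB : B < 24) : False := by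
  set ε := (24 - B) / 48 with hε
  have ε0 : 0 < ε := by rw [hε]; linarith
  have d0 : 0 < 6 - (1 + ε) * B / 4 := by rw [hε]; nlinarith
  obtain ⟨Λ, y, y', hΛ, dy, cy, y0, y1, y2, y3, hI⟩ :=
    bump (show 0 < 1 + 1 / ε by positivity) d0
  set J := ∫ u in (0 : ℝ)..(Λ + 1), ((1 + 1 / ε) * y' u ^ 2 - (6 - (1 + ε) * B / 4) * y u ^ 2)
    with hJ
  have cy0 : Continuous y := continuous_iff_continuousAt.2 fun s => (dy s).continuousAt
  obtain ⟨x0, hx⟩ := hX.ne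
  obtain ⟨T, η, hη, hT, hfr⟩ := hX.frames (show 0 < Λ + 2 by linarith)
  have key : ∀ f ∈ T, ∀ᶠ r : ℝ in 𝓝[>] (0 : ℝ), ∀ γ γ' L, Pth X x0 γ γ' L →
      Λ + 1 ≤ len γ γ' L → (∀ s, len γ γ' s ≤ Λ + 2 → Mg f.2.1 f.2.2 η (γ s)) →
      ∃ δ δ' : ℕ → ℝ → E × E, (∀ j, Pth X x0 (δ j) (δ' j) L ∧ δ j L = γ L) ∧
        ∑ j ∈ Finset.range 4, cost (δ j) (δ' j) L ≤ 4 * cost γ γ' L + r ^ 2 * J / 2 := by
    intro f hf
    obtain ⟨C1, hC1, hr⟩ := gain_pt hX (by linarith) x0 (hT f hf) hη hΛ ε0 dy cy y0 y1 y2 y3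
    filter_upwards [hr, Ioo_mem_nhdsGT (show 0 < -J / 2 / (C1 * (Λ + 1) + 1) from
      div_pos (by linarith) (by positivity))] with r h1 h2 γ γ' L h hL hm
    obtain ⟨δ, δ', k1, k2⟩ := h1 γ γ' L h (by linarith) hm
    refine ⟨δ, δ', fun j => ⟨(k1 j).1, (k1 j).2.1⟩, ?_⟩
    have cf : Continuous fun u => (1 + 1 / ε) * y' u ^ 2 - (6 - (1 + ε) * B / 4) * y u ^ 2 := by
      fun_prop
    have := gain_int hX h hΛ hL (g := fun u => r ^ 2 * ((1 + 1 / ε) * y' u ^ 2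
      - (6 - (1 + ε) * B / 4) * y u ^ 2) + C1 * r ^ 3) (by fun_prop) k1 k2
    rw [intervalIntegral.integral_add ((cf.const_mul (r ^ 2)).intervalIntegrable _ _)
      (continuous_const.intervalIntegrable _ _), intervalIntegral.integral_const_mul,
      intervalIntegral.integral_const, ← hJ, sub_zero, smul_eq_mul] at this
    have a1 := h2.2
    rw [lt_div_iff₀ (by positivity)] at a1
    have a2 := mul_le_mul_of_nonneg_left a1.le (sq_nonneg r)
    have a3 : 0 ≤ r ^ 3 := pow_nonneg h2.1.le 3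
    nlinarith
  obtain ⟨r, hr, r0⟩ := (((Filter.eventually_all_finset T).2 key).and self_mem_nhdsWithin).exists
  have r0' : 0 < r := r0
  set A : Set ℝ := {c | ∃ γ γ' L, Pth X x0 γ γ' L ∧ lw x0 + 5 * (Λ + 1) ≤ lw (γ L) ∧
    c = cost γ γ' L} with hA
  have A1 : A.Nonempty := by
    obtain ⟨γ, γ', L, h1, h2⟩ := hX.reach hx (lw x0 + 5 * (Λ + 1))
    exact ⟨_, γ, γ', L, h1, h2, rfl⟩
  have A2 : BddBelow A := ⟨0, by
    rintro _ ⟨γ, γ', L, h1, -, rfl⟩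
    exact intervalIntegral.integral_nonneg h1.L0 fun s _ => dens_nonneg _ _⟩
  have p0 : 0 < r ^ 2 * -J := mul_pos (by positivity) (by linarith)
  obtain ⟨_, ⟨γ, γ', L, h1, h2, rfl⟩, h3⟩ :=
    exists_lt_of_csInf_lt A1 (show sInf A < sInf A + r ^ 2 * -J / 8 by linarith)
  obtain ⟨f, hf, hm⟩ := hfr x0 γ γ' L h1
  have h4 := (abs_le.1 (h1.lw_le hX (by linarith) L)).2
  obtain ⟨δ, δ', k1, k2⟩ := hr f hf γ γ' L h1 (by linarith) hm
  have k3 : ∀ j, sInf A ≤ cost (δ j) (δ' j) L := fun j =>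
    csInf_le A2 ⟨δ j, δ' j, L, (k1 j).1, by rw [(k1 j).2]; exact h2, rfl⟩
  have k4 := Finset.sum_le_sum fun j (_ : j ∈ Finset.range 4) => k3 j
  simp only [Finset.sum_const, Finset.card_range, nsmul_eq_mul, Nat.cast_ofNat] at k4
  linarith

end Pool.Agent.Lib.MP_4e4ac8_an
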