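import Pool.Agent.Lib.MP_4e4ac8_an.CAlg

/-!
State space of points with conormals, horizontal curves, leaf charts and paths.
-/

set_option autoImplicit false
open Filter Topology Complex ComplexConjugate Metric

namespace Pool.Agent.Lib.MP_4e4ac8_an

/-- `k` is the velocity of a curve in `X` through `x` -/
def TanX (X : Set (E × E)) (x k : E × E) : Prop :=
  ∃ β : ℝ → E × E, β 0 = x ∧ (∀ᶠ t in 𝓝 (0 : ℝ), β t ∈ X) ∧ HasDerivAt β k 0

/-- a holomorphic leaf chart, written as a graph in the directions `e`, `v` -/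
structure Chart (X : Set (E × E)) (e v : E) (ρ M : ℝ) (x : E × E) (W : ℂ → ℂ) (G : ℂ → E) :
    Prop where
  dW : DifferentiableOn ℂ W (ball 0 ρ)
  dG : DifferentiableOn ℂ G (ball 0 ρ)
  W0 : W 0 = 0
  G0 : G 0 = x.2
  mem : ∀ z ∈ ball (0 : ℂ) ρ, (x.1 + z • e + W z • v, G z) ∈ X
  bW : ∀ z ∈ ball (0 : ℂ) ρ, ‖W z‖ ≤ M * ‖z‖
  bG : ∀ z ∈ ball (0 : ℂ) ρ, ‖dot x.2 v / dot (G z) v - 1‖ ≤ 1 / 2

/-- the properties of the state space used by the variational argument -/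
structure Pk (X : Set (E × E)) (B C : ℝ) : Prop where
  ne : X.Nonempty
  nz1 : ∀ x ∈ X, x.1 ≠ 0
  nz2 : ∀ x ∈ X, x.2 ≠ 0
  orth : ∀ x ∈ X, dot x.2 x.1 = 0
  scale : ∀ x ∈ X, ∀ c : ℂ, c ≠ 0 → (c • x.1, c⁻¹ • x.2) ∈ X
  ann : ∀ x ∈ X, ∀ k, TanX X x k → TanX X x (I • k) → dot x.2 k.1 = 0
  grad : ∀ x ∈ X, ∀ k, TanX X x k → TanX X x (I • k) →
    normSq (hm k.1 x.1 / nn x.1 + hm k.2 x.2 / nn x.2) ≤ B * (nn (crs x.1 k.1) / nn x.1 ^ 2)
  dual : ∀ x ∈ X, ∀ k, TanX X x k → TanX X x (I • k) →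
    nn (crs x.2 k.2) / nn x.2 ^ 2 ≤ C * (nn (crs x.1 k.1) / nn x.1 ^ 2)
  chart : ∀ e v : E, ∀ η : ℝ, 0 < η → ∃ ρ : ℝ, 0 < ρ ∧ ∃ M : ℝ, 0 ≤ M ∧ ∀ x ∈ X,
    dot (crs v e) x.1 = 1 → nn x.1 * η ≤ 1 → η * nn x.2 ≤ normSq (dot x.2 v) →
    ∃ W G, Chart X e v ρ M x W G
  uniq : ∀ a e v : E, dot (crs v e) a = 1 → ∀ (γ γ' : ℝ → E × E) (s0 ρ M : ℝ) (W : ℂ → ℂ)
    (G : ℂ → E), 0 < ρ → Chart X e v ρ M (γ s0) W G →
    (∀ᶠ s in 𝓝 s0, HasDerivAt γ (γ' s) s ∧ γ s ∈ X ∧ TanX X (γ s) (I • γ' s) ∧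
      dot (crs v e) (γ s).1 = 1) → ContinuousAt γ' s0 →
    ∀ᶠ s in 𝓝 s0, γ s = ((γ s0).1 + dot (crs a v) ((γ s).1 - (γ s0).1) • e +
      W (dot (crs a v) ((γ s).1 - (γ s0).1)) • v, G (dot (crs a v) ((γ s).1 - (γ s0).1)))

/-- speed in the Fubini-Study metric -/
noncomputable def sp (x k : E × E) : ℝ := √(nn (crs x.1 k.1)) / nn x.1

/-- speed in the weighted metric -/
noncomputable def dens (x k : E × E) : ℝ := sp x k / √(nn x.1 * nn x.2)

/-- horizontal paths that start at `x0` and are constant outside `[0, L]` -/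
structure Pth (X : Set (E × E)) (x0 : E × E) (γ γ' : ℝ → E × E) (L : ℝ) : Prop where
  L0 : 0 ≤ L
  der : ∀ s, HasDerivAt γ (γ' s) s
  cont : Continuous γ'
  mem : ∀ s, γ s ∈ X
  hor : ∀ s, TanX X (γ s) (I • γ' s)
  start : ∀ s, s ≤ 0 → γ s = x0
  stop : ∀ s, L ≤ s → γ s = γ L

variable {X : Set (E × E)}

lemma tanX_curve {γ : ℝ → E × E} {k : E × E} {s : ℝ} (hm : ∀ᶠ t in 𝓝 s, γ t ∈ X)
    (hd : HasDerivAt γ k s) : TanX X (γ s) k := by
  refine ⟨fun t => γ (s + t), by simp, ?_, ?_⟩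
  · have : Tendsto (fun t : ℝ => s + t) (𝓝 0) (𝓝 s) := by
      have c : Continuous fun t : ℝ => s + t := by fun_prop
      simpa using c.tendsto (0 : ℝ)
    exact this.eventually hm
  · exact HasDerivAt.comp_const_add s 0 (by simpa using hd)

lemma tanX_disc {f : ℂ → E × E} {f' : E × E} {z : ℂ} (hm : ∀ᶠ w in 𝓝 z, f w ∈ X)
    (hd : HasDerivAt f f' z) (ξ : ℂ) : TanX X (f z) (ξ • f') := by
  have h1 : HasDerivAt (fun t : ℝ => z + (t : ℂ) * ξ) ξ 0 := by
    simpa using ((ofRealCLM.hasDerivAt (x := 0)).mul_const ξ).const_add z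
  refine ⟨fun t => f (z + t * ξ), by simp, ?_, ?_⟩
  · have : Tendsto (fun t : ℝ => z + (t : ℂ) * ξ) (𝓝 0) (𝓝 z) := by
      simpa using h1.continuousAt.tendsto
    exact this.eventually hm
  · have h2 : HasDerivAt f f' (z + ((0 : ℝ) : ℂ) * ξ) := by simpa using hd
    exact h2.scomp (0 : ℝ) h1

lemma tanX_zero {x : E × E} (hx : x ∈ X) : TanX X x 0 :=
  ⟨fun _ => x, rfl, Eventually.of_forall fun _ => hx, hasDerivAt_const _ _⟩

/-- the scaling action -/
noncomputable def sc (c : ℂ) (x : E × E) : E × E := (c • x.1, c⁻¹ • x.2)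

/-- the velocity of a scaled curve -/
noncomputable def scd (c c' : ℂ) (x k : E × E) : E × E :=
  (c' • x.1 + c • k.1, (-c' / c ^ 2) • x.2 + c⁻¹ • k.2)

lemma hasDerivAt_sc {γ : ℝ → E × E} {k : E × E} {c : ℝ → ℂ} {c' : ℂ} {s : ℝ}
    (hγ : HasDerivAt γ k s) (hc : HasDerivAt c c' s) (h0 : c s ≠ 0) :
    HasDerivAt (fun s => sc (c s) (γ s)) (scd (c s) c' (γ s) k) s := by
  have h1 := hc.smul hγ.fst
  have h2 := (hc.inv h0).smul hγ.snd
  refine (h1.prodMk h2).congr_deriv ?_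
  simp only [scd, Pi.inv_apply, add_comm]

lemma tanX_sc (hs : ∀ x ∈ X, ∀ c : ℂ, c ≠ 0 → (c • x.1, c⁻¹ • x.2) ∈ X) {x k : E × E}
    (h : TanX X x k) {c : ℂ} (c' : ℂ) (h0 : c ≠ 0) : TanX X (sc c x) (scd c c' x k) := by
  obtain ⟨β, h1, h2, h3⟩ := h
  have hc : HasDerivAt (fun t : ℝ => c + (t : ℂ) * c') c' 0 := by
    simpa using ((ofRealCLM.hasDerivAt (x := 0)).mul_const c').const_add c
  have h4 := hasDerivAt_sc h3 hc (by simpa using h0)
  refine ⟨fun t => sc (c + t * c') (β t), by simp [h1], ?_, by simpa [h1] using h4⟩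
  filter_upwards [h2, hc.continuousAt.eventually_ne (by simpa using h0)] with t a b
  exact hs _ a _ b

lemma I_scd (c c' : ℂ) (x k : E × E) : I • scd c c' x k = scd c (I * c') x (I • k) := by
  simp only [scd, Prod.smul_mk, smul_add, smul_smul, Prod.smul_fst, Prod.smul_snd]
  congr 2 <;> congr 1 <;> ring

lemma sp_sc {c : ℂ} (c' : ℂ) (h0 : c ≠ 0) (x k : E × E) : sp (sc c x) (scd c c' x k) = sp x k := by
  have h : 0 < normSq c := normSq_pos.2 h0
  simp only [sp, sc, scd, crs_smul_left, crs_add_smul, nn_smul]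
  rw [← mul_assoc, Real.sqrt_mul (by positivity), Real.sqrt_mul_self h.le, mul_div_mul_left _ _ h.ne']

lemma nn_sc {c : ℂ} (h0 : c ≠ 0) (x : E × E) :
    nn (sc c x).1 * nn (sc c x).2 = nn x.1 * nn x.2 := by
  have h : 0 < normSq c := normSq_pos.2 h0
  simp only [sc, nn_smul, map_inv₀]; field_simp

lemma dens_sc {c : ℂ} (c' : ℂ) (h0 : c ≠ 0) (x k : E × E) :
    dens (sc c x) (scd c c' x k) = dens x k := by
  rw [dens, dens, sp_sc c' h0, nn_sc h0]

lemma sc_sc {c : ℂ} (h0 : c ≠ 0) (x : E × E) : sc c (sc c⁻¹ x) = x := by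
  simp [sc, smul_smul, h0]

lemma sp_nonneg (x k : E × E) : 0 ≤ sp x k := div_nonneg (Real.sqrt_nonneg _) (nn_nonneg _)

lemma dens_nonneg (x k : E × E) : 0 ≤ dens x k := div_nonneg (sp_nonneg _ _) (Real.sqrt_nonneg _)

lemma sp_sq (x k : E × E) : sp x k ^ 2 = nn (crs x.1 k.1) / nn x.1 ^ 2 := by
  rw [sp, div_pow, Real.sq_sqrt (nn_nonneg _)]

lemma dens_chart {F G e v : E} {b ξ : ℂ} (k2 : E) (hG : G ≠ 0) (h1 : dot G F = 0)
    (h2 : dot G (e + b • v) = 0) (h3 : dot (crs v e) F = 1) :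
    dens (F, G) (ξ • (e + b • v), k2) = ‖ξ‖ / (‖dot G v‖ * (nn F * √(nn F))) := by
  have h4 := conormal_eq h1 h2 h3
  have h5 : nn G = normSq (dot G v) * nn (crs F (e + b • v)) := by
    conv_lhs => rw [h4]
    rw [nn_smul, normSq_neg]
  have h6 : 0 < nn (crs F (e + b • v)) := by
    refine lt_of_le_of_ne (nn_nonneg _) fun h => ?_
    rw [← h, mul_zero] at h5
    exact (nn_pos hG).ne' h5
  have h7 : crs F (ξ • (e + b • v)) = ξ • crs F (e + b • v) := by
    simpa using crs_add_smul F (e + b • v) 0 ξ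
  simp only [dens, sp, h7, nn_smul]
  rw [h5, Real.sqrt_mul (normSq_nonneg _), Real.sqrt_mul (nn_nonneg _),
    Real.sqrt_mul (normSq_nonneg _), ← norm_def, ← norm_def]
  have h8 : 0 < √(nn (crs F (e + b • v))) := Real.sqrt_pos.2 h6
  field_simp

lemma sp_chart (F G w k2 : E) (ξ : ℂ) :
    sp (F, G) (ξ • w, k2) = ‖ξ‖ * √(nn (crs F w)) / nn F := by
  have h7 : crs F (ξ • w) = ξ • crs F w := by simpa using crs_add_smul F w 0 ξ
  simp only [sp, h7, nn_smul]
  rw [Real.sqrt_mul (normSq_nonneg _), ← norm_def]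

lemma Chart.dot_ne {e v : E} {ρ M : ℝ} {x : E × E} {W : ℂ → ℂ} {G : ℂ → E}
    (h : Chart X e v ρ M x W G) {z : ℂ} (hz : z ∈ ball (0 : ℂ) ρ) : dot (G z) v ≠ 0 := by
  intro h0
  have := h.bG z hz
  rw [h0] at this
  norm_num at this

lemma Chart.der {e v : E} {ρ M : ℝ} {x : E × E} {W : ℂ → ℂ} {G : ℂ → E}
    (h : Chart X e v ρ M x W G) {z : ℂ} (hz : z ∈ ball (0 : ℂ) ρ) :
    HasDerivAt (fun z => (x.1 + z • e + W z • v, G z)) (e + deriv W z • v, deriv G z) z := by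
  have a := (h.dW.differentiableAt (isOpen_ball.mem_nhds hz)).hasDerivAt
  have b := (h.dG.differentiableAt (isOpen_ball.mem_nhds hz)).hasDerivAt
  refine HasDerivAt.prodMk ?_ b
  simpa using (((hasDerivAt_id z).smul_const e).const_add x.1).fun_add (a.smul_const v)

lemma Chart.tan {e v : E} {ρ M : ℝ} {x : E × E} {W : ℂ → ℂ} {G : ℂ → E}
    (h : Chart X e v ρ M x W G) {z : ℂ} (hz : z ∈ ball (0 : ℂ) ρ) (ξ : ℂ) :
    TanX X (x.1 + z • e + W z • v, G z) (ξ • (e + deriv W z • v, deriv G z)) :=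
  tanX_disc (f := fun z => (x.1 + z • e + W z • v, G z))
    (by filter_upwards [isOpen_ball.mem_nhds hz] with w hw using h.mem w hw) (h.der hz) ξ

lemma dot_chart {P e v : E} (h : dot (crs v e) P = 1) (z w : ℂ) :
    dot (crs v e) (P + z • e + w • v) = 1 := by
  rw [dot_add_right, dot_add_right, dot_smul_right, dot_smul_right, dot_crs_left, dot_crs_right, h]
  simp

namespace Pth
variable {x0 : E × E} {γ γ' : ℝ → E × E} {L B C : ℝ}

lemma cγ (h : Pth X x0 γ γ' L) : Continuous γ :=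
  continuous_iff_continuousAt.2 fun s => (h.der s).continuousAt

lemma tan (h : Pth X x0 γ γ' L) (s : ℝ) : TanX X (γ s) (γ' s) :=
  tanX_curve (Eventually.of_forall h.mem) (h.der s)

lemma csp (hX : Pk X B C) (h : Pth X x0 γ γ' L) : Continuous fun s => sp (γ s) (γ' s) := by
  have := h.cγ
  have := h.cont
  unfold sp
  exact Continuous.div (by fun_prop) (by fun_prop) fun s => (nn_pos (hX.nz1 _ (h.mem s))).ne'

lemma cdens (hX : Pk X B C) (h : Pth X x0 γ γ' L) : Continuous fun s => dens (γ s) (γ' s) := by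
  have := h.cγ
  unfold dens
  refine Continuous.div (h.csp hX) (by fun_prop) fun s => (Real.sqrt_pos.2 ?_).ne'
  exact mul_pos (nn_pos (hX.nz1 _ (h.mem s))) (nn_pos (hX.nz2 _ (h.mem s)))

lemma der_neg (h : Pth X x0 γ γ' L) {s : ℝ} (hs : s ≤ 0) : γ' s = 0 := by
  have a : ∀ t < (0 : ℝ), γ' t = 0 := fun t ht => by
    refine (h.der t).unique ((hasDerivAt_const t x0).congr_of_eventuallyEq ?_)
    filter_upwards [Iio_mem_nhds ht] with u hu using h.start u hu.le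
  have b : Set.Iic (0 : ℝ) ⊆ {t | γ' t = 0} := by
    rw [← closure_Iio]
    exact closure_minimal a (isClosed_eq h.cont continuous_const)
  exact b hs

lemma der_end (h : Pth X x0 γ γ' L) {s : ℝ} (hs : L ≤ s) : γ' s = 0 := by
  have a : ∀ t ∈ Set.Ioi L, γ' t = 0 := fun t ht => by
    refine (h.der t).unique ((hasDerivAt_const t (γ L)).congr_of_eventuallyEq ?_)
    filter_upwards [Ioi_mem_nhds ht] with u hu using h.stop u hu.le
  have b : Set.Ici L ⊆ {t | γ' t = 0} := by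
    rw [← closure_Ioi]
    exact closure_minimal a (isClosed_eq h.cont continuous_const)
  exact b hs

lemma const {x : E × E} (hx : x ∈ X) : Pth X x (fun _ => x) (fun _ => 0) 0 :=
  ⟨le_rfl, fun _ => hasDerivAt_const _ _, continuous_const, fun _ => hx,
    fun _ => by simpa using tanX_zero hx, fun _ _ => rfl, fun _ _ => rfl⟩

lemma append {δ δ' : ℝ → E × E} {L' : ℝ} (h : Pth X x0 γ γ' L) (h' : Pth X (γ L) δ δ' L') :
    ∃ ε ε', Pth X x0 ε ε' (L + L') ∧ ε (L + L') = δ L' := by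
  have e1 : ∀ s, s ≤ L → γ s + δ (s - L) - γ L = γ s := fun s hs => by
    rw [h'.start _ (by linarith)]; abel
  have e2 : ∀ s, L ≤ s → γ s + δ (s - L) - γ L = δ (s - L) := fun s hs => by
    rw [h.stop _ hs]; abel
  have := h.L0
  have := h'.L0
  refine ⟨fun s => γ s + δ (s - L) - γ L, fun s => γ' s + δ' (s - L), ⟨by linarith, fun s => ?_,
    h.cont.add (h'.cont.comp (by fun_prop)), fun s => ?_, fun s => ?_, fun s hs => ?_,
    fun s hs => ?_⟩, ?_⟩
  · exact ((h.der s).add ((h'.der (s - L)).comp_sub_const s L)).sub_const _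
  · rcases le_total s L with hs | hs
    · rw [e1 s hs]; exact h.mem s
    · rw [e2 s hs]; exact h'.mem _
  · rcases le_total s L with hs | hs
    · rw [e1 s hs, h'.der_neg (by linarith), add_zero]; exact h.hor s
    · rw [e2 s hs, h.der_end hs, zero_add]; exact h'.hor _
  · rw [e1 s (by linarith)]; exact h.start s hs
  · rw [e2 s (by linarith), e2 _ (by linarith), h'.stop _ (by linarith), h'.stop (L + L' - L)
      (by linarith)]
  · show γ (L + L') + δ (L + L' - L) - γ L = _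
    rw [e2 _ (by linarith), add_sub_cancel_left]

end Pth

end Pool.Agent.Lib.MP_4e4ac8_an
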