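import Pool.Agent.Lib.MP_4e4ac8_an.CUniq

/-!
From a strict pointwise bound to a uniform bound.
-/

set_option autoImplicit false
open Filter Topology Complex ComplexConjugate Metric Set

namespace Pool.Agent.Lib.MP_4e4ac8_an

variable {S U : Set E} {r : E → ℝ}

/-- the strict bound at `q`, for unit vectors -/
def Strict (r : E → ℝ) (q : E) : Prop :=
  ∀ e n : E, nn e = 1 → nn n = 1 → hm e q = 0 → hm n q = 0 → hm n e = 0 →
    fderiv ℝ r q e = 0 → fderiv ℝ r q (I • e) = 0 → fderiv ℝ r q (I • n) = 0 →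
    fderiv ℝ r q n ≠ 0 →
    nn q * (fderiv ℝ (fderiv ℝ r) q e (I • n) ^ 2 + fderiv ℝ (fderiv ℝ r) q (I • e) (I • n) ^ 2)
      < 24 * fderiv ℝ r q n ^ 2

lemma par_crs {a b ξ : E} (h1 : dot a ξ = 0) (h2 : dot b ξ = 0) :
    (nn (crs a b) : ℂ) • ξ = hm ξ (crs a b) • crs a b := by
  rw [← hm_self]
  simp only [dot] at h1 h2
  apply ext3 <;> simp only [hm, Pi.smul_apply, smul_eq_mul, crs0, crs1, crs2]
  · linear_combination (-conj (a 2 * b 0 - a 0 * b 2) * b 2 + conj (a 0 * b 1 - a 1 * b 0) * b 1) * h1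
      + (conj (a 2 * b 0 - a 0 * b 2) * a 2 - conj (a 0 * b 1 - a 1 * b 0) * a 1) * h2
  · linear_combination (-conj (a 0 * b 1 - a 1 * b 0) * b 0 + conj (a 1 * b 2 - a 2 * b 1) * b 2) * h1
      + (conj (a 0 * b 1 - a 1 * b 0) * a 0 - conj (a 1 * b 2 - a 2 * b 1) * a 2) * h2
  · linear_combination (-conj (a 1 * b 2 - a 2 * b 1) * b 1 + conj (a 2 * b 0 - a 0 * b 2) * b 0) * h1
      + (conj (a 1 * b 2 - a 2 * b 1) * a 1 - conj (a 2 * b 0 - a 0 * b 2) * a 0) * h2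

lemma quad_smul (H : E →L[ℝ] E →L[ℝ] ℝ) (c : ℂ) (d : ℝ) (ξ n : E) :
    H (c • ξ) (I • d • n) ^ 2 + H (I • c • ξ) (I • d • n) ^ 2 =
      normSq c * d ^ 2 * (H ξ (I • n) ^ 2 + H (I • ξ) (I • n) ^ 2) := by
  have e : ∀ c : ℂ, c • ξ = c.re • ξ + c.im • (I • ξ) := fun c => by
    conv_lhs => rw [← re_add_im c]
    rw [add_smul, mul_smul]; simp
  rw [smul_smul I c, e c, e (I * c), smul_comm I d]
  simp only [map_add, map_smul, _root_.add_apply, _root_.smul_apply, smul_eq_mul, mul_re, mul_im,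
    I_re, I_im, normSq_apply]
  ring

lemma pinch_near (hS : LF S) (h : LocDef S U r) {p0 : E} (hU : p0 ∈ U) (hp : p0 ∈ S)
    (hs : Strict r p0) : ∃ B : ℝ, 0 ≤ B ∧ B < 24 ∧ ∀ᶠ p in 𝓝 p0, p ∈ U ∧ (p ∈ S → Pinch r B p) := by
  set A : E → E := fun p => vecf (cf (fderiv ℝ r p)) with hA
  set N : E → E := fun p => crs (A p) (star p) with hN
  set Q : E → ℝ := fun p => nn p * (fderiv ℝ (fderiv ℝ r) p (N p) (I • star (A p)) ^ 2 +
    fderiv ℝ (fderiv ℝ r) p (I • N p) (I • star (A p)) ^ 2) with hQ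
  have dA : ∀ p v, dot (A p) v = cf (fderiv ℝ r p) v := fun p v => dot_vecf _ _
  have a1 : ∀ p, cf (fderiv ℝ r p) (star (A p)) = nn (A p) := fun p => by
    rw [← dA, ← hm_eq_dot, hm_self]
  have a2 : ∀ p, fderiv ℝ r p (star (A p)) = nn (A p) := fun p => by rw [← cf_re, a1, ofReal_re]
  have a3 : ∀ p ∈ U, p ∈ S → dot (A p) p = 0 := fun p k1 k2 => by
    rw [dA]
    exact (con_of_one (a := cf (fderiv ℝ r p)) h k1 k2 one_ne_zero
      fun v => by rw [ofReal_one, one_mul]).self hS k2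
  have a4 : ∀ p ∈ U, p ∈ S → 0 < nn (N p) := fun p k1 k2 => by
    simp only [hN]
    rw [lagr, hm_star_left, dot_comm, a3 p k1 k2, nn_star]
    simpa using mul_pos (nn_pos (vecf_cf_ne (h.ne p k1 k2))) (nn_pos fun k => hS.nz (k ▸ k2))
  have cA : ContinuousAt A p0 := continuous_vecf_cf.continuousAt.comp (h.cd1 hU).continuousAt
  have cN : ContinuousAt N p0 :=
    ContinuousAt.comp (f := fun p => (A p, star p)) (g := fun z : E × E => crs z.1 z.2)
      (continuous_crs continuous_fst continuous_snd).continuousAt (cA.prodMk continuousAt_id.star)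
  have cH := (h.cd2 hU).continuousAt
  have cQ : ContinuousAt Q p0 := (continuousAt_nn continuousAt_id).mul
    ((((cH.clm_apply cN).clm_apply (cA.star.const_smul I)).pow 2).add
      (((cH.clm_apply (cN.const_smul I)).clm_apply (cA.star.const_smul I)).pow 2))
  have n1 := a4 p0 hU hp
  have n2 : 0 < nn (A p0) := nn_pos (vecf_cf_ne (h.ne p0 hU hp))
  have s1 := Real.sqrt_pos.2 n1
  have s2 := Real.sqrt_pos.2 n2
  have b0 : Q p0 < 24 * (nn (N p0) * nn (A p0) ^ 2) := by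
    have o1 : cf (fderiv ℝ r p0) ((((√(nn (N p0)))⁻¹ : ℝ) : ℂ) • N p0) = 0 := by
      rw [map_smul, ← dA, dot_comm, dot_crs_left, smul_zero]
    have := hs ((((√(nn (N p0)))⁻¹ : ℝ) : ℂ) • N p0) ((√(nn (A p0)))⁻¹ • star (A p0))
      (by rw [nn_smul, normSq_ofReal, ← mul_inv, Real.mul_self_sqrt n1.le, inv_mul_cancel₀ n1.ne'])
      (by rw [← coe_smul, nn_smul, nn_star, normSq_ofReal, ← mul_inv, Real.mul_self_sqrt n2.le,
        inv_mul_cancel₀ n2.ne'])
      (by rw [hm_smul_left, hm_eq_dot, dot_crs_right, mul_zero])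
      (by rw [← coe_smul, hm_smul_left, hm_star_left, a3 p0 hU hp, map_zero, mul_zero])
      (by rw [← coe_smul, hm_smul_left, hm_star_left, dA, o1, map_zero, mul_zero])
      ((cf_eq_zero _ _).1 o1).1 ((cf_eq_zero _ _).1 o1).2
      (by rw [smul_comm, map_smul, cf_I, a1]; simp)
      (by rw [map_smul, a2, smul_eq_mul]; positivity)
    rw [quad_smul, map_smul (fderiv ℝ r p0), a2, normSq_ofReal, ← mul_inv, Real.mul_self_sqrt n1.le, smul_eq_mul,
      mul_pow, inv_pow, Real.sq_sqrt n2.le] at this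
    have k := mul_lt_mul_of_pos_left this (mul_pos n1 n2)
    refine lt_of_le_of_lt (le_of_eq ?_) (k.trans_le (le_of_eq ?_))
    · simp only [hQ]; field_simp
    · field_simp
  have b1 : 0 < nn (N p0) * nn (A p0) ^ 2 := by positivity
  obtain ⟨B, B1, B2⟩ := exists_between ((div_lt_iff₀ b1).2 b0)
  have Q0 : 0 ≤ Q p0 := mul_nonneg (nn_nonneg _) (by positivity)
  refine ⟨B, (div_nonneg Q0 b1.le).trans B1.le, B2, ?_⟩
  have cD : ContinuousAt (fun p => B * (nn (N p) * nn (A p) ^ 2) - Q p) p0 :=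
    (continuousAt_const.mul ((continuousAt_nn cN).mul ((continuousAt_nn cA).pow 2))).sub cQ
  filter_upwards [h.op.mem_nhds hU, cD.eventually (lt_mem_nhds
    (show 0 < B * (nn (N p0) * nn (A p0) ^ 2) - Q p0 by rw [div_lt_iff₀ b1] at B1; linarith))]
    with p k1 k2
  refine ⟨k1, fun k3 ξ n d h1 h2 h3 h4 => ?_⟩
  have m1 := a4 p k1 k3
  have m2 : (nn (N p) : ℂ) ≠ 0 := by exact_mod_cast m1.ne'
  have e1 : ξ = (hm ξ (N p) / nn (N p)) • N p := by
    have := par_crs (a := A p) (b := star p) (ξ := ξ) (by rw [dA]; exact (cf_eq_zero _ _).2 ⟨h1, h2⟩)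
      (by rw [dot_comm, ← hm_eq_dot, h3])
    rw [div_eq_inv_mul, mul_smul, ← this, smul_smul, inv_mul_cancel₀ m2, one_smul]
  rw [h4, e1, quad_smul, map_smul (fderiv ℝ r p), a2, nn_smul, smul_eq_mul]
  have k4 := mul_le_mul_of_nonneg_left (sub_pos.1 k2).le
    (mul_nonneg (normSq_nonneg (hm ξ (N p) / nn (N p))) (sq_nonneg d))
  refine le_trans (le_of_eq ?_) (k4.trans (le_of_eq ?_))
  · simp only [hQ]; ring
  · ring

lemma Pinch.mono {B B' : ℝ} {p : E} (h : Pinch r B p) (hB : B ≤ B') : Pinch r B' p :=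
  fun ξ n d h1 h2 h3 h4 => (h ξ n d h1 h2 h3 h4).trans
    (mul_le_mul_of_nonneg_right hB (mul_nonneg (nn_nonneg _) (sq_nonneg _)))

theorem LF.curv_strict (hS : LF S)
    (h : ∀ p ∈ S, ∃ U r, p ∈ U ∧ LocDef S U r ∧ Strict r p) : False := by
  obtain ⟨B, hB, k⟩ := hS.compact.induction_on (p := fun K => ∃ B : ℝ, B < 24 ∧ ∀ p ∈ K, p ∈ S →
      ∃ U r, p ∈ U ∧ LocDef S U r ∧ Pinch r B p) ⟨0, by norm_num, by simp⟩
    (fun s t hst ⟨B, h1, h2⟩ => ⟨B, h1, fun p hp => h2 p (hst hp)⟩)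
    (by
      rintro s t ⟨B, h1, h2⟩ ⟨B', h1', h2'⟩
      refine ⟨max B B', max_lt h1 h1', fun p hp hpS => ?_⟩
      rcases hp with hp | hp
      · obtain ⟨U, r, a, b, c⟩ := h2 p hp hpS
        exact ⟨U, r, a, b, c.mono (le_max_left _ _)⟩
      · obtain ⟨U, r, a, b, c⟩ := h2' p hp hpS
        exact ⟨U, r, a, b, c.mono (le_max_right _ _)⟩)
    (by
      intro p0 hp0
      obtain ⟨U, r, a, b, c⟩ := h p0 hp0.1
      obtain ⟨B, -, h1, h2⟩ := pinch_near hS b a hp0.1 c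
      exact ⟨_, mem_nhdsWithin_of_mem_nhds h2, B, h1, fun p hp hpS => ⟨U, r, hp.1, b, hp.2 hpS⟩⟩)
  exact hS.curv hB fun p hp h1 => k p ⟨hp, h1⟩ hp

end Pool.Agent.Lib.MP_4e4ac8_an
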