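import Pool.Agent.Lib.MP_4e4ac8_an.CTan

/-!
Local leaves of a Levi-flat cone as holomorphic graphs.
-/

set_option autoImplicit false
open Filter Topology Complex ComplexConjugate Metric Set Asymptotics
open scoped NNReal

namespace Pool.Agent.Lib.MP_4e4ac8_an

variable {S U : Set E} {r : E → ℝ}

/-- the slope function of the complex tangent line and its bounds on a ball -/
structure LocA (S U : Set E) (r : E → ℝ) (e v p0 : E) (R L : ℝ) (a : E → ℂ)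
    (Da : E → E →L[ℝ] ℂ) : Prop where
  R0 : 0 < R
  L0 : 0 < L
  sub : ball p0 R ⊆ U
  ne : ∀ y ∈ ball p0 R, cf (fderiv ℝ r y) v ≠ 0
  eq : ∀ y ∈ ball p0 R, cf (fderiv ℝ r y) (e + a y • v) = 0
  der : ∀ y ∈ ball p0 R, HasFDerivAt a (Da y) y
  lin : ∀ y ∈ ball p0 R, y ∈ S → ∀ c : ℂ, Da y (c • (e + a y • v)) = c * Da y (e + a y • v)
  b0 : ∀ y ∈ ball p0 R, ‖a y‖ ≤ L
  b1 : ∀ y ∈ ball p0 R, ‖Da y‖ ≤ L
  b2 : ∀ y ∈ ball p0 R, ∀ y' ∈ ball p0 R, ‖a y' - a y - Da y (y' - y)‖ ≤ L * ‖y' - y‖ ^ 2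

lemma contDiff_cf (v : E) : ContDiff ℝ 2 fun D : E →L[ℝ] ℝ => cf D v := by
  simp only [cf_apply]
  have a : ∀ w : E, ContDiff ℝ 2 fun D : E →L[ℝ] ℝ => ((D w : ℝ) : ℂ) := fun w =>
    ofRealCLM.contDiff.comp (contDiff_id.clm_apply contDiff_const)
  exact (a v).sub (contDiff_const.mul (a _))

lemma levi_lin (h : LocDef S U r) {y ξ : E} (hy : y ∈ U) (hS : y ∈ S)
    (hξ : cf (fderiv ℝ r y) ξ = 0) (c : ℂ) :
    cf (fderiv ℝ (fderiv ℝ r) y (c • ξ)) ξ = c * cf (fderiv ℝ (fderiv ℝ r) y ξ) ξ := by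
  have a := h.levi y hy hS ξ ((cf_eq_zero _ _).1 hξ).1 ((cf_eq_zero _ _).1 hξ).2
  have b := h.symm hy ξ (I • ξ)
  have e : c • ξ = c.re • ξ + c.im • (I • ξ) := by
    conv_lhs => rw [← re_add_im c]
    rw [add_smul, mul_smul]; simp
  have a' : fderiv ℝ (fderiv ℝ r) y (I • ξ) (I • ξ) = -fderiv ℝ (fderiv ℝ r) y ξ ξ := by linarith
  rw [e, map_add, map_smul, map_smul]
  simp only [cf_apply, _root_.add_apply, _root_.smul_apply, smul_eq_mul, a', ← b]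
  apply Complex.ext
  · simp
  · simp; ring

lemma exists_locA (h : LocDef S U r) {p0 : E} (hU : p0 ∈ U) (e : E) {v : E}
    (hv : cf (fderiv ℝ r p0) v ≠ 0) : ∃ R L a Da, LocA S U r e v p0 R L a Da := by
  set a : E → ℂ := fun y => -cf (fderiv ℝ r y) e * (cf (fderiv ℝ r y) v)⁻¹ with ha
  have c1 : ∀ w, ∀ y ∈ U, ContDiffAt ℝ 2 (fun y => cf (fderiv ℝ r y) w) y := fun w y hy =>
    (contDiff_cf w).contDiffAt.comp y (h.cd1 hy)
  have c2 : ∀ y ∈ U, cf (fderiv ℝ r y) v ≠ 0 → ContDiffAt ℝ 2 a y := fun y hy hn =>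
    (c1 e y hy).neg.mul ((c1 v y hy).inv hn)
  have c3 : ContDiffAt ℝ 1 (fderiv ℝ a) p0 := (c2 p0 hU hv).fderiv_right (by norm_num)
  obtain ⟨K, t, ht, hK⟩ := c3.exists_lipschitzOnWith
  have q1 : ContinuousAt (fun y => ‖a y‖) p0 := (c2 p0 hU hv).continuousAt.norm
  have q2 : ContinuousAt (fun y => ‖fderiv ℝ a y‖) p0 :=
    ContinuousAt.norm (E := E →L[ℝ] ℂ) c3.continuousAt
  have ev : ∀ᶠ y in 𝓝 p0, y ∈ U ∧ y ∈ t ∧ cf (fderiv ℝ r y) v ≠ 0 ∧ ‖a y‖ < ‖a p0‖ + 1 ∧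
      ‖fderiv ℝ a y‖ < ‖fderiv ℝ a p0‖ + 1 :=
    Filter.Eventually.and (h.op.mem_nhds hU) (Filter.Eventually.and ht
      (((c1 v p0 hU).continuousAt.eventually_ne hv).and
        ((q1.eventually (gt_mem_nhds (lt_add_one _))).and
          (q2.eventually (gt_mem_nhds (lt_add_one _))))))
  obtain ⟨R, hR, hb⟩ := Metric.eventually_nhds_iff_ball.1 ev
  have K0 : (0 : ℝ) ≤ K := K.2
  have n1 := norm_nonneg (a p0)
  have n2 := norm_nonneg (fderiv ℝ a p0)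
  have eq : ∀ y ∈ ball p0 R, cf (fderiv ℝ r y) (e + a y • v) = 0 := fun y hy => by
    have := (hb y hy).2.2.1
    rw [map_add, map_smul, smul_eq_mul]
    simp only [ha]; field_simp; ring
  have der : ∀ y ∈ ball p0 R, HasFDerivAt a (fderiv ℝ a y) y := fun y hy =>
    ((c2 y (hb y hy).1 (hb y hy).2.2.1).differentiableAt (by norm_num)).hasFDerivAt
  refine ⟨R, ‖a p0‖ + 1 + ‖fderiv ℝ a p0‖ + K, a, fderiv ℝ a, hR, by positivity,
    fun y hy => (hb y hy).1, fun y hy => (hb y hy).2.2.1, eq, der, fun y hy hS c => ?_,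
    fun y hy => by linarith [(hb y hy).2.2.2.1], fun y hy => by linarith [(hb y hy).2.2.2.2],
    fun y hy y' hy' => ?_⟩
  · have key : ∀ u, fderiv ℝ a y u * cf (fderiv ℝ r y) v =
        -cf (fderiv ℝ (fderiv ℝ r) y u) (e + a y • v) := by
      intro u
      have l1 : HasDerivAt (fun t : ℝ => y + t • u) u 0 := by
        simpa using ((hasDerivAt_id (0 : ℝ)).smul_const u).const_add y
      have l2 : HasFDerivAt (fderiv ℝ r) (fderiv ℝ (fderiv ℝ r) y) (y + (0 : ℝ) • u) := by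
        simpa using h.fd1 (hb y hy).1
      have l3 : HasFDerivAt a (fderiv ℝ a y) (y + (0 : ℝ) • u) := by simpa using der y hy
      have l4 := hasDerivAt_cf (l2.comp_hasDerivAt 0 l1)
      have l5 := (l4 e).fun_add ((l3.comp_hasDerivAt 0 l1).fun_mul (l4 v))
      have l6 := l5.unique ((hasDerivAt_const (0 : ℝ) (0 : ℂ)).congr_of_eventuallyEq (by
        filter_upwards [l1.continuousAt.eventually_mem (isOpen_ball.mem_nhds
          (show y + (0 : ℝ) • u ∈ ball p0 R by simpa using hy))] with t ht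
        simpa using eq _ ht))
      simp only [Function.comp, zero_smul, add_zero] at l6
      rw [map_add, map_smul, smul_eq_mul]
      linear_combination l6
    have k1 := key (c • (e + a y • v))
    have k2 := key (e + a y • v)
    rw [levi_lin h (hb y hy).1 hS (eq y hy)] at k1
    exact mul_right_cancel₀ (hb y hy).2.2.1 (by linear_combination k1 - c * k2)
  · have sub : segment ℝ y y' ⊆ ball p0 R := (convex_ball p0 R).segment_subset hy hy'
    have := (convex_segment y y').norm_image_sub_le_of_norm_hasFDerivWithin_le'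
      (fun x hx => (der x (sub hx)).hasFDerivWithinAt) (φ := fderiv ℝ a y) (C := K * ‖y' - y‖)
      (fun x hx => by
        have a1 := hK.dist_le_mul x (hb x (sub hx)).2.1 y (hb y hy).2.1
        rw [dist_eq_norm, dist_eq_norm] at a1
        refine a1.trans (mul_le_mul_of_nonneg_left ?_ K0)
        have := (segment_subset_closedBall_left y y') hx
        rwa [mem_closedBall, dist_eq_norm, dist_eq_norm, norm_sub_rev y y'] at this)
      (left_mem_segment ℝ y y') (right_mem_segment ℝ y y')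
    refine this.trans ?_
    rw [mul_assoc, ← pow_two]
    gcongr; linarith

lemma pl_ball {f : ℝ → ℂ → ℂ} {t₀ : Icc (0 : ℝ) 1} {a L K : ℝ≥0}
    (hf : IsPicardLindelof f t₀ 0 a 0 L K) : ∃ α : ℝ → ℂ, α t₀ = 0 ∧ (∀ t, ‖α t‖ ≤ a) ∧
      ∀ t ∈ Icc (0 : ℝ) 1, HasDerivWithinAt α (f t (α t)) (Icc 0 1) t := by
  have hx : (0 : ℂ) ∈ closedBall (0 : ℂ) (0 : ℝ≥0) := mem_closedBall_self le_rfl
  obtain ⟨α, hα⟩ := ODE.FunSpace.exists_isFixedPt_next hf hx
  refine ⟨α.compProj, by rw [ODE.FunSpace.compProj_val, ← hα, ODE.FunSpace.next_apply₀],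
    fun t => mem_closedBall_zero_iff.1 (α.compProj_mem_closedBall hf.mul_max_le), fun t ht => ?_⟩
  apply ODE.hasDerivWithinAt_picard_Icc t₀.2 hf.continuousOn_uncurry
    α.continuous_compProj.continuousOn (fun _ _ => α.compProj_mem_closedBall hf.mul_max_le)
    0 ht |>.congr_of_mem _ ht
  intro t' ht'
  nth_rw 1 [← hα]
  rw [ODE.FunSpace.compProj_of_mem ht', ODE.FunSpace.next_apply]

lemma gron1 {f f' : ℝ → ℂ} {δ K ε : ℝ} (hK : 0 < K) (hδ : 0 ≤ δ) (hε : 0 ≤ ε)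
    (hf : ∀ t ∈ Icc (0 : ℝ) 1, HasDerivWithinAt f (f' t) (Icc 0 1) t) (h0 : ‖f 0‖ ≤ δ)
    (hb : ∀ t ∈ Icc (0 : ℝ) 1, ‖f' t‖ ≤ K * ‖f t‖ + ε) {t : ℝ} (ht : t ∈ Icc (0 : ℝ) 1) :
    ‖f t‖ ≤ (δ + ε / K) * Real.exp K := by
  have := norm_le_gronwallBound_of_norm_deriv_right_le (fun t ht => (hf t ht).continuousWithinAt)
    (fun t ht => (hf t (Ico_subset_Icc_self ht)).mono_of_mem_nhdsWithin (Icc_mem_nhdsGE_of_mem ht))
    h0 (fun t ht => hb t (Ico_subset_Icc_self ht)) t ht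
  refine this.trans ((gronwallBound_mono hδ hε hK.le (show t - 0 ≤ 1 by linarith [ht.2])).trans ?_)
  rw [gronwallBound_of_K_ne_0 hK.ne']
  simp only [mul_one]
  have : 0 ≤ ε / K := by positivity
  nlinarith

namespace LocA
variable {e v p0 : E} {R L : ℝ} {a : E → ℂ} {Da : E → E →L[ℝ] ℂ}

lemma lip (A : LocA S U r e v p0 R L a Da) {y y' : E} (hy : y ∈ ball p0 R) (hy' : y' ∈ ball p0 R) :
    ‖a y' - a y‖ ≤ L * ‖y' - y‖ :=
  (convex_ball p0 R).norm_image_sub_le_of_norm_hasFDerivWithin_le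
    (fun x hx => (A.der x hx).hasFDerivWithinAt) A.b1 hy hy'

lemma inb (_A : LocA S U r e v p0 R L a Da) {ρ : ℝ} (hR : ρ * (‖e‖ + L * ‖v‖) ≤ R / 2) {p : E}
    (hp : p ∈ ball p0 (R / 2)) {z w : ℂ} (hz : ‖z‖ ≤ ρ) (hw : ‖w‖ ≤ ρ * L) :
    p + z • e + w • v ∈ ball p0 R := by
  rw [mem_ball, dist_eq_norm] at hp ⊢
  have e1 : p + z • e + w • v - p0 = (p - p0) + z • e + w • v := by abel
  have a1 : ‖z • e‖ ≤ ρ * ‖e‖ := by rw [norm_smul]; gcongr
  have a2 : ‖w • v‖ ≤ ρ * L * ‖v‖ := by rw [norm_smul]; gcongr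
  rw [e1]
  exact norm_add₃_le.trans_lt (by linarith)

lemma ray (h : LocDef S U r) (A : LocA S U r e v p0 R L a Da) {ρ : ℝ} (hρ : 0 < ρ)
    (hR : ρ * (‖e‖ + L * ‖v‖) ≤ R / 2) {p : E} (hS : p ∈ S) (hp : p ∈ ball p0 (R / 2)) {z : ℂ}
    (hz : ‖z‖ ≤ ρ) : ∃ α : ℝ → ℂ, α 0 = 0 ∧ ‖α 1‖ ≤ L * ‖z‖ ∧ ∀ t ∈ Icc (0 : ℝ) 1,
      p + (t * z) • e + α t • v ∈ ball p0 R ∧ p + (t * z) • e + α t • v ∈ S ∧
      HasDerivWithinAt α (z * a (p + (t * z) • e + α t • v)) (Icc 0 1) t ∧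
      HasDerivWithinAt (fun t : ℝ => p + (t * z) • e + α t • v)
        (z • (e + a (p + (t * z) • e + α t • v) • v)) (Icc 0 1) t := by
  have L0 := A.L0
  have tz : ∀ t ∈ Icc (0 : ℝ) 1, ‖(t : ℂ) * z‖ ≤ ρ := fun t ht => by
    rw [norm_mul, norm_real, Real.norm_eq_abs, abs_of_nonneg ht.1]
    exact (mul_le_of_le_one_left (norm_nonneg _) ht.2).trans hz
  have hpl : IsPicardLindelof (fun (t : ℝ) (w : ℂ) => z * a (p + (t * z) • e + w • v))
      (⟨0, le_rfl, zero_le_one⟩ : Icc (0 : ℝ) 1) 0 ⟨ρ * L, by positivity⟩ 0 ⟨ρ * L, by positivity⟩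
      ⟨ρ * (L * ‖v‖), by positivity⟩ := by
    refine ⟨fun t ht => LipschitzOnWith.of_dist_le_mul fun w hw w' hw' => ?_, fun w hw => ?_,
      fun t ht w hw => ?_, by simp⟩
    · have := A.lip (A.inb hR hp (tz t ht) (mem_closedBall_zero_iff.1 hw'))
        (A.inb hR hp (tz t ht) (mem_closedBall_zero_iff.1 hw))
      rw [add_sub_add_left_eq_sub, ← sub_smul, norm_smul] at this
      rw [dist_eq_norm, dist_eq_norm, ← mul_sub, norm_mul]
      calc _ ≤ ρ * (L * (‖w - w'‖ * ‖v‖)) := by gcongr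
        _ = ρ * (L * ‖v‖) * ‖w - w'‖ := by ring
    · refine continuousOn_const.mul fun t ht => ContinuousAt.continuousWithinAt ?_
      exact ContinuousAt.comp (f := fun t : ℝ => p + (t * z) • e + w • v)
        (A.der _ (A.inb hR hp (tz t ht) (mem_closedBall_zero_iff.1 hw))).continuousAt
        (by fun_prop)
    · rw [norm_mul]
      exact mul_le_mul hz (A.b0 _ (A.inb hR hp (tz t ht) (mem_closedBall_zero_iff.1 hw)))
        (norm_nonneg _) hρ.le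
  obtain ⟨α, h0, h1, h2⟩ := pl_ball hpl
  have h0' : α 0 = 0 := h0
  have m := fun t ht => A.inb hR hp (tz t ht) (h1 t)
  have d : ∀ t ∈ Icc (0 : ℝ) 1, HasDerivWithinAt (fun t : ℝ => p + (t * z) • e + α t • v)
      (z • (e + a (p + (t * z) • e + α t • v) • v)) (Icc 0 1) t := fun t ht => by
    have a1 : HasDerivAt (fun t : ℝ => (t : ℂ) * z) z t := by
      simpa using (ofRealCLM.hasDerivAt (x := t)).mul_const z
    refine (((a1.hasDerivWithinAt.smul_const e).const_add p).fun_add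
      ((h2 t ht).smul_const v)).congr_deriv ?_
    rw [smul_add, smul_smul]
  have d2 : ∀ t ∈ Icc (0 : ℝ) 1, HasDerivWithinAt (fun t : ℝ => r (p + (t * z) • e + α t • v)) 0
      (Icc 0 1) t := fun t ht => by
    refine ((h.fd (A.sub (m t ht))).comp_hasDerivWithinAt t (d t ht)).congr_deriv ?_
    rw [← cf_re, map_smul, A.eq _ (m t ht), smul_zero, zero_re]
  refine ⟨α, h0', ?_, fun t ht => ⟨m t ht, (h.zero _ (A.sub (m t ht))).2 ?_, h2 t ht, d t ht⟩⟩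
  · have := norm_image_sub_le_of_norm_deriv_le_segment_01' h2 (C := L * ‖z‖) fun t ht => by
      rw [norm_mul, mul_comm]
      exact mul_le_mul_of_nonneg_right (A.b0 _ (m t (Ico_subset_Icc_self ht))) (norm_nonneg _)
    rwa [h0', sub_zero] at this
  · have := norm_image_sub_le_of_norm_deriv_le_segment' d2 (C := 0) (by simp) t ht
    have e0 : r p = 0 := (h.zero _ (A.sub (ball_subset_ball (by linarith [A.R0]) hp))).1 hS
    simpa [h0', e0] using this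

lemma leaf (h : LocDef S U r) (A : LocA S U r e v p0 R L a Da) {ρ : ℝ} (hρ : 0 < ρ)
    (hR : ρ * (‖e‖ + L * ‖v‖) ≤ R / 2) {p : E} (hS : p ∈ S) (hp : p ∈ ball p0 (R / 2)) :
    ∃ W : ℂ → ℂ, W 0 = 0 ∧ ∀ z ∈ ball (0 : ℂ) ρ, p + z • e + W z • v ∈ S ∧
      p + z • e + W z • v ∈ ball p0 R ∧ ‖W z‖ ≤ L * ‖z‖ ∧
      HasDerivAt W (a (p + z • e + W z • v)) z := by
  choose! α h0 h1 h2 using fun z (hz : z ∈ ball (0 : ℂ) ρ) =>
    A.ray h hρ hR hS hp (mem_ball_zero_iff.1 hz).le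
  have L0 := A.L0
  have R0 := A.R0
  refine ⟨fun z => α z 1, by simpa using h1 0 (mem_ball_self hρ), fun z hz => ?_⟩
  have k := h2 z hz 1 ⟨zero_le_one, le_rfl⟩
  simp only [ofReal_one, one_mul] at k
  refine ⟨k.2.1, k.1, h1 z hz, ?_⟩
  set D := ‖e‖ + L * ‖v‖ with hD
  set K := ρ * L * ‖v‖ + ρ * L * (2 * ρ * D * ‖v‖ + 2 * R * ‖v‖) + L * (2 * ρ * ‖v‖) + 1 with hK
  set K2 := ρ * L * D ^ 2 + L * D with hK2
  rw [hasDerivAt_iff_isLittleO_nhds_zero]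
  refine IsBigO.trans_isLittleO (IsBigO.of_bound (K2 / K * Real.exp K) ?_)
    (isLittleO_norm_pow_id (E' := ℂ) one_lt_two)
  have c : ContinuousAt (fun w => z + w) (0 : ℂ) := by fun_prop
  filter_upwards [c.eventually_mem (isOpen_ball.mem_nhds (show z + 0 ∈ ball (0 : ℂ) ρ by
    simpa using hz))] with w hw
  have z1 := (mem_ball_zero_iff.1 hz).le
  have w1 : ‖w‖ ≤ 2 * ρ := by
    have := norm_sub_le (z + w) z
    rw [add_sub_cancel_left] at this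
    linarith [(mem_ball_zero_iff.1 hw).le]
  set Y : ℝ → E := fun t => p + (t * z) • e + α z t • v with hY
  set Z : ℝ → E := fun t => p + (t * (z + w)) • e + α (z + w) t • v with hZ
  set Δ : ℝ → ℂ := fun t => α (z + w) t - α z t - t * w * a (Y t) with hΔ
  have dΔ : ∀ t ∈ Icc (0 : ℝ) 1, HasDerivWithinAt Δ ((z + w) * a (Z t) - z * a (Y t) -
      (w * a (Y t) + t * w * Da (Y t) (z • (e + a (Y t) • v)))) (Icc 0 1) t := fun t ht => by
    have a1 : HasDerivAt (fun t : ℝ => (t : ℂ) * w) w t := by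
      simpa using (ofRealCLM.hasDerivAt (x := t)).mul_const w
    exact ((h2 _ hw t ht).2.2.1.fun_sub (h2 z hz t ht).2.2.1).fun_sub
      (a1.hasDerivWithinAt.fun_mul
        ((A.der _ (h2 z hz t ht).1).comp_hasDerivWithinAt t (h2 z hz t ht).2.2.2))
  have key := gron1 (δ := 0) (K := K) (ε := K2 * ‖w‖ ^ 2) (by positivity) le_rfl (by positivity)
    dΔ (by simp [hΔ, h0 z hz, h0 _ hw]) (fun t ht => by
      have m1 : Y t ∈ ball p0 R := (h2 z hz t ht).1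
      have m2 : Z t ∈ ball p0 R := (h2 _ hw t ht).1
      have e1 : Z t - Y t = (t * w) • (e + a (Y t) • v) + Δ t • v := by
        simp only [hZ, hΔ, smul_add, smul_smul, sub_smul, mul_add, add_smul]
        simp only [hY]; abel
      have e2 : (z + w) * a (Z t) - z * a (Y t) -
          (w * a (Y t) + t * w * Da (Y t) (z • (e + a (Y t) • v))) =
          z * Da (Y t) (Δ t • v) + z * (a (Z t) - a (Y t) - Da (Y t) (Z t - Y t))
            + w * (a (Z t) - a (Y t)) := by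
        rw [e1, map_add (Da (Y t)) (((t : ℂ) * w) • _), A.lin _ m1 (h2 z hz t ht).2.1,
          A.lin _ m1 (h2 z hz t ht).2.1]
        ring
      have n1 : ‖Z t - Y t‖ ≤ ‖w‖ * D + ‖Δ t‖ * ‖v‖ := by
        rw [e1]
        refine (norm_add_le _ _).trans (add_le_add ?_ (norm_smul _ _).le)
        rw [norm_smul, norm_mul, norm_real, Real.norm_eq_abs, abs_of_nonneg ht.1]
        refine mul_le_mul (mul_le_of_le_one_left (norm_nonneg _) ht.2)
          ((norm_add_le _ _).trans ?_) (norm_nonneg _) (norm_nonneg _)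
        rw [norm_smul, hD]; gcongr; exact A.b0 _ m1
      have n2 : ‖Z t - Y t‖ ≤ 2 * R := by
        have := dist_triangle_right (Z t) (Y t) p0
        rw [dist_eq_norm] at this
        linarith [mem_ball.1 m1, mem_ball.1 m2]
      have n3 : ‖Z t - Y t‖ ^ 2 ≤ ‖w‖ ^ 2 * D ^ 2 + (2 * ρ * D * ‖v‖ + 2 * R * ‖v‖) * ‖Δ t‖ := by
        calc _ = ‖Z t - Y t‖ * ‖Z t - Y t‖ := pow_two _
          _ ≤ ‖Z t - Y t‖ * (‖w‖ * D) + ‖Z t - Y t‖ * (‖Δ t‖ * ‖v‖) := by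
            rw [← mul_add]; gcongr
          _ ≤ (‖w‖ * D + ‖Δ t‖ * ‖v‖) * (‖w‖ * D) + 2 * R * (‖Δ t‖ * ‖v‖) := by gcongr
          _ = ‖w‖ ^ 2 * D ^ 2 + ‖w‖ * (D * ‖v‖ * ‖Δ t‖) + 2 * R * (‖Δ t‖ * ‖v‖) := by ring
          _ ≤ ‖w‖ ^ 2 * D ^ 2 + 2 * ρ * (D * ‖v‖ * ‖Δ t‖) + 2 * R * (‖Δ t‖ * ‖v‖) := by gcongr
          _ = _ := by ring
      have n4 : ‖Da (Y t) (Δ t • v)‖ ≤ L * (‖Δ t‖ * ‖v‖) :=
        ((Da (Y t)).le_opNorm _).trans (by rw [norm_smul]; gcongr; exact A.b1 _ m1)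
      have n5 := (A.b2 _ m1 _ m2).trans (mul_le_mul_of_nonneg_left n3 L0.le)
      have n6 := (A.lip m1 m2).trans (mul_le_mul_of_nonneg_left n1 L0.le)
      rw [e2]
      refine norm_add₃_le.trans ?_
      rw [norm_mul, norm_mul, norm_mul]
      calc _ ≤ ρ * (L * (‖Δ t‖ * ‖v‖)) + ρ * (L * (‖w‖ ^ 2 * D ^ 2 +
            (2 * ρ * D * ‖v‖ + 2 * R * ‖v‖) * ‖Δ t‖)) + ‖w‖ * (L * (‖w‖ * D + ‖Δ t‖ * ‖v‖)) := by
            gcongr
        _ = (ρ * L * ‖v‖ + ρ * L * (2 * ρ * D * ‖v‖ + 2 * R * ‖v‖)) * ‖Δ t‖ + K2 * ‖w‖ ^ 2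
            + ‖w‖ * (L * ‖v‖ * ‖Δ t‖) := by rw [hK2]; ring
        _ ≤ (ρ * L * ‖v‖ + ρ * L * (2 * ρ * D * ‖v‖ + 2 * R * ‖v‖)) * ‖Δ t‖ + K2 * ‖w‖ ^ 2
            + 2 * ρ * (L * ‖v‖ * ‖Δ t‖) + ‖Δ t‖ := by
            refine le_add_of_le_of_nonneg ?_ (norm_nonneg _); gcongr
        _ = _ := by rw [hK]; ring) ⟨zero_le_one, le_rfl⟩
  simp only [hΔ, hY, ofReal_one, one_mul, zero_add] at key
  rw [smul_eq_mul, Real.norm_eq_abs, abs_of_nonneg (by positivity)]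
  refine key.trans (le_of_eq ?_)
  ring

end LocA

end Pool.Agent.Lib.MP_4e4ac8_an
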