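import Pool.Agent.Lib.MP_4e4ac8_an.CDefs
import Pool.Agent.Lib.MP_4e4ac8_an.CAvoid
import Pool.Agent.Lib.MP_4e4ac8_an.CAvg2

/-!
Length, horizontal lifts and uniform frames along paths; paths along which the weight decays.
-/

set_option autoImplicit false
open Filter Topology Complex ComplexConjugate Metric

namespace Pool.Agent.Lib.MP_4e4ac8_an

lemma lip_of_deriv {F : Type} [NormedAddCommGroup F] [NormedSpace ℝ F] {u u' : ℝ → F}
    {σ σ' : ℝ → ℝ} {K : ℝ} (hK : 0 ≤ K) (hu : ∀ s, HasDerivAt u (u' s) s)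
    (hσ : ∀ s, HasDerivAt σ (σ' s) s) (hb : ∀ s, ‖u' s‖ ≤ K * σ' s) (s t : ℝ) :
    ‖u s - u t‖ ≤ K * |σ s - σ t| := by
  have key : ∀ s t, t ≤ s → ‖u s - u t‖ ≤ K * |σ s - σ t| := by
    intro s t hts
    have := image_norm_le_of_norm_deriv_right_le_deriv_boundary (f := fun x => u x - u t)
      (f' := u') (a := t) (b := s) (B := fun x => K * (σ x - σ t)) (B' := fun x => K * σ' x)
      (fun x _ => ((hu x).sub_const _).continuousAt.continuousWithinAt)
      (fun x _ => ((hu x).sub_const _).hasDerivWithinAt) (by simp)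
      (fun x => ((hσ x).sub_const _).const_mul K) (fun x _ => hb x) ⟨hts, le_rfl⟩
    exact this.trans (mul_le_mul_of_nonneg_left (le_abs_self _) hK)
  rcases le_total t s with h | h
  · exact key s t h
  · rw [norm_sub_rev, abs_sub_comm]; exact key t s h

lemma hlift {p p' : ℝ → E} {σ σ' : ℝ → ℝ} {K : ℝ} (hK : 0 ≤ K) (hp : ∀ s, HasDerivAt p (p' s) s)
    (hc : Continuous p') (h0 : ∀ s, p s ≠ 0) (hσ : ∀ s, HasDerivAt σ (σ' s) s)
    (hσ0 : ∀ s, 0 ≤ σ' s) (hb : ∀ s, nn (crs (p s) (p' s)) / nn (p s) ^ 2 ≤ (K * σ' s) ^ 2) :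
    ∃ Θ : ℝ → ℂ, (∀ s, HasDerivAt Θ (Θ s * (hm (p' s) (p s) / nn (p s))) s) ∧
      (∀ s, normSq (Θ s) = nn (p s)) ∧
      ∀ s t, ‖(Θ s)⁻¹ • p s - (Θ t)⁻¹ • p t‖ ≤ K * |σ s - σ t| := by
  have cp : Continuous p := continuous_iff_continuousAt.2 fun s => (hp s).continuousAt
  have n0 : ∀ s, 0 < nn (p s) := fun s => nn_pos (h0 s)
  set β : ℝ → ℂ := fun s => hm (p' s) (p s) / nn (p s) with hβ
  have cβ : Continuous β :=
    Continuous.div (by fun_prop) (by fun_prop) fun s => by exact_mod_cast (n0 s).ne'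
  set Θ : ℝ → ℂ := fun s => (√(nn (p 0)) : ℝ) * exp (∫ t in (0 : ℝ)..s, β t) with hΘ
  have dΘ : ∀ s, HasDerivAt Θ (Θ s * β s) s := fun s =>
    ((cβ.integral_hasStrictDerivAt 0 s).hasDerivAt.cexp.const_mul _).congr_deriv (by
      simp only [hΘ]; ring)
  have Θ0 : ∀ s, Θ s ≠ 0 := fun s =>
    mul_ne_zero (by exact_mod_cast (Real.sqrt_pos.2 (n0 0)).ne') (exp_ne_zero _)
  have du : ∀ s, HasDerivAt (fun s => (Θ s)⁻¹ • p s) ((Θ s)⁻¹ • (p' s - β s • p s)) s := fun s =>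
    (((dΘ s).inv (Θ0 s)).smul (hp s)).congr_deriv (by
      have := Θ0 s
      simp only [Pi.inv_apply, smul_smul, sub_eq_add_neg, ← neg_smul, smul_add]
      congr 2; field_simp)
  have dn : ∀ s, HasDerivAt (fun s => nn ((Θ s)⁻¹ • p s)) 0 s := fun s =>
    (hasDerivAt_nn (du s)).congr_deriv (by
      have : (nn (p s) : ℂ) ≠ 0 := by exact_mod_cast (n0 s).ne'
      have e : hm (p' s - β s • p s) (p s) = 0 := by
        rw [sub_eq_add_neg, hm_add_left, ← neg_smul, hm_smul_left, hm_self]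
        simp only [hβ]; field_simp; ring
      rw [hm_smul_left, hm_smul_right, e]; simp)
  have cn : ∀ s, normSq (Θ s) = nn (p s) := fun s => by
    have := is_const_of_deriv_eq_zero (f := fun s => nn ((Θ s)⁻¹ • p s))
      (fun s => (dn s).differentiableAt) (fun s => (dn s).deriv) s 0
    have e : normSq (Θ 0) = nn (p 0) := by simp [hΘ, Real.mul_self_sqrt (n0 0).le]
    simp only [nn_smul, map_inv₀, e] at this
    rw [inv_mul_cancel₀ (n0 0).ne', inv_mul_eq_one₀ (normSq_pos.2 (Θ0 s)).ne'] at this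
    exact this
  refine ⟨Θ, dΘ, cn, lip_of_deriv hK du hσ fun s => ?_⟩
  refine le_of_sq_le_sq ((sq_norm_le_nn _).trans (le_trans (le_of_eq ?_) (hb s)))
    (mul_nonneg hK (hσ0 s))
  rw [nn_smul, map_inv₀, cn, nn_perp (h0 s)]
  field_simp

/-- the Fubini-Study length up to time `s` -/
noncomputable def len (γ γ' : ℝ → E × E) (s : ℝ) : ℝ := ∫ t in (0 : ℝ)..s, sp (γ t) (γ' t)

/-- the logarithm of the inverse weight -/
noncomputable def lw (x : E × E) : ℝ := Real.log (nn x.1 * nn x.2) / 2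

/-- the logarithmic derivative of the inverse weight -/
noncomputable def dlw (x k : E × E) : ℝ := (hm k.1 x.1 / nn x.1 + hm k.2 x.2 / nn x.2).re

variable {X : Set (E × E)} {x0 : E × E} {γ γ' : ℝ → E × E} {L B C : ℝ}

namespace Pth

lemma dlen (hX : Pk X B C) (h : Pth X x0 γ γ' L) (s : ℝ) :
    HasDerivAt (len γ γ') (sp (γ s) (γ' s)) s :=
  ((h.csp hX).integral_hasStrictDerivAt 0 s).hasDerivAt

lemma len_mono (hX : Pk X B C) (h : Pth X x0 γ γ' L) : Monotone (len γ γ') :=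
  monotone_of_deriv_nonneg (fun s => (h.dlen hX s).differentiableAt)
    fun s => by rw [(h.dlen hX s).deriv]; exact sp_nonneg _ _

lemma len_neg (h : Pth X x0 γ γ' L) {s : ℝ} (hs : s ≤ 0) : len γ γ' s = 0 := by
  rw [len, intervalIntegral.integral_congr (g := fun _ => 0), intervalIntegral.integral_zero]
  intro t ht
  rw [Set.uIcc_of_ge hs] at ht
  simp [h.der_neg ht.2, sp, crs_zero_right, nn_zero]

lemma len_nonneg (hX : Pk X B C) (h : Pth X x0 γ γ' L) (s : ℝ) : 0 ≤ len γ γ' s := by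
  rcases le_total s 0 with hs | hs
  · rw [h.len_neg hs]
  · rw [← h.len_neg le_rfl]; exact h.len_mono hX hs

lemma dlw' (hX : Pk X B C) (h : Pth X x0 γ γ' L) (s : ℝ) :
    HasDerivAt (fun s => lw (γ s)) (dlw (γ s) (γ' s)) s := by
  have a := nn_pos (hX.nz1 _ (h.mem s))
  have b := nn_pos (hX.nz2 _ (h.mem s))
  refine ((((hasDerivAt_nn (h.der s).fst).fun_mul (hasDerivAt_nn (h.der s).snd)).log
    (mul_pos a b).ne').div_const 2).congr_deriv ?_
  simp only [dlw, add_re, div_ofReal_re]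
  field_simp

lemma dlw_le (hX : Pk X B C) (h : Pth X x0 γ γ' L) (s : ℝ) :
    dlw (γ s) (γ' s) ^ 2 ≤ B * sp (γ s) (γ' s) ^ 2 := by
  rw [sp_sq]
  refine le_trans ?_ (hX.grad _ (h.mem s) _ (h.tan s) (h.hor s))
  rw [dlw, normSq_apply]
  nlinarith [mul_self_nonneg (hm (γ' s).1 (γ s).1 / nn (γ s).1 + hm (γ' s).2 (γ s).2 /
    nn (γ s).2).im]

lemma lw_le (hX : Pk X B C) (hB : B ≤ 25) (h : Pth X x0 γ γ' L) (s : ℝ) :
    |lw (γ s) - lw x0| ≤ 5 * len γ γ' s := by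
  have := lip_of_deriv (K := 5) (by norm_num) (h.dlw' hX) (h.dlen hX) (fun s => by
    refine le_of_sq_le_sq ?_ (mul_nonneg (by norm_num) (sp_nonneg _ _))
    rw [Real.norm_eq_abs, sq_abs]
    nlinarith [h.dlw_le hX s, sq_nonneg (sp (γ s) (γ' s))]) s 0
  rwa [h.start 0 le_rfl, h.len_neg le_rfl, sub_zero, abs_of_nonneg (h.len_nonneg hX s)] at this

end Pth

/-- the state is transverse to the frame, with margin `η` -/
def Mg (e v : E) (η : ℝ) (x : E × E) : Prop :=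
  η * nn x.1 ≤ normSq (dot (crs v e) x.1) ∧ η * nn x.2 ≤ normSq (dot x.2 v)

lemma Pk.frames (hX : Pk X B C) {Λ : ℝ} (hΛ : 0 < Λ) :
    ∃ (T : Finset (E × E × E)) (η : ℝ), 0 < η ∧ (∀ f ∈ T, dot (crs f.2.2 f.2.1) f.1 = 1) ∧
      ∀ x0 γ γ' L, Pth X x0 γ γ' L → ∃ f ∈ T, ∀ s, len γ γ' s ≤ Λ → Mg f.2.1 f.2.2 η (γ s) := by
  obtain ⟨T, η, h1, h2, h3⟩ := MP_4e4ac8_an.frames (K := 1 + |C|) (by positivity) hΛ
  refine ⟨T, η, h1, h2, fun x0 γ γ' L h => ?_⟩
  have c1 := h.cont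
  have aC := abs_nonneg C
  obtain ⟨Θ, -, a2, a3⟩ := hlift (K := 1 + |C|) (by positivity) (fun s => (h.der s).fst)
    (by fun_prop) (fun s => hX.nz1 _ (h.mem s)) (h.dlen hX) (fun s => sp_nonneg _ _) fun s => by
      rw [← sp_sq, mul_pow]
      exact le_mul_of_one_le_left (sq_nonneg _) (by nlinarith)
  obtain ⟨Ξ, -, b2, b3⟩ := hlift (K := 1 + |C|) (by positivity) (fun s => (h.der s).snd)
    (by fun_prop) (fun s => hX.nz2 _ (h.mem s)) (h.dlen hX) (fun s => sp_nonneg _ _) fun s => by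
      refine (hX.dual _ (h.mem s) _ (h.tan s) (h.hor s)).trans ?_
      rw [← sp_sq, mul_pow]
      exact mul_le_mul_of_nonneg_right (by nlinarith [le_abs_self C]) (sq_nonneg _)
  have n1 := fun s => nn_pos (hX.nz1 _ (h.mem s))
  have n2 := fun s => nn_pos (hX.nz2 _ (h.mem s))
  obtain ⟨f, hf, k⟩ := h3 {s // len γ γ' s ≤ Λ} (fun s => len γ γ' s)
    (fun s => (Θ s)⁻¹ • (γ s).1) (fun s => (Ξ s)⁻¹ • (γ s).2)
    (fun s => ⟨h.len_nonneg hX s, s.2⟩) (fun s t => a3 s t) (fun s t => b3 s t)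
    (fun s => by rw [nn_smul, map_inv₀, a2, inv_mul_cancel₀ (n1 s).ne'])
    (fun s => by rw [nn_smul, map_inv₀, b2, inv_mul_cancel₀ (n2 s).ne'])
    (fun s => by rw [dot_smul_left, dot_smul_right, hX.orth _ (h.mem s)]; simp)
  refine ⟨f, hf, fun s hs => ?_⟩
  obtain ⟨k1, k2⟩ := k ⟨s, hs⟩
  simp only [dot_smul_right, dot_smul_left, map_mul, map_inv₀, a2, b2] at k1 k2
  rw [← div_eq_inv_mul, le_div_iff₀ (n1 s)] at k1
  rw [← div_eq_inv_mul, le_div_iff₀ (n2 s)] at k2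
  exact ⟨k1, k2⟩

lemma Mg.ne (hX : Pk X B C) {e v : E} {η : ℝ} (hη : 0 < η) {x : E × E} (hx : x ∈ X)
    (h : Mg e v η x) : dot (crs v e) x.1 ≠ 0 := by
  intro h0
  have := h.1
  rw [h0, normSq_zero] at this
  exact absurd (mul_pos hη (nn_pos (hX.nz1 _ hx))) (not_lt.2 this)

lemma Mg.norm (hX : Pk X B C) {e v : E} {η : ℝ} (hη : 0 < η) {x : E × E} (hx : x ∈ X)
    (h : Mg e v η x) : sc (dot (crs v e) x.1)⁻¹ x ∈ X ∧
      dot (crs v e) (sc (dot (crs v e) x.1)⁻¹ x).1 = 1 ∧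
      nn (sc (dot (crs v e) x.1)⁻¹ x).1 * η ≤ 1 ∧
      η * nn (sc (dot (crs v e) x.1)⁻¹ x).2 ≤ normSq (dot (sc (dot (crs v e) x.1)⁻¹ x).2 v) := by
  have h0 := h.ne hX hη hx
  have h1 := normSq_pos.2 h0
  refine ⟨hX.scale x hx _ (inv_ne_zero h0), ?_, ?_, ?_⟩
  · simp only [sc]; rw [dot_smul_right, inv_mul_cancel₀ h0]
  · simp only [sc]
    rw [nn_smul, map_inv₀, mul_assoc, ← div_eq_inv_mul, div_le_one h1, mul_comm]; exact h.1
  · simp only [sc]
    rw [nn_smul, dot_smul_left, map_mul, mul_left_comm]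
    exact mul_le_mul_of_nonneg_left h.2 (normSq_nonneg _)

lemma continuous_scd {c c' : ℝ → ℂ} {x k : ℝ → E × E} (hc : Continuous c) (hc' : Continuous c')
    (h0 : ∀ s, c s ≠ 0) (hx : Continuous x) (hk : Continuous k) :
    Continuous fun s => scd (c s) (c' s) (x s) (k s) :=
  ((hc'.smul hx.fst).add (hc.smul hk.fst)).prodMk
    (((hc'.neg.div (hc.pow 2) fun s => pow_ne_zero 2 (h0 s)).smul hx.snd).add
      ((hc.inv₀ h0).smul hk.snd))

lemma Chart.path (hX : Pk X B C) {e v : E} {ρ M : ℝ} {x : E × E} {W : ℂ → ℂ} {G : ℂ → E}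
    (h : Chart X e v ρ M x W G) {z c : ℂ} (hz : z ∈ ball (0 : ℂ) ρ) (hc : c ≠ 0) :
    ∃ δ δ', Pth X (sc c x) δ δ' 1 ∧ δ 1 = sc c (x.1 + z • e + W z • v, G z) := by
  set θ : ℝ → ℂ := fun s => (Real.smoothTransition s : ℂ) * z with hθ
  have c1 : ContDiff ℝ 1 Real.smoothTransition := Real.smoothTransition.contDiff
  have c2 := c1.continuous_deriv le_rfl
  have c3 := c1.continuous
  have dθ : ∀ s, HasDerivAt θ ((deriv Real.smoothTransition s : ℝ) * z) s := fun s =>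
    ((c1.differentiable one_ne_zero s).hasDerivAt.ofReal_comp).mul_const z
  have cθ : Continuous θ := by simp only [hθ]; fun_prop
  have mθ : ∀ s, θ s ∈ ball (0 : ℂ) ρ := fun s => by
    rw [mem_ball_zero_iff] at hz ⊢
    refine lt_of_le_of_lt ?_ hz
    simp only [hθ, norm_mul, norm_real, Real.norm_eq_abs,
      abs_of_nonneg (Real.smoothTransition.nonneg s)]
    exact mul_le_of_le_one_left (norm_nonneg _) (Real.smoothTransition.le_one s)
  have cW : Continuous fun s => W (θ s) := h.dW.continuousOn.comp_continuous cθ mθ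
  have cG : Continuous fun s => G (θ s) := h.dG.continuousOn.comp_continuous cθ mθ
  have cW' : Continuous fun s => deriv W (θ s) :=
    (h.dW.deriv isOpen_ball).continuousOn.comp_continuous cθ mθ
  have cG' : Continuous fun s => deriv G (θ s) :=
    (h.dG.deriv isOpen_ball).continuousOn.comp_continuous cθ mθ
  have e1 : ∀ s, 1 ≤ s → θ s = z := fun s hs => by
    simp [hθ, Real.smoothTransition.one_of_one_le hs]
  refine ⟨fun s => sc c (x.1 + θ s • e + W (θ s) • v, G (θ s)),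
    fun s => scd c 0 (x.1 + θ s • e + W (θ s) • v, G (θ s))
      ((((deriv Real.smoothTransition s : ℝ) : ℂ) * z) • (e + deriv W (θ s) • v, deriv G (θ s))),
    ⟨zero_le_one, fun s => ?_, ?_, fun s => hX.scale _ (h.mem _ (mθ s)) c hc, fun s => ?_,
      fun s hs => ?_, fun s hs => ?_⟩, ?_⟩
  · exact hasDerivAt_sc ((h.der (mθ s)).scomp s (dθ s)) (hasDerivAt_const s c) hc
  · have c4 : Continuous fun s => ((deriv Real.smoothTransition s : ℝ) : ℂ) * z :=
      (continuous_ofReal.comp c2).mul continuous_const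
    have c5 : Continuous fun s => (x.1 + θ s • e + W (θ s) • v, G (θ s)) :=
      ((continuous_const.add (cθ.smul continuous_const)).add (cW.smul continuous_const)).prodMk cG
    have c6 := c4.smul ((continuous_const (y := e).add (cW'.smul (continuous_const (y := v)))).prodMk
      cG')
    exact continuous_scd continuous_const continuous_const (fun _ => hc) c5 c6
  · rw [I_scd, smul_smul]; exact tanX_sc hX.scale (h.tan (mθ s) _) _ hc
  · simp [hθ, Real.smoothTransition.zero_of_nonpos hs, h.W0, h.G0]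
  · rw [e1 s hs, e1 1 le_rfl]
  · simp only [e1 1 le_rfl]

lemma Pk.extend (hX : Pk X B C) (e v : E) {η : ℝ} (hη : 0 < η) : ∀ᶠ c : ℝ in 𝓝[>] 0,
    ∀ x ∈ X, Mg e v η x → ∃ δ δ', Pth X x δ δ' 1 ∧
      (1 + c) * (nn x.1 * nn x.2) ≤ nn (δ 1).1 * nn (δ 1).2 := by
  obtain ⟨ρ, hρ, M, hM, hch⟩ := hX.chart e v η hη
  set A := 3 * (1 + 1 / η + ρ * ‖e‖ + M * ρ * ‖v‖) ^ 2 * (1 / η) + 1 with hA
  have A0 : 0 < A := by positivity
  have v0 : 0 < nn v + 1 := by have := nn_nonneg v; positivity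
  filter_upwards [Ioo_mem_nhdsGT (show 0 < (ρ / 2) ^ 2 / ((nn v + 1) * A) by positivity)]
    with c hc x hx hm1
  obtain ⟨k1, k2, k3, k4⟩ := hm1.norm hX hη hx
  have c0 := hm1.ne hX hη hx
  rw [← nn_sc (inv_ne_zero c0) x]
  set y := sc (dot (crs v e) x.1)⁻¹ x with hy
  obtain ⟨W, G, h⟩ := hch y k1 k2 k3 k4
  have sub : closure (ball (0 : ℂ) (ρ / 2)) ⊆ ball 0 ρ :=
    closure_ball_subset_closedBall.trans (closedBall_subset_ball (half_lt_self hρ))
  have df : DifferentiableOn ℂ (fun z => hm (y.1 + z • e + W z • v) y.1 * hm (G z) y.2)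
      (closure (ball 0 (ρ / 2))) := fun z hz =>
    ((hasDerivAt_hm_left _ (h.der (sub hz)).fst).mul
      (hasDerivAt_hm_left _ (h.der (sub hz)).snd)).differentiableAt.differentiableWithinAt
  obtain ⟨z, hz, hmax⟩ := exists_mem_frontier_isMaxOn_norm isBounded_ball
    ⟨0, mem_ball_self (half_pos hρ)⟩ df.diffContOnCl
  rw [frontier_ball _ (half_pos hρ).ne', mem_sphere_zero_iff_norm] at hz
  have hzb : z ∈ ball (0 : ℂ) ρ := by rw [mem_ball_zero_iff, hz]; exact half_lt_self hρ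
  obtain ⟨δ, δ', p1, p2⟩ := h.path hX hzb c0
  rw [hy, sc_sc c0] at p1
  refine ⟨δ, δ', p1, ?_⟩
  rw [p2, nn_sc c0]
  set F := y.1 + z • e + W z • v with hF
  have m1 : ‖hm (y.1 + (0 : ℂ) • e + W 0 • v) y.1 * hm (G 0) y.2‖ ≤ ‖hm F y.1 * hm (G z) y.2‖ :=
    hmax (subset_closure (mem_ball_self (half_pos hρ)))
  have n1 := nn_pos (hX.nz1 _ k1)
  have n2 := nn_pos (hX.nz2 _ k1)
  simp only [h.W0, h.G0, zero_smul, add_zero, hm_self, norm_mul, norm_real, Real.norm_eq_abs,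
    abs_of_pos n1, abs_of_pos n2] at m1
  have m2 : (nn y.1 * nn y.2) ^ 2 ≤ normSq (hm F y.1) * normSq (hm (G z) y.2) := by
    rw [normSq_eq_norm_sq, normSq_eq_norm_sq, ← mul_pow]; gcongr
  have m3 := lagr y.1 F
  have m4 := cs_hm (G z) y.2
  have m5 : (ρ / 2) ^ 2 ≤ nn (crs y.1 F) * (nn v + 1) := by
    have a1 := cs_dot (crs y.1 F) v
    have a2 := dot_crs_frame (0 : ℂ) k2
    rw [zero_smul, add_zero] at a2
    rw [hF, crs_chart, dot_add_left, dot_smul_left, dot_smul_left, a2, dot_crs_right,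
      ← crs_chart, ← hF] at a1
    simp only [mul_neg, mul_one, mul_zero, add_zero, norm_neg, normSq_eq_norm_sq, hz] at a1
    nlinarith [nn_nonneg (crs y.1 F)]
  have m6 : normSq (hm F y.1) ≤ A := by
    have a1 : ‖F‖ ≤ 1 + 1 / η + ρ * ‖e‖ + M * ρ * ‖v‖ := by
      have a2 := (mem_ball_zero_iff.1 hzb).le
      have a3 := (h.bW z hzb).trans (mul_le_mul_of_nonneg_left a2 hM)
      refine norm_add₃_le.trans ?_
      rw [norm_smul, norm_smul]
      gcongr
      exact norm_le_of_nn hη k3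
    have a2 : nn y.1 ≤ 1 / η := by rwa [le_div_iff₀ hη]
    calc _ ≤ nn F * nn y.1 := cs_hm _ _
      _ ≤ 3 * (1 + 1 / η + ρ * ‖e‖ + M * ρ * ‖v‖) ^ 2 * (1 / η) := by
        gcongr
        exact (nn_le F).trans (by gcongr)
      _ ≤ A := by linarith
  have m7 : c * normSq (hm F y.1) ≤ nn (crs y.1 F) := by
    have a1 := hc.2
    rw [lt_div_iff₀ (by positivity)] at a1
    have a2 := mul_le_mul_of_nonneg_left m6 hc.1.le
    exact le_of_mul_le_mul_right (by nlinarith) v0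
  have m8 : (1 + c) * normSq (hm F y.1) ≤ nn y.1 * nn F := by linarith
  have m9 := mul_le_mul m8 m4 (normSq_nonneg _) (mul_nonneg n1.le (nn_nonneg F))
  have m10 := mul_le_mul_of_nonneg_left m2 (show 0 ≤ 1 + c by linarith [hc.1])
  show (1 + c) * (nn y.1 * nn y.2) ≤ nn F * nn (G z)
  exact le_of_mul_le_mul_right (by nlinarith) (mul_pos n1 n2)

lemma Pk.reach (hX : Pk X B C) (hx : x0 ∈ X) (R : ℝ) :
    ∃ γ γ' L, Pth X x0 γ γ' L ∧ R ≤ lw (γ L) := by
  obtain ⟨T, η, h1, -, h3⟩ := hX.frames one_pos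
  have h4 := (Filter.eventually_all_finset T).2 fun f _ => hX.extend f.2.1 f.2.2 h1
  obtain ⟨c, hc, c0⟩ := (h4.and self_mem_nhdsWithin).exists
  have c0' : 0 < c := c0
  have key : ∀ n : ℕ, ∃ γ γ' L, Pth X x0 γ γ' L ∧
      (1 + c) ^ n * (nn x0.1 * nn x0.2) ≤ nn (γ L).1 * nn (γ L).2 := by
    intro n
    induction n with
    | zero => exact ⟨_, _, _, Pth.const hx, by simp⟩
    | succ n ih =>
      obtain ⟨γ, γ', L, p1, p2⟩ := ih
      obtain ⟨f, hf, k⟩ := h3 _ _ _ _ (Pth.const (p1.mem L))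
      obtain ⟨δ, δ', q1, q2⟩ := hc f hf _ (p1.mem L) (k 0 (by simp [len]))
      obtain ⟨ε, ε', r1, r2⟩ := p1.append q1
      refine ⟨ε, ε', _, r1, ?_⟩
      rw [r2, pow_succ', mul_assoc]
      exact (mul_le_mul_of_nonneg_left p2 (by linarith)).trans q2
  have n0 : 0 < nn x0.1 * nn x0.2 := mul_pos (nn_pos (hX.nz1 _ hx)) (nn_pos (hX.nz2 _ hx))
  obtain ⟨n, hn⟩ := pow_unbounded_of_one_lt (Real.exp (2 * R) / (nn x0.1 * nn x0.2))
    (show 1 < 1 + c by linarith)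
  obtain ⟨γ, γ', L, p1, p2⟩ := key n
  refine ⟨γ, γ', L, p1, ?_⟩
  rw [div_lt_iff₀ n0] at hn
  have := (Real.le_log_iff_exp_le ((Real.exp_pos _).trans_le (hn.le.trans p2))).2 (hn.le.trans p2)
  rw [lw]; linarith

end Pool.Agent.Lib.MP_4e4ac8_an
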