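import Pool.Agent.Lib.MP_4e4ac8_an.Frankel
import Pool.Agent.Lib.MP_4e4ac8_an.Asym

set_option autoImplicit false
open Filter Topology Complex Asymptotics ComplexConjugate

namespace Pool.Agent.Lib.MP_4e4ac8_an

variable {S U : Set E} {r : E → ℝ}

/-- the linear vector field `X` is tangent to `S` -/
def Tan (S : Set E) (X : E →L[ℂ] E) : Prop :=
  ∀ U r, LocDef S U r → ∀ q ∈ U, q ∈ S → fderiv ℝ r q (X q) = 0

/-- `a` is a nonzero real multiple of the conormal form of `S` at `z` -/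
def Con (S : Set E) (z : E) (a : E →L[ℂ] ℂ) : Prop :=
  ∀ U r, LocDef S U r → z ∈ U → ∃ ρ : ℝ, ρ ≠ 0 ∧ ∀ v, a v = ρ * cf (fderiv ℝ r z) v

/-- points of `S` where `i X` is tangent too -/
def Zs (S : Set E) (X : E →L[ℂ] E) : Set E :=
  {z | z ∈ S ∧ ∀ U r, LocDef S U r → z ∈ U → fderiv ℝ r z (I • X z) = 0}

lemma LocDef.transport' {U' : Set E} {r' : E → ℝ} (h : LocDef S U r) (h' : LocDef S U' r') {p : E}
    (hp : p ∈ U) (hS : p ∈ S) (g g' : E →L[ℂ] E) (hgg : ∀ v, g (g' v) = v)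
    (hg : ∀ z ∈ S, g z ∈ S) (hgp : g p ∈ U') :
    ∃ c : ℝ, c ≠ 0 ∧ ∀ v, cf (fderiv ℝ r' (g p)) (g v) = c * cf (fderiv ℝ r p) v := by
  obtain ⟨c, hc⟩ := h.transport h' hp hS g hg hgp
  refine ⟨c, ?_, fun v => ?_⟩
  · rintro rfl
    apply h'.ne _ hgp (hg p hS)
    ext v
    have := hc (g' v)
    rw [hgg] at this
    simpa using this
  · rw [cf_apply, cf_apply, ← map_smul, hc, hc]; push_cast; ring

lemma Con.transport (hS : LF S) {p : E} (hp : p ∈ S) {a : E →L[ℂ] ℂ} (ha : Con S p a)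
    (g g' : E →L[ℂ] E) (hgg : ∀ v, g (g' v) = v) (hg : ∀ z ∈ S, g z ∈ S) :
    Con S (g p) (a.comp g') := by
  intro U' r' h' hgp
  obtain ⟨U, r, hU, h⟩ := hS.loc p hp
  obtain ⟨c, hc0, hc⟩ := h.transport' h' hU hp g g' hgg hg hgp
  obtain ⟨ρ, hρ0, hρ⟩ := ha U r h hU
  refine ⟨ρ / c, div_ne_zero hρ0 hc0, fun v => ?_⟩
  have := hc (g' v)
  rw [hgg] at this
  have hc' : (c : ℂ) ≠ 0 := by exact_mod_cast hc0
  rw [ContinuousLinearMap.comp_apply, hρ, this]; push_cast; field_simp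

lemma con_of_one (h : LocDef S U r) {p : E} (hp : p ∈ U) (hS : p ∈ S) {a : E →L[ℂ] ℂ} {ρ : ℝ}
    (hρ0 : ρ ≠ 0) (hρ : ∀ v, a v = ρ * cf (fderiv ℝ r p) v) : Con S p a := by
  intro U' r' h' hp'
  obtain ⟨c, hc0, hc⟩ := h'.transport' h hp' hS (ContinuousLinearMap.id ℂ E)
    (ContinuousLinearMap.id ℂ E) (fun _ => rfl) (fun _ h => h) hp
  refine ⟨ρ * c, mul_ne_zero hρ0 hc0, fun v => ?_⟩
  have := hc v
  simp only [ContinuousLinearMap.id_apply] at this
  rw [hρ, this]; push_cast; ring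

lemma LF.exists_con (hS : LF S) {p : E} (hp : p ∈ S) : ∃ a, Con S p a := by
  obtain ⟨U, r, hU, h⟩ := hS.loc p hp
  exact ⟨cf (fderiv ℝ r p), con_of_one h hU hp one_ne_zero fun v => by simp⟩

lemma Con.one (hS : LF S) {p : E} (hp : p ∈ S) {a : E →L[ℂ] ℂ} (ha : Con S p a) :
    ∃ n, a n = 1 := by
  obtain ⟨U, r, hU, h⟩ := hS.loc p hp
  obtain ⟨ρ, hρ0, hρ⟩ := ha U r h hU
  obtain ⟨n, hn⟩ := exists_cf_one (h.ne p hU hp)
  have hc' : (ρ : ℂ) ≠ 0 := by exact_mod_cast hρ0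
  exact ⟨(ρ : ℂ)⁻¹ • n, by rw [map_smul, hρ, hn, mul_one, smul_eq_mul, inv_mul_cancel₀ hc']⟩

lemma Con.rsmul {p : E} {a : E →L[ℂ] ℂ} (ha : Con S p a) {ρ : ℝ} (hρ : ρ ≠ 0) :
    Con S p ((ρ : ℂ) • a) := by
  intro U r h hp
  obtain ⟨σ, h0, h1⟩ := ha U r h hp
  exact ⟨ρ * σ, mul_ne_zero hρ h0, fun v => by simp [h1, mul_assoc]⟩

lemma Con.cone (hS : LF S) {p : E} (hp : p ∈ S) {a : E →L[ℂ] ℂ} (ha : Con S p a) {c : ℂ}
    (hc : c ≠ 0) : Con S (c • p) (c⁻¹ • a) := by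
  have := ha.transport hS hp (c • ContinuousLinearMap.id ℂ E) (c⁻¹ • ContinuousLinearMap.id ℂ E)
    (fun v => by simp [smul_smul, hc]) (fun z hz => hS.cone z hz c hc)
  have e : a.comp (c⁻¹ • ContinuousLinearMap.id ℂ E) = c⁻¹ • a := by ext v; simp
  rwa [e] at this

lemma Con.unique (hS : LF S) {p : E} (hp : p ∈ S) {a b : E →L[ℂ] ℂ} (ha : Con S p a)
    (hb : Con S p b) : ∃ ρ : ℝ, ρ ≠ 0 ∧ ∀ v, b v = ρ * a v := by
  obtain ⟨U, r, hU, h⟩ := hS.loc p hp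
  obtain ⟨ρ, hρ0, hρ⟩ := ha U r h hU
  obtain ⟨σ, hσ0, hσ⟩ := hb U r h hU
  have hc' : (ρ : ℂ) ≠ 0 := by exact_mod_cast hρ0
  exact ⟨σ / ρ, div_ne_zero hσ0 hρ0, fun v => by rw [hρ, hσ]; push_cast; field_simp⟩

lemma tan_limit (h : LocDef S U r) {y v : E} (hy : y ∈ U) {a w : ℕ → E} {s : ℕ → ℝ}
    (ha : Tendsto a atTop (𝓝 y)) (hw : Tendsto w atTop (𝓝 v)) (hs : Tendsto s atTop (𝓝 0))
    (hm : ∀ᶠ n in atTop, s n ≠ 0 ∧ a n ∈ S ∧ a n + s n • w n ∈ S) : fderiv ℝ r y v = 0 := by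
  have t1 : Tendsto (fun n => a n + s n • w n) atTop (𝓝 y) := by
    simpa using ha.add (hs.smul hw)
  have o := ((h.cd hy).hasStrictFDerivAt (by norm_num)).isLittleO.comp_tendsto (t1.prodMk_nhds ha)
  have o2 : (fun n => fderiv ℝ r y (w n)) =o[atTop] w := by
    rw [isLittleO_iff] at o ⊢
    intro ε hε
    filter_upwards [o hε, hm, t1.eventually_mem (h.op.mem_nhds hy),
      ha.eventually_mem (h.op.mem_nhds hy)] with n a1 a2 a3 a4
    simp only [Function.comp, (h.zero _ a3).1 a2.2.2, (h.zero _ a4).1 a2.2.1, sub_zero,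
      add_sub_cancel_left, map_smul, zero_sub, norm_neg, norm_smul] at a1
    have : 0 < ‖s n‖ := norm_pos_iff.2 a2.1
    nlinarith
  have t2 := (o2.trans_isBigO (hw.isBigO_one ℝ))
  rw [isLittleO_one_iff] at t2
  exact tendsto_nhds_unique (((fderiv ℝ r y).continuous.tendsto v).comp hw) t2

lemma Con.self (hS : LF S) {p : E} (hp : p ∈ S) {a : E →L[ℂ] ℂ} (ha : Con S p a) : a p = 0 := by
  obtain ⟨U, r, hU, h⟩ := hS.loc p hp
  obtain ⟨ρ, -, hρ⟩ := ha U r h hU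
  have key : ∀ c : ℂ, ‖c‖ = 1 → fderiv ℝ r p (c • p) = 0 := by
    intro c hc
    have hs : Tendsto (fun n : ℕ => 1 / ((n : ℝ) + 1)) atTop (𝓝 0) :=
      tendsto_one_div_add_atTop_nhds_zero_nat
    refine tan_limit h hU tendsto_const_nhds tendsto_const_nhds hs ?_
    filter_upwards [hs.eventually (gt_mem_nhds one_pos)] with n hn
    have h0 : (0 : ℝ) < 1 / ((n : ℝ) + 1) := by positivity
    refine ⟨h0.ne', hp, ?_⟩
    have e : p + (1 / ((n : ℝ) + 1)) • c • p = (1 + ((1 / ((n : ℝ) + 1) : ℝ) : ℂ) * c) • p := by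
      rw [add_smul, one_smul, mul_smul, Complex.coe_smul]
    rw [e]
    refine hS.cone p hp _ fun h1 => ?_
    have h2 : ((1 / ((n : ℝ) + 1) : ℝ) : ℂ) * c = -1 := eq_neg_of_add_eq_zero_right h1
    have h3 := congrArg norm h2
    rw [norm_mul, hc, norm_real, Real.norm_eq_abs, abs_of_pos h0] at h3
    simp only [mul_one, norm_neg, norm_one] at h3
    linarith
  rw [hρ, (cf_eq_zero _ _).2 ⟨by simpa using key 1 (by simp), key I (by simp)⟩, mul_zero]

lemma mem_Zs (hS : LF S) {X : E →L[ℂ] E} (hX : Tan S X) {p : E} (hp : p ∈ S) {a : E →L[ℂ] ℂ}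
    (ha : Con S p a) : p ∈ Zs S X ↔ a (X p) = 0 := by
  constructor
  · intro hz
    obtain ⟨U, r, hU, h⟩ := hS.loc p hp
    obtain ⟨ρ, -, hρ⟩ := ha U r h hU
    rw [hρ, (cf_eq_zero _ _).2 ⟨hX U r h p hU hp, hz.2 U r h hU⟩, mul_zero]
  · refine fun h0 => ⟨hp, fun U r h hU => ?_⟩
    obtain ⟨ρ, hρ0, hρ⟩ := ha U r h hU
    rw [hρ, mul_eq_zero] at h0
    exact ((cf_eq_zero _ _).1 (h0.resolve_left (by exact_mod_cast hρ0))).2

lemma mem_Zs_of_one (hS : LF S) {X : E →L[ℂ] E} (hX : Tan S X) (h : LocDef S U r) {p : E}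
    (hU : p ∈ U) (hp : p ∈ S) (h0 : fderiv ℝ r p (I • X p) = 0) : p ∈ Zs S X :=
  (mem_Zs hS hX hp (con_of_one (a := cf (fderiv ℝ r p)) h hU hp one_ne_zero fun v => by simp)).2
    ((cf_eq_zero _ _).2 ⟨hX U r h p hU hp, h0⟩)

lemma Zs_cone (hS : LF S) {X : E →L[ℂ] E} (hX : Tan S X) {p : E} (hp : p ∈ Zs S X) {c : ℂ}
    (hc : c ≠ 0) : c • p ∈ Zs S X := by
  obtain ⟨a, ha⟩ := hS.exists_con hp.1
  rw [mem_Zs hS hX (hS.cone p hp.1 c hc) (ha.cone hS hp.1 hc)]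
  simp [(mem_Zs hS hX hp.1 ha).1 hp]

lemma LF.lim (hS : LF S) {z : ℕ → E} {y : E} (hz : ∀ n, z n ∈ S) (ht : Tendsto z atTop (𝓝 y))
    (hy : y ≠ 0) : y ∈ S :=
  (hS.cl.mem_of_tendsto ht (Eventually.of_forall fun n => Or.inr (hz n))).resolve_left hy

lemma Zs_closed (hS : LF S) (X : E →L[ℂ] E) {γ : ℝ → E} (hγ : Continuous γ) (h0 : ∀ t, γ t ≠ 0) :
    IsClosed {t | γ t ∈ Zs S X} := by
  refine IsSeqClosed.isClosed fun t t0 ht hl => ?_
  have hl' := (hγ.tendsto t0).comp hl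
  refine ⟨hS.lim (fun n => (ht n).1) hl' (h0 t0), fun U r h hU => ?_⟩
  have c : ContinuousAt (fun y => fderiv ℝ r y (I • X y)) (γ t0) := (h.cdX hU (I • X)).continuousAt
  refine tendsto_nhds_unique (c.tendsto.comp hl') (tendsto_const_nhds.congr' ?_)
  filter_upwards [hl'.eventually_mem (h.op.mem_nhds hU)] with n hn
  exact ((ht n).2 U r h hn).symm

lemma Zs_nonempty (hS : LF S) {X : E →L[ℂ] E} (hX : Tan S X) : (Zs S X).Nonempty := by
  obtain ⟨x, hx⟩ := hS.ne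
  have hs : Tendsto (fun n : ℕ => 1 / ((n : ℝ) + 1)) atTop (𝓝 0) :=
    tendsto_one_div_add_atTop_nhds_zero_nat
  set s : ℕ → ℝ := fun n => 1 / ((n : ℝ) + 1) with hsd
  have c1 : Continuous fun t : ℝ => ‖-(t • I • X)‖ := by fun_prop
  have c2 : Continuous fun t : ℝ => hm x (x + t • I • X x) :=
    hm_cd.continuous.comp (f := fun t : ℝ => (x, x + t • I • X x)) (by fun_prop)
  have e1 : ∀ᶠ n in atTop, ‖-(s n • I • X)‖ < 1 :=
    ((c1.tendsto 0).comp hs).eventually (gt_mem_nhds (by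
      have : (0 : ℝ) • I • X = 0 := by ext v i; simp
      simp [this]))
  have e2 : ∀ᶠ n in atTop, hm x (x + s n • I • X x) ≠ 0 :=
    ((c2.tendsto 0).comp hs).eventually_ne (by
      simp only [zero_smul, add_zero, hm_self]
      exact_mod_cast (nn_pos fun h => hS.nz (h ▸ hx)).ne')
  have e3 : ∀ᶠ n in atTop, ∃ y, y ∈ {x ∈ S | nn x = 1} ∧ y + s n • I • X y ∈ S := by
    filter_upwards [e1, e2] with n a1 a2
    let u := Units.oneSub _ a1
    have hu : ∀ v, (u : E →L[ℂ] E) v = v + s n • I • X v := fun v => by simp [u]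
    obtain ⟨y, hy, hy'⟩ := hS.frankel (u : E →L[ℂ] E) (↑u⁻¹ : E →L[ℂ] E)
      (fun v => by rw [← mul_apply_eq_comp, Units.mul_inv]; rfl)
      (fun v hv => by
        have : ((↑u⁻¹ : E →L[ℂ] E) * u) v = 0 := by rw [mul_apply_eq_comp, hv, map_zero]
        rwa [Units.inv_mul] at this) hx hx (by rw [hu]; exact a2)
    obtain ⟨c, c0, -, k1, k2⟩ := hS.unit hy
    refine ⟨c • y, ⟨k1, k2⟩, ?_⟩
    rw [← hu, map_smul]
    exact hS.cone _ hy' c c0
  obtain ⟨y, hy⟩ := e3.choice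
  obtain ⟨y0, hy0, φ, hφ, hl⟩ := hS.compact.tendsto_subseq' (hy.mono fun n h => h.1).frequently
  obtain ⟨U, r, hU, h⟩ := hS.loc y0 hy0.1
  refine ⟨y0, mem_Zs_of_one hS hX h hU hy0.1 ?_⟩
  refine tan_limit h hU hl (w := fun n => I • X (y (φ n)))
    (((X.continuous.tendsto y0).comp hl).const_smul I) (hs.comp hφ.tendsto_atTop) ?_
  filter_upwards [hφ.tendsto_atTop.eventually hy] with n hn
  exact ⟨by simp only [Function.comp, hsd]; positivity, hn.1.1, hn.2⟩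

/-- rank one maps built from a point of `S` and its conormal -/
def Lam (S : Set E) : Set (E →L[ℂ] E) := {μ | ∃ z ∈ S, ∃ a, Con S z a ∧ μ = a.smulRight z}

lemma LF.realCone (hS : LF S) : RealCone (Lam S) := by
  refine ⟨?_, ?_, ?_⟩
  · rintro _ ⟨z, hz, a, ha, rfl⟩ ρ hρ
    exact ⟨z, hz, _, ha.rsmul hρ, by ext v i; simp [mul_assoc]⟩
  · intro u μ hu hl h0
    have : ∀ n, ∃ z ∈ {x ∈ S | nn x = 1}, ∃ a, Con S z a ∧ u n = a.smulRight z := by
      intro n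
      obtain ⟨z, hz, a, ha, e⟩ := hu n
      obtain ⟨c, c0, -, k1, k2⟩ := hS.unit hz
      refine ⟨c • z, ⟨k1, k2⟩, _, ha.cone hS hz c0, ?_⟩
      rw [e]; ext v i; simp; field_simp
    choose z hz a ha e using this
    obtain ⟨y, hy, φ, hφ, hzl⟩ := hS.compact.tendsto_subseq hz
    have hl' := hl.comp hφ.tendsto_atTop
    have ev : ∀ v, Tendsto (fun n => u (φ n) v) atTop (𝓝 (μ v)) := fun v =>
      ((ContinuousLinearMap.apply ℂ E v).continuous.tendsto μ).comp hl'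
    have av : ∀ v, Tendsto (fun n => a (φ n) v) atTop (𝓝 (hm (μ v) y)) := by
      intro v
      refine ((hm_cd.continuous.tendsto (μ v, y)).comp ((ev v).prodMk_nhds hzl)).congr fun n => ?_
      simp only [Function.comp, e, ContinuousLinearMap.smulRight_apply, hm_smul_left, hm_self,
        (hz _).2]
      simp
    have mv : ∀ v, μ v = hm (μ v) y • y := fun v =>
      tendsto_nhds_unique (ev v) (((av v).smul hzl).congr fun n => by simp [e])
    obtain ⟨U, r, hU, h⟩ := hS.loc y hy.1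
    obtain ⟨n0, hn0⟩ := exists_cf_one (h.ne y hU hy.1)
    have cc : ∀ v, Tendsto (fun n => cf (fderiv ℝ r (z (φ n))) v) atTop (𝓝 (cf (fderiv ℝ r y) v)) := by
      intro v
      have cD := ((h.cd1 hU).continuousAt.tendsto.comp hzl)
      have k : Continuous fun D : E →L[ℝ] ℝ => cf D v := by
        simp only [cf_apply]; fun_prop
      exact (k.tendsto _).comp cD
    have inU := hzl.eventually_mem (h.op.mem_nhds hU)
    have q1 : ∀ v, hm (μ v) y = hm (μ n0) y * cf (fderiv ℝ r y) v := by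
      intro v
      have t1 := (av v).mul (cc n0)
      have t2 := (av n0).mul (cc v)
      rw [hn0, mul_one] at t1
      refine tendsto_nhds_unique t1 (t2.congr' ?_)
      filter_upwards [inU] with n hn
      obtain ⟨ρ, -, hρ⟩ := ha _ U r h hn
      simp only [hρ, Function.comp]; ring
    have q2 : (hm (μ n0) y).im = 0 := by
      have t1 := (av n0).mul ((continuous_conj.tendsto _).comp (cc n0))
      rw [hn0, map_one, mul_one] at t1
      refine tendsto_nhds_unique ((continuous_im.tendsto _).comp t1) (tendsto_const_nhds.congr' ?_)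
      filter_upwards [inU] with n hn
      obtain ⟨ρ, -, hρ⟩ := ha _ U r h hn
      simp only [hρ, Function.comp, mul_assoc, mul_conj, ← ofReal_mul, ofReal_im]
    have q3 : hm (μ n0) y = ((hm (μ n0) y).re : ℂ) := Complex.ext (by simp) (by simp [q2])
    have q4 : (hm (μ n0) y).re ≠ 0 := by
      intro h1
      apply h0
      refine ContinuousLinearMap.ext fun v => ?_
      rw [mv, q1, q3, h1]; simp
    refine ⟨y, hy.1, ((hm (μ n0) y).re : ℂ) • cf (fderiv ℝ r y),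
      con_of_one h hU hy.1 q4 fun v => by simp, ?_⟩
    refine ContinuousLinearMap.ext fun v => ?_
    rw [mv, q1, ← q3]; simp
  · rintro _ ⟨z, hz, a, ha, rfl⟩ κ ⟨z', hz', a', ha', e⟩
    by_cases hκ : κ = 0
    · simp [hκ]
    obtain ⟨n, hn⟩ := ha.one hS hz
    have e1 : ∀ v, (κ * a v) • z = a' v • z' := fun v => by
      simpa [smul_smul] using congrArg (fun L : E →L[ℂ] E => L v) e
    have z0 : z ≠ 0 := fun h => hS.nz (h ▸ hz)
    have e2 := e1 n
    rw [hn, mul_one] at e2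
    have a0 : a' n ≠ 0 := by
      intro h; rw [h, zero_smul] at e2; exact smul_ne_zero hκ z0 e2
    have e3 : z' = (κ / a' n) • z := by
      rw [div_eq_inv_mul, mul_smul, e2, smul_smul, inv_mul_cancel₀ a0, one_smul]
    obtain ⟨ρ, -, hρ⟩ := (ha.cone hS hz (div_ne_zero hκ a0)).unique hS (e3 ▸ hz') (e3 ▸ ha')
    have e4 := hρ n
    simp only [_root_.smul_apply, hn, smul_eq_mul, mul_one] at e4
    have : κ = ρ := by
      field_simp at e4
      exact e4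
    rw [this, ofReal_im]

end Pool.Agent.Lib.MP_4e4ac8_an
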