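import Pool.Agent.Lib.MP_4e4ac8_an.CDefs
import Pool.Agent.Lib.MP_4e4ac8_an.Cone

/-!
The state space of a Levi-flat cone and its tangent vectors.
-/

set_option autoImplicit false
open Filter Topology Complex ComplexConjugate Metric

namespace Pool.Agent.Lib.MP_4e4ac8_an

/-- points of `S` with a conormal vector -/
def XS (S : Set E) : Set (E × E) := {x | x.1 ∈ S ∧ Con S x.1 (dotL x.2)}

variable {S U : Set E} {r : E → ℝ}

lemma XS_nz1 (hS : LF S) {x : E × E} (hx : x ∈ XS S) : x.1 ≠ 0 := fun h => hS.nz (h ▸ hx.1)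

lemma XS_nz2 (hS : LF S) {x : E × E} (hx : x ∈ XS S) : x.2 ≠ 0 := fun h => by
  obtain ⟨n, hn⟩ := hx.2.one hS hx.1
  rw [dotL_apply, h, dot_comm, dot_zero_right] at hn
  exact zero_ne_one hn

lemma XS_orth (hS : LF S) {x : E × E} (hx : x ∈ XS S) : dot x.2 x.1 = 0 := by
  simpa using hx.2.self hS hx.1

lemma dotL_smul (c : ℂ) (g : E) : dotL (c • g) = c • dotL g := by
  ext1 v; simp [dot_smul_left]

lemma XS_scale (hS : LF S) (x : E × E) (hx : x ∈ XS S) (c : ℂ) (hc : c ≠ 0) :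
    (c • x.1, c⁻¹ • x.2) ∈ XS S :=
  ⟨hS.cone _ hx.1 c hc, by rw [dotL_smul]; exact hx.2.cone hS hx.1 hc⟩

lemma XS_rs {x : E × E} (hx : x ∈ XS S) {c : ℝ} (hc : c ≠ 0) : (x.1, (c : ℂ) • x.2) ∈ XS S :=
  ⟨hx.1, by rw [dotL_smul]; exact hx.2.rsmul hc⟩

lemma XS_ne (hS : LF S) : (XS S).Nonempty := by
  obtain ⟨p, hp⟩ := hS.ne
  obtain ⟨a, ha⟩ := hS.exists_con hp
  refine ⟨(p, vecf a), hp, ?_⟩
  rwa [show dotL (vecf a) = a from ContinuousLinearMap.ext fun v => by simp [dot_vecf]]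

lemma XS_mu {x : E × E} (hx : x ∈ XS S) (h : LocDef S U r) (hU : x.1 ∈ U) :
    ∃ μ : ℝ, μ ≠ 0 ∧ ∀ v, dot x.2 v = μ * cf (fderiv ℝ r x.1) v := by
  simpa using hx.2 U r h hU

lemma hasDerivAt_cf {D : ℝ → E →L[ℝ] ℝ} {D' : E →L[ℝ] ℝ} {t : ℝ} (h : HasDerivAt D D' t) (v : E) :
    HasDerivAt (fun t => cf (D t) v) (cf D' v) t := by
  simp only [cf_apply]
  have a : ∀ w, HasDerivAt (fun t => D t w) (D' w) t := fun w => by
    simpa using h.clm_apply (hasDerivAt_const t w)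
  exact (a v).ofReal_comp.fun_sub ((a _).ofReal_comp.const_mul I)

lemma tan_formula (h : LocDef S U r) {x k : E × E} (hU : x.1 ∈ U) (hx : x.1 ∈ S) {μ : ℝ}
    (hμ : ∀ v, dot x.2 v = μ * cf (fderiv ℝ r x.1) v) (hk : TanX (XS S) x k) :
    fderiv ℝ r x.1 k.1 = 0 ∧ ∃ m : ℝ, ∀ v, dot k.2 v =
      m * cf (fderiv ℝ r x.1) v + μ * cf (fderiv ℝ (fderiv ℝ r) x.1 k.1) v := by
  obtain ⟨β, rfl, h2, h3⟩ := hk
  have h31 : HasDerivAt (fun t => (β t).1) k.1 0 := h3.fst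
  have h32 : HasDerivAt (fun t => (β t).2) k.2 0 := h3.snd
  have inU : ∀ᶠ t in 𝓝 (0 : ℝ), (β t).1 ∈ U :=
    h31.continuousAt.eventually_mem (h.op.mem_nhds hU)
  have d1 := (h.fd1 hU).comp_hasDerivAt 0 h31
  obtain ⟨n, hn⟩ := exists_cf_one (h.ne _ hU hx)
  have d2 := hasDerivAt_cf d1
  simp only [Function.comp] at d2
  have d3 := (hasDerivAt_dot_left n h32).fun_div (d2 n) (by rw [hn]; exact one_ne_zero)
  set m' := (dot k.2 n * cf (fderiv ℝ r (β 0).1) n -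
    dot (β 0).2 n * cf (fderiv ℝ (fderiv ℝ r) (β 0).1 k.1) n) / cf (fderiv ℝ r (β 0).1) n ^ 2
  have ev : ∀ᶠ t in 𝓝 (0 : ℝ), (dot (β t).2 n / cf (fderiv ℝ r (β t).1) n).im = 0 ∧
      ∀ v, dot (β t).2 v =
        dot (β t).2 n / cf (fderiv ℝ r (β t).1) n * cf (fderiv ℝ r (β t).1) v := by
    filter_upwards [inU, h2, (d2 n).continuousAt.eventually_ne
      (show cf (fderiv ℝ r (β 0).1) n ≠ 0 by rw [hn]; exact one_ne_zero)] with t a1 a2 a3
    obtain ⟨ν, -, hν⟩ := XS_mu a2 h a1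
    rw [hν n, mul_div_cancel_right₀ _ a3]
    exact ⟨ofReal_im ν, hν⟩
  refine ⟨?_, m'.re, fun v => ?_⟩
  · refine ((h.fd hU).comp_hasDerivAt 0 h31).unique
      ((hasDerivAt_const (0 : ℝ) (0 : ℝ)).congr_of_eventuallyEq ?_)
    filter_upwards [inU, h2] with t a1 a2 using (h.zero _ a1).1 a2.1
  · have i1 : m'.im = 0 := by
      have q := imCLM.hasFDerivAt.comp_hasDerivAt 0 d3
      exact q.unique ((hasDerivAt_const (0 : ℝ) (0 : ℝ)).congr_of_eventuallyEq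
        (ev.mono fun t ht => ht.1))
    have i2 : (m'.re : ℂ) = m' := Complex.ext (by simp) (by simp [i1])
    have q := (hasDerivAt_dot_left v h32).unique
      ((d3.fun_mul (d2 v)).congr_of_eventuallyEq (ev.mono fun t ht => ht.2 v))
    rw [q, i2, hμ n, hn, mul_one, div_one]

lemma XS_ann (hS : LF S) (x : E × E) (hx : x ∈ XS S) (k : E × E) (h1 : TanX (XS S) x k)
    (h2 : TanX (XS S) x (I • k)) : dot x.2 k.1 = 0 := by
  obtain ⟨U, r, hU, h⟩ := hS.loc _ hx.1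
  obtain ⟨μ, -, hμ⟩ := XS_mu hx h hU
  rw [hμ, (cf_eq_zero _ _).2 ⟨(tan_formula h hU hx.1 hμ h1).1, (tan_formula h hU hx.1 hμ h2).1⟩,
    mul_zero]

lemma tanX_perp (hS : LF S) {x k : E × E} (h1 : TanX (XS S) x k) (h2 : TanX (XS S) x (I • k))
    (α : ℂ) : TanX (XS S) x (k.1 - α • x.1, α • x.2 + k.2) ∧
      TanX (XS S) x (I • (k.1 - α • x.1, α • x.2 + k.2)) := by
  have e1 : sc 1 x = x := by simp [sc]
  have e2 : scd 1 (-α) x k = (k.1 - α • x.1, α • x.2 + k.2) := by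
    simp [scd, sub_eq_neg_add]
  have a := tanX_sc (XS_scale hS) h1 (-α) one_ne_zero
  have b := tanX_sc (XS_scale hS) h2 (I * -α) one_ne_zero
  rw [← I_scd] at b
  rw [e1, e2] at a b
  exact ⟨a, b⟩

/-- the bound on the mixed part of the second fundamental form at `p` -/
def Pinch (r : E → ℝ) (B : ℝ) (p : E) : Prop :=
  ∀ (ξ n : E) (d : ℝ), fderiv ℝ r p ξ = 0 → fderiv ℝ r p (I • ξ) = 0 → hm ξ p = 0 →
    n = d • star (vecf (cf (fderiv ℝ r p))) →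
    nn p * (fderiv ℝ (fderiv ℝ r) p ξ (I • n) ^ 2 + fderiv ℝ (fderiv ℝ r) p (I • ξ) (I • n) ^ 2)
      ≤ B * (nn ξ * fderiv ℝ r p n ^ 2)

lemma hm_star_left (g w : E) : hm (star g) w = conj (dot g w) := by simp [hm, dot]

lemma XS_grad1 (hS : LF S) {B : ℝ} (x : E × E) (hU : x.1 ∈ U) (h : LocDef S U r)
    (hp : Pinch r B x.1) (hx : x ∈ XS S) (k : E × E) (h1 : TanX (XS S) x k)
    (h2 : TanX (XS S) x (I • k)) :
    normSq (hm k.1 x.1 / nn x.1 + hm k.2 x.2 / nn x.2) ≤ B * (nn (crs x.1 k.1) / nn x.1 ^ 2) := by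
  obtain ⟨μ, μ0, hμ⟩ := XS_mu hx h hU
  obtain ⟨t1, t2⟩ := tanX_perp hS h1 h2 (hm k.1 x.1 / nn x.1)
  have g1 : x.2 = (μ : ℂ) • vecf (cf (fderiv ℝ r x.1)) :=
    eq_of_dot fun v => by rw [hμ, dot_smul_left, dot_vecf]
  obtain ⟨a1, m1, b1⟩ := tan_formula h hU hx.1 hμ t1
  obtain ⟨a2, m2, b2⟩ := tan_formula h hU hx.1 hμ t2
  have n1 := nn_pos (XS_nz1 hS hx)
  have n2 := nn_pos (XS_nz2 hS hx)
  have n1' : (nn x.1 : ℂ) ≠ 0 := by exact_mod_cast n1.ne'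
  have n2' : (nn x.2 : ℂ) ≠ 0 := by exact_mod_cast n2.ne'
  have μ0' : (μ : ℂ) ≠ 0 := by exact_mod_cast μ0
  have np := nn_perp (XS_nz1 hS hx) k.1
  set u := k.1 - (hm k.1 x.1 / nn x.1) • x.1 with hu
  have c1 : cf (fderiv ℝ r x.1) (star x.2) = ((nn x.2 / μ : ℝ) : ℂ) := by
    have := hμ (star x.2)
    rw [← hm_eq_dot, hm_self] at this
    push_cast; rw [this]; field_simp
  have c2 : fderiv ℝ r x.1 (star x.2) = nn x.2 / μ := by rw [← cf_re, c1, ofReal_re]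
  have key := hp u (star x.2) μ a1 a2 (by
      rw [hu, sub_eq_add_neg, hm_add_left, ← neg_smul, hm_smul_left, hm_self]; field_simp; ring)
    (by rw [g1, coe_smul, star_smul, star_trivial])
  have w1 := congrArg im (b1 (star x.2))
  have w2 := congrArg im (b2 (star x.2))
  simp only [Prod.smul_snd, Prod.smul_fst, dot_smul_left, c1, add_im, mul_im, ofReal_re,
    ofReal_im, cf_im, I_re, I_im, mul_zero, zero_mul, add_zero, zero_add, one_mul] at w1 w2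
  have e1 : hm k.1 x.1 / nn x.1 + hm k.2 x.2 / nn x.2 =
      dot ((hm k.1 x.1 / nn x.1) • x.2 + k.2) (star x.2) / nn x.2 := by
    rw [dot_add_left, dot_smul_left, ← hm_eq_dot, ← hm_eq_dot, hm_self]; field_simp
  rw [e1, map_div₀, normSq_ofReal, normSq_apply, w1, w2, div_le_iff₀ (by positivity)]
  rw [c2, np] at key
  have k2 := mul_le_mul_of_nonneg_left key (show 0 ≤ μ ^ 2 / nn x.1 by positivity)
  refine le_trans (le_of_eq ?_) (k2.trans (le_of_eq ?_))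
  · field_simp; ring
  · field_simp

lemma XS_grad (hS : LF S) {B : ℝ}
    (hB : ∀ p ∈ S, nn p = 1 → ∃ U r, p ∈ U ∧ LocDef S U r ∧ Pinch r B p)
    (x : E × E) (hx : x ∈ XS S) (k : E × E) (h1 : TanX (XS S) x k) (h2 : TanX (XS S) x (I • k)) :
    normSq (hm k.1 x.1 / nn x.1 + hm k.2 x.2 / nn x.2) ≤ B * (nn (crs x.1 k.1) / nn x.1 ^ 2) := by
  obtain ⟨c, c0, -, k1, k2⟩ := hS.unit hx.1
  obtain ⟨U, r, hU, h, hp⟩ := hB _ k1 k2
  have b := tanX_sc (XS_scale hS) h2 (I * 0) c0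
  rw [← I_scd] at b
  have := XS_grad1 hS (sc c x) hU h hp (XS_scale hS x hx c c0) _
    (tanX_sc (XS_scale hS) h1 0 c0) b
  rw [← sp_sq, sp_sc _ c0, sp_sq] at this
  refine le_trans (le_of_eq ?_) this
  have m0 : conj c ≠ 0 := by simpa using c0
  simp only [sc, scd, neg_zero, zero_div, zero_smul, zero_add, hm_smul_left, hm_smul_right,
    nn_smul, map_inv₀]
  push_cast
  rw [normSq_eq_conj_mul_self]
  congr 2 <;> field_simp

lemma norm_vecf_cf (D : E →L[ℝ] ℝ) : ‖vecf (cf D)‖ ≤ 2 * ‖D‖ := by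
  refine (pi_norm_le_iff_of_nonneg (by positivity)).2 fun i => ?_
  have a : ‖(Pi.single i 1 : E)‖ = 1 := by simp [Pi.norm_single]
  have b := D.le_opNorm (Pi.single i 1)
  have c := D.le_opNorm (I • Pi.single i 1)
  rw [norm_smul, norm_I, one_mul] at c
  rw [a, mul_one] at b c
  simp only [vecf, cf_apply]
  refine (norm_sub_le _ _).trans ?_
  rw [norm_mul, norm_I, one_mul, norm_real, norm_real]
  linarith

lemma continuous_vecf_cf : Continuous fun D : E →L[ℝ] ℝ => vecf (cf D) := by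
  refine continuous_pi fun i => ?_
  simp only [vecf, cf_apply]; fun_prop

lemma vecf_cf_ne {D : E →L[ℝ] ℝ} (h : D ≠ 0) : vecf (cf D) ≠ 0 := fun h0 => by
  obtain ⟨n, hn⟩ := exists_cf_one h
  rw [← dot_vecf, h0, dot_comm, dot_zero_right] at hn
  exact zero_ne_one hn

lemma XS_dual (hS : LF S) : ∃ C : ℝ, ∀ x ∈ XS S, ∀ k, TanX (XS S) x k → TanX (XS S) x (I • k) →
    nn (crs x.2 k.2) / nn x.2 ^ 2 ≤ C * (nn (crs x.1 k.1) / nn x.1 ^ 2) := by
  have key : ∃ C : ℝ, 0 ≤ C ∧ ∀ p ∈ {x ∈ S | nn x = 1}, ∀ x ∈ XS S, x.1 = p → nn p = 1 →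
      ∀ k, TanX (XS S) x k → TanX (XS S) x (I • k) →
      nn (crs x.2 k.2) / nn x.2 ^ 2 ≤ C * (nn (crs x.1 k.1) / nn x.1 ^ 2) := by
    refine hS.compact.induction_on (p := fun K => ∃ C : ℝ, 0 ≤ C ∧ ∀ p ∈ K, ∀ x ∈ XS S, x.1 = p →
      nn p = 1 → ∀ k, TanX (XS S) x k → TanX (XS S) x (I • k) →
      nn (crs x.2 k.2) / nn x.2 ^ 2 ≤ C * (nn (crs x.1 k.1) / nn x.1 ^ 2)) ⟨0, le_rfl, by simp⟩
      (fun s t hst ⟨C, C0, hC⟩ => ⟨C, C0, fun p hp => hC p (hst hp)⟩) ?_ ?_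
    · rintro s t ⟨C, C0, hC⟩ ⟨D, D0, hD⟩
      refine ⟨C + D, by positivity, fun p hp x hx e1 e2 k h1 h2 => ?_⟩
      have := div_nonneg (nn_nonneg (crs x.1 k.1)) (sq_nonneg (nn x.1))
      rcases hp with hp | hp
      · nlinarith [hC p hp x hx e1 e2 k h1 h2]
      · nlinarith [hD p hp x hx e1 e2 k h1 h2]
    · intro p0 hp0
      obtain ⟨U, r, hU, h⟩ := hS.loc _ hp0.1
      set c := nn (vecf (cf (fderiv ℝ r p0))) / 2 with hc
      have c0 : 0 < c := half_pos (nn_pos (vecf_cf_ne (h.ne _ hU hp0.1)))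
      set D := ‖fderiv ℝ (fderiv ℝ r) p0‖ + 1 with hD
      have q1 : ContinuousAt (fun p => nn (vecf (cf (fderiv ℝ r p)))) p0 :=
        continuousAt_nn (continuous_vecf_cf.continuousAt.comp (h.cd1 hU).continuousAt)
      have q2 : ContinuousAt (fun p => ‖fderiv ℝ (fderiv ℝ r) p‖) p0 :=
        ContinuousAt.norm (E := E →L[ℝ] E →L[ℝ] ℝ) (h.cd2 hU).continuousAt
      refine ⟨{p | p ∈ U ∧ c < nn (vecf (cf (fderiv ℝ r p))) ∧ ‖fderiv ℝ (fderiv ℝ r) p‖ < D},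
        mem_nhdsWithin_of_mem_nhds (Filter.Eventually.and (h.op.mem_nhds hU)
          ((q1.eventually (lt_mem_nhds (by linarith))).and
            (q2.eventually (gt_mem_nhds (by linarith))))), 12 * D ^ 2 / c, by positivity, ?_⟩
      rintro _ ⟨k1, k2, k3⟩ x hx rfl e2 k h1 h2
      obtain ⟨μ, μ0, hμ⟩ := XS_mu hx h k1
      obtain ⟨t1, -⟩ := tanX_perp hS h1 h2 (hm k.1 x.1 / nn x.1)
      obtain ⟨-, m1, b1⟩ := tan_formula h k1 hx.1 hμ t1
      have np := nn_perp (XS_nz1 hS hx) k.1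
      set u := k.1 - (hm k.1 x.1 / nn x.1) • x.1 with hu
      set A := vecf (cf (fderiv ℝ r x.1)) with hA
      set V := vecf (cf (fderiv ℝ (fderiv ℝ r) x.1 u)) with hV
      have g1 : x.2 = (μ : ℂ) • A := eq_of_dot fun v => by rw [hμ, dot_smul_left, dot_vecf]
      have g2 : k.2 = (m1 - hm k.1 x.1 / nn x.1 * μ) • A + (μ : ℂ) • V := eq_of_dot fun v => by
        have := b1 v
        rw [dot_add_left, dot_smul_left, hμ] at this
        rw [dot_add_left, dot_smul_left, dot_smul_left, dot_vecf, dot_vecf]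
        linear_combination this
      have g3 : nn V ≤ 12 * D ^ 2 * nn u := by
        have a1 := (norm_vecf_cf _).trans (mul_le_mul_of_nonneg_left
          (((fderiv ℝ (fderiv ℝ r) x.1).le_opNorm u).trans
            (mul_le_mul_of_nonneg_right k3.le (norm_nonneg u))) zero_le_two)
        calc nn V ≤ 3 * ‖V‖ ^ 2 := nn_le V
          _ ≤ 3 * (2 * (D * ‖u‖)) ^ 2 := by gcongr
          _ = 12 * D ^ 2 * ‖u‖ ^ 2 := by ring
          _ ≤ _ := by gcongr; exact sq_norm_le_nn u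
      have A0 : 0 < nn A := c0.trans k2
      have m0 := normSq_pos.2 (show (μ : ℂ) ≠ 0 by exact_mod_cast μ0)
      rw [e2, div_one] at np
      rw [g2, g1, crs_smul_left, crs_add_smul, nn_smul, nn_smul, nn_smul, e2, one_pow, div_one,
        ← np]
      calc _ = nn (crs A V) / nn A ^ 2 := by field_simp
        _ ≤ nn A * nn V / nn A ^ 2 := by gcongr; exact nn_crs_le _ _
        _ = nn V / nn A := by field_simp
        _ ≤ 12 * D ^ 2 * nn u / c := by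
          gcongr
          · have := nn_nonneg u; positivity
        _ = _ := by ring
  obtain ⟨C, -, hC⟩ := key
  refine ⟨C, fun x hx k h1 h2 => ?_⟩
  obtain ⟨c, c0, -, k1, k2⟩ := hS.unit hx.1
  have b := tanX_sc (XS_scale hS) h2 (I * 0) c0
  rw [← I_scd] at b
  have := hC _ ⟨k1, k2⟩ (sc c x) (XS_scale hS x hx c c0) rfl k2 _
    (tanX_sc (XS_scale hS) h1 0 c0) b
  rw [← sp_sq, sp_sc _ c0, sp_sq] at this
  refine le_trans (le_of_eq ?_) this
  have m0 := normSq_pos.2 (inv_ne_zero c0)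
  simp only [sc, scd, crs_smul_left, crs_add_smul, nn_smul]
  generalize normSq c⁻¹ = m at m0
  field_simp

end Pool.Agent.Lib.MP_4e4ac8_an
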