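import Pool.Agent.Lib.MP_4e4ac8_an.CChart
import Pool.Agent.Lib.MP_4e4ac8_an.CCore

/-!
Uniform charts, uniqueness of horizontal curves, and the curvature restriction.
-/

set_option autoImplicit false
open Filter Topology Complex ComplexConjugate Metric Set
open scoped NNReal

namespace Pool.Agent.Lib.MP_4e4ac8_an

variable {S U : Set E} {r : E → ℝ}

lemma Chart.mono {X : Set (E × E)} {e v : E} {ρ M ρ' M' : ℝ} {x : E × E} {W : ℂ → ℂ} {G : ℂ → E}
    (h : Chart X e v ρ M x W G) (h1 : ρ' ≤ ρ) (h2 : M ≤ M') : Chart X e v ρ' M' x W G :=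
  ⟨h.dW.mono (ball_subset_ball h1), h.dG.mono (ball_subset_ball h1), h.W0, h.G0,
    fun z hz => h.mem z (ball_subset_ball h1 hz),
    fun z hz => (h.bW z (ball_subset_ball h1 hz)).trans (by gcongr),
    fun z hz => h.bG z (ball_subset_ball h1 hz)⟩

lemma XS_chart (hS : LF S) (e v : E) (η : ℝ) (hη : 0 < η) : ∃ ρ : ℝ, 0 < ρ ∧ ∃ M : ℝ, 0 ≤ M ∧
    ∀ x ∈ XS S, dot (crs v e) x.1 = 1 → nn x.1 * η ≤ 1 → η * nn x.2 ≤ normSq (dot x.2 v) →
      ∃ W G, Chart (XS S) e v ρ M x W G := by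
  have hK : IsCompact {p | p ∈ S ∧ dot (crs v e) p = 1 ∧ nn p * η ≤ 1} := by
    have e1 : {p | p ∈ S ∧ dot (crs v e) p = 1 ∧ nn p * η ≤ 1} =
        insert 0 S ∩ ({p | dot (crs v e) p = 1} ∩ {p | nn p * η ≤ 1}) := by
      ext p
      constructor
      · exact fun h => ⟨Or.inr h.1, h.2⟩
      · rintro ⟨rfl | h, h2⟩
        · simp [dot_zero_right] at h2
        · exact ⟨h, h2⟩
    refine Metric.isCompact_of_isClosed_isBounded ?_ ?_
    · rw [e1]
      exact hS.cl.inter ((isClosed_eq (by fun_prop) continuous_const).inter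
        (isClosed_le (by fun_prop) continuous_const))
    · exact (isBounded_closedBall (x := (0 : E)) (r := 1 + 1 / η)).subset fun p hp =>
        mem_closedBall_zero_iff.2 (norm_le_of_nn hη hp.2.2)
  have key := hK.induction_on (p := fun K => ∃ ρ : ℝ, 0 < ρ ∧ ∃ M : ℝ, 0 ≤ M ∧ ∀ x ∈ XS S,
      x.1 ∈ K → dot (crs v e) x.1 = 1 → η * nn x.2 ≤ normSq (dot x.2 v) →
      ∃ W G, Chart (XS S) e v ρ M x W G) ⟨1, one_pos, 0, le_rfl, by simp⟩
    (fun s t hst ⟨ρ, h1, M, h2, h3⟩ => ⟨ρ, h1, M, h2, fun x hx hs => h3 x hx (hst hs)⟩) ?_ ?_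
  · obtain ⟨ρ, h1, M, h2, h3⟩ := key
    exact ⟨ρ, h1, M, h2, fun x hx k1 k2 k3 => h3 x hx ⟨hx.1, k1, k2⟩ k1 k3⟩
  · rintro s t ⟨ρ, h1, M, h2, h3⟩ ⟨ρ', h1', M', h2', h3'⟩
    refine ⟨min ρ ρ', lt_min h1 h1', max M M', le_max_of_le_left h2, fun x hx hs k1 k2 => ?_⟩
    rcases hs with hs | hs
    · obtain ⟨W, G, h⟩ := h3 x hx hs k1 k2
      exact ⟨W, G, h.mono (min_le_left _ _) (le_max_left _ _)⟩
    · obtain ⟨W, G, h⟩ := h3' x hx hs k1 k2
      exact ⟨W, G, h.mono (min_le_right _ _) (le_max_right _ _)⟩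
  · intro p0 hp0
    obtain ⟨U, r, hU, h⟩ := hS.loc _ hp0.1
    by_cases hv : cf (fderiv ℝ r p0) v = 0
    · have q1 : ContinuousAt (fun p => η * nn (vecf (cf (fderiv ℝ r p))) -
          normSq (dot (vecf (cf (fderiv ℝ r p))) v)) p0 := by
        have := continuous_vecf_cf.continuousAt.comp (h.cd1 hU).continuousAt
        exact (continuousAt_const.mul (continuousAt_nn this)).sub
          (continuous_normSq.continuousAt.comp (continuousAt_dot this continuousAt_const))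
      refine ⟨{p | p ∈ U ∧ 0 < η * nn (vecf (cf (fderiv ℝ r p))) -
          normSq (dot (vecf (cf (fderiv ℝ r p))) v)}, mem_nhdsWithin_of_mem_nhds
        (Filter.Eventually.and (h.op.mem_nhds hU) (q1.eventually (lt_mem_nhds ?_))), 1, one_pos, 0,
        le_rfl, fun x hx hs _ k2 => ?_⟩
      · simp only [dot_vecf, hv, map_zero, sub_zero]
        exact mul_pos hη (nn_pos (vecf_cf_ne (h.ne _ hU hp0.1)))
      · exfalso
        obtain ⟨μ, μ0, hμ⟩ := XS_mu hx h hs.1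
        have g1 : x.2 = (μ : ℂ) • vecf (cf (fderiv ℝ r x.1)) :=
          eq_of_dot fun v => by rw [hμ, dot_smul_left, dot_vecf]
        rw [g1, nn_smul, dot_smul_left, map_mul] at k2
        have m0 := normSq_pos.2 (show (μ : ℂ) ≠ 0 by exact_mod_cast μ0)
        nlinarith [mul_pos m0 hs.2]
    · obtain ⟨R, L, a, Da, A⟩ := exists_locA h hU e hv
      have R0 := A.R0
      have L0 := A.L0
      refine ⟨ball p0 (R / 2), mem_nhdsWithin_of_mem_nhds (ball_mem_nhds _ (half_pos R0)),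
        min (R / 2 / (‖e‖ + L * ‖v‖ + 1)) (1 / 4 / (L * ‖v‖ + 1)), by positivity, L, L0.le,
        fun x hx hs k1 _ => A.chart hS h (by positivity) ?_ ?_ hx hs k1⟩
      · have := min_le_left (R / 2 / (‖e‖ + L * ‖v‖ + 1)) (1 / 4 / (L * ‖v‖ + 1))
        rw [le_div_iff₀ (by positivity)] at this
        exact le_trans (mul_le_mul_of_nonneg_left (by linarith) (by positivity)) this
      · have := min_le_right (R / 2 / (‖e‖ + L * ‖v‖ + 1)) (1 / 4 / (L * ‖v‖ + 1))
        rw [le_div_iff₀ (by positivity)] at this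
        exact le_trans (mul_le_mul_of_nonneg_left (by linarith) (by positivity)) this

lemma Chart.rs {e v : E} {ρ M : ℝ} {x : E × E} {W : ℂ → ℂ} {G : ℂ → E}
    (h : Chart (XS S) e v ρ M x W G) {z : ℂ} (hz : z ∈ ball (0 : ℂ) ρ) (ξ : ℂ) {c : ℝ} (hc : c ≠ 0) :
    TanX (XS S) (x.1 + z • e + W z • v, (c : ℂ) • G z)
      (ξ • (e + deriv W z • v, (c : ℂ) • deriv G z)) := by
  have a : HasDerivAt (fun z => x.1 + z • e + W z • v) (e + deriv W z • v) z := (h.der hz).fst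
  have b : HasDerivAt G (deriv G z) z := (h.der hz).snd
  exact tanX_disc (f := fun z => (x.1 + z • e + W z • v, (c : ℂ) • G z))
    (by filter_upwards [isOpen_ball.mem_nhds hz] with w hw using XS_rs (h.mem w hw) hc)
    (a.prodMk (b.const_smul (c : ℂ))) ξ

lemma XS_uniq (hS : LF S) (a0 e v : E) (ha : dot (crs v e) a0 = 1) (γ γ' : ℝ → E × E)
    (s0 ρ M : ℝ) (W : ℂ → ℂ) (G : ℂ → E) (hρ : 0 < ρ) (hc : Chart (XS S) e v ρ M (γ s0) W G)
    (hγ : ∀ᶠ s in 𝓝 s0, HasDerivAt γ (γ' s) s ∧ γ s ∈ XS S ∧ TanX (XS S) (γ s) (I • γ' s) ∧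
      dot (crs v e) (γ s).1 = 1) (hc' : ContinuousAt γ' s0) :
    ∀ᶠ s in 𝓝 s0, γ s = ((γ s0).1 + dot (crs a0 v) ((γ s).1 - (γ s0).1) • e +
      W (dot (crs a0 v) ((γ s).1 - (γ s0).1)) • v, G (dot (crs a0 v) ((γ s).1 - (γ s0).1))) := by
  have h0 := hγ.self_of_nhds
  set p := (γ s0).1 with hp
  obtain ⟨U, r, hU, h⟩ := hS.loc _ h0.2.1.1
  have g0 : dot (γ s0).2 v ≠ 0 := by have := hc.dot_ne (mem_ball_self hρ); rwa [hc.G0] at this
  have hv : cf (fderiv ℝ r p) v ≠ 0 := by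
    obtain ⟨μ, -, hμ⟩ := XS_mu h0.2.1 h hU
    intro k; rw [hμ, k, mul_zero] at g0; exact g0 rfl
  obtain ⟨R, L, a, Da, A⟩ := exists_locA h hU e hv
  have slope : ∀ x ∈ XS S, x.1 ∈ ball p R → ∀ b c : ℂ, dot x.2 (b • e + c • v) = 0 →
      c = b * a x.1 := by
    intro x hx hb b c k
    obtain ⟨μ, μ0, hμ⟩ := XS_mu hx h (A.sub hb)
    have k1 := A.eq _ hb
    rw [hμ, mul_eq_zero, or_iff_right (by exact_mod_cast μ0)] at k
    simp only [map_add, map_smul, smul_eq_mul] at k k1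
    exact mul_right_cancel₀ (A.ne _ hb) (by linear_combination k - b * k1)
  set z : ℝ → ℂ := fun s => dot (crs a0 v) ((γ s).1 - p) with hz
  set w : ℝ → ℂ := fun s => dot (crs e a0) ((γ s).1 - p) with hw
  set z' : ℝ → ℂ := fun s => dot (crs a0 v) (γ' s).1 with hz'
  have z0 : z s0 = 0 := by simp [hz, hp, dot_zero_right]
  have w0 : w s0 = 0 := by simp [hw, hp, dot_zero_right]
  have cγ := h0.1.continuousAt
  have cz : ContinuousAt z s0 := by simp only [hz]; fun_prop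
  have cz' : ContinuousAt z' s0 := by simp only [hz']; fun_prop
  have zb : ball (0 : ℂ) ρ ∈ 𝓝 (z s0) := by rw [z0]; exact ball_mem_nhds 0 hρ
  have cW : ContinuousAt (fun s => W (z s)) s0 :=
    ContinuousAt.comp (hc.dW.continuousOn.continuousAt zb) cz
  have ev : ∀ᶠ s in 𝓝 s0, (γ s).1 ∈ ball p R ∧ z s ∈ ball (0 : ℂ) ρ ∧
      p + z s • e + W (z s) • v ∈ ball p R ∧ ‖z' s‖ < ‖z' s0‖ + 1 := by
    refine (cγ.fst.eventually_mem (ball_mem_nhds _ A.R0)).and
      ((cz.eventually_mem zb).and (Filter.Eventually.and ?_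
        (cz'.norm.eventually (gt_mem_nhds (lt_add_one _)))))
    have : ContinuousAt (fun s => p + z s • e + W (z s) • v) s0 :=
      (continuousAt_const.add (cz.smul continuousAt_const)).add (cW.smul continuousAt_const)
    exact this.eventually_mem (by simpa [z0, hc.W0] using ball_mem_nhds p A.R0)
  have ev2 : ∀ᶠ s in 𝓝 s0, (γ s).1 = p + z s • e + w s • v ∧ HasDerivAt z (z' s) s ∧
      (γ' s).1 = z' s • e + (z' s * a (γ s).1) • v ∧ HasDerivAt w (z' s * a (γ s).1) s := by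
    filter_upwards [hγ, hγ.eventually_nhds, ev] with s h1 h2 h3
    have d1 : HasDerivAt (fun s => (γ s).1) (γ' s).1 s := h1.1.fst
    have e1 := frame_decomp ha ((γ s).1 - p)
    rw [dot_sub_right (crs v e), h1.2.2.2, h0.2.2.2, sub_self, zero_smul, zero_add] at e1
    have e2 := frame_decomp ha (γ' s).1
    have e3 : dot (crs v e) (γ' s).1 = 0 := (hasDerivAt_dot_right _ d1).unique
      ((hasDerivAt_const s (1 : ℂ)).congr_of_eventuallyEq (h2.mono fun t ht => ht.2.2.2))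
    rw [e3, zero_smul, zero_add] at e2
    have e4 := XS_ann hS _ h1.2.1 _ (tanX_curve (h2.mono fun t ht => ht.2.1) h1.1) h1.2.2.1
    rw [e2] at e4
    have e5 := slope _ h1.2.1 h3.1 _ _ e4
    refine ⟨by rw [add_assoc, ← e1]; abel, hasDerivAt_dot_right _ (d1.sub_const p),
      by rw [← e5]; exact e2, ?_⟩
    rw [← e5]; exact hasDerivAt_dot_right _ (d1.sub_const p)
  have L0 := A.L0
  have eq1 : w =ᶠ[𝓝 s0] fun s => W (z s) := by
    refine ODE_solution_unique_of_eventually (v := fun s c => z' s * a (p + z s • e + c • v))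
      (s := fun s => {c | p + z s • e + c • v ∈ ball p R})
      (K := ⟨(‖z' s0‖ + 1) * (L * ‖v‖), by positivity⟩) ?_ ?_ ?_ (by rw [w0, z0, hc.W0])
    · filter_upwards [ev] with s h1
      refine LipschitzOnWith.of_dist_le_mul fun c k c' k' => ?_
      have := A.lip k' k
      rw [add_sub_add_left_eq_sub, ← sub_smul, norm_smul] at this
      rw [dist_eq_norm, dist_eq_norm, ← mul_sub, norm_mul]
      calc _ ≤ (‖z' s0‖ + 1) * (L * (‖c - c'‖ * ‖v‖)) := by gcongr; exact h1.2.2.2.le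
        _ = (‖z' s0‖ + 1) * (L * ‖v‖) * ‖c - c'‖ := by ring
    · filter_upwards [ev, ev2] with s h1 h2
      refine ⟨?_, show p + z s • e + w s • v ∈ ball p R from h2.1 ▸ h1.1⟩
      rw [← h2.1]
      exact h2.2.2.2
    · filter_upwards [ev, ev2] with s h1 h2
      refine ⟨?_, h1.2.2.1⟩
      have t1 := hc.tan h1.2.1 1
      have t2 := hc.tan h1.2.1 I
      rw [one_smul] at t1
      have e4 := XS_ann hS _ (hc.mem _ h1.2.1) _ t1 t2
      have e5 := slope _ (hc.mem _ h1.2.1) h1.2.2.1 1 _ (by rw [one_smul]; exact e4)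
      refine (((hc.dW.differentiableAt (isOpen_ball.mem_nhds h1.2.1)).hasDerivAt.scomp s
        h2.2.1)).congr_deriv ?_
      rw [e5, one_mul, smul_eq_mul]
  set ν : ℝ → ℂ := fun s => dot (γ s).2 v / dot (G (z s)) v with hν
  have ev3 : ∀ᶠ s in 𝓝 s0, (γ s).1 = p + z s • e + W (z s) • v ∧
      ∃ c : ℝ, c ≠ 0 ∧ ν s = c ∧ (γ s).2 = (c : ℂ) • G (z s) := by
    filter_upwards [hγ, ev, ev2, eq1] with s h1 h2 h3 h4
    have e1 : (γ s).1 = p + z s • e + W (z s) • v := by rw [h3.1, h4]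
    have m := hc.mem _ h2.2.1
    obtain ⟨c, c0, k⟩ := Con.unique hS m.1 m.2 (e1 ▸ h1.2.1.2)
    simp only [dotL_apply] at k
    refine ⟨e1, c, c0, ?_, eq_of_dot fun u => by rw [k, dot_smul_left]⟩
    simp only [hν]; rw [k, mul_div_cancel_right₀ _ (hc.dot_ne h2.2.1)]
  have ev4 : ∀ᶠ s in 𝓝 s0, HasDerivAt ν 0 s := by
    filter_upwards [hγ, ev, ev2, ev3, ev3.eventually_nhds] with s h1 h2 h3 h4 h5
    obtain ⟨e1, c, c0, k1, k2⟩ := h4
    have d2 : HasDerivAt (fun s => (γ s).2) (γ' s).2 s := h1.1.snd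
    have dG : HasDerivAt (fun s => G (z s)) (z' s • deriv G (z s)) s :=
      (hc.dG.differentiableAt (isOpen_ball.mem_nhds h2.2.1)).hasDerivAt.scomp s h3.2.1
    have gv := hc.dot_ne h2.2.1
    have d3 := (hasDerivAt_dot_left v d2).fun_div (hasDerivAt_dot_left v dG) gv
    set ν' := (dot (γ' s).2 v * dot (G (z s)) v - dot (γ s).2 v * dot (z' s • deriv G (z s)) v) /
      dot (G (z s)) v ^ 2 with hν'
    have i1 : ν'.im = 0 := (imCLM.hasFDerivAt.comp_hasDerivAt s d3).unique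
      ((hasDerivAt_const s (0 : ℝ)).congr_of_eventuallyEq (h5.mono fun t ht => by
        obtain ⟨c, -, k, -⟩ := ht.2
        exact (congrArg im k).trans (ofReal_im c)))
    obtain ⟨μ, μ0, hμ⟩ := XS_mu h1.2.1 h (A.sub h2.1)
    obtain ⟨-, m1, b1⟩ := tan_formula h (A.sub h2.1) h1.2.1.1 hμ h1.2.2.1
    have t := hc.rs h2.2.1 (I * z' s) c0
    rw [← e1, ← k2] at t
    obtain ⟨-, m2, b2⟩ := tan_formula h (A.sub h2.1) h1.2.1.1 hμ t
    have t1 := hc.tan h2.2.1 1
    have t2 := hc.tan h2.2.1 I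
    rw [one_smul] at t1
    have e5 := slope _ (hc.mem _ h2.2.1) h2.2.2.1 1 _
      (by rw [one_smul]; exact XS_ann hS _ (hc.mem _ h2.2.1) _ t1 t2)
    have e6 : (I • γ' s).1 = ((I * z' s) • (e + deriv W (z s) • v, (c : ℂ) • deriv G (z s))).1 := by
      rw [Prod.smul_fst, h3.2.2.1, e5, e1]
      simp only [Prod.smul_mk, smul_add, smul_smul, one_mul, mul_assoc, hp]
    have c1 := b1 v
    have c2 := b2 v
    rw [← e6] at c2
    have c3 := hμ v
    have c4 : dot (γ s).2 v = c * dot (G (z s)) v := by rw [k2, dot_smul_left]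
    simp only [Prod.smul_snd, dot_smul_left] at c1 c2 hν'
    have n1 := A.ne _ h2.1
    have c5 : I * ν' * μ = (m1 - m2) * c := by
      refine mul_right_cancel₀ (mul_ne_zero n1 gv) ?_
      have c6 : ν' * dot (G (z s)) v = dot (γ' s).2 v - c * (z' s * dot (deriv G (z s)) v) := by
        rw [hν', c4]; field_simp
      linear_combination (μ * cf (fderiv ℝ r (γ s).1) v) * I * c6 +
        (μ * cf (fderiv ℝ r (γ s).1) v) * (c1 - c2) + (m1 - m2) * cf (fderiv ℝ r (γ s).1) v *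
        (c4 - c3)
    have i2 : ν'.re = 0 := by
      have := congrArg im c5
      simp only [mul_im, mul_re, I_re, I_im, ofReal_re, ofReal_im, sub_re, sub_im] at this
      exact mul_right_cancel₀ μ0 (by linarith)
    exact d3.congr_deriv (Complex.ext i2 i1)
  have eq2 : ν =ᶠ[𝓝 s0] fun _ => 1 := by
    refine ODE_solution_unique_of_eventually (v := fun _ _ => (0 : ℂ)) (s := fun _ => univ)
      (K := 0) (Eventually.of_forall fun _ => (LipschitzWith.const _).lipschitzOnWith)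
      (ev4.mono fun s hs => ⟨hs, trivial⟩)
      (Eventually.of_forall fun s => ⟨hasDerivAt_const _ _, trivial⟩) ?_
    simp only [hν, z0, hc.G0]; exact div_self g0
  filter_upwards [ev3, eq2] with s h1 h2
  obtain ⟨e1, c, -, k1, k2⟩ := h1
  rw [← k1, h2, one_smul] at k2
  exact Prod.ext e1 k2

theorem LF.curv (hS : LF S) {B : ℝ} (hB : B < 24)
    (h : ∀ p ∈ S, nn p = 1 → ∃ U r, p ∈ U ∧ LocDef S U r ∧ Pinch r B p) : False := by
  obtain ⟨C, hC⟩ := XS_dual hS
  exact Pk.false (X := XS S) (C := C) ⟨XS_ne hS, fun _ => XS_nz1 hS, fun _ => XS_nz2 hS,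
    fun _ => XS_orth hS, XS_scale hS, XS_ann hS, XS_grad hS h, hC, XS_chart hS, XS_uniq hS⟩ hB

end Pool.Agent.Lib.MP_4e4ac8_an
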