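import Pool.Agent.Lib.MP_4e4ac8_an.CPath

/-!
Compatibility of leaf charts and the construction of varied paths.
-/

set_option autoImplicit false
open Filter Topology Complex ComplexConjugate Metric

namespace Pool.Agent.Lib.MP_4e4ac8_an

variable {X : Set (E × E)} {x0 : E × E} {γ γ' : ℝ → E × E} {L B C : ℝ}

lemma cd1 {F : Type} [NormedAddCommGroup F] [NormedSpace ℝ F] {f f' : ℝ → F}
    (h : ∀ s, HasDerivAt f (f' s) s) (hc : Continuous f') : ContDiff ℝ 1 f :=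
  contDiff_one_iff_deriv.2 ⟨fun s => (h s).differentiableAt, by
    rwa [show deriv f = f' from funext fun s => (h s).deriv]⟩

lemma contDiffAt_dot {f g : ℝ → E} {s : ℝ} (hf : ContDiffAt ℝ 1 f s) (hg : ContDiffAt ℝ 1 g s) :
    ContDiffAt ℝ 1 (fun s => dot (f s) (g s)) s := by
  have a := contDiffAt_pi.1 hf
  have b := contDiffAt_pi.1 hg
  exact (((a 0).mul (b 0)).add ((a 1).mul (b 1))).add ((a 2).mul (b 2))

/-- the disc of a chart -/
noncomputable def disc (e v : E) (x : E × E) (W : ℂ → ℂ) (G : ℂ → E) (z : ℂ) : E × E :=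
  (x.1 + z • e + W z • v, G z)

lemma Chart.dOn {e v : E} {ρ M : ℝ} {x : E × E} {W : ℂ → ℂ} {G : ℂ → E}
    (h : Chart X e v ρ M x W G) : DifferentiableOn ℂ (disc e v x W G) (ball 0 ρ) :=
  fun _ hz => (h.der hz).differentiableAt.differentiableWithinAt

lemma Chart.disc0 {e v : E} {ρ M : ℝ} {x : E × E} {W : ℂ → ℂ} {G : ℂ → E}
    (h : Chart X e v ρ M x W G) : disc e v x W G 0 = x := by simp [disc, h.W0, h.G0]

lemma compat (hX : Pk X B C) {a e v : E} (ha : dot (crs v e) a = 1) {ρ M : ℝ} {x : E × E}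
    (hx : dot (crs v e) x.1 = 1) {W W' : ℂ → ℂ} {G G' : ℂ → E} (h : Chart X e v ρ M x W G) {d : ℂ}
    (hd : ‖d‖ < ρ / 2) (h' : Chart X e v ρ M (disc e v x W G d) W' G') {w : ℂ}
    (hw : w ∈ ball (0 : ℂ) (ρ / 2)) :
    disc e v (disc e v x W G d) W' G' w = disc e v x W G (w + d) := by
  have hρ : 0 < ρ / 2 := (norm_nonneg d).trans_lt hd
  have mb : ∀ w ∈ ball (0 : ℂ) (ρ / 2), w + d ∈ ball (0 : ℂ) ρ := fun w hw => by
    rw [mem_ball_zero_iff] at hw ⊢
    linarith [norm_add_le w d]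
  have t1 : ∀ t : ℝ, HasDerivAt (fun t : ℝ => (t : ℂ) + d) 1 t := fun t =>
    (ofRealCLM.hasDerivAt (x := t)).add_const d
  have t2 : ∀ᶠ t : ℝ in 𝓝 0, (t : ℂ) + d ∈ ball (0 : ℂ) ρ :=
    (t1 0).continuousAt.eventually_mem (isOpen_ball.mem_nhds (mb _ (by simpa using hρ)))
  have t3 : ContinuousAt (fun t : ℝ => (t : ℂ) + d) 0 := (t1 0).continuousAt
  have o : ball (0 : ℂ) ρ ∈ 𝓝 (((0 : ℝ) : ℂ) + d) := isOpen_ball.mem_nhds t2.self_of_nhds
  have u := hX.uniq a e v ha (fun t => disc e v x W G (t + d))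
    (fun t => (1 : ℂ) • (e + deriv W (t + d) • v, deriv G (t + d))) 0 ρ M W' G' (by linarith)
    (by simpa using h') (by
      filter_upwards [t2] with t ht
      have q := (h.der ht).scomp t (t1 t)
      refine ⟨q, h.mem _ ht, ?_, dot_chart hx _ _⟩
      rw [smul_smul]; exact h.tan ht _)
    (by
      have q1 : ContinuousAt (fun t : ℝ => deriv W (t + d)) 0 :=
        ContinuousAt.comp (f := fun t : ℝ => (t : ℂ) + d)
          ((h.dW.deriv isOpen_ball).continuousOn.continuousAt o) t3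
      have q2 : ContinuousAt (fun t : ℝ => deriv G (t + d)) 0 :=
        ContinuousAt.comp (f := fun t : ℝ => (t : ℂ) + d)
          ((h.dG.deriv isOpen_ball).continuousOn.continuousAt o) t3
      simp only [one_smul]
      exact (continuousAt_const.add (q1.smul continuousAt_const)).prodMk q2)
  have u2 : ∀ᶠ t : ℝ in 𝓝 0,
      disc e v (disc e v x W G d) W' G' t = disc e v x W G (t + d) := by
    filter_upwards [u] with t ht
    have e1 : dot (crs a v) ((disc e v x W G (t + d)).1 - (disc e v x W G (((0 : ℝ) : ℂ) + d)).1)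
        = t := by
      have : (disc e v x W G (t + d)).1 - (disc e v x W G (((0 : ℝ) : ℂ) + d)).1 =
          (t : ℂ) • e + (W (t + d) - W d) • v := by
        simp only [disc, ofReal_zero, zero_add, add_smul, sub_smul]; abel
      rw [this, dot_add_right, dot_smul_right, dot_smul_right, frame_me ha, dot_crs_right]; simp
    rw [e1] at ht
    rw [ht]; simp [disc]
  have a1 : AnalyticOnNhd ℂ (disc e v (disc e v x W G d) W' G') (ball 0 (ρ / 2)) :=
    (h'.dOn.mono (ball_subset_ball (by linarith))).analyticOnNhd isOpen_ball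
  have a2 : AnalyticOnNhd ℂ (fun w => disc e v x W G (w + d)) (ball 0 (ρ / 2)) :=
    (h.dOn.comp (by fun_prop) mb).analyticOnNhd isOpen_ball
  refine a1.eqOn_of_preconnected_of_frequently_eq a2 (convex_ball _ _).isPreconnected
    (mem_ball_self hρ) ?_ hw
  have tt : Tendsto (fun t : ℝ => (t : ℂ)) (𝓝[≠] 0) (𝓝[≠] 0) :=
    tendsto_nhdsWithin_iff.2 ⟨by
      simpa using (continuous_ofReal.tendsto 0).mono_left nhdsWithin_le_nhds,
      eventually_mem_nhdsWithin.mono fun t ht => by simpa using ht⟩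
  exact tt.frequently ((u2.filter_mono nhdsWithin_le_nhds).frequently)

/-- the normalised state -/
noncomputable def nst (l : E) (x : E × E) : E × E := sc (dot l x.1)⁻¹ x

/-- the velocity of the normalised state -/
noncomputable def nst' (l : E) (x k : E × E) : E × E :=
  scd (dot l x.1)⁻¹ (-dot l k.1 / dot l x.1 ^ 2) x k

lemma Pth.dnst (h : Pth X x0 γ γ' L) {l : E} {s : ℝ} (hs : dot l (γ s).1 ≠ 0) :
    HasDerivAt (fun s => nst l (γ s)) (nst' l (γ s) (γ' s)) s :=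
  hasDerivAt_sc (h.der s) ((hasDerivAt_dot_right l (h.der s).fst).inv hs) (inv_ne_zero hs)

lemma Pth.loc (hX : Pk X B C) (h : Pth X x0 γ γ' L) {a e v : E} (ha : dot (crs v e) a = 1)
    {ρ M : ℝ} (hρ : 0 < ρ) {s0 : ℝ} (hs : dot (crs v e) (γ s0).1 ≠ 0) {W : ℂ → ℂ} {G : ℂ → E}
    (hc : Chart X e v ρ M (nst (crs v e) (γ s0)) W G) :
    ∀ᶠ s in 𝓝 s0, nst (crs v e) (γ s) = disc e v (nst (crs v e) (γ s0)) W G
      (dot (crs a v) ((nst (crs v e) (γ s)).1 - (nst (crs v e) (γ s0)).1)) := by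
  have c1 := h.cγ
  have c2 := h.cont
  have c3 : ContinuousAt (fun s => dot (crs v e) (γ s).1) s0 := by fun_prop
  refine hX.uniq a e v ha (fun s => nst (crs v e) (γ s)) (fun s => nst' (crs v e) (γ s) (γ' s))
    s0 ρ M W G hρ hc ?_ ?_
  · filter_upwards [c3.eventually_ne hs] with s h1
    refine ⟨h.dnst h1, hX.scale _ (h.mem s) _ (inv_ne_zero h1), ?_, ?_⟩
    · rw [nst', I_scd]; exact tanX_sc hX.scale (h.hor s) _ (inv_ne_zero h1)
    · simp only [nst, sc]; rw [dot_smul_right, inv_mul_cancel₀ h1]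
  · have c4 : ContinuousAt (fun s => (dot (crs v e) (γ s).1)⁻¹) s0 := c3.inv₀ hs
    have c5 : ContinuousAt (fun s => -dot (crs v e) (γ' s).1 / dot (crs v e) (γ s).1 ^ 2) s0 :=
      ContinuousAt.div (by fun_prop) (c3.pow 2) (pow_ne_zero 2 hs)
    exact ((c5.smul c1.continuousAt.fst).add (c4.smul c2.continuousAt.fst)).prodMk
      (((c5.neg.div (c4.pow 2) (pow_ne_zero 2 (inv_ne_zero hs))).smul c1.continuousAt.snd).add
        ((c4.inv₀ (inv_ne_zero hs)).smul c2.continuousAt.snd))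

lemma Pth.vel (hX : Pk X B C) (h : Pth X x0 γ γ' L) {a e v : E} (ha : dot (crs v e) a = 1)
    {ρ M : ℝ} (hρ : 0 < ρ) {s0 : ℝ} (hs : dot (crs v e) (γ s0).1 ≠ 0) {W : ℂ → ℂ} {G : ℂ → E}
    (hc : Chart X e v ρ M (nst (crs v e) (γ s0)) W G) :
    nst' (crs v e) (γ s0) (γ' s0) =
      dot (crs a v) (nst' (crs v e) (γ s0) (γ' s0)).1 • (e + deriv W 0 • v, deriv G 0) := by
  have h1 := hasDerivAt_dot_right (crs a v) ((h.dnst hs).fst.sub_const (nst (crs v e) (γ s0)).1)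
  have h2 : HasDerivAt (disc e v (nst (crs v e) (γ s0)) W G) (e + deriv W 0 • v, deriv G 0)
      (dot (crs a v) ((nst (crs v e) (γ s0)).1 - (nst (crs v e) (γ s0)).1)) := by
    rw [sub_self, dot_zero_right]; exact hc.der (mem_ball_self hρ)
  have h3 := h2.scomp s0 h1
  exact (h.dnst hs).unique (h3.congr_of_eventuallyEq (h.loc hX ha hρ hs hc))

lemma Pth.vary (hX : Pk X B C) (h : Pth X x0 γ γ' L) {a e v : E} (ha : dot (crs v e) a = 1)
    {ρ M Λ : ℝ} (hρ : 0 < ρ) (hΛ : 0 < Λ) (hL : Λ < len γ γ' L) {W : ℝ → ℂ → ℂ} {G : ℝ → ℂ → E}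
    {ω : ℝ → ℂ} (hs : ∀ s, len γ γ' s < Λ + 2 → dot (crs v e) (γ s).1 ≠ 0 ∧
      Chart X e v ρ M (nst (crs v e) (γ s)) (W s) (G s) ∧ ContDiffAt ℝ 1 ω s ∧ ‖ω s‖ < ρ / 2)
    (h0 : ∀ s, s ≤ 0 → ω s = 0) (h1 : ∀ s, Λ ≤ len γ γ' s → ω s = 0) :
    ∃ δ δ', Pth X x0 δ δ' L ∧ δ L = γ L ∧
      (∀ s, Λ < len γ γ' s → dens (δ s) (δ' s) = dens (γ s) (γ' s)) ∧
      ∀ s, len γ γ' s < Λ + 2 → dens (δ s) (δ' s) =
        ‖dot (crs a v) (nst' (crs v e) (γ s) (γ' s)).1 + deriv ω s‖ / (‖dot (G s (ω s)) v‖ *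
          (nn ((nst (crs v e) (γ s)).1 + ω s • e + W s (ω s) • v) *
            √(nn ((nst (crs v e) (γ s)).1 + ω s • e + W s (ω s) • v)))) := by
  classical
  set l := crs v e with hl
  set δ : ℝ → E × E := fun s => if len γ γ' s ≤ Λ then
    sc (dot l (γ s).1) (disc e v (nst l (γ s)) (W s) (G s) (ω s)) else γ s with hδ
  have cl : Continuous (len γ γ') :=
    continuous_iff_continuousAt.2 fun s => (h.dlen hX s).continuousAt
  have cγ : ContDiff ℝ 1 γ := cd1 h.der h.cont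
  have e1 : ∀ s, len γ γ' s < Λ + 2 →
      δ s = sc (dot l (γ s).1) (disc e v (nst l (γ s)) (W s) (G s) (ω s)) := fun s hJ => by
    simp only [hδ]
    split_ifs with hc
    · rfl
    · rw [h1 s (not_le.1 hc).le, (hs s hJ).2.1.disc0, nst, sc_sc (hs s hJ).1]
  have e2 : ∀ s, Λ < len γ γ' s → δ s = γ s := fun s hJ => if_neg (not_le.2 hJ)
  have e3 : ∀ s, Λ < len γ γ' s → δ =ᶠ[𝓝 s] γ := fun s hJ =>
    (cl.continuousAt.eventually (lt_mem_nhds hJ)).mono e2
  have one : ∀ s, len γ γ' s < Λ + 2 → dot l (nst l (γ s)).1 = 1 := fun s hJ => by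
    simp only [nst, sc]; rw [dot_smul_right, inv_mul_cancel₀ (hs s hJ).1]
  have mb : ∀ s, len γ γ' s < Λ + 2 → ω s ∈ ball (0 : ℂ) ρ := fun s hJ => by
    rw [mem_ball_zero_iff]; linarith [(hs s hJ).2.2.2]
  have e4 : ∀ s0, len γ γ' s0 < Λ + 2 → δ =ᶠ[𝓝 s0] fun s => sc (dot l (γ s).1)
      (disc e v (nst l (γ s0)) (W s0) (G s0)
        (ω s + dot (crs a v) ((nst l (γ s)).1 - (nst l (γ s0)).1))) := fun s0 hJ => by
    have c1 : ContinuousAt (fun s => ‖dot (crs a v) ((nst l (γ s)).1 - (nst l (γ s0)).1)‖) s0 :=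
      (hasDerivAt_dot_right _ ((h.dnst (hs s0 hJ).1).fst.sub_const _)).continuousAt.norm
    filter_upwards [cl.continuousAt.eventually (gt_mem_nhds hJ),
      h.loc hX ha hρ (hs s0 hJ).1 (hs s0 hJ).2.1,
      c1.eventually (gt_mem_nhds (show _ < ρ / 2 by simp [dot_zero_right, hρ]))] with s k1 k2 k3
    have k4 := (hs s k1).2.1
    rw [e1 s k1]
    rw [k2] at k4
    conv_lhs => rw [k2]
    rw [compat hX ha (one s0 hJ) (hs s0 hJ).2.1 k3 k4 (mem_ball_zero_iff.2 (hs s k1).2.2.2)]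
  have e5 : ∀ s0, len γ γ' s0 < Λ + 2 → HasDerivAt δ (scd (dot l (γ s0).1) (dot l (γ' s0).1)
      (disc e v (nst l (γ s0)) (W s0) (G s0) (ω s0))
      ((deriv ω s0 + dot (crs a v) (nst' l (γ s0) (γ' s0)).1) •
        (e + deriv (W s0) (ω s0) • v, deriv (G s0) (ω s0)))) s0 := fun s0 hJ => by
    have a1 := ((hs s0 hJ).2.2.1.differentiableAt one_ne_zero).hasDerivAt.add
      (hasDerivAt_dot_right (crs a v) ((h.dnst (hs s0 hJ).1).fst.sub_const (nst l (γ s0)).1))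
    have a2 : HasDerivAt (disc e v (nst l (γ s0)) (W s0) (G s0))
        (e + deriv (W s0) (ω s0) • v, deriv (G s0) (ω s0))
        (ω s0 + dot (crs a v) ((nst l (γ s0)).1 - (nst l (γ s0)).1)) := by
      rw [sub_self, dot_zero_right, add_zero]; exact (hs s0 hJ).2.1.der (mb s0 hJ)
    have a3 := hasDerivAt_sc (a2.scomp s0 a1) (hasDerivAt_dot_right l (h.der s0).fst) (hs s0 hJ).1
    refine (a3.congr_of_eventuallyEq (e4 s0 hJ)).congr_deriv ?_
    simp [dot_zero_right]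
  have cδ : ContDiff ℝ 1 δ := contDiff_iff_contDiffAt.2 fun s0 => by
    rcases lt_or_ge (len γ γ' s0) (Λ + 2) with hJ | hJ
    · refine ContDiffAt.congr_of_eventuallyEq ?_ (e4 s0 hJ)
      have b1 : ContDiffAt ℝ 1 (fun s => dot l (γ s).1) s0 :=
        contDiffAt_dot contDiffAt_const cγ.contDiffAt.fst
      have b2 : ContDiffAt ℝ 1 (fun s => ω s + dot (crs a v) ((nst l (γ s)).1 -
          (nst l (γ s0)).1)) s0 :=
        (hs s0 hJ).2.2.1.add (contDiffAt_dot contDiffAt_const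
          (((b1.inv (hs s0 hJ).1).smul cγ.contDiffAt.fst).sub contDiffAt_const))
      have b3 : ContDiffAt ℝ 1 (disc e v (nst l (γ s0)) (W s0) (G s0))
          (ω s0 + dot (crs a v) ((nst l (γ s0)).1 - (nst l (γ s0)).1)) := by
        rw [sub_self, dot_zero_right, add_zero]
        exact (((hs s0 hJ).2.1.dOn.analyticAt
          (isOpen_ball.mem_nhds (mb s0 hJ))).contDiffAt).restrict_scalars ℝ
      have b4 := b3.comp s0 b2
      exact (b1.smul b4.fst).prodMk ((b1.inv (hs s0 hJ).1).smul b4.snd)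
    · exact cγ.contDiffAt.congr_of_eventuallyEq (e3 s0 (by linarith))
  have e6 : ∀ s, Λ < len γ γ' s → deriv δ s = γ' s := fun s hJ =>
    ((h.der s).congr_of_eventuallyEq (e3 s hJ)).deriv
  refine ⟨δ, deriv δ, ⟨h.L0, fun s => (cδ.differentiable one_ne_zero s).hasDerivAt,
    cδ.continuous_deriv le_rfl, fun s => ?_, fun s => ?_, fun s k => ?_, fun s k => ?_⟩,
    e2 L hL, fun s k => by rw [e2 s k, e6 s k], fun s k => ?_⟩
  · rcases lt_or_ge (len γ γ' s) (Λ + 2) with hJ | hJ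
    · rw [e1 s hJ]; exact hX.scale _ ((hs s hJ).2.1.mem _ (mb s hJ)) _ (hs s hJ).1
    · rw [e2 s (by linarith)]; exact h.mem s
  · rcases lt_or_ge (len γ γ' s) (Λ + 2) with hJ | hJ
    · rw [(e5 s hJ).deriv, e1 s hJ, I_scd, smul_smul]
      exact tanX_sc hX.scale ((hs s hJ).2.1.tan (mb s hJ) _) _ (hs s hJ).1
    · rw [e2 s (by linarith), e6 s (by linarith)]; exact h.hor s
  · have hJ : len γ γ' s < Λ + 2 := by rw [h.len_neg k]; linarith
    rw [e1 s hJ, h0 s k, (hs s hJ).2.1.disc0, nst, sc_sc (hs s hJ).1, h.start s k]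
  · rw [e2 s (hL.trans_le (h.len_mono hX k)), e2 L hL, h.stop s k]
  · have m := (hs s k).2.1.mem _ (mb s k)
    have t1 := (hs s k).2.1.tan (mb s k) 1
    have t2 := (hs s k).2.1.tan (mb s k) I
    rw [one_smul] at t1
    rw [(e5 s k).deriv, e1 s k, dens_sc _ (hs s k).1, add_comm (deriv ω s)]
    exact dens_chart _ (hX.nz2 _ m) (hX.orth _ m) (hX.ann _ m _ t1 t2) (dot_chart (one s k) _ _)

end Pool.Agent.Lib.MP_4e4ac8_an
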