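import Pool.Agent.Lib.MP_4e4ac8_an.CVar1

/-!
Pointwise second order estimate for the averaged weighted speed of a varied path.
-/

set_option autoImplicit false
open Filter Topology Complex ComplexConjugate Metric

namespace Pool.Agent.Lib.MP_4e4ac8_an

variable {X : Set (E × E)} {x0 : E × E} {γ γ' : ℝ → E × E} {L B C : ℝ}

lemma avg2 (e v : E) {ρ M η K : ℝ} (hρ : 0 < ρ) (hM : 0 ≤ M) (hη : 0 < η) (hK : 0 < K) :
    ∃ C : ℝ, 0 ≤ C ∧ ∀ᶠ r : ℝ in 𝓝[>] (0 : ℝ), ∀ (x : E × E) (W : ℂ → ℂ) (G : ℂ → E) (τ ξ β : ℂ),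
      Chart X e v ρ M x W G → dot (crs v e) x.1 = 1 → nn x.1 * η ≤ 1 → ‖τ‖ ≤ K →
      ‖β‖ ≤ K * ‖ξ‖ →
      ∑ j ∈ Finset.range 4, ‖ξ + (β + ξ * τ * (dot (deriv G 0) v / dot x.2 v +
          3 * (hm (e + deriv W 0 • v) x.1 / nn x.1))) * (r * I ^ j)‖ /
          (‖dot (G (τ * (r * I ^ j))) v‖ *
            (nn (x.1 + (τ * (r * I ^ j)) • e + W (τ * (r * I ^ j)) • v) *
            √(nn (x.1 + (τ * (r * I ^ j)) • e + W (τ * (r * I ^ j)) • v)))) ≤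
        (4 * ‖ξ‖ + r ^ 2 * (‖β‖ ^ 2 / ‖ξ‖)
          - 6 * r ^ 2 * (‖ξ‖ * ‖τ‖ ^ 2 * (nn (crs x.1 (e + deriv W 0 • v)) / nn x.1 ^ 2))
          + C * r ^ 3 * ‖ξ‖) / (‖dot x.2 v‖ * (nn x.1 * √(nn x.1))) := by
  set R := 1 / 2 / ρ + 3 * (3 * ((‖e‖ + M * ‖v‖) * (1 + 1 / η)) * nn (crs v e)) with hR
  have N0 := nn_nonneg (crs v e)
  have R0 : 0 ≤ R := by positivity
  obtain ⟨C, C0, hC⟩ := avg1 e v hρ hM hη (show 0 < K + K * R by positivity)
  refine ⟨C, C0, ?_⟩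
  filter_upwards [hC, Ioo_mem_nhdsGT (show 0 < ρ / K by positivity)] with r hr hr2 x W G τ ξ β
    hc hP hPη bτ bβ
  rcases eq_or_ne ξ 0 with rfl | hξ
  · have : β = 0 := by simpa using bβ
    simp [this]
  have z0 : (0 : ℂ) ∈ ball (0 : ℂ) ρ := mem_ball_self hρ
  have g0 : dot x.2 v ≠ 0 := by have := hc.dot_ne z0; rwa [hc.G0] at this
  have lP := one_le_nn_mul hP
  have P0 : 0 < nn x.1 := by
    refine lt_of_le_of_ne (nn_nonneg _) fun h => ?_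
    rw [← h, mul_zero] at lP; linarith
  set q : ℂ → ℂ := fun z => dot x.2 v / dot (G z) v with hq
  have dq : ∀ z ∈ ball (0 : ℂ) ρ, HasDerivAt q
      (-(dot x.2 v * dot (deriv G z) v) / dot (G z) v ^ 2) z := fun z hz =>
    ((hasDerivAt_const z (dot x.2 v)).fun_div (hasDerivAt_dot_left v (hc.der hz).snd)
      (hc.dot_ne hz)).congr_deriv (by simp)
  have dq' : DifferentiableOn ℂ q (ball 0 ρ) := fun z hz =>
    (dq z hz).differentiableAt.differentiableWithinAt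
  have q0 : q 0 = 1 := by simp only [hq, hc.G0]; exact div_self g0
  have q1 : deriv q 0 = -(dot (deriv G 0) v / dot x.2 v) := by
    rw [(dq 0 z0).deriv, hc.G0]; field_simp
  have b1 : ‖deriv q 0‖ ≤ 1 / 2 / ρ := norm_deriv_le_div_of_mapsTo_ball dq'
    (fun z hz => by rw [mem_closedBall, dist_eq_norm, q0]; exact hc.bG z hz) hρ
  have b2 : ‖deriv W 0‖ ≤ M := by
    have := norm_deriv_le_div_of_mapsTo_ball hc.dW (R₂ := M * ρ) (fun z hz => by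
      rw [mem_closedBall, dist_eq_norm, hc.W0, sub_zero]
      exact (hc.bW z hz).trans (mul_le_mul_of_nonneg_left (mem_ball_zero_iff.1 hz).le hM)) hρ
    rwa [mul_div_cancel_right₀ _ hρ.ne'] at this
  set R1 := deriv q 0 - 3 * (hm (e + deriv W 0 • v) x.1 / nn x.1) with hR1
  have b3 : ‖R1‖ ≤ R := by
    refine (norm_sub_le _ _).trans (add_le_add b1 ?_)
    rw [norm_mul, norm_div, norm_real, Real.norm_eq_abs, abs_of_pos P0, div_eq_mul_inv,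
      Complex.norm_ofNat]
    have a1 : ‖e + deriv W 0 • v‖ ≤ ‖e‖ + M * ‖v‖ :=
      (norm_add_le _ _).trans (by rw [norm_smul]; gcongr)
    have a2 := norm_le_of_nn hη hPη
    have a3 : (nn x.1)⁻¹ ≤ nn (crs v e) := by rw [inv_le_iff_one_le_mul₀ P0]; exact lP
    gcongr
    exact (norm_hm_le _ _).trans (by gcongr)
  have n0 : 0 < ‖ξ‖ := norm_pos_iff.2 hξ
  have key := hr x.1 W q τ (β / ξ - τ * R1) hP hPη hc.dW dq' hc.W0 q0 hc.bW hc.bG
    (bτ.trans (le_add_of_nonneg_right (by positivity))) ((norm_sub_le _ _).trans (add_le_add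
      (by rwa [norm_div, div_le_iff₀ n0]) (by rw [norm_mul]; gcongr)))
  rw [← hR1, sub_add_cancel, norm_div] at key
  have t0 : 0 < ‖dot x.2 v‖ * (nn x.1 * √(nn x.1)) :=
    mul_pos (norm_pos_iff.2 g0) (mul_pos P0 (Real.sqrt_pos.2 P0))
  have key2 := mul_le_mul_of_nonneg_left key (div_pos n0 t0).le
  rw [Finset.mul_sum] at key2
  refine le_trans (le_of_eq (Finset.sum_congr rfl fun j _ => ?_)) (key2.trans (le_of_eq ?_))
  · set ζ := (r : ℂ) * I ^ j with hζ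
    have hz : τ * ζ ∈ ball (0 : ℂ) ρ := by
      have a1 : ‖ζ‖ = r := by simp [hζ, abs_of_pos hr2.1]
      have a2 := hr2.2
      rw [lt_div_iff₀ hK] at a2
      rw [mem_ball_zero_iff, norm_mul, a1]
      nlinarith [hr2.1]
    have e1 : ξ + (β + ξ * τ * (dot (deriv G 0) v / dot x.2 v +
        3 * (hm (e + deriv W 0 • v) x.1 / nn x.1))) * ζ = ξ * (1 + (β / ξ - τ * R1) * ζ) := by
      rw [hR1, q1]; field_simp; ring
    have a1 := norm_pos_iff.2 g0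
    have a2 := Real.sqrt_pos.2 P0
    rw [e1, norm_mul]
    simp only [hq, norm_div]
    field_simp
  · field_simp

lemma pt_real {t e s y y' φ' n0 nξ r ε B C : ℝ} (ht : 0 < t) (he : 0 < e) (hs : 0 ≤ s)
    (hε : 0 < ε) (h1 : nξ = t * s * e ^ 2) (h2 : s ^ 2 = nξ ^ 2 * n0) (h3 : φ' ^ 2 ≤ B * s ^ 2) :
    (4 * nξ + r ^ 2 * ((t * |e * (y' * s - φ' * y / 2)|) ^ 2 / nξ)
      - 6 * r ^ 2 * (nξ * (t * (e * y)) ^ 2 * n0) + C * r ^ 3 * nξ) / t ≤
      4 * (s * e ^ 2) + s * (r ^ 2 * ((1 + 1 / ε) * y' ^ 2 - (6 - (1 + ε) * B / 4) * y ^ 2)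
        + C * e ^ 2 * r ^ 3) := by
  rcases hs.eq_or_lt with rfl | hs
  · simp [h1]
  have n1 : n0 = 1 / (t * e ^ 2) ^ 2 := by
    rw [h1] at h2
    field_simp
    have : s ^ 2 * (n0 * t ^ 2 * e ^ 4 - 1) = 0 := by linarith
    have := (mul_eq_zero.1 this).resolve_left (by positivity)
    linarith
  have k1 : (y' * s - φ' * y / 2) ^ 2 ≤
      s ^ 2 * ((1 + 1 / ε) * y' ^ 2 + (1 + ε) * B / 4 * y ^ 2) := by
    have a1 : (y' * s - φ' * y / 2) ^ 2 ≤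
        (1 + 1 / ε) * (y' * s) ^ 2 + (1 + ε) * (φ' * y / 2) ^ 2 := by
      have : (1 + 1 / ε) * (y' * s) ^ 2 + (1 + ε) * (φ' * y / 2) ^ 2 - (y' * s - φ' * y / 2) ^ 2
          = (y' * s + ε * (φ' * y / 2)) ^ 2 / ε := by field_simp; ring
      have : 0 ≤ (y' * s + ε * (φ' * y / 2)) ^ 2 / ε := by positivity
      linarith
    have a2 := mul_le_mul_of_nonneg_left h3 (show 0 ≤ (1 + ε) * y ^ 2 / 4 by positivity)
    nlinarith
  have k2 : (y' * s - φ' * y / 2) ^ 2 / s ≤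
      s * ((1 + 1 / ε) * y' ^ 2 + (1 + ε) * B / 4 * y ^ 2) := by
    rw [div_le_iff₀ hs]; linarith
  have k3 := mul_le_mul_of_nonneg_left k2 (sq_nonneg r)
  have e1 : (4 * nξ + r ^ 2 * ((t * |e * (y' * s - φ' * y / 2)|) ^ 2 / nξ)
      - 6 * r ^ 2 * (nξ * (t * (e * y)) ^ 2 * n0) + C * r ^ 3 * nξ) / t =
      4 * (s * e ^ 2) + r ^ 2 * ((y' * s - φ' * y / 2) ^ 2 / s) - 6 * r ^ 2 * (s * y ^ 2)
        + s * (C * e ^ 2 * r ^ 3) := by
    rw [mul_pow t, sq_abs, h1, n1]; field_simp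
  rw [e1]; nlinarith

lemma dens_eq (hX : Pk X B C) {x : E × E} (hx : x ∈ X) (k : E × E) :
    dens x k = sp x k * Real.exp (-lw x / 2) ^ 2 := by
  have n0 : 0 < nn x.1 * nn x.2 := mul_pos (nn_pos (hX.nz1 _ hx)) (nn_pos (hX.nz2 _ hx))
  rw [dens, ← Real.exp_nat_mul, Real.sqrt_eq_rpow, Real.rpow_def_of_pos n0, div_eq_mul_inv,
    ← Real.exp_neg, lw]
  congr 2; push_cast; ring

lemma nn_mul_eq (hX : Pk X B C) {x : E × E} (hx : x ∈ X) :
    nn x.1 * nn x.2 * Real.exp (-lw x / 2) ^ 4 = 1 := by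
  have n0 : 0 < nn x.1 * nn x.2 := mul_pos (nn_pos (hX.nz1 _ hx)) (nn_pos (hX.nz2 _ hx))
  rw [← Real.exp_nat_mul, lw]
  nth_rewrite 1 [← Real.exp_log n0]
  rw [← Real.exp_add, Real.exp_eq_one_iff]; push_cast; ring

lemma hm_nst' {l : E} {x : E × E} (k : E × E) (h0 : x.1 ≠ 0) (hc : dot l x.1 ≠ 0) :
    hm (nst' l x k).1 (nst l x).1 / nn (nst l x).1 =
      hm k.1 x.1 / nn x.1 - dot l k.1 / dot l x.1 := by
  have a : (nn x.1 : ℂ) ≠ 0 := by exact_mod_cast (nn_pos h0).ne'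
  have b : conj (dot l x.1) ≠ 0 := by simpa using hc
  simp only [nst', nst, sc, scd, hm_add_left, hm_smul_left, hm_smul_right, hm_self, nn_smul,
    map_inv₀]
  push_cast
  rw [normSq_eq_conj_mul_self]
  field_simp
  ring

end Pool.Agent.Lib.MP_4e4ac8_an
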