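import Pool.Agent.Lib.MP_4e4ac8_an.Main

set_option autoImplicit false
open Filter Topology Complex Asymptotics ComplexConjugate

namespace Pool.Agent.Lib.MP_4e4ac8_an

variable {S : Set E}

lemma no_rank_one_tan (hS : LF S) {l : E →L[ℂ] ℂ} {q m : E} (hq : q ≠ 0) (hl : l m ≠ 0)
    (h : ∀ z ∈ S, ∀ a, Con S z a → (l z * a q).re = 0) : False := by
  obtain ⟨c, hc⟩ := hS.scalar_of_tan (X := l.smulRight q) (by
    intro U r hr z hU hz
    have := h z hz (cf (fderiv ℝ r z)) (con_of_one hr hU hz one_ne_zero fun v => by simp)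
    rw [← cf_re, ContinuousLinearMap.smulRight_apply, map_smul, smul_eq_mul]
    exact this)
  simp only [ContinuousLinearMap.smulRight_apply] at hc
  have c0 : c ≠ 0 := by
    rintro rfl
    exact smul_ne_zero hl hq (by rw [hc, zero_smul])
  have le : (⊤ : Submodule ℂ E) ≤ Submodule.span ℂ {q} := fun x _ =>
    Submodule.mem_span_singleton.2 ⟨c⁻¹ * l x, by
      rw [mul_smul, hc, smul_smul, inv_mul_cancel₀ c0, one_smul]⟩
  have f2 := Submodule.finrank_mono le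
  rw [finrank_span_singleton hq] at f2
  simp at f2

lemma no_degenerate (hS : LF S) {P Q : E →L[ℂ] E} (hP : P ≠ 0) (hQ : Q ≠ 0)
    (hr : Module.finrank ℂ (LinearMap.range (P : E →ₗ[ℂ] E)) ≤ 1)
    (h : ∀ z ∈ S, ∀ a, Con S z a →
      (a.comp Q).smulRight (P z) ≠ 0 → (a.comp Q).smulRight (P z) ∈ Lam S) : False := by
  obtain ⟨⟨p, hp⟩, hp'⟩ := finrank_le_one_iff.1 hr
  have hp2 : ∀ z, ∃ c : ℂ, c • p = P z := fun z => by
    obtain ⟨c, hc⟩ := hp' ⟨P z, z, rfl⟩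
    exact ⟨c, congrArg Subtype.val hc⟩
  obtain ⟨m, hm⟩ : ∃ m, P m ≠ 0 := by
    by_contra hc
    push Not at hc
    exact hP (ContinuousLinearMap.ext hc)
  have p0 : p ≠ 0 := by
    rintro rfl
    obtain ⟨c, hc⟩ := hp2 m
    exact hm (by rw [← hc, smul_zero])
  obtain ⟨i, hi⟩ : ∃ i, p i ≠ 0 := by
    by_contra hc
    push Not at hc
    exact p0 (funext hc)
  let l : E →L[ℂ] ℂ := (p i)⁻¹ • (ContinuousLinearMap.proj i).comp P
  have hl : ∀ z, P z = l z • p := fun z => by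
    obtain ⟨c, hc⟩ := hp2 z
    have : l z = c := by
      simp only [l, _root_.smul_apply, ContinuousLinearMap.comp_apply,
        ContinuousLinearMap.proj_apply, ← hc, Pi.smul_apply, smul_eq_mul]
      field_simp
    rw [this, hc]
  have lm : l m ≠ 0 := fun h0 => hm (by rw [hl, h0, zero_smul])
  have con : ∀ z ∈ S, ∀ a, Con S z a → ∀ v, l z * a (Q v) ≠ 0 →
      p ∈ S ∧ Con S p (l z • a.comp Q) := by
    intro z hz a ha v hv
    have e0 : ∀ w, ((a.comp Q).smulRight (P z)) w = (l z * a (Q w)) • p := fun w => by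
      rw [ContinuousLinearMap.smulRight_apply, hl, smul_smul, mul_comm]; rfl
    obtain ⟨z', hz', a', ha', e⟩ := h z hz a ha (fun h0 => by
      have := e0 v
      rw [h0] at this
      exact smul_ne_zero hv p0 this.symm)
    have e1 : ∀ w, (l z * a (Q w)) • p = a' w • z' := fun w => by rw [← e0, e]; rfl
    have a0 : a' v ≠ 0 := fun h0 => smul_ne_zero hv p0 (by rw [e1, h0, zero_smul])
    have e2 : p = (a' v / (l z * a (Q v))) • z' := by
      rw [div_eq_inv_mul, mul_smul, ← e1, smul_smul, inv_mul_cancel₀ hv, one_smul]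
    have c0 := div_ne_zero a0 hv
    have z0 : z' ≠ 0 := fun h => hS.nz (h ▸ hz')
    have e3 : l z • a.comp Q = (a' v / (l z * a (Q v)))⁻¹ • a' := by
      refine ContinuousLinearMap.ext fun w => ?_
      have := e1 w
      rw [e2, smul_smul] at this
      have h2 := smul_left_injective ℂ z0 this
      simp only [_root_.smul_apply, ContinuousLinearMap.comp_apply, smul_eq_mul]
      rw [← h2, mul_comm _ (a' v / _), ← mul_assoc, inv_mul_cancel₀ c0, one_mul]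
    rw [e3]
    exact ⟨e2 ▸ hS.cone _ hz' _ c0, e2 ▸ ha'.cone hS hz' c0⟩
  by_cases hz : ∃ z ∈ S, ∃ a, Con S z a ∧ ∃ v, l z * a (Q v) ≠ 0
  · obtain ⟨z0, hz0, a0, ha0, v0, hv0⟩ := hz
    obtain ⟨pS, c0⟩ := con z0 hz0 a0 ha0 v0 hv0
    obtain ⟨n, hn⟩ := c0.one hS pS
    have hn' : (l z0 • a0.comp Q) (I • n) = I := by rw [map_smul, hn]; simp
    refine no_rank_one_tan hS (q := Q (I • n)) (fun h0 => ?_) lm fun z hz a ha => ?_
    · simp only [_root_.smul_apply, ContinuousLinearMap.comp_apply, h0] at hn'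
      simp at hn'
      exact I_ne_zero hn'.symm
    · by_cases h0 : l z * a (Q (I • n)) = 0
      · rw [h0, zero_re]
      · obtain ⟨ρ, -, hρ⟩ := c0.unique hS pS (con z hz a ha _ h0).2
        have := hρ (I • n)
        rw [hn'] at this
        change l z * a (Q (I • n)) = _ at this
        rw [this]; simp
  · push Not at hz
    obtain ⟨v, hv⟩ : ∃ v, Q v ≠ 0 := by
      by_contra hc
      push Not at hc
      exact hQ (ContinuousLinearMap.ext hc)
    exact no_rank_one_tan hS hv lm fun z h1 a h2 => by rw [hz z h1 a h2 v, zero_re]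

lemma limit_mem (hS : LF S) {P Q : ℕ → (E →L[ℂ] E)} {P0 Q0 : E →L[ℂ] E} {δ : ℕ → ℝ}
    (hδ : ∀ n, δ n ≠ 0) (hPQ : ∀ n v, P n (Q n v) = (δ n : ℂ) • v) (hP : ∀ n, ∀ z ∈ S, P n z ∈ S)
    (tP : Tendsto P atTop (𝓝 P0)) (tQ : Tendsto Q atTop (𝓝 Q0)) :
    ∀ z ∈ S, ∀ a, Con S z a →
      (a.comp Q0).smulRight (P0 z) ≠ 0 → (a.comp Q0).smulRight (P0 z) ∈ Lam S := by
  intro z hz a ha h0
  refine hS.realCone.closed (fun n => P n * a.smulRight z * Q n) _ (fun n => ?_) ?_ h0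
  · have hd : (δ n : ℂ) ≠ 0 := by exact_mod_cast hδ n
    refine ⟨P n z, hP n z hz, _, (ha.transport hS hz (P n) ((δ n : ℂ)⁻¹ • Q n) (fun v => by
      rw [_root_.smul_apply, map_smul, hPQ, smul_smul, inv_mul_cancel₀ hd, one_smul])
      (hP n)).rsmul (hδ n), ?_⟩
    refine ContinuousLinearMap.ext fun v => ?_
    simp [mul_apply_eq_comp, ← mul_assoc, hd]
  · have e : (a.comp Q0).smulRight (P0 z) = P0 * a.smulRight z * Q0 :=
      ContinuousLinearMap.ext fun v => by simp [mul_apply_eq_comp]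
    rw [e]
    exact (tP.mul_const _).mul tQ

/-- the stabiliser is finite modulo scalars -/
theorem LF.finite (hS : LF S) : ∃ T : Finset (E →L[ℂ] E), ∀ g g' : E →L[ℂ] E,
    (∀ v, g (g' v) = v) → (∀ v, g' (g v) = v) → (∀ z ∈ S, g z ∈ S) → (∀ z ∈ S, g' z ∈ S) →
    ∃ t ∈ T, ∃ c : ℂ, ∀ v, g v = c • t v := by
  classical
  by_contra hc
  push Not at hc
  obtain ⟨f, hf, hr⟩ := exists_seq_of_forall_finset_exists
    (fun x : (E →L[ℂ] E) × (E →L[ℂ] E) => (∀ v, x.1 (x.2 v) = v) ∧ (∀ v, x.2 (x.1 v) = v) ∧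
      (∀ z ∈ S, x.1 z ∈ S) ∧ ∀ z ∈ S, x.2 z ∈ S)
    (fun x y => ∀ c : ℂ, ∃ v, y.1 v ≠ c • x.1 v) (by
      intro s _
      obtain ⟨g, g', a, b, c, d, e⟩ := hc (s.image Prod.fst)
      exact ⟨(g, g'), ⟨a, b, c, d⟩, fun x hx => e _ (Finset.mem_image_of_mem _ hx)⟩)
  let e0 : E := Pi.single 0 1
  have e00 : e0 ≠ 0 := fun h => by simpa [e0] using congrFun h 0
  have n1 : ∀ n, ‖(f n).1‖ ≠ 0 := fun n h => e00 (by
    rw [← (hf n).1 e0, norm_eq_zero.1 h]; rfl)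
  have n2 : ∀ n, ‖(f n).2‖ ≠ 0 := fun n h => e00 (by
    rw [← (hf n).2.1 e0, norm_eq_zero.1 h]; rfl)
  let P : ℕ → (E →L[ℂ] E) := fun n => ((‖(f n).1‖⁻¹ : ℝ) : ℂ) • (f n).1
  let Q : ℕ → (E →L[ℂ] E) := fun n => ((‖(f n).2‖⁻¹ : ℝ) : ℂ) • (f n).2
  let δ : ℕ → ℝ := fun n => ‖(f n).1‖⁻¹ * ‖(f n).2‖⁻¹
  have hδ : ∀ n, δ n ≠ 0 := fun n => mul_ne_zero (inv_ne_zero (n1 n)) (inv_ne_zero (n2 n))
  have PQ : ∀ n v, P n (Q n v) = (δ n : ℂ) • v := fun n v => by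
    simp only [P, Q, δ, _root_.smul_apply, map_smul, (hf n).1, smul_smul, ofReal_mul, mul_comm]
  have QP : ∀ n v, Q n (P n v) = (δ n : ℂ) • v := fun n v => by
    simp only [P, Q, δ, _root_.smul_apply, map_smul, (hf n).2.1, smul_smul, ofReal_mul, mul_comm]
  have c1 : ∀ n, ((‖(f n).1‖⁻¹ : ℝ) : ℂ) ≠ 0 := fun n => by exact_mod_cast inv_ne_zero (n1 n)
  have c2 : ∀ n, ((‖(f n).2‖⁻¹ : ℝ) : ℂ) ≠ 0 := fun n => by exact_mod_cast inv_ne_zero (n2 n)
  have PS : ∀ n, ∀ z ∈ S, P n z ∈ S := fun n z hz => hS.cone _ ((hf n).2.2.1 z hz) _ (c1 n)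
  have QS : ∀ n, ∀ z ∈ S, Q n z ∈ S := fun n z hz => hS.cone _ ((hf n).2.2.2 z hz) _ (c2 n)
  have : ProperSpace (E →L[ℂ] E) := FiniteDimensional.proper ℂ _
  obtain ⟨⟨P0, Q0⟩, ⟨hP0, hQ0⟩, φ, hφ, hl⟩ := ((isCompact_sphere (0 : E →L[ℂ] E) 1).prod
    (isCompact_sphere (0 : E →L[ℂ] E) 1)).tendsto_subseq (x := fun n => (P n, Q n)) (fun n =>
      ⟨by simp [P, norm_smul, n1 n], by simp [Q, norm_smul, n2 n]⟩)
  have tP : Tendsto (fun n => P (φ n)) atTop (𝓝 P0) := (continuous_fst.tendsto _).comp hl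
  have tQ : Tendsto (fun n => Q (φ n)) atTop (𝓝 Q0) := (continuous_snd.tendsto _).comp hl
  have P0n : P0 ≠ 0 := by rintro rfl; simp at hP0
  have Q0n : Q0 ≠ 0 := by rintro rfl; simp at hQ0
  have ev : ∀ {A : ℕ → (E →L[ℂ] E)} {B : E →L[ℂ] E}, Tendsto A atTop (𝓝 B) → ∀ v,
      Tendsto (fun n => A n v) atTop (𝓝 (B v)) := fun h v =>
    ((ContinuousLinearMap.apply ℂ E v).continuous.tendsto _).comp h
  have tδ : Tendsto (fun n => (δ (φ n) : ℂ)) atTop (𝓝 (P0 (Q0 e0) 0)) := by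
    refine (((continuous_apply 0).tendsto _).comp (ev (tP.mul tQ) e0)).congr fun n => ?_
    simp [mul_apply_eq_comp, PQ, e0]
  set d := P0 (Q0 e0) 0 with hd
  have PQ0 : ∀ v, P0 (Q0 v) = d • v := fun v =>
    tendsto_nhds_unique (ev (tP.mul tQ) v) ((tδ.smul_const v).congr fun n => (PQ _ v).symm)
  by_cases d0 : d = 0
  · have le : LinearMap.range (Q0 : E →ₗ[ℂ] E) ≤ LinearMap.ker (P0 : E →ₗ[ℂ] E) := by
      rintro _ ⟨v, rfl⟩
      change P0 (Q0 v) = 0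
      rw [PQ0, d0, zero_smul]
    have f1 := Submodule.finrank_mono le
    have f2 := LinearMap.finrank_range_add_finrank_ker (P0 : E →ₗ[ℂ] E)
    simp only [Module.finrank_fin_fun] at f2
    by_cases hr1 : Module.finrank ℂ (LinearMap.range (P0 : E →ₗ[ℂ] E)) ≤ 1
    · exact no_degenerate hS P0n Q0n hr1
        (limit_mem hS (fun n => hδ (φ n)) (fun n => PQ (φ n)) (fun n => PS (φ n)) tP tQ)
    · exact no_degenerate hS Q0n P0n (by omega)
        (limit_mem hS (fun n => hδ (φ n)) (fun n => QP (φ n)) (fun n => QS (φ n)) tQ tP)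
  · obtain ⟨ε, hε, hdis⟩ := hS.discrete
    have t1 : Tendsto (fun n => d⁻¹ • (P (φ (n + 1)) * Q (φ n))) atTop
        (𝓝 (ContinuousLinearMap.id ℂ E)) := by
      have e : ContinuousLinearMap.id ℂ E = d⁻¹ • (P0 * Q0) :=
        ContinuousLinearMap.ext fun v => by
          rw [_root_.smul_apply, mul_apply_eq_comp, PQ0, smul_smul, inv_mul_cancel₀ d0, one_smul]
          rfl
      rw [e]
      exact ((tP.comp (tendsto_add_atTop_nat 1)).mul tQ).const_smul _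
    obtain ⟨n, hn⟩ := ((tendsto_iff_norm_sub_tendsto_zero.1 t1).eventually (gt_mem_nhds hε)).exists
    obtain ⟨c, hc⟩ := hdis _ (fun z hz => hS.cone _ (PS _ _ (QS _ z hz)) _ (inv_ne_zero d0)) hn
    obtain ⟨v, hv⟩ := hr (φ n) (φ (n + 1)) (hφ (Nat.lt_succ_self n))
      ((d⁻¹ * ((‖(f (φ n)).2‖⁻¹ : ℝ) : ℂ) * ((‖(f (φ (n + 1))).1‖⁻¹ : ℝ) : ℂ))⁻¹ * c)
    apply hv
    have := hc ((f (φ n)).1 v)
    simp only [P, Q, _root_.smul_apply, mul_apply_eq_comp, map_smul, (hf _).2.1, smul_smul] at this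
    rw [mul_smul, ← this, smul_smul, ← mul_assoc d⁻¹,
      inv_mul_cancel₀ (mul_ne_zero (mul_ne_zero (inv_ne_zero d0) (c2 _)) (c1 _)), one_smul]

end Pool.Agent.Lib.MP_4e4ac8_an
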