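import Pool.Agent.Lib.MP_4e4ac8_an.Local

set_option autoImplicit false
open Filter Topology Complex Asymptotics ComplexConjugate

namespace Pool.Agent.Lib.MP_4e4ac8_an

/-- cone over a closed Levi-flat hypersurface of the projective plane -/
structure LF (S : Set E) : Prop where
  ne : S.Nonempty
  nz : (0 : E) ∉ S
  cl : IsClosed (insert 0 S)
  cone : ∀ z ∈ S, ∀ c : ℂ, c ≠ 0 → c • z ∈ S
  loc : ∀ p ∈ S, ∃ U r, p ∈ U ∧ LocDef S U r

variable {S U : Set E} {r : E → ℝ}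

lemma taylor2 {φ φ' : ℝ → ℝ} {c : ℝ} (h : ∀ᶠ t in 𝓝 (0 : ℝ), HasDerivAt φ (φ' t) t) (h0 : φ 0 = 0)
    (h1 : φ' 0 = 0) (h2 : HasDerivAt φ' c 0) :
    (fun t => φ t - t ^ 2 / 2 * c) =o[𝓝 0] fun t : ℝ => t ^ 2 := by
  rw [isLittleO_iff]
  intro ε hε
  have a := (isLittleO_iff.1 (hasDerivAt_iff_isLittleO.1 h2)) hε
  obtain ⟨δ, hδ, hb⟩ := Metric.eventually_nhds_iff.1 (h.and a)
  filter_upwards [Metric.ball_mem_nhds 0 hδ] with t ht
  have ht' : |t| < δ := by simpa using ht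
  have hin : ∀ s ∈ Metric.closedBall (0 : ℝ) |t|, dist s 0 < δ := fun s hs =>
    lt_of_le_of_lt hs ht'
  have := (convex_closedBall (0 : ℝ) |t|).norm_image_sub_le_of_norm_hasDerivWithin_le
    (f := fun s => φ s - s ^ 2 / 2 * c) (f' := fun s => φ' s - s * c) (C := ε * |t|)
    (x := 0) (y := t) (fun s hs => by
      have b : HasDerivAt (fun s : ℝ => s ^ 2 / 2 * c) (s * c) s := by
        have := ((hasDerivAt_pow 2 s).div_const 2).mul_const c
        simpa using this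
      exact ((hb (hin s hs)).1.sub b).hasDerivWithinAt)
    (fun s hs => by
      have b := (hb (hin s hs)).2
      have hs' : |s| ≤ |t| := by simpa using hs
      simp only [h1, sub_zero, smul_eq_mul, Real.norm_eq_abs] at b ⊢
      exact b.trans (mul_le_mul_of_nonneg_left hs' hε.le))
    (by simp) (by simp)
  simp only [h0, sub_zero, Real.norm_eq_abs] at this ⊢
  rw [abs_pow, pow_two |t|, ← mul_assoc]
  simpa using this

namespace LocDef

lemma second (h : LocDef S U r) {p : E} (hp : p ∈ U) (hS : p ∈ S) {v : E}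
    (hv : fderiv ℝ r p v = 0) :
    (fun t : ℝ => r (p + t • v) - t ^ 2 / 2 * fderiv ℝ (fderiv ℝ r) p v v) =o[𝓝 0]
      fun t : ℝ => t ^ 2 := by
  have hl : ∀ t : ℝ, HasDerivAt (fun t : ℝ => p + t • v) v t := fun t => by
    simpa using ((hasDerivAt_id t).smul_const v).const_add p
  apply taylor2 (φ' := fun t => fderiv ℝ r (p + t • v) v)
  · filter_upwards [(hl 0).continuousAt.eventually_mem (by simpa using h.op.mem_nhds hp)] with t ht
    exact (h.fd ht).comp_hasDerivAt t (hl t)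
  · simpa using (h.zero p hp).1 hS
  · simpa using hv
  · have a : HasFDerivAt (fderiv ℝ r) (fderiv ℝ (fderiv ℝ r) p) (p + (0 : ℝ) • v) := by
      simpa using h.fd1 hp
    simpa using (a.comp_hasDerivAt 0 (hl 0)).clm_apply (hasDerivAt_const 0 v)

lemma second_sum (h : LocDef S U r) {p : E} (hp : p ∈ U) (hS : p ∈ S) {v : E}
    (hv : fderiv ℝ r p v = 0) (hv' : fderiv ℝ r p (I • v) = 0) :
    (fun t : ℝ => r (p + t • v) + r (p + t • I • v)) =o[𝓝 0] fun t : ℝ => t ^ 2 := by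
  refine ((h.second hp hS hv).add (h.second hp hS hv')).congr_left fun t => ?_
  have := h.levi p hp hS v hv hv'
  linear_combination (-(t ^ 2 / 2)) * this

lemma near (h : LocDef S U r) {p : E} (hp : p ∈ U) (hS : p ∈ S) {v : E}
    (hv : fderiv ℝ r p v = 0) :
    ∃ x : ℝ → E, (∀ᶠ t in 𝓝 (0 : ℝ), x t ∈ S ∧ r (x t) = 0) ∧ Tendsto x (𝓝 0) (𝓝 p) ∧
      (fun t => x t - (p + t • v)) =O[𝓝 0] fun t : ℝ => t ^ 2 := by
  obtain ⟨C, hC, hpr⟩ := h.proj hp hS
  have hl : Tendsto (fun t : ℝ => p + t • v) (𝓝 0) (𝓝 p) := by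
    have : Continuous (fun t : ℝ => p + t • v) := by fun_prop
    simpa using this.tendsto 0
  obtain ⟨x, hx⟩ := (hl.eventually hpr).choice
  have o1 : (fun t : ℝ => r (p + t • v)) =O[𝓝 0] fun t : ℝ => t ^ 2 := by
    have a : (fun t : ℝ => t ^ 2 / 2 * fderiv ℝ (fderiv ℝ r) p v v) =O[𝓝 0] fun t : ℝ => t ^ 2 := by
      refine ((isBigO_refl (fun t : ℝ => t ^ 2) _).const_mul_left
        (fderiv ℝ (fderiv ℝ r) p v v / 2)).congr_left fun t => by ring
    exact ((h.second hp hS hv).isBigO.add a).congr_left fun t => by ring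
  have o2 : (fun t => x t - (p + t • v)) =O[𝓝 0] fun t : ℝ => t ^ 2 := by
    refine IsBigO.trans (IsBigO.of_bound C ?_) o1
    filter_upwards [hx] with t ht
    exact ht.2
  have o3 : Tendsto x (𝓝 0) (𝓝 p) := by
    have a : Tendsto (fun t : ℝ => t ^ 2) (𝓝 0) (𝓝 0) := by
      simpa using (continuous_pow 2).tendsto (0 : ℝ)
    simpa using (o2.trans_tendsto a).add hl
  refine ⟨x, ?_, o3, o2⟩
  filter_upwards [hx, o3.eventually_mem (h.op.mem_nhds hp)] with t a b
  exact ⟨a.1, (h.zero _ b).1 a.1⟩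

end LocDef

/-- second order condition at a minimum of `Φ` on `S × S` -/
lemma two_point {U' : Set E} {r' : E → ℝ} (h : LocDef S U r) (h' : LocDef S U' r') {p q : E}
    (hp : p ∈ U) (hpS : p ∈ S) (hq : q ∈ U') (hqS : q ∈ S) {Φ : E × E → ℝ}
    (hΦ : ContDiff ℝ 1 Φ) (h0 : Φ (p, q) = 0) (hmin : ∀ x ∈ S, ∀ y ∈ S, 0 ≤ Φ (x, y))
    {ξ η w w' : E} {a a' κ : ℝ} (ha : a ≠ 0) (ha' : a' ≠ 0) (hκ : 0 < κ)
    (d1 : HasDerivAt (fun t : ℝ => Φ (p + t • w, q)) a 0)
    (d2 : HasDerivAt (fun t : ℝ => Φ (p + t • ξ, q)) 0 0)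
    (d3 : HasDerivAt (fun t : ℝ => Φ (p + t • I • ξ, q)) 0 0)
    (d4 : HasDerivAt (fun t : ℝ => Φ (p, q + t • w')) a' 0)
    (d5 : HasDerivAt (fun t : ℝ => Φ (p, q + t • η)) 0 0)
    (d6 : HasDerivAt (fun t : ℝ => Φ (p, q + t • I • η)) 0 0)
    (n1 : ∀ t : ℝ, Φ (p + t • ξ, q + t • η) ≤ -(κ * t ^ 2))
    (n2 : ∀ t : ℝ, Φ (p + t • I • ξ, q + t • I • η) ≤ -(κ * t ^ 2)) : False := by
  have hs : HasStrictFDerivAt Φ (fderiv ℝ Φ (p, q)) (p, q) :=
    hΦ.contDiffAt.hasStrictFDerivAt one_ne_zero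
  set Φ' := fderiv ℝ Φ (p, q) with hΦ'
  have s1 : HasStrictFDerivAt (fun x => Φ (x, q)) (Φ'.comp (ContinuousLinearMap.inl ℝ E E)) p :=
    HasStrictFDerivAt.comp (f := fun x => (x, q)) p hs
      ((hasStrictFDerivAt_id p).prodMk (hasStrictFDerivAt_const q p))
  have s2 : HasStrictFDerivAt (fun y => Φ (p, y)) (Φ'.comp (ContinuousLinearMap.inr ℝ E E)) q :=
    HasStrictFDerivAt.comp (f := fun y => (p, y)) q hs
      ((hasStrictFDerivAt_const p q).prodMk (hasStrictFDerivAt_id q))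
  obtain ⟨l1, hl1⟩ := h.lagrange hp hpS s1 (Eventually.of_forall fun y hy => by
    rw [h0]; exact hmin y hy q hqS)
  obtain ⟨l2, hl2⟩ := h'.lagrange hq hqS s2 (Eventually.of_forall fun y hy => by
    rw [h0]; exact hmin p hpS y hy)
  have hl : ∀ (p v : E), HasDerivAt (fun t : ℝ => p + t • v) v 0 := fun p v => by
    simpa using ((hasDerivAt_id (0 : ℝ)).smul_const v).const_add p
  have u1 : ∀ v b, HasDerivAt (fun t : ℝ => Φ (p + t • v, q)) b 0 → b = l1 * fderiv ℝ r p v := by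
    intro v b hb
    have a : HasFDerivAt (fun x => Φ (x, q)) (l1 • fderiv ℝ r p) (p + (0 : ℝ) • v) := by
      simpa [hl1] using s1.hasFDerivAt
    have c := a.comp_hasDerivAt 0 (hl p v)
    simpa using c.unique hb |>.symm
  have u2 : ∀ v b, HasDerivAt (fun t : ℝ => Φ (p, q + t • v)) b 0 → b = l2 * fderiv ℝ r' q v := by
    intro v b hb
    have a : HasFDerivAt (fun y => Φ (p, y)) (l2 • fderiv ℝ r' q) (q + (0 : ℝ) • v) := by
      simpa [hl2] using s2.hasFDerivAt
    have c := a.comp_hasDerivAt 0 (hl q v)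
    simpa using c.unique hb |>.symm
  have z1 : l1 ≠ 0 := by
    rintro rfl; exact ha (by simpa using u1 _ _ d1)
  have z2 : l2 ≠ 0 := by
    rintro rfl; exact ha' (by simpa using u2 _ _ d4)
  have t1 : fderiv ℝ r p ξ = 0 := by simpa [z1] using u1 _ _ d2
  have t2 : fderiv ℝ r p (I • ξ) = 0 := by simpa [z1] using u1 _ _ d3
  have t3 : fderiv ℝ r' q η = 0 := by simpa [z2] using u2 _ _ d5
  have t4 : fderiv ℝ r' q (I • η) = 0 := by simpa [z2] using u2 _ _ d6
  let Ψ : E × E → ℝ := fun z => Φ z - l1 * r z.1 - l2 * r' z.2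
  have sΨ : HasStrictFDerivAt Ψ (0 : E × E →L[ℝ] ℝ) (p, q) := by
    have a1 := (HasStrictFDerivAt.comp (f := Prod.fst) (p, q)
      ((h.cd hp).hasStrictFDerivAt (by norm_num)) hasStrictFDerivAt_fst).const_mul l1
    have a2 := (HasStrictFDerivAt.comp (f := Prod.snd) (p, q)
      ((h'.cd hq).hasStrictFDerivAt (by norm_num)) hasStrictFDerivAt_snd).const_mul l2
    have a3 := (hs.sub a1).sub a2
    have e : Φ' - l1 • (fderiv ℝ r p).comp (ContinuousLinearMap.fst ℝ E E) -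
        l2 • (fderiv ℝ r' q).comp (ContinuousLinearMap.snd ℝ E E) = 0 := by
      refine ContinuousLinearMap.ext fun z => ?_
      have b1 := congrArg (fun L : E →L[ℝ] ℝ => L z.1) hl1
      have b2 := congrArg (fun L : E →L[ℝ] ℝ => L z.2) hl2
      have b3 : Φ' z = Φ' (z.1, 0) + Φ' (0, z.2) := by rw [← map_add]; simp
      simp at b1 b2 ⊢
      rw [b3, b1, b2]; ring
    exact e ▸ a3
  have key : ∀ v v' : E, fderiv ℝ r p v = 0 → fderiv ℝ r' q v' = 0 →
      ∃ b : ℝ → ℝ, (∀ᶠ t in 𝓝 (0 : ℝ), 0 ≤ b t) ∧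
        (fun t => b t - Ψ (p + t • v, q + t • v')) =o[𝓝 0] fun t : ℝ => t ^ 2 := by
    intro v v' hv hv'
    obtain ⟨x, x1, x2, x3⟩ := h.near hp hpS hv
    obtain ⟨y, y1, y2, y3⟩ := h'.near hq hqS hv'
    refine ⟨fun t => Ψ (x t, y t), ?_, ?_⟩
    · filter_upwards [x1, y1] with t a b
      simp only [Ψ, a.2, b.2, mul_zero, sub_zero]
      exact hmin _ a.1 _ b.1
    · have tz : Tendsto (fun t : ℝ => ((x t, y t), (p + t • v, q + t • v'))) (𝓝 0)
          (𝓝 ((p, q), (p, q))) := by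
        refine (x2.prodMk_nhds y2).prodMk_nhds ?_
        have : Continuous (fun t : ℝ => (p + t • v, q + t • v')) := by fun_prop
        simpa using this.tendsto 0
      have o := sΨ.isLittleO.comp_tendsto tz
      have o2 : (fun t => (x t - (p + t • v), y t - (q + t • v'))) =O[𝓝 0] fun t : ℝ => t ^ 2 :=
        x3.prod_left y3
      exact (o.trans_isBigO o2).congr_left fun t => by simp
  obtain ⟨b1, p1, o1⟩ := key ξ η t1 t3
  obtain ⟨b2, p2, o2⟩ := key (I • ξ) (I • η) t2 t4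
  have o3 := ((o1.add o2).sub ((h.second_sum hp hpS t1 t2).const_mul_left l1)).sub
    ((h'.second_sum hq hqS t3 t4).const_mul_left l2)
  have o4 := isLittleO_iff.1 o3 hκ
  have : ∀ᶠ t in 𝓝[>] (0 : ℝ), False := by
    filter_upwards [nhdsWithin_le_nhds p1, nhdsWithin_le_nhds p2, nhdsWithin_le_nhds o4,
      self_mem_nhdsWithin] with t a1 a2 a3 a4
    have a5 : 0 < t := a4
    have m1 := n1 t
    have m2 := n2 t
    simp only [Ψ, Real.norm_eq_abs, abs_pow, sq_abs] at a3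
    have a6 := (abs_le.1 a3).2
    have a7 : 0 < κ * t ^ 2 := by positivity
    linarith
  exact this.exists.elim fun _ h => h

/-- the standard Hermitian product -/
noncomputable def hm (x y : E) : ℂ := x 0 * conj (y 0) + x 1 * conj (y 1) + x 2 * conj (y 2)

/-- the squared Euclidean norm -/
noncomputable def nn (x : E) : ℝ := normSq (x 0) + normSq (x 1) + normSq (x 2)

lemma hm_self (x : E) : hm x x = nn x := by simp [hm, nn, mul_conj]

lemma hm_conj (x y : E) : hm y x = conj (hm x y) := by simp [hm]; ring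

lemma hm_add_left (x y z : E) : hm (x + y) z = hm x z + hm y z := by simp [hm]; ring

lemma hm_add_right (x y z : E) : hm x (y + z) = hm x y + hm x z := by simp [hm]; ring

lemma hm_smul_left (c : ℂ) (x y : E) : hm (c • x) y = c * hm x y := by simp [hm]; ring

lemma hm_smul_right (c : ℂ) (x y : E) : hm x (c • y) = conj c * hm x y := by simp [hm]; ring

lemma nn_nonneg (x : E) : 0 ≤ nn x := by
  have := normSq_nonneg (x 0); have := normSq_nonneg (x 1); have := normSq_nonneg (x 2)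
  unfold nn; linarith

lemma nn_pos {x : E} (hx : x ≠ 0) : 0 < nn x := by
  refine lt_of_le_of_ne (nn_nonneg x) fun h => hx ?_
  have := normSq_nonneg (x 0); have := normSq_nonneg (x 1); have := normSq_nonneg (x 2)
  unfold nn at h
  funext i
  fin_cases i
  · exact normSq_eq_zero.1 (by change normSq (x 0) = 0; linarith)
  · exact normSq_eq_zero.1 (by change normSq (x 1) = 0; linarith)
  · exact normSq_eq_zero.1 (by change normSq (x 2) = 0; linarith)

lemma nn_smul (c : ℂ) (x : E) : nn (c • x) = normSq c * nn x := by simp [nn]; ring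

lemma nn_add (x y : E) (c : ℂ) :
    nn (x + c • y) = nn x + 2 * (c * hm y x).re + normSq c * nn y := by
  simp [nn, hm, normSq_apply]; ring

lemma nn_cd : ContDiff ℝ 1 nn := by
  have : nn = fun x : E => ‖x 0‖ ^ 2 + ‖x 1‖ ^ 2 + ‖x 2‖ ^ 2 := by
    funext x; simp [nn, normSq_eq_norm_sq]
  rw [this]
  have a : ∀ i, ContDiff ℝ 1 (fun x : E => ‖x i‖ ^ 2) := fun i =>
    ContDiff.norm_sq ℂ (contDiff_apply ℝ ℂ i)
  exact ((a 0).add (a 1)).add (a 2)

lemma hm_cd : ContDiff ℝ 1 (fun z : E × E => hm z.1 z.2) := by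
  have a : ∀ i, ContDiff ℝ 1 (fun z : E × E => z.1 i * conj (z.2 i)) := fun i =>
    ((contDiff_apply ℝ ℂ i).comp contDiff_fst).mul
      (conjCLE.contDiff.comp ((contDiff_apply ℝ ℂ i).comp contDiff_snd))
  exact ((a 0).add (a 1)).add (a 2)

lemma LF.unit (hS : LF S) {x : E} (hx : x ∈ S) :
    ∃ c : ℂ, c ≠ 0 ∧ normSq c * nn x = 1 ∧ c • x ∈ S ∧ nn (c • x) = 1 := by
  have h0 : 0 < nn x := nn_pos fun h => hS.nz (h ▸ hx)
  have h1 : 0 < Real.sqrt (nn x) := Real.sqrt_pos.2 h0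
  have h2 : normSq (((Real.sqrt (nn x))⁻¹ : ℝ) : ℂ) * nn x = 1 := by
    rw [normSq_ofReal, ← mul_inv, Real.mul_self_sqrt h0.le, inv_mul_cancel₀ h0.ne']
  have h3 : (((Real.sqrt (nn x))⁻¹ : ℝ) : ℂ) ≠ 0 := by exact_mod_cast (inv_pos.2 h1).ne'
  exact ⟨_, h3, h2, hS.cone x hx _ h3, by rw [nn_smul, h2]⟩

lemma LF.compact (hS : LF S) : IsCompact {x ∈ S | nn x = 1} := by
  have e : {x ∈ S | nn x = 1} = insert 0 S ∩ {x | nn x = 1} := by
    ext x
    constructor
    · exact fun h => ⟨Or.inr h.1, h.2⟩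
    · rintro ⟨rfl | h, h2⟩
      · simp [nn] at h2
      · exact ⟨h, h2⟩
  refine Metric.isCompact_of_isClosed_isBounded ?_ ?_
  · rw [e]; exact hS.cl.inter (isClosed_eq nn_cd.continuous continuous_const)
  · refine (Metric.isBounded_closedBall (x := (0 : E)) (r := 1)).subset fun x hx => ?_
    rw [mem_closedBall_zero_iff, pi_norm_le_iff_of_nonneg zero_le_one]
    have h := hx.2
    have := normSq_nonneg (x 0); have := normSq_nonneg (x 1); have := normSq_nonneg (x 2)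
    unfold nn at h
    have k : ∀ z : ℂ, normSq z ≤ 1 → ‖z‖ ≤ 1 := fun z hz => by
      rw [normSq_eq_norm_sq] at hz
      nlinarith [norm_nonneg z]
    intro i
    fin_cases i
    · exact k (x 0) (by linarith)
    · exact k (x 1) (by linarith)
    · exact k (x 2) (by linarith)

lemma quad_deriv (A B C : ℝ) {f : ℝ → ℝ} (h : ∀ t, f t = A + B * t + C * t ^ 2) :
    HasDerivAt f B 0 := by
  have : f = fun t => A + B * t + C * t ^ 2 := funext h
  rw [this]
  have a := (((hasDerivAt_id (0 : ℝ)).const_mul B).const_add A).fun_add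
    ((hasDerivAt_pow 2 (0 : ℝ)).const_mul C)
  simpa using a

/-- Frankel type intersection theorem -/
theorem LF.frankel (hS : LF S) (g g' : E →L[ℂ] E) (hg : ∀ v, g (g' v) = v)
    (hi : ∀ v, g v = 0 → v = 0) {x0 y0 : E} (hx0 : x0 ∈ S) (hy0 : y0 ∈ S)
    (h0 : hm x0 (g y0) ≠ 0) : ∃ y ∈ S, g y ∈ S := by
  have gpos : ∀ y ∈ S, 0 < nn (g y) := fun y hy => nn_pos fun h => hS.nz (hi y h ▸ hy)
  set K := {x ∈ S | nn x = 1} with hK
  have hKc : IsCompact (K ×ˢ K) := hS.compact.prod hS.compact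
  obtain ⟨c0, -, -, k1, k2⟩ := hS.unit hx0
  let f : E × E → ℝ := fun z => normSq (hm z.1 (g z.2)) / nn (g z.2)
  have cg : ContDiff ℝ 1 (fun z : E × E => g z.2) :=
    (g.restrictScalars ℝ).contDiff.comp contDiff_snd
  have chm : ContDiff ℝ 1 (fun z : E × E => normSq (hm z.1 (g z.2))) := by
    have := ContDiff.norm_sq ℂ (hm_cd.comp (contDiff_fst.prodMk cg))
    simpa [normSq_eq_norm_sq, Function.comp_def] using this
  have cf' : ContinuousOn f (K ×ˢ K) :=
    chm.continuous.continuousOn.div (nn_cd.comp cg).continuous.continuousOn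
      fun z hz => (gpos _ hz.2.1).ne'
  obtain ⟨⟨p, q0⟩, ⟨hp, hq0⟩, hmax⟩ := hKc.exists_isMaxOn ⟨(c0 • x0, c0 • x0), ⟨k1, k2⟩, k1, k2⟩ cf'
  set m := f (p, q0) with hm0
  have ineq : ∀ x ∈ S, ∀ y ∈ S, normSq (hm x (g y)) ≤ m * nn x * nn (g y) := by
    intro x hx y hy
    obtain ⟨a, a0, a1, a2, a3⟩ := hS.unit hx
    obtain ⟨b, b0, b1, b2, b3⟩ := hS.unit hy
    have := hmax (show (a • x, b • y) ∈ K ×ˢ K from ⟨⟨a2, a3⟩, b2, b3⟩)
    change normSq (hm (a • x) (g (b • y))) / nn (g (b • y)) ≤ m at this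
    rw [div_le_iff₀ (gpos _ b2), map_smul, hm_smul_left, hm_smul_right, nn_smul, normSq_mul,
      normSq_mul, normSq_conj] at this
    have pb : 0 < normSq b := normSq_pos.2 b0
    have t1 : normSq a * normSq (hm x (g y)) ≤ m * nn (g y) := by
      have : normSq b * (normSq a * normSq (hm x (g y))) ≤ normSq b * (m * nn (g y)) := by
        linarith
      exact le_of_mul_le_mul_left this pb
    have t2 := mul_le_mul_of_nonneg_right t1 (nn_nonneg x)
    calc normSq (hm x (g y)) = normSq a * nn x * normSq (hm x (g y)) := by rw [a1, one_mul]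
      _ ≤ _ := by linarith
  have mpos : 0 < m := by
    by_contra hm'
    have a := ineq x0 hx0 y0 hy0
    have b := normSq_pos.2 h0
    have c := mul_nonneg (nn_nonneg x0) (nn_nonneg (g y0))
    nlinarith
  have gq := gpos _ hq0.1
  have hm1 : normSq (hm p (g q0)) = m * nn (g q0) := by
    rw [hm0]; simp only [f]; field_simp
  set μ := Real.sqrt m with hμ
  have μpos : 0 < μ := Real.sqrt_pos.2 mpos
  have μ2 : μ * μ = m := Real.mul_self_sqrt mpos.le
  have hne : hm p (g q0) ≠ 0 := normSq_pos.1 (by rw [hm1]; positivity)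
  set c : ℂ := conj (μ / hm p (g q0)) with hc
  have c0' : c ≠ 0 := by
    rw [hc, map_ne_zero]; exact div_ne_zero (by exact_mod_cast μpos.ne') hne
  set y := c • q0 with hy
  have hyS : y ∈ S := hS.cone _ hq0.1 _ c0'
  set q := g y with hq
  have e1 : hm p q = μ := by
    rw [hq, hy, map_smul, hm_smul_right, hc, conj_conj, div_mul_cancel₀ _ hne]
  have e2 : nn q = 1 := by
    rw [hq, hy, map_smul, nn_smul, hc, normSq_conj, normSq_div, normSq_ofReal, hm1, μ2]
    field_simp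
  have e3 : nn p = 1 := hp.2
  have e4 : hm q p = μ := by rw [hm_conj, e1, conj_ofReal]
  have e5 : hm p p = 1 := by rw [hm_self, e3]; simp
  have e6 : hm q q = 1 := by rw [hm_self, e2]; simp
  set w := q + (-μ : ℂ) • p with hw
  set w' := p + (-μ : ℂ) • q with hw'
  have nw : nn w = 1 - μ * μ := by
    rw [hw, nn_add, e1, e2, e3]; simp; ring
  have nw' : nn w' = 1 - μ * μ := by
    rw [hw', nn_add, e4, e2, e3]; simp; ring
  by_cases hw0 : w = 0
  · refine ⟨y, hyS, ?_⟩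
    have : q = (μ : ℂ) • p := by
      rw [hw, neg_smul, ← sub_eq_add_neg, sub_eq_zero] at hw0; exact hw0
    rw [← hq, this]
    exact hS.cone _ hp.1 _ (by exact_mod_cast μpos.ne')
  exfalso
  have s0 : 0 < 1 - μ * μ := nw ▸ nn_pos hw0
  have μ1 : μ < 1 := by nlinarith
  let ξ : E := ![conj (p 1 * q 2 - p 2 * q 1), conj (p 2 * q 0 - p 0 * q 2),
    conj (p 0 * q 1 - p 1 * q 0)]
  have x1 : hm ξ p = 0 := by simp [hm, ξ]; ring
  have x2 : hm ξ q = 0 := by simp [hm, ξ]; ring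
  have x3 : nn ξ = 1 - μ * μ := by
    have : hm ξ ξ = hm p p * hm q q - hm p q * hm q p := by simp [hm, ξ]; ring
    rw [hm_self, e1, e4, e5, e6] at this
    exact_mod_cast (by rw [this]; push_cast; ring : (nn ξ : ℂ) = ((1 - μ * μ : ℝ) : ℂ))
  have x4 : hm p ξ = 0 := by rw [hm_conj, x1, map_zero]
  have x5 : hm ξ ξ = ((1 - μ * μ : ℝ) : ℂ) := by rw [hm_self, x3]
  have w1 : hm w p = 0 := by rw [hw, hm_add_left, hm_smul_left, e4, e5]; ring
  have w2 : hm w q = ((1 - μ * μ : ℝ) : ℂ) := by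
    rw [hw, hm_add_left, hm_smul_left, e1, e6]; push_cast; ring
  have w3 : hm w' q = 0 := by rw [hw', hm_add_left, hm_smul_left, e1, e6]; ring
  have w4 : hm p w' = ((1 - μ * μ : ℝ) : ℂ) := by
    rw [hw', hm_add_right, hm_smul_right, e1, e5]; simp; ring
  let Φ : E × E → ℝ := fun z => m * nn z.1 * nn (g z.2) - normSq (hm z.1 (g z.2))
  have cΦ : ContDiff ℝ 1 Φ :=
    ((contDiff_const.mul (nn_cd.comp contDiff_fst)).mul (nn_cd.comp cg)).sub chm
  have F1 : ∀ (c : ℂ) (v : E), Φ (p + c • v, y) =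
      m * (1 + 2 * (c * hm v p).re + normSq c * nn v) - normSq (μ + c * hm v q) := by
    intro c v
    simp only [Φ, ← hq]
    rw [nn_add, e2, e3, hm_add_left, hm_smul_left, e1, mul_one]
  have F2 : ∀ (c : ℂ) (v : E), Φ (p, y + c • g' v) =
      m * (1 + 2 * (c * hm v q).re + normSq c * nn v) - normSq (μ + conj c * hm p v) := by
    intro c v
    simp only [Φ, map_add, map_smul, hg, ← hq]
    rw [nn_add, e2, e3, hm_add_right, hm_smul_right, e1, mul_one]
  have F3 : ∀ c : ℂ, Φ (p + c • ξ, y + c • g' ξ) ≤ -((1 - μ) * (1 - μ * μ) * μ * normSq c) := by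
    intro c
    simp only [Φ, map_add, map_smul, hg, ← hq]
    rw [nn_add, nn_add, e2, e3, hm_add_right, hm_smul_right, hm_add_left, hm_add_left,
      hm_smul_left, hm_smul_left, e1, x1, x2, x3, x4, x5]
    have a : (μ : ℂ) + c * 0 + conj c * (0 + c * ((1 - μ * μ : ℝ) : ℂ)) =
        ((μ + normSq c * (1 - μ * μ) : ℝ) : ℂ) := by
      rw [ofReal_add, ofReal_mul, normSq_eq_conj_mul_self]; ring
    rw [a, normSq_ofReal, ← μ2]
    simp only [mul_zero, zero_re, add_zero]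
    have b := mul_nonneg (normSq_nonneg c) s0.le
    set u := normSq c * (1 - μ * μ) with hu
    have : (1 - μ) * (1 - μ * μ) * μ * normSq c = (1 - μ) * μ * u := by rw [hu]; ring
    rw [this]
    have b1 : 0 ≤ (1 - μ) * μ * u := by have : 0 < 1 - μ := by linarith
                                        positivity
    have b2 : 0 ≤ (1 - μ * μ) * (u * u) := by positivity
    nlinarith
  obtain ⟨U1, r1, hU1, h1⟩ := hS.loc p hp.1
  obtain ⟨U2, r2, hU2, h2⟩ := hS.loc y hyS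
  have rs : ∀ (t : ℝ) (v : E), t • v = (t : ℂ) • v := fun t v => (Complex.coe_smul t v).symm
  have rs' : ∀ (t : ℝ) (v : E), t • I • v = ((t : ℂ) * I) • v := fun t v => by rw [rs, smul_smul]
  refine two_point h1 h2 hU1 hp.1 hU2 hyS cΦ ?_ ?_ (ξ := ξ) (η := g' ξ) (w := w) (w' := g' w')
    (a := -(2 * μ * (1 - μ * μ))) (a' := -(2 * μ * (1 - μ * μ)))
    (κ := (1 - μ) * (1 - μ * μ) * μ) (by apply ne_of_lt; nlinarith) (by apply ne_of_lt; nlinarith)
    (by have : 0 < 1 - μ := by linarith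
        positivity) ?_ ?_ ?_ ?_ ?_ ?_ ?_ ?_
  · simp only [Φ, ← hq]; rw [e1, e2, e3, normSq_ofReal, μ2]; ring
  · intro a ha b hb
    have := ineq a ha b hb
    simp only [Φ]; linarith
  · refine quad_deriv 0 _ (m * (1 - μ * μ) - (1 - μ * μ) ^ 2) fun t => ?_
    rw [rs, F1, w1, w2, nw, ← ofReal_mul, ← ofReal_add, normSq_ofReal, normSq_ofReal, ← μ2]
    simp; ring
  · refine quad_deriv 0 _ (m * (1 - μ * μ)) fun t => ?_
    rw [rs, F1, x1, x2, x3, ← μ2]; simp; ring
  · refine quad_deriv 0 _ (m * (1 - μ * μ)) fun t => ?_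
    rw [rs', F1, x1, x2, x3, ← μ2]; simp; ring
  · refine quad_deriv 0 _ (m * (1 - μ * μ) - (1 - μ * μ) ^ 2) fun t => ?_
    rw [rs, F2, w3, w4, nw', conj_ofReal, ← ofReal_mul, ← ofReal_add, normSq_ofReal, normSq_ofReal,
      ← μ2]
    simp; ring
  · refine quad_deriv 0 _ (m * (1 - μ * μ)) fun t => ?_
    rw [rs, F2, x4, x2, x3, ← μ2]; simp; ring
  · refine quad_deriv 0 _ (m * (1 - μ * μ)) fun t => ?_
    rw [rs', F2, x4, x2, x3, ← μ2]; simp; ring
  · intro t
    have := F3 t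
    rw [rs, rs]; simpa [pow_two] using this
  · intro t
    have := F3 (t * I)
    rw [rs', rs']; simpa [pow_two] using this

end Pool.Agent.Lib.MP_4e4ac8_an
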