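import Pool.Agent.Lib.MP_4e4ac8_an.Cone

/-!
Local retraction onto a real hypersurface, complex derivatives within it and their symmetry.
-/

set_option autoImplicit false
open Filter Topology Complex Set
open scoped ContDiff

namespace Pool.Agent.Lib.MP_4e4ac8_an

variable {S U : Set E} {r : E → ℝ}

/-- a local retraction `κ` onto `S` near `q`, whose derivative fixes the kernel of `l` -/
structure Ret (S : Set E) (q : E) (l : E →L[ℝ] ℝ) (κ : E → E) : Prop where
  sm : ContDiffAt ℝ 2 κ q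
  mem : ∀ᶠ y in 𝓝 q, κ y ∈ S
  fix : ∀ᶠ y in 𝓝 q, y ∈ S → κ y = y
  self : κ q = q
  der : ∀ v, l v = 0 → fderiv ℝ κ q v = v

lemma LocDef.ret (h : LocDef S U r) {q : E} (hq : q ∈ U) (hS : q ∈ S) :
    ∃ κ, Ret S q (fderiv ℝ r q) κ := by
  obtain ⟨ν, hν⟩ := exists_cf_one (h.ne q hq hS)
  have hν1 : fderiv ℝ r q ν = 1 := by rw [← cf_re, hν]; simp
  set l := fderiv ℝ r q with hl
  have r0 : r q = 0 := (h.zero q hq).1 hS
  let Θ : E → E := fun x => x - q + (r x - l (x - q)) • ν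
  have lΘ : ∀ x, l (Θ x) = r x := fun x => by simp [Θ, hν1]
  have Θq : Θ q = 0 := by simp [Θ, r0]
  have c1 : ContDiffAt ℝ 2 Θ q :=
    (contDiffAt_id.sub contDiffAt_const).add ((((h.cd hq).of_le (by norm_num)).sub
      (l.contDiff.contDiffAt.comp q (contDiffAt_id.sub contDiffAt_const))).smul contDiffAt_const)
  have d1 : HasFDerivAt Θ ((ContinuousLinearEquiv.refl ℝ E : E ≃L[ℝ] E) : E →L[ℝ] E) q := by
    have a := ((hasFDerivAt_id q).sub_const q).fun_add (((h.fd hq).fun_sub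
      (l.hasFDerivAt.comp q ((hasFDerivAt_id q).sub_const q))).smul_const ν)
    refine a.congr_fderiv ?_
    ext v i
    simp [hl]
  set Ψ := c1.localInverse d1 (by norm_num) with hΨ
  have st := c1.hasStrictFDerivAt' d1 (by norm_num)
  have c2 : ContDiffAt ℝ 2 Ψ 0 := Θq ▸ c1.to_localInverse d1 (by norm_num)
  have Ψ0 : Ψ 0 = q := Θq ▸ c1.localInverse_apply_image d1 (by norm_num)
  have li : ∀ᶠ x in 𝓝 q, Ψ (Θ x) = x := st.eventually_left_inverse
  have ri : ∀ᶠ y in 𝓝 (0 : E), Θ (Ψ y) = y := Θq ▸ st.eventually_right_inverse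
  have d2 : HasFDerivAt Ψ (ContinuousLinearMap.id ℝ E) 0 := by
    have := st.to_localInverse.hasFDerivAt
    rw [Θq] at this
    exact this
  let π : E →L[ℝ] E := ContinuousLinearMap.id ℝ E - l.smulRight ν
  have lπ : ∀ v, l (π v) = 0 := fun v => by simp [π, hν1]
  have πf : ∀ v, l v = 0 → π v = v := fun v hv => by simp [π, hv]
  have z : π (Θ q) = 0 := by rw [Θq, map_zero]
  have c3 : ContDiffAt ℝ 2 (fun x => π (Θ x)) q := π.contDiff.contDiffAt.comp q c1
  have c4 : ContDiffAt ℝ 2 (fun x => Ψ (π (Θ x))) q := ContDiffAt.comp q (z ▸ c2) c3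
  have t3 : Tendsto (fun x => π (Θ x)) (𝓝 q) (𝓝 0) := z ▸ c3.continuousAt.tendsto
  have k0 : Ψ (π (Θ q)) = q := by rw [z, Ψ0]
  refine ⟨fun x => Ψ (π (Θ x)), c4, ?_, ?_, k0, fun v hv => ?_⟩
  · filter_upwards [t3.eventually ri, c4.continuousAt.eventually_mem
      (show U ∈ 𝓝 (Ψ (π (Θ q))) by rw [k0]; exact h.op.mem_nhds hq)] with y a b
    rw [h.zero _ b, ← lΘ, a, lπ]
  · filter_upwards [li, h.op.mem_nhds hq] with y a b c
    rw [πf _ (by rw [lΘ]; exact (h.zero y b).1 c), a]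
  · have a : HasFDerivAt (fun x => Ψ (π (Θ x))) _ q :=
      HasFDerivAt.comp (g := Ψ) q (z ▸ d2) (π.hasFDerivAt.comp q d1)
    rw [a.fderiv]
    simp [πf v hv]

lemma Ret.tend {q : E} {l : E →L[ℝ] ℝ} {κ : E → E} (k : Ret S q l κ) :
    Tendsto κ (𝓝 q) (𝓝[S] q) :=
  tendsto_nhdsWithin_iff.2 ⟨by simpa [ContinuousAt, k.self] using k.sm.continuousAt, k.mem⟩

/-- two complex linear maps which agree on the real tangent space agree -/
lemma ext_tan {F : Type} [NormedAddCommGroup F] [NormedSpace ℂ F] {l : E →L[ℝ] ℝ} (hl : l ≠ 0)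
    {A B : E →L[ℂ] F} (h : ∀ v, l v = 0 → A v = B v) : A = B := by
  obtain ⟨ν, hν⟩ := exists_cf_one hl
  have h1 : l ν = 1 := by rw [← cf_re, hν]; simp
  have h2 : l (I • ν) = 0 := by rw [cf_I, hν]; simp
  have h3 : A ν = B ν := by
    have := h _ h2
    rw [map_smul, map_smul] at this
    exact smul_right_injective F I_ne_zero this
  refine ContinuousLinearMap.ext fun v => ?_
  have := h (v - ((l v : ℝ) : ℂ) • ν) (by rw [Complex.coe_smul, map_sub, map_smul, h1]; simp)
  rw [map_sub, map_sub, map_smul, map_smul, h3] at this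
  exact sub_left_injective this

lemma LocDef.uniq (h : LocDef S U r) {q : E} (hq : q ∈ U) (hS : q ∈ S) :
    UniqueDiffWithinAt ℂ S q := by
  obtain ⟨κ, k⟩ := h.ret hq hS
  refine ⟨?_, subset_closure hS⟩
  have a : ∀ v, fderiv ℝ r q v = 0 → v ∈ tangentConeAt ℂ S q := by
    intro v hv
    have b := ((k.sm.differentiableAt (by norm_num)).hasFDerivAt.hasFDerivWithinAt
      (s := {y | κ y ∈ S})).mapsTo_tangent_cone
      (show v ∈ _ by rw [tangentConeAt_of_mem_nhds k.mem]; trivial)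
    rw [k.der v hv, k.self] at b
    exact tangentConeAt_mono_field (tangentConeAt_mono (by rintro _ ⟨y, hy, rfl⟩; exact hy) b)
  have : Submodule.span ℂ (tangentConeAt ℂ S q) = ⊤ := by
    by_contra hn
    obtain ⟨f, f0, hf⟩ := Submodule.exists_le_ker_of_lt_top _ (lt_top_iff_ne_top.2 hn)
    apply f0
    have := ext_tan (h.ne q hq hS) (A := LinearMap.toContinuousLinearMap f) (B := 0)
      fun v hv => hf (Submodule.subset_span (a v hv))
    exact LinearMap.ext fun v => congrArg (fun L : E →L[ℂ] ℂ => L v) this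
  rw [this]
  simp

/-- a real differentiable function whose differential is complex linear on the tangent space -/
lemma LocDef.within (h : LocDef S U r) {q : E} (hq : q ∈ U) (hS : q ∈ S) {F : E → ℂ}
    {F' : E →L[ℝ] ℂ} (hF : HasFDerivAt F F' q) {Λ : E →L[ℂ] ℂ}
    (hΛ : ∀ v, fderiv ℝ r q v = 0 → Λ v = F' v) : HasFDerivWithinAt F Λ S q := by
  obtain ⟨ν, hν⟩ := exists_cf_one (h.ne q hq hS)
  have h1 : fderiv ℝ r q ν = 1 := by rw [← cf_re, hν]; simp
  have a := hF.fun_sub ((h.fd hq).smul_const (F' ν - Λ ν))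
  have r0 : r q = 0 := (h.zero q hq).1 hS
  refine HasFDerivWithinAt.of_restrictScalars ℝ (a.hasFDerivWithinAt.congr_of_eventuallyEq ?_
    (by simp [r0])) ?_
  · filter_upwards [nhdsWithin_le_nhds (h.op.mem_nhds hq), self_mem_nhdsWithin] with y b c
    simp [(h.zero y b).1 c]
  · refine ContinuousLinearMap.ext fun v => ?_
    have := hΛ (v - (fderiv ℝ r q v) • ν) (by rw [map_sub, map_smul, h1]; simp)
    rw [map_sub, map_sub, F'.map_smul, ← Complex.coe_smul, Λ.map_smul] at this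
    simp only [ContinuousLinearMap.coe_restrictScalars', _root_.sub_apply,
      ContinuousLinearMap.smulRight_apply, real_smul, smul_eq_mul] at this ⊢
    linear_combination this

/-- symmetry of the second derivative on tangent vectors -/
lemma LocDef.sym2 (h : LocDef S U r) {q : E} (hq : q ∈ U) (hS : q ∈ S) {F : E → ℂ}
    {Λ : E → E →L[ℂ] ℂ} (hF : ∀ᶠ x in 𝓝[S] q, HasFDerivWithinAt F (Λ x) S x)
    {B : E →L[ℝ] E →L[ℂ] ℂ} (hB : HasFDerivWithinAt Λ B S q) {a b : E}
    (ha : fderiv ℝ r q a = 0) (hb : fderiv ℝ r q b = 0) : B a b = B b a := by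
  obtain ⟨κ, k⟩ := h.ret hq hS
  let R : (E →L[ℂ] ℂ) →L[ℝ] E →L[ℝ] ℂ := ContinuousLinearMap.restrictScalarsL ℂ E ℂ ℝ ℝ
  have dk : ∀ᶠ y in 𝓝 q, HasFDerivAt κ (fderiv ℝ κ y) y := by
    filter_upwards [k.sm.eventually (by simp)] with y hy
    exact (hy.differentiableAt (by norm_num)).hasFDerivAt
  have e1 : ∀ᶠ y in 𝓝 q, HasFDerivAt (fun y => F (κ y)) ((R (Λ (κ y))).comp (fderiv ℝ κ y)) y := by
    filter_upwards [dk, k.tend.eventually hF, k.mem.eventually_nhds] with y a b c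
    exact (b.restrictScalars ℝ).comp_hasFDerivAt y a c
  have k2 : ContDiffAt ℝ 1 (fderiv ℝ κ) q := k.sm.fderiv_right (by norm_num)
  have d2 := (k2.differentiableAt (by norm_num)).hasFDerivAt
  have hB' : HasFDerivWithinAt Λ B S (κ q) := by rwa [k.self]
  have d3 := R.hasFDerivAt.comp q (hB'.comp_hasFDerivAt q dk.self_of_nhds k.mem)
  have s1 := second_derivative_symmetric_of_eventually e1 (d3.clm_comp d2) a b
  have s2 := second_derivative_symmetric_of_eventually dk d2 a b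
  simp [R, k.der a ha, k.der b hb, s2] at s1
  exact s1

end Pool.Agent.Lib.MP_4e4ac8_an
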