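import Mathlib

/-!
Determinants of initial coefficients of power series and a Kronecker type rationality criterion.
-/

set_option autoImplicit false
open PowerSeries

namespace Pool.Agent.Lib.MP_4e4ac8_an

section Wr
variable {R : Type} [CommRing R] {m : ℕ}

/-- the determinant of the first `m` coefficients of `m` power series -/
noncomputable def Wr (u : Fin m → R⟦X⟧) : R := (Matrix.of fun k c : Fin m => coeff k (u c)).det

lemma Wr_mul (v : R⟦X⟧) (u : Fin m → R⟦X⟧) :
    Wr (fun c => v * u c) = coeff 0 v ^ m * Wr u := by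
  let L : Matrix (Fin m) (Fin m) R := Matrix.of fun k l => if (l : ℕ) ≤ k then coeff (k - l) v else 0
  have e : (Matrix.of fun k c : Fin m => coeff k (v * u c)) =
      L * Matrix.of fun k c : Fin m => coeff k (u c) := by
    ext k c
    simp only [Matrix.of_apply, Matrix.mul_apply, L]
    rw [mul_comm, coeff_mul, Finset.Nat.sum_antidiagonal_eq_sum_range_succ_mk,
      Fin.sum_univ_eq_sum_range (fun l => (if l ≤ (k : ℕ) then coeff (k - l) v else 0) *
        coeff l (u c)) m]
    rw [← Finset.sum_subset (s₁ := Finset.range (k + 1)) (Finset.range_mono k.2)]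
    · refine Finset.sum_congr rfl fun l hl => ?_
      rw [if_pos (Nat.lt_succ_iff.1 (Finset.mem_range.1 hl)), mul_comm]
    · intro l _ hl
      rw [if_neg (by simpa using hl), zero_mul]
  have d : L.det = coeff 0 v ^ m := by
    rw [Matrix.det_of_isLowerTriangular L fun k l h => by
      have : (k : ℕ) < l := h
      simp only [L, Matrix.of_apply]
      rw [if_neg (by omega)]]
    simp [L]
  rw [Wr, e, Matrix.det_mul, d, Wr]

lemma Wr_rescale (a : R) (u : Fin m → R⟦X⟧) :
    Wr (fun c => rescale a (u c)) = a ^ (∑ k : Fin m, (k : ℕ)) * Wr u := by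
  simp only [Wr, coeff_rescale]
  rw [← Finset.prod_pow_eq_pow_sum]
  exact Matrix.det_mul_column (fun k : Fin m => a ^ (k : ℕ)) (Matrix.of fun k c => coeff k (u c))

lemma Wr_smul (w : Fin m → R) (u : Fin m → R⟦X⟧) :
    Wr (fun c => C (w c) * u c) = (∏ c, w c) * Wr u := by
  simp only [Wr, coeff_C_mul]
  exact Matrix.det_mul_row w (Matrix.of fun k c : Fin m => coeff k (u c))

lemma Wr_map {R' : Type} [CommRing R'] (φ : R →+* R') (u : Fin m → R⟦X⟧) :
    Wr (fun c => PowerSeries.map φ (u c)) = φ (Wr u) := by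
  rw [Wr, Wr, RingHom.map_det]
  congr 1

/-- the series `X^i a`, `X^i b` for `i < n` -/
noncomputable def col (n : ℕ) (a b : R⟦X⟧) : Fin (n + n) → R⟦X⟧ :=
  Fin.addCases (fun i => X ^ (i : ℕ) * a) (fun i => X ^ (i : ℕ) * b)

/-- a Hankel type determinant of the pair `a`, `b` -/
noncomputable def Wn (n : ℕ) (a b : R⟦X⟧) : R := Wr (col n a b)

lemma Wn_mul (n : ℕ) (v a b : R⟦X⟧) : Wn n (v * a) (v * b) = coeff 0 v ^ (n + n) * Wn n a b := by
  rw [Wn, Wn, ← Wr_mul]
  congr 1
  funext c
  induction c using Fin.addCases <;> simp only [col, Fin.addCases_left, Fin.addCases_right] <;> ring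

lemma Wn_map {R' : Type} [CommRing R'] (φ : R →+* R') (n : ℕ) (a b : R⟦X⟧) :
    Wn n (PowerSeries.map φ a) (PowerSeries.map φ b) = φ (Wn n a b) := by
  rw [Wn, Wn, ← Wr_map]
  congr 1
  funext c
  induction c using Fin.addCases <;>
    simp only [col, Fin.addCases_left, Fin.addCases_right, map_mul, map_pow, map_X]

lemma Wn_rescale [IsDomain R] (n : ℕ) {t : R} (ht : t ≠ 0) (a b : R⟦X⟧) :
    Wn n (rescale t a) (rescale t b) = t ^ (n * n) * Wn n a b := by
  let e : Fin (n + n) → ℕ := Fin.addCases (fun i => (i : ℕ)) (fun i => (i : ℕ))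
  have h1 := Wr_smul (fun c => t ^ e c) (col n (rescale t a) (rescale t b))
  have h2 := Wr_rescale t (col n a b)
  have h3 : (fun c => C (t ^ e c) * col n (rescale t a) (rescale t b) c) =
      fun c => rescale t (col n a b c) := by
    funext c
    induction c using Fin.addCases <;> simp only [col, e, Fin.addCases_left, Fin.addCases_right,
      map_mul, map_pow, rescale_X] <;> ring
  rw [h3, h2, Finset.prod_pow_eq_pow_sum] at h1
  have h4 : ∑ k : Fin (n + n), (k : ℕ) = ∑ c, e c + n * n := by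
    simp only [Fin.sum_univ_add, e, Fin.addCases_left, Fin.addCases_right]
    simp [Finset.sum_add_distrib]
    ring
  rw [h4, pow_add, mul_assoc] at h1
  exact (mul_left_cancel₀ (pow_ne_zero _ ht) h1).symm

/-- only coefficients below `n` occur -/
def Dg (n : ℕ) (a : R⟦X⟧) : Prop := ∀ k, n ≤ k → coeff k a = 0

lemma Dg.mul {n : ℕ} {a b : R⟦X⟧} (ha : Dg (n + 1) a) (hb : Dg n b) : Dg (n + n) (a * b) := by
  intro k hk
  rw [coeff_mul]
  refine Finset.sum_eq_zero fun p hp => ?_
  have := Finset.HasAntidiagonal.mem_antidiagonal.1 hp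
  by_cases h : n + 1 ≤ p.1
  · rw [ha _ h, zero_mul]
  · rw [hb _ (by omega), mul_zero]

lemma Dg.zero {n : ℕ} {a : R⟦X⟧} (ha : Dg n a) (h : X ^ n ∣ a) : a = 0 := by
  ext k
  by_cases hk : n ≤ k
  · exact ha k hk
  · exact X_pow_dvd_iff.1 h k (by omega)

lemma dg_sum {n : ℕ} (w : Fin n → R) : Dg n (∑ i, C (w i) * X ^ (i : ℕ)) := by
  intro k hk
  simp only [map_sum, coeff_C_mul, coeff_X_pow]
  exact Finset.sum_eq_zero fun i _ => by rw [if_neg (by omega), mul_zero]

lemma coeff_dg_sum {n : ℕ} (w : Fin n → R) (i : Fin n) :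
    coeff i (∑ i, C (w i) * X ^ (i : ℕ) : R⟦X⟧) = w i := by
  simp [coeff_X_pow, Fin.val_inj]

lemma pade [IsDomain R] {n : ℕ} {a : R⟦X⟧} (h : Wn n a 1 = 0) :
    ∃ Q P : R⟦X⟧, Q ≠ 0 ∧ Dg n Q ∧ Dg n P ∧ X ^ (n + n) ∣ Q * a + P := by
  obtain ⟨v, v0, hv⟩ := Matrix.exists_mulVec_eq_zero_iff.2 h
  set Q : R⟦X⟧ := ∑ i, C (v (Fin.castAdd n i)) * X ^ (i : ℕ) with hQ
  set P : R⟦X⟧ := ∑ i, C (v (Fin.natAdd n i)) * X ^ (i : ℕ) with hP
  have d : X ^ (n + n) ∣ Q * a + P := by
    refine X_pow_dvd_iff.2 fun k hk => ?_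
    have := congrFun hv ⟨k, hk⟩
    simp only [Matrix.mulVec, dotProduct, Matrix.of_apply, Fin.sum_univ_add, col,
      Fin.addCases_left, Fin.addCases_right, mul_one, Pi.zero_apply] at this
    rw [← this, hQ, hP, Finset.sum_mul]
    simp only [map_add, map_sum, mul_assoc, coeff_C_mul]
    simp only [mul_comm]
  refine ⟨Q, P, fun q0 => v0 ?_, dg_sum _, dg_sum _, d⟩
  have p0 : P = 0 := Dg.zero (dg_sum _) ((pow_dvd_pow X (Nat.le_add_right n n)).trans
    (by simpa [q0] using d))
  funext c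
  induction c using Fin.addCases with
  | left i => rw [← coeff_dg_sum (fun i => v (Fin.castAdd n i)) i, ← hQ, q0]; simp
  | right i => rw [← coeff_dg_sum (fun i => v (Fin.natAdd n i)) i, ← hP, p0]; simp

/-- Kronecker's criterion -/
lemma kronecker [IsDomain R] {n0 : ℕ} {a : R⟦X⟧} (h : ∀ n, n0 ≤ n → Wn n a 1 = 0) :
    ∃ Q P : R⟦X⟧, Q ≠ 0 ∧ Dg n0 Q ∧ Dg n0 P ∧ Q * a + P = 0 := by
  choose! Q P q0 dq dp dv using fun n hn => pade (h n hn)
  have s : ∀ n, n0 ≤ n → Q (n + 1) * P n = P (n + 1) * Q n := by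
    intro n hn
    have hn' : n0 ≤ n + 1 := by omega
    refine sub_eq_zero.1 (Dg.zero (n := n + n) (fun k hk => ?_) ?_)
    · rw [map_sub, (dq _ hn').mul (dp _ hn) k hk, (dp _ hn').mul (dq _ hn) k hk, sub_zero]
    · have := ((dv n hn).mul_left (Q (n + 1))).sub
        (((pow_dvd_pow X (by omega)).trans (dv _ hn')).mul_left (Q n))
      convert this using 1
      ring
  have s2 : ∀ n, n0 ≤ n → Q n * P n0 = P n * Q n0 := by
    intro n hn
    induction n, hn using Nat.le_induction with
    | base => ring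
    | succ n hn ih =>
      refine mul_left_cancel₀ (q0 n hn) ?_
      linear_combination Q (n + 1) * ih + Q n0 * s n hn
  refine ⟨Q n0, P n0, q0 _ le_rfl, dq _ le_rfl, dp _ le_rfl, ?_⟩
  by_contra t0
  set T := Q n0 * a + P n0 with hT
  set n := n0 + T.order.toNat + 1 with hn
  have hn' : n0 ≤ n := by omega
  have d : X ^ (n + n) ∣ Q n * T := by
    have := (dv n hn').mul_left (Q n0)
    convert this using 1
    rw [hT]
    linear_combination s2 n hn'
  have o1 := nat_le_order _ _ (X_pow_dvd_iff.1 d)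
  have o2 : (Q n).order.toNat < n := by
    by_contra hc
    exact coeff_order (q0 n hn') (dq n hn' _ (not_lt.1 hc))
  rw [order_mul, ← coe_toNat_order (q0 n hn'), ← coe_toNat_order t0] at o1
  have : n + n ≤ (Q n).order.toNat + T.order.toNat := by exact_mod_cast o1
  omega

end Wr

/-- polynomials in three variables -/
abbrev Pol := MvPolynomial (Fin 3) ℂ

open MvPolynomial (homogeneousComponent)

lemma hc_mul {a : Pol} {l : ℕ} (ha : a.IsHomogeneous l) (d : ℕ) (B : Pol) :
    homogeneousComponent d (B * a) = if l ≤ d then homogeneousComponent (d - l) B * a else 0 := by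
  induction B using MvPolynomial.induction_on' with
  | monomial s c =>
    have h1 := MvPolynomial.isHomogeneous_monomial (d := s) c rfl
    rw [MvPolynomial.homogeneousComponent_of_mem (h1.mul ha),
      MvPolynomial.homogeneousComponent_of_mem h1]
    split_ifs <;> first | rfl | omega
  | add p q hp hq =>
    rw [add_mul, map_add, hp, hq]
    split_ifs <;> simp [add_mul]

/-- the substitution `x = q + s ξ` -/
noncomputable def sb (q : Fin 3 → ℂ) : Pol →ₐ[ℂ] Pol⟦X⟧ :=
  MvPolynomial.aeval fun i => C (MvPolynomial.C (q i)) + X * C (MvPolynomial.X i)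

/-- translation of a polynomial -/
noncomputable def tr (q : Fin 3 → ℂ) : Pol →ₐ[ℂ] Pol :=
  MvPolynomial.aeval fun i => MvPolynomial.X i + MvPolynomial.C (q i)

lemma sb_tr (p q : Fin 3 → ℂ) (B : Pol) : sb p (tr q B) = sb (p + q) B := by
  have : (sb p).comp (tr q) = sb (p + q) := by
    refine MvPolynomial.algHom_ext fun i => ?_
    simp [sb, tr, PowerSeries.algebraMap_apply]
    ring
  exact congrArg (fun f : Pol →ₐ[ℂ] Pol⟦X⟧ => f B) this

lemma tr_tr (q : Fin 3 → ℂ) (B : Pol) : tr (-q) (tr q B) = B := by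
  have : (tr (-q)).comp (tr q) = AlgHom.id ℂ Pol := by
    refine MvPolynomial.algHom_ext fun i => ?_
    simp [tr]
  exact congrArg (fun f : Pol →ₐ[ℂ] Pol => f B) this

lemma coeff_sb0 (B : Pol) (k : ℕ) : coeff k (sb 0 B) = homogeneousComponent k B := by
  induction B using MvPolynomial.induction_on generalizing k with
  | C c =>
    rw [MvPolynomial.homogeneousComponent_of_mem (MvPolynomial.isHomogeneous_C _ c)]
    simp [sb, PowerSeries.algebraMap_apply, coeff_C]
  | add p q hp hq => simp [hp, hq]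
  | mul_X p i hp =>
    rw [map_mul, hc_mul (MvPolynomial.isHomogeneous_X ℂ i)]
    have : sb 0 (MvPolynomial.X i) = X * C (MvPolynomial.X i) := by simp [sb]
    rw [this, ← mul_assoc, coeff_mul_C]
    cases k with
    | zero => simp
    | succ k => simp [coeff_succ_mul_X, hp]

lemma sb_inj (q : Fin 3 → ℂ) {B : Pol} (h : sb q B = 0) : B = 0 := by
  have h1 : sb 0 (tr q B) = 0 := by rw [sb_tr, zero_add, h]
  have h2 : tr q B = 0 := by
    rw [← MvPolynomial.sum_homogeneousComponent (tr q B)]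
    exact Finset.sum_eq_zero fun k _ => by rw [← coeff_sb0, h1, map_zero]
  rw [← tr_tr q B, h2, map_zero]

/-- the coefficient of `s^k` is homogeneous of degree `k` -/
def Hg (a : Pol⟦X⟧) : Prop := ∀ k, (coeff k a).IsHomogeneous k

lemma grade {a Q P : Pol⟦X⟧} {n : ℕ} (ha : Hg a) (q0 : Q ≠ 0) (dq : Dg n Q) (dp : Dg n P)
    (h : Q * a + P = 0) (q : Fin 3 → ℂ) : ∃ A B : Pol, A ≠ 0 ∧ sb q B = a * sb q A := by
  obtain ⟨k, hk⟩ := exists_coeff_ne_zero_iff_ne_zero.2 q0
  let z : Pol := MvPolynomial.X 0 ^ k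
  have hz : z.IsHomogeneous k := MvPolynomial.isHomogeneous_X_pow 0 k
  have z0 : coeff k Q * z ≠ 0 := mul_ne_zero hk (pow_ne_zero _ (MvPolynomial.X_ne_zero 0))
  obtain ⟨e, he⟩ : ∃ e, homogeneousComponent e (coeff k Q * z) ≠ 0 := by
    by_contra hc
    push Not at hc
    apply z0
    rw [← MvPolynomial.sum_homogeneousComponent (coeff k Q * z)]
    exact Finset.sum_eq_zero fun k _ => hc k
  have ke : k ≤ e := by
    by_contra hc
    rw [hc_mul hz, if_neg hc] at he
    exact he rfl
  obtain ⟨w, rfl⟩ := Nat.exists_eq_add_of_le ke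
  let π : Pol⟦X⟧ → Pol⟦X⟧ := fun U => mk fun j => homogeneousComponent (j + w) (coeff j U * z)
  have π1 : π Q * a + π P = 0 := by
    ext1 j
    have := congrArg (fun U => homogeneousComponent (j + w) (coeff j U * z)) h
    simp only [map_add, add_mul, map_zero, zero_mul, coeff_mul, Finset.sum_mul, map_sum] at this
    simp only [π, map_add, coeff_mul, coeff_mk, map_zero]
    rw [← this]
    congr 1
    refine Finset.sum_congr rfl fun p hp => ?_
    have := Finset.HasAntidiagonal.mem_antidiagonal.1 hp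
    rw [mul_right_comm, hc_mul (ha p.2), if_pos (by omega), show j + w - p.2 = p.1 + w by omega]
  have π2 : ∀ U, Dg n U → ∃ A, sb 0 A = X ^ w * π U := by
    intro U hU
    refine ⟨∑ j ∈ Finset.range n, homogeneousComponent (j + w) (coeff j U * z), ?_⟩
    ext1 j
    rw [coeff_sb0, map_sum, coeff_X_pow_mul']
    simp only [MvPolynomial.homogeneousComponent_of_mem
      (MvPolynomial.homogeneousComponent_mem _ _), π, coeff_mk]
    split_ifs with hj
    · obtain ⟨i, rfl⟩ := Nat.exists_eq_add_of_le' hj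
      simp only [Nat.add_right_cancel_iff, Finset.sum_ite_eq, Finset.mem_range, add_tsub_cancel_right]
      split_ifs with hi
      · rfl
      · rw [hU i (not_lt.1 hi), zero_mul, map_zero]
    · exact Finset.sum_eq_zero fun i _ => if_neg (by omega)
  obtain ⟨A, hA⟩ := π2 Q dq
  obtain ⟨B, hB⟩ := π2 P dp
  refine ⟨tr (-q) A, -tr (-q) B, fun h0 => he ?_, ?_⟩
  · have := congrArg (sb q) h0
    rw [sb_tr, add_neg_cancel, hA, map_zero] at this
    have := congrArg (coeff (k + w)) this
    simpa [coeff_X_pow_mul', π] using this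
  · rw [map_neg, sb_tr, sb_tr, add_neg_cancel, hA, hB]
    linear_combination (-X ^ w) * π1

end Pool.Agent.Lib.MP_4e4ac8_an
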