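import Pool.Agent.Lib.MP_4e4ac8_an.G1
import Pool.Agent.Lib.MP_4e4ac8_an.GAlg

/-!
Formal holomorphic Taylor series of functions which are complex smooth within a real hypersurface.
-/

set_option autoImplicit false
open Filter Topology Complex Set PowerSeries
open scoped ContDiff

namespace Pool.Agent.Lib.MP_4e4ac8_an

variable {S U : Set E} {r : E → ℝ} {q : E} {f g : E → ℂ}

/-- the complex coordinate derivative within `S` -/
noncomputable def Dd (S : Set E) (i : Fin 3) (f : E → ℂ) (x : E) : ℂ :=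
  fderivWithin ℂ f S x (Pi.single i 1)

/-- complex smooth within `S` near `q` -/
def Sm (S : Set E) (q : E) (f : E → ℂ) : Prop := ∀ᶠ x in 𝓝[S] q, ContDiffWithinAt ℂ ∞ f S x

/-- the `k`-th derivative as a form of degree `k` -/
noncomputable def Pj (S : Set E) : ℕ → (E → ℂ) → E → Pol
  | 0, f, x => MvPolynomial.C (f x)
  | k + 1, f, x => ∑ i, MvPolynomial.X i * Pj S k (Dd S i f) x

/-- the Taylor series along all lines through `x` -/
noncomputable def Ty (S : Set E) (f : E → ℂ) (x : E) : Pol⟦X⟧ :=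
  mk fun k => MvPolynomial.C (k.factorial : ℂ)⁻¹ * Pj S k f x

lemma LF.uq (hS : LF S) : UniqueDiffOn ℂ S := fun q hq => by
  obtain ⟨U, r, hU, h⟩ := hS.loc q hq
  exact h.uniq hU hq

lemma LF.comm (hS : LF S) (hq : q ∈ S) (hf : ContDiffWithinAt ℂ 2 f S q) (i j : Fin 3) :
    Dd S i (Dd S j f) q = Dd S j (Dd S i f) q := by
  obtain ⟨U, r, hU, h⟩ := hS.loc q hq
  have h1 : ContDiffWithinAt ℂ 1 (fderivWithin ℂ f S) S q :=
    hf.fderivWithin_right hS.uq (by norm_num) hq
  have h2 := (h1.differentiableWithinAt one_ne_zero).hasFDerivWithinAt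
  set B := fderivWithin ℂ (fderivWithin ℂ f S) S q with hB
  have h3 : ∀ᶠ x in 𝓝[S] q, HasFDerivWithinAt f (fderivWithin ℂ f S x) S x := by
    have := hf.eventually (by simp)
    rw [insert_eq_of_mem hq] at this
    exact this.mono fun x hx => (hx.differentiableWithinAt (by norm_num)).hasFDerivWithinAt
  have s1 : ∀ a b, fderiv ℝ r q a = 0 → fderiv ℝ r q b = 0 → B a b = B b a := fun a b ha hb =>
    h.sym2 hU hq h3 (h2.restrictScalars ℝ) ha hb
  have s2 : ∀ b, fderiv ℝ r q b = 0 → B.flip b = B b := fun b hb =>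
    ext_tan (h.ne q hU hq) fun a ha => s1 a b ha hb
  have s3 : B.flip = B := ext_tan (h.ne q hU hq) s2
  have e : ∀ i j, Dd S i (Dd S j f) q = B (Pi.single i 1) (Pi.single j 1) := fun i j => by
    have := (h2.clm_apply (hasFDerivWithinAt_const (Pi.single j 1 : E) q S)).fderivWithin
      (hS.uq q hq)
    unfold Dd
    rw [this]
    simp
  rw [e, e]
  conv_lhs => rw [← s3]
  rfl

namespace Sm

lemma ev (h : Sm S q f) : ∀ᶠ x in 𝓝[S] q, Sm S x f := eventually_eventually_nhdsWithin.2 h

lemma self (h : Sm S q f) (hq : q ∈ S) : ContDiffWithinAt ℂ ∞ f S q := h.self_of_nhdsWithin hq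

lemma fd (h : Sm S q f) : ∀ᶠ x in 𝓝[S] q, HasFDerivWithinAt f (fderivWithin ℂ f S x) S x :=
  h.mono fun _ hx => (hx.differentiableWithinAt (by simp)).hasFDerivWithinAt

lemma dd (h : Sm S q f) (hS : LF S) (i : Fin 3) : Sm S q (Dd S i f) := by
  filter_upwards [h, self_mem_nhdsWithin] with x a b
  exact (a.fderivWithin_right hS.uq (by simp) b).clm_apply contDiffWithinAt_const

lemma add (h : Sm S q f) (h' : Sm S q g) : Sm S q fun x => f x + g x := by
  filter_upwards [h, h'] with x a b using a.add b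

lemma mul (h : Sm S q f) (h' : Sm S q g) : Sm S q fun x => f x * g x := by
  filter_upwards [h, h'] with x a b using a.mul b

lemma const (c : ℂ) : Sm S q fun _ => c := Eventually.of_forall fun _ => contDiffWithinAt_const

lemma coord (i : Fin 3) : Sm S q fun x => x i :=
  Eventually.of_forall fun _ => (contDiff_apply ℂ ℂ i).contDiffWithinAt

lemma poly (B : Pol) : Sm S q fun x => MvPolynomial.eval x B := by
  induction B using MvPolynomial.induction_on with
  | C c => simpa using const c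
  | add p q hp hq => simpa using hp.add hq
  | mul_X p i hp => simpa using hp.mul (coord i)

lemma congr (h : Sm S q f) (e : g =ᶠ[𝓝[S] q] f) : Sm S q g := by
  filter_upwards [h, eventually_eventually_nhdsWithin.2 e, self_mem_nhdsWithin] with x a b c
  exact a.congr_of_eventuallyEq_of_mem b c

lemma pj (h : Sm S q f) (hS : LF S) (ξ : E) (k : ℕ) :
    Sm S q fun x => MvPolynomial.eval ξ (Pj S k f x) := by
  induction k generalizing f with
  | zero => simpa [Pj] using h
  | succ k ih =>
    simp only [Pj, Fin.sum_univ_three, map_add, map_mul, MvPolynomial.eval_X]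
    exact (((const _).mul (ih (h.dd hS 0))).add ((const _).mul (ih (h.dd hS 1)))).add
      ((const _).mul (ih (h.dd hS 2)))

end Sm

lemma Dd_congr (e : f =ᶠ[𝓝[S] q] g) (i : Fin 3) : Dd S i f =ᶠ[𝓝[S] q] Dd S i g :=
  (e.fderivWithin' (𝕜 := ℂ) Subset.rfl).mono fun _ hx => by simp only [Dd, hx]

lemma Pj_congr (hq : q ∈ S) (e : f =ᶠ[𝓝[S] q] g) (k : ℕ) : Pj S k f q = Pj S k g q := by
  induction k generalizing f g with
  | zero => simp only [Pj, e.eq_of_nhdsWithin hq]
  | succ k ih => simp only [Pj, ih (Dd_congr e _)]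

lemma Ty_congr (hq : q ∈ S) (e : f =ᶠ[𝓝[S] q] g) : Ty S f q = Ty S g q := by
  simp only [Ty, Pj_congr hq e]

lemma Dd_add (hS : LF S) (h : Sm S q f) (h' : Sm S q g) (i : Fin 3) :
    Dd S i (fun x => f x + g x) =ᶠ[𝓝[S] q] fun x => Dd S i f x + Dd S i g x := by
  filter_upwards [h.fd, h'.fd, self_mem_nhdsWithin] with x a b c
  simp only [Dd, (a.fun_add b).fderivWithin (hS.uq x c), _root_.add_apply]

lemma Dd_mul (hS : LF S) (h : Sm S q f) (h' : Sm S q g) (i : Fin 3) :
    Dd S i (fun x => f x * g x) =ᶠ[𝓝[S] q] fun x => Dd S i f x * g x + f x * Dd S i g x := by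
  filter_upwards [h.fd, h'.fd, self_mem_nhdsWithin] with x a b c
  simp only [Dd, (a.fun_mul b).fderivWithin (hS.uq x c), _root_.add_apply, _root_.smul_apply,
    smul_eq_mul]
  ring

lemma Dd_const (i : Fin 3) (c : ℂ) : Dd S i (fun _ => c) = fun _ => 0 := by
  funext x
  simp [Dd]

lemma Pj_add (hS : LF S) (hq : q ∈ S) (h : Sm S q f) (h' : Sm S q g) (k : ℕ) :
    Pj S k (fun x => f x + g x) q = Pj S k f q + Pj S k g q := by
  induction k generalizing f g with
  | zero => simp [Pj]
  | succ k ih =>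
    simp only [Pj, ← Finset.sum_add_distrib, ← mul_add]
    exact Finset.sum_congr rfl fun i _ => by
      rw [Pj_congr hq (Dd_add hS h h' i), ih (h.dd hS i) (h'.dd hS i)]

lemma Pj_zero (k : ℕ) : Pj S k (fun _ => 0) q = 0 := by
  induction k with
  | zero => simp [Pj]
  | succ k ih => simp [Pj, Dd_const, ih]

lemma Ty_add (hS : LF S) (hq : q ∈ S) (h : Sm S q f) (h' : Sm S q g) :
    Ty S (fun x => f x + g x) q = Ty S f q + Ty S g q := by
  ext1 k
  simp only [Ty, map_add, coeff_mk, Pj_add hS hq h h', mul_add]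

lemma Ty_const (c : ℂ) : Ty S (fun _ => c) q = C (MvPolynomial.C c) := by
  ext1 k
  cases k with
  | zero => simp [Ty, Pj]
  | succ k => simp [Ty, Pj, Dd_const, Pj_zero]

lemma Ty_zero (f : E → ℂ) : coeff 0 (Ty S f q) = MvPolynomial.C (f q) := by simp [Ty, Pj]

lemma Ty_der (f : E → ℂ) :
    d⁄dX Pol (Ty S f q) = ∑ i, C (MvPolynomial.X i) * Ty S (Dd S i f) q := by
  ext1 k
  simp only [coeff_derivative, Ty, coeff_mk, map_sum, coeff_C_mul, Pj, Finset.mul_sum,
    Finset.sum_mul]
  refine Finset.sum_congr rfl fun i _ => ?_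
  have e : MvPolynomial.C ((k + 1).factorial : ℂ)⁻¹ * ((k : Pol) + 1) =
      MvPolynomial.C (k.factorial : ℂ)⁻¹ := by
    have : ((k : Pol) + 1) = MvPolynomial.C ((k : ℂ) + 1) := by simp
    rw [this, ← map_mul, Nat.factorial_succ]
    congr 1
    have : (k : ℂ) + 1 ≠ 0 := by exact_mod_cast Nat.succ_ne_zero k
    push_cast
    field_simp
  rw [← e]
  ring

lemma Ty_mul (hS : LF S) (hq : q ∈ S) (h : Sm S q f) (h' : Sm S q g) :
    Ty S (fun x => f x * g x) q = Ty S f q * Ty S g q := by
  ext1 k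
  induction k generalizing f g with
  | zero => simp [coeff_mul, Ty_zero]
  | succ k ih =>
    have n : ((k : Pol) + 1) ≠ 0 := by exact_mod_cast Nat.succ_ne_zero k
    refine mul_right_cancel₀ n ?_
    rw [← coeff_derivative, ← coeff_derivative, Derivation.leibniz, Ty_der, Ty_der, Ty_der]
    simp only [smul_eq_mul, Finset.mul_sum, ← Finset.sum_add_distrib, map_sum, coeff_C_mul]
    refine Finset.sum_congr rfl fun i _ => ?_
    rw [Ty_congr hq (Dd_mul hS h h' i), Ty_add hS hq ((h.dd hS i).mul h') (h.mul (h'.dd hS i)),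
      map_add, ih (h.dd hS i) h', ih h (h'.dd hS i), ← map_add, ← coeff_C_mul]
    congr 1
    ring

lemma Ty_coord (hS : LF S) (hq : q ∈ S) (i : Fin 3) :
    Ty S (fun x => x i) q = C (MvPolynomial.C (q i)) + X * C (MvPolynomial.X i) := by
  refine derivative.ext ?_ (by rw [← coeff_zero_eq_constantCoeff_apply, Ty_zero]; simp)
  have e : ∀ l, Ty S (Dd S l fun x => x i) q = C (MvPolynomial.C ((Pi.single l 1 : E) i)) := by
    intro l
    rw [← Ty_const (S := S) (q := q)]
    refine Ty_congr hq ?_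
    filter_upwards [self_mem_nhdsWithin] with x hx
    have := (ContinuousLinearMap.proj (R := ℂ) (φ := fun _ : Fin 3 => ℂ) i).hasFDerivWithinAt
      (s := S) (x := x)
    exact congrArg (fun L : E →L[ℂ] ℂ => L (Pi.single l 1)) (this.fderivWithin (hS.uq x hx))
  rw [Ty_der]
  simp only [e, Pi.single_apply]
  simp [apply_ite, Derivation.leibniz]

lemma Ty_poly (hS : LF S) (hq : q ∈ S) (B : Pol) :
    Ty S (fun x => MvPolynomial.eval x B) q = sb q B := by
  induction B using MvPolynomial.induction_on with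
  | C c => simp [Ty_const, sb, PowerSeries.algebraMap_apply]
  | add a b ha hb => simp only [map_add, Ty_add hS hq (Sm.poly a) (Sm.poly b), ha, hb]
  | mul_X a i ha =>
    simp only [map_mul, MvPolynomial.eval_X, Ty_mul hS hq (Sm.poly a) (Sm.coord i), ha,
      Ty_coord hS hq]
    simp [sb]

lemma Ty_hg (f : E → ℂ) : Hg (Ty S f q) := by
  intro k
  rw [Ty, coeff_mk]
  refine MvPolynomial.IsHomogeneous.C_mul ?_ _
  induction k generalizing f with
  | zero => exact MvPolynomial.isHomogeneous_C _ _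
  | succ k ih =>
    refine MvPolynomial.IsHomogeneous.sum _ _ _ fun i _ => ?_
    simpa [add_comm] using (MvPolynomial.isHomogeneous_X ℂ i).mul (ih (Dd S i f))

lemma Pj_cmul (hS : LF S) (hq : q ∈ S) (h : Sm S q f) (c : ℂ) (k : ℕ) :
    Pj S k (fun x => c * f x) q = MvPolynomial.C c * Pj S k f q := by
  have := congrArg (coeff k) (Ty_mul hS hq (Sm.const c) h)
  rw [Ty_const, coeff_C_mul] at this
  simp only [Ty, coeff_mk] at this
  have n : (MvPolynomial.C (k.factorial : ℂ)⁻¹ : Pol) ≠ 0 := by simp [Nat.factorial_ne_zero]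
  exact mul_left_cancel₀ n (by linear_combination this)

lemma LF.tend (hS : LF S) {t : ℂ} (ht : t ≠ 0) (q : E) :
    Tendsto (fun x : E => t • x) (𝓝[S] q) (𝓝[S] (t • q)) :=
  (continuous_const_smul t).continuousWithinAt.tendsto_nhdsWithin fun x hx => hS.cone x hx t ht

lemma Sm.scale (hS : LF S) {t : ℂ} (ht : t ≠ 0) (h : Sm S (t • q) f) : Sm S q fun x => f (t • x) := by
  filter_upwards [(hS.tend ht q).eventually h] with x a
  exact a.comp x (contDiff_const_smul t).contDiffWithinAt fun x hx => hS.cone x hx t ht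

lemma Pj_scale (hS : LF S) (hq : q ∈ S) {t : ℂ} (ht : t ≠ 0) (h : Sm S (t • q) f) (k : ℕ) :
    Pj S k (fun x => f (t • x)) q = MvPolynomial.C t ^ k * Pj S k f (t • q) := by
  induction k generalizing f with
  | zero => simp [Pj]
  | succ k ih =>
    simp only [Pj, Finset.mul_sum]
    refine Finset.sum_congr rfl fun i _ => ?_
    have e : Dd S i (fun x => f (t • x)) =ᶠ[𝓝[S] q] fun x => t * Dd S i f (t • x) := by
      filter_upwards [(hS.tend ht q).eventually h.fd, self_mem_nhdsWithin] with x a b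
      have := (a.comp x ((hasFDerivAt_id x).const_smul t).hasFDerivWithinAt
        fun x hx => hS.cone x hx t ht).fderivWithin (hS.uq x b)
      simpa [Dd, Function.comp_def] using congrArg (fun L : E →L[ℂ] ℂ => L (Pi.single i 1)) this
    rw [Pj_congr hq e, Pj_cmul hS hq ((h.dd hS i).scale hS ht), ih (h.dd hS i)]
    ring

lemma Ty_scale (hS : LF S) (hq : q ∈ S) {t : ℂ} (ht : t ≠ 0) (h : Sm S (t • q) f) :
    Ty S (fun x => f (t • x)) q = rescale (MvPolynomial.C t) (Ty S f (t • q)) := by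
  ext1 k
  simp only [Ty, coeff_rescale, coeff_mk, Pj_scale hS hq ht h]
  ring

lemma Dd_comm (hS : LF S) (h : Sm S q f) (i j : Fin 3) :
    Dd S i (Dd S j f) =ᶠ[𝓝[S] q] Dd S j (Dd S i f) := by
  filter_upwards [h, self_mem_nhdsWithin] with x a b
  exact hS.comm b (contDiffWithinAt_infty.1 a 2) i j

lemma Pj_pderiv (hS : LF S) (hq : q ∈ S) (h : Sm S q f) (i : Fin 3) (k : ℕ) :
    MvPolynomial.pderiv i (Pj S (k + 1) f q) = (k + 1 : Pol) * Pj S k (Dd S i f) q := by
  have e : ∀ k f, MvPolynomial.pderiv i (Pj S (k + 1) f q) = Pj S k (Dd S i f) q +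
      ∑ l, MvPolynomial.X l * MvPolynomial.pderiv i (Pj S k (Dd S l f) q) := fun k f => by
    simp only [Pj, map_sum, Derivation.leibniz, smul_eq_mul, Finset.sum_add_distrib,
      MvPolynomial.pderiv_X, Pi.single_apply]
    simp [add_comm]
  induction k generalizing f with
  | zero => rw [e]; simp [Pj]
  | succ k ih =>
    rw [e]
    simp only [fun l => ih (h.dd hS l), Pj_congr hq (Dd_comm hS h i _)]
    simp only [Pj, Fin.sum_univ_three]
    push_cast
    ring

lemma Pj_fd (hS : LF S) (hq : q ∈ S) (h : Sm S q f) (ξ : E) (k : ℕ) :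
    ∃ L : E →L[ℂ] ℂ, HasFDerivWithinAt (fun x => MvPolynomial.eval ξ (Pj S k f x)) L S q ∧
      ∀ i, L (Pi.single i 1) = MvPolynomial.eval ξ (Pj S k (Dd S i f) q) := by
  induction k generalizing f with
  | zero => exact ⟨_, by simpa [Pj] using h.fd.self_of_nhdsWithin hq, fun i => by simp [Pj, Dd]⟩
  | succ k ih =>
    choose L h1 h2 using fun l => ih (h.dd hS l)
    refine ⟨∑ l, ξ l • L l, ?_, fun i => ?_⟩
    · simp only [Pj, map_sum, map_mul, MvPolynomial.eval_X]
      exact HasFDerivWithinAt.fun_sum fun l _ => (h1 l).const_mul (ξ l)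
    · simp only [Pj, map_sum, map_mul, MvPolynomial.eval_X, _root_.sum_apply,
        _root_.smul_apply, smul_eq_mul, h2, Pj_congr hq (Dd_comm hS h i _)]

/-- where the whole jet vanishes, all derivatives are stationary -/
lemma Pj_flat (hS : LF S) (hq : q ∈ S) (h : Sm S q f) (h0 : Ty S f q = 0) (ξ : E) (k : ℕ) :
    HasFDerivWithinAt (fun x => MvPolynomial.eval ξ (Pj S k f x)) (0 : E →L[ℂ] ℂ) S q := by
  obtain ⟨L, h1, h2⟩ := Pj_fd hS hq h ξ k
  have z : Pj S (k + 1) f q = 0 := by
    simpa [Ty, Nat.factorial_ne_zero] using congrArg (coeff (k + 1)) h0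
  have n : ((k : Pol) + 1) ≠ 0 := by exact_mod_cast Nat.succ_ne_zero k
  refine h1.congr_fderiv (ContinuousLinearMap.ext fun v => ?_)
  have e : ∀ i, L (Pi.single i 1) = 0 := fun i => by
    have := Pj_pderiv hS hq h i k
    rw [z, map_zero] at this
    rw [h2, (mul_eq_zero.1 this.symm).resolve_left n, map_zero]
  rw [pi_eq_sum_univ' v]
  simp [e]

end Pool.Agent.Lib.MP_4e4ac8_an
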