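import Pool.Agent.Lib.MP_4e4ac8_an.G2

/-!
Smooth CR functions are complex smooth within the hypersurface; the Gauss map is such a function.
-/

set_option autoImplicit false
open Filter Topology Complex Set
open scoped ContDiff

namespace Pool.Agent.Lib.MP_4e4ac8_an

variable {S U : Set E} {r : E → ℝ} {q : E}

/-- smooth near `q` with complex linear differential on complex tangent vectors of `S` -/
def CR (S : Set E) (r : E → ℝ) (q : E) (F : E → ℂ) : Prop :=
  ∀ᶠ x in 𝓝 q, ContDiffAt ℝ ∞ F x ∧ (x ∈ S → ∀ ξ, cf (fderiv ℝ r x) ξ = 0 →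
    fderiv ℝ F x (I • ξ) = I * fderiv ℝ F x ξ)

/-- evaluation of the complexified form -/
noncomputable def cfw (w : E) : (E →L[ℝ] ℝ) →L[ℝ] ℂ :=
  ofRealCLM.comp (ContinuousLinearMap.apply ℝ ℝ w) -
    I • ofRealCLM.comp (ContinuousLinearMap.apply ℝ ℝ (I • w))

lemma cfw_apply (w : E) (D : E →L[ℝ] ℝ) : cfw w D = cf D w := by simp [cfw, cf_apply]

lemma lam_lin {l : E →L[ℝ] ℝ} {ν : E} (hν : cf l ν = 1) {F' : E →L[ℝ] ℂ}
    (hF : ∀ ξ, cf l ξ = 0 → F' (I • ξ) = I * F' ξ) {v : E} (hv : l v = 0) :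
    ∑ i, v i * (F' (Pi.single i 1 - cf l (Pi.single i 1) • ν) -
      I * cf l (Pi.single i 1) * F' (I • ν)) = F' v := by
  have a : ∀ (c : ℂ) ξ, cf l ξ = 0 → c * F' ξ = F' (c • ξ) := fun c ξ hξ => by
    have e : c • ξ = c.re • ξ + c.im • (I • ξ) := by
      conv_lhs => rw [← re_add_im c]
      rw [add_smul, mul_smul]; simp
    rw [e, map_add, map_smul, map_smul, hF ξ hξ]
    conv_lhs => rw [← re_add_im c]
    simp only [real_smul]; ring
  have b : ∀ ξ, cf l (ξ - cf l ξ • ν) = 0 := fun ξ => by simp [hν]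
  have c : ∑ i, v i * cf l (Pi.single i 1) = cf l v := by
    conv_rhs => rw [pi_eq_sum_univ' v]
    simp
  have d : ∑ i, v i • ((Pi.single i 1 : E) - cf l (Pi.single i 1) • ν) = v - cf l v • ν := by
    simp only [smul_sub, Finset.sum_sub_distrib, smul_smul, ← Finset.sum_smul, c,
      ← pi_eq_sum_univ']
  have e : cf l v = ((cf l v).im : ℂ) * I := by
    apply Complex.ext <;> simp [cf_re, hv]
  simp only [mul_sub, Finset.sum_sub_distrib, a _ _ (b _), ← map_sum, d]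
  have f : ∑ i, v i * (I * cf l (Pi.single i 1) * F' (I • ν)) = I * cf l v * F' (I • ν) := by
    rw [← c, Finset.mul_sum, Finset.sum_mul]
    exact Finset.sum_congr rfl fun i _ => by ring
  rw [f, e, mul_smul, Complex.coe_smul, map_sub, map_smul, real_smul]
  linear_combination (-((cf l v).im : ℂ) * F' (I • ν)) * I_mul_I

lemma cd_cf (h : LocDef S U r) (hr : ContDiffOn ℝ ∞ r U) {x : E} (hx : x ∈ U) (w : E) :
    ContDiffAt ℝ ∞ (fun x => cf (fderiv ℝ r x) w) x := by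
  simp only [← cfw_apply]
  exact (cfw w).contDiff.contDiffAt.comp x
    ((hr.contDiffAt (h.op.mem_nhds hx)).fderiv_right (by simp))

lemma CR.step (h : LocDef S U r) (hr : ContDiffOn ℝ ∞ r U) (hq : q ∈ U) (hS : q ∈ S) {F : E → ℂ}
    (hF : CR S r q F) : ∃ lam : Fin 3 → E → ℂ, (∀ i, CR S r q (lam i)) ∧ ∀ᶠ x in 𝓝[S] q,
      HasFDerivWithinAt F (∑ i, lam i x • ContinuousLinearMap.proj (R := ℂ) i) S x := by
  obtain ⟨v, hv⟩ := exists_cf_one (h.ne q hq hS)
  let ν : E → E := fun x => (cf (fderiv ℝ r x) v)⁻¹ • v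
  let lam : Fin 3 → E → ℂ := fun i x =>
    fderiv ℝ F x (Pi.single i 1 - cf (fderiv ℝ r x) (Pi.single i 1) • ν x) -
      I * cf (fderiv ℝ r x) (Pi.single i 1) * fderiv ℝ F x (I • ν x)
  let Λ : E → E →L[ℂ] ℂ := fun x => ∑ i, lam i x • ContinuousLinearMap.proj (R := ℂ) i
  have e1 : ∀ᶠ x in 𝓝 q, x ∈ U ∧ cf (fderiv ℝ r x) v ≠ 0 :=
    Filter.Eventually.and (h.op.mem_nhds hq)
      ((cd_cf h hr hq v).continuousAt.eventually_ne (by simp [hv]))
  have e2 : ∀ᶠ x in 𝓝 q, x ∈ S → HasFDerivWithinAt F (Λ x) S x := by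
    filter_upwards [e1, hF] with x a b c
    refine h.within a.1 c (b.1.differentiableAt (by simp)).hasFDerivAt fun w hw => ?_
    rw [← lam_lin (ν := ν x) (by simp [ν, a.2]) (b.2 c) hw]
    simp [Λ, lam, mul_comm]
  have e3 : ∀ᶠ x in 𝓝 q, ∀ i, ContDiffAt ℝ ∞ (lam i) x := by
    filter_upwards [e1, hF] with x a b i
    have c1 : ContDiffAt ℝ ∞ (fderiv ℝ F) x := b.1.fderiv_right (by simp)
    have c2 : ContDiffAt ℝ ∞ ν x := ((cd_cf h hr a.1 v).inv a.2).smul contDiffAt_const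
    have c3 := cd_cf h hr a.1 (Pi.single i 1)
    exact (c1.clm_apply (contDiffAt_const.sub (c3.smul c2))).sub
      ((contDiffAt_const.mul c3).mul (c1.clm_apply (c2.const_smul I)))
  refine ⟨lam, fun i => ?_, eventually_nhdsWithin_iff.2 e2⟩
  filter_upwards [e1, e2.eventually_nhds, e3] with x a b c
  refine ⟨c i, fun hx ξ hξ => ?_⟩
  have d1 : ContDiffAt ℝ ∞ Λ x := ContDiffAt.sum fun i _ => (c i).smul contDiffAt_const
  have d2 := (d1.differentiableAt (by simp)).hasFDerivAt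
  set B := fderiv ℝ Λ x with hB
  have s := fun a' b' ha hb => h.sym2 a.1 hx (eventually_nhdsWithin_iff.2 b) d2.hasFDerivWithinAt
    (a := a') (b := b') ha hb
  obtain ⟨t1, t2⟩ := (cf_eq_zero _ _).1 hξ
  have s2 : B (I • ξ) = I • B ξ := ext_tan (h.ne x a.1 hx) fun w hw => by
    rw [s _ _ t2 hw, map_smul, _root_.smul_apply, s _ _ t1 hw]
  have d3 := ((ContinuousLinearMap.apply ℂ ℂ (Pi.single i 1 : E)).restrictScalars ℝ).hasFDerivAt.comp
    x d2
  have e : lam i = (ContinuousLinearMap.apply ℂ ℂ (Pi.single i 1 : E)).restrictScalars ℝ ∘ Λ := by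
    funext y
    simp [Λ, Pi.single_apply]
  rw [e, d3.fderiv]
  simp [s2]

lemma CR.cd (h : LocDef S U r) (hr : ContDiffOn ℝ ∞ r U) (hq : q ∈ U) (hS : q ∈ S) (n : ℕ)
    {F : E → ℂ} (hF : CR S r q F) : ContDiffWithinAt ℂ n F S q := by
  induction n generalizing F with
  | zero =>
    exact (contDiffWithinAt_zero hS).2 ((contDiffWithinAt_zero hS).1
      (hF.self_of_nhds.1.of_le (by simp)).contDiffWithinAt)
  | succ n ih =>
    obtain ⟨lam, h1, h2⟩ := hF.step h hr hq hS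
    rw [Nat.cast_succ, contDiffWithinAt_succ_iff_hasFDerivWithinAt' (by simp), insert_eq_of_mem hS]
    exact ⟨_, Filter.inter_mem h2 self_mem_nhdsWithin, inter_subset_right, by simp, _,
      fun x hx => hx.1, ContDiffWithinAt.sum fun i _ => (ih (h1 i)).smul contDiffWithinAt_const⟩

lemma CR.sm (h : LocDef S U r) (hr : ContDiffOn ℝ ∞ r U) (hq : q ∈ U) {F : E → ℂ}
    (hF : CR S r q F) : Sm S q F := by
  filter_upwards [nhdsWithin_le_nhds (h.op.mem_nhds hq), nhdsWithin_le_nhds hF.eventually_nhds,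
    self_mem_nhdsWithin] with x a b c
  exact contDiffWithinAt_infty.2 fun n => CR.cd h hr a c n b

lemma gauss_cr (h : LocDef S U r) (hr : ContDiffOn ℝ ∞ r U) (hq : q ∈ U) {v : E} (w : E)
    (hv : cf (fderiv ℝ r q) v ≠ 0) :
    CR S r q fun x => cf (fderiv ℝ r x) w / cf (fderiv ℝ r x) v := by
  have e1 : ∀ᶠ x in 𝓝 q, x ∈ U ∧ cf (fderiv ℝ r x) v ≠ 0 :=
    Filter.Eventually.and (h.op.mem_nhds hq) ((cd_cf h hr hq v).continuousAt.eventually_ne hv)
  filter_upwards [e1, e1.eventually_nhds] with x a b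
  set F : E → ℂ := fun x => cf (fderiv ℝ r x) w / cf (fderiv ℝ r x) v with hF
  have c : ContDiffAt ℝ ∞ F x := by
    simp only [hF, div_eq_mul_inv]
    exact (cd_cf h hr a.1 w).mul ((cd_cf h hr a.1 v).inv a.2)
  refine ⟨c, fun hx ξ hξ => ?_⟩
  have d : ∀ u, HasFDerivAt (fun x => cf (fderiv ℝ r x) u)
      ((cfw u).comp (fderiv ℝ (fderiv ℝ r) x)) x := fun u => by
    simp only [← cfw_apply]
    exact (cfw u).hasFDerivAt.comp x (h.fd1 a.1)
  have d2 := ((c.differentiableAt (by simp)).hasFDerivAt.fun_mul (d v)).unique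
    ((d w).congr_of_eventuallyEq (b.mono fun y hy => div_mul_cancel₀ _ hy.2))
  have k : ∀ u, fderiv ℝ F x u * cf (fderiv ℝ r x) v =
      cf (fderiv ℝ (fderiv ℝ r) x u) (w - F x • v) := fun u => by
    have := congrArg (fun L : E →L[ℝ] ℂ => L u) d2
    simp only [_root_.add_apply, _root_.smul_apply, ContinuousLinearMap.comp_apply, cfw_apply,
      smul_eq_mul] at this
    rw [map_sub, map_smul, smul_eq_mul]
    linear_combination this
  set ζ := w - F x • v with hζ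
  have z : cf (fderiv ℝ r x) ζ = 0 := by
    rw [hζ, map_sub, map_smul, smul_eq_mul, hF, div_mul_cancel₀ _ a.2, sub_self]
  have p1 := h.polar a.1 hx hξ z
  have p2 := h.polar a.1 hx hξ (show cf (fderiv ℝ r x) (I • ζ) = 0 by rw [map_smul, z, smul_zero])
  rw [smul_smul, I_mul_I, neg_one_smul, map_neg] at p2
  refine mul_right_cancel₀ a.2 ?_
  rw [mul_assoc, k, k, cf_apply, cf_apply, sub_eq_zero.1 p1, ← sub_eq_zero.1 p2]
  push_cast
  linear_combination ((fderiv ℝ (fderiv ℝ r) x (I • ξ) ζ : ℝ) : ℂ) * I_mul_I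

/-- a smooth Levi-flat cone -/
structure LFs (S : Set E) : Prop extends LF S where
  locs : ∀ p ∈ S, ∃ U r, p ∈ U ∧ LocDef S U r ∧ ContDiffOn ℝ ∞ r U

open Classical in
/-- a choice of conormal form -/
noncomputable def cn (S : Set E) (p : E) : E →L[ℂ] ℂ :=
  if h : ∃ a, Con S p a then h.choose else 0

lemma LF.con (hS : LF S) (hq : q ∈ S) : Con S q (cn S q) := by
  rw [cn, dif_pos (hS.exists_con hq)]
  exact (hS.exists_con hq).choose_spec

/-- the points where the `j`-th coordinate of the conormal does not vanish -/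
def Ch (S : Set E) (j : Fin 3) (p : E) : Prop := cn S p (Pi.single j 1) ≠ 0

/-- the Gauss map in the `j`-th chart -/
noncomputable def gs (S : Set E) (j i : Fin 3) (p : E) : ℂ :=
  cn S p (Pi.single i 1) / cn S p (Pi.single j 1)

lemma LF.ch (hS : LF S) (hq : q ∈ S) : ∃ j, Ch S j q := by
  obtain ⟨n, hn⟩ := (hS.con hq).one hS hq
  by_contra hc
  simp only [Ch, not_exists, not_not] at hc
  rw [pi_eq_sum_univ' n] at hn
  simp [hc] at hn

lemma LFs.gsm (hS : LFs S) (hq : q ∈ S) {j : Fin 3} (hj : Ch S j q) :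
    (∀ᶠ x in 𝓝[S] q, Ch S j x) ∧ ∀ i, Sm S q (gs S j i) := by
  obtain ⟨U, r, hU, h, hr⟩ := hS.locs q hq
  obtain ⟨c, -, hc⟩ := hS.toLF.con hq U r h hU
  have hv : cf (fderiv ℝ r q) (Pi.single j 1) ≠ 0 := fun h0 => hj (by rw [hc, h0, mul_zero])
  have e1 : ∀ᶠ x in 𝓝[S] q, ∃ c : ℂ, c ≠ 0 ∧ ∀ v, cn S x v = c * cf (fderiv ℝ r x) v := by
    filter_upwards [nhdsWithin_le_nhds (h.op.mem_nhds hU), self_mem_nhdsWithin] with x a b
    obtain ⟨c, c0, hc⟩ := hS.toLF.con b U r h a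
    exact ⟨c, by exact_mod_cast c0, hc⟩
  refine ⟨?_, fun i => ((gauss_cr h hr hU (Pi.single i 1) hv).sm h hr hU).congr ?_⟩
  · filter_upwards [e1, nhdsWithin_le_nhds ((cd_cf h hr hU _).continuousAt.eventually_ne hv)]
      with x ⟨c, c0, hc⟩ b
    rw [Ch, hc]
    exact mul_ne_zero c0 b
  · filter_upwards [e1] with x ⟨c, c0, hc⟩
    rw [gs, hc, hc, mul_div_mul_left _ _ c0]

lemma LF.cn_scale (hS : LF S) (hq : q ∈ S) {t : ℂ} (ht : t ≠ 0) :
    ∃ c : ℂ, c ≠ 0 ∧ ∀ v, cn S (t • q) v = c * cn S q v := by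
  obtain ⟨ρ, h0, h1⟩ := ((hS.con hq).cone hS hq ht).unique hS (hS.cone q hq t ht)
    (hS.con (hS.cone q hq t ht))
  exact ⟨ρ * t⁻¹, mul_ne_zero (by exact_mod_cast h0) (inv_ne_zero ht), fun v => by
    rw [h1]; simp [mul_assoc]⟩

lemma LF.ch_scale (hS : LF S) (hq : q ∈ S) {t : ℂ} (ht : t ≠ 0) {j : Fin 3} :
    Ch S j (t • q) ↔ Ch S j q := by
  obtain ⟨c, c0, hc⟩ := hS.cn_scale hq ht
  simp [Ch, hc, c0]

lemma LF.gs_scale (hS : LF S) (hq : q ∈ S) {t : ℂ} (ht : t ≠ 0) (j i : Fin 3) :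
    gs S j i (t • q) = gs S j i q := by
  obtain ⟨c, c0, hc⟩ := hS.cn_scale hq ht
  rw [gs, hc, hc, mul_div_mul_left _ _ c0, gs]

lemma gs_self {j : Fin 3} (hj : Ch S j q) : gs S j j q = 1 := div_self hj

lemma gs_trans {j j' : Fin 3} (hj : Ch S j q) (i : Fin 3) :
    gs S j' i q = gs S j' j q * gs S j i q := by
  rw [gs, gs, gs, mul_comm, div_mul_div_cancel₀ hj]

end Pool.Agent.Lib.MP_4e4ac8_an
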