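import Pool.Agent.Lib.MP_4e4ac8_an.G3
import Pool.Agent.Lib.MP_4e4ac8_an.CLeaf

/-!
The maximum principle along leaves kills the Hankel determinants of the Gauss map.
-/

set_option autoImplicit false
open Filter Topology Complex Set PowerSeries
open scoped ContDiff

namespace Pool.Agent.Lib.MP_4e4ac8_an

variable {S U : Set E} {r : E → ℝ} {q : E}

lemma ang_lim {c : ℂ → E} {c' : E} (hc : HasDerivAt c c' 0) (h0 : c 0 ≠ 0) :
    Tendsto (fun z => nn (crs (c 0) (c z)) / normSq (hm (c z) (c 0)) / normSq z) (𝓝[≠] 0)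
      (𝓝 (nn (crs (c 0) c') / nn (c 0) ^ 2)) := by
  have a : Tendsto (fun z => nn (crs (c 0) (z⁻¹ • (c (0 + z) - c 0)))) (𝓝[≠] 0)
      (𝓝 (nn (crs (c 0) c'))) :=
    ((continuous_nn (continuous_crs continuous_const continuous_id)).tendsto c').comp
      hc.tendsto_slope_zero
  have b : Tendsto (fun z => normSq (hm (c z) (c 0))) (𝓝[≠] 0) (𝓝 (nn (c 0) ^ 2)) := by
    have := (continuous_normSq.continuousAt.comp
      (continuousAt_hm hc.continuousAt (continuousAt_const (y := c 0)))).tendsto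
    simp only [Function.comp_def, hm_self, normSq_ofReal, ← pow_two] at this
    exact this.mono_left nhdsWithin_le_nhds
  refine (a.div b (pow_ne_zero 2 (nn_pos h0).ne')).congr fun z => ?_
  have := crs_add_smul (c 0) (c z) (-z⁻¹) z⁻¹
  rw [Pi.div_apply, zero_add, smul_sub, sub_eq_neg_add, ← neg_smul, this, nn_smul, normSq_inv]
  ring

lemma maxp {γ G : ℂ → E} {W : ℂ → ℂ} {γ' G' : E} {n : ℕ}
    (dγ : ∀ᶠ z in 𝓝 0, DifferentiableAt ℂ γ z) (dG : ∀ᶠ z in 𝓝 0, DifferentiableAt ℂ G z)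
    (dW : ∀ᶠ z in 𝓝 0, DifferentiableAt ℂ W z) (hγ : HasDerivAt γ γ' 0) (hG : HasDerivAt G G' 0)
    (γ0 : γ 0 ≠ 0) (G0 : G 0 ≠ 0) (W0 : W 0 ≠ 0)
    (hn : 3 * (nn (crs (G 0) G') / nn (G 0) ^ 2) < n * (nn (crs (γ 0) γ') / nn (γ 0) ^ 2))
    (hmax : ∀ᶠ z in 𝓝 0, normSq (W z) * nn (γ z) ^ (n * n) / nn (G z) ^ (n + n) ≤
      normSq (W 0) * nn (γ 0) ^ (n * n) / nn (G 0) ^ (n + n)) : False := by
  set α : ℂ → ℝ := fun z => nn (crs (γ 0) (γ z)) / normSq (hm (γ z) (γ 0)) with hα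
  set β : ℂ → ℝ := fun z => nn (crs (G 0) (G z)) / normSq (hm (G z) (G 0)) with hβ
  have p0 := nn_pos γ0
  have g0 := nn_pos G0
  have n0 : n ≠ 0 := by
    rintro rfl
    have := div_nonneg (nn_nonneg (crs (G 0) G')) (sq_nonneg (nn (G 0)))
    simp only [Nat.cast_zero, zero_mul] at hn
    linarith
  have l1 := ((ang_lim hG G0).const_mul 3).eventually_lt ((ang_lim hγ γ0).const_mul (n : ℝ)) hn
  have l2 : Tendsto β (𝓝[≠] 0) (𝓝 0) := by
    have a : Tendsto (fun z : ℂ => normSq z) (𝓝[≠] 0) (𝓝 0) := by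
      simpa using (continuous_normSq.tendsto 0).mono_left nhdsWithin_le_nhds
    have := (ang_lim hG G0).mul a
    rw [mul_zero] at this
    refine this.congr' ?_
    filter_upwards [self_mem_nhdsWithin] with z hz
    exact div_mul_cancel₀ _ (normSq_pos.2 hz).ne'
  have ne : ∀ {c : ℂ → E} {c' : E}, HasDerivAt c c' 0 → c 0 ≠ 0 →
      ∀ᶠ z in 𝓝 0, hm (c z) (c 0) ≠ 0 := fun hc h0 =>
    (continuousAt_hm hc.continuousAt continuousAt_const).eventually_ne (by
      rw [hm_self]; exact_mod_cast (nn_pos h0).ne')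
  set φ : ℂ → ℂ := fun z => W z * hm (γ z) (γ 0) ^ (n * n) / hm (G z) (G 0) ^ (n + n) with hφ
  have dφ : ∀ᶠ z in 𝓝 0, DifferentiableAt ℂ φ z := by
    filter_upwards [dγ, dG, dW, ne hG G0] with z a b c d
    exact (c.mul ((hasDerivAt_hm_left _ a.hasDerivAt).differentiableAt.pow _)).div
      ((hasDerivAt_hm_left _ b.hasDerivAt).differentiableAt.pow _) (pow_ne_zero _ d)
  have φ0 : 0 < normSq (φ 0) := normSq_pos.2 (div_ne_zero (mul_ne_zero W0
    (pow_ne_zero _ (ne hγ γ0).self_of_nhds)) (pow_ne_zero _ (ne hG G0).self_of_nhds))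
  have lt : ∀ᶠ z in 𝓝[≠] 0, normSq (φ z) < normSq (φ 0) := by
    filter_upwards [l1, l2.eventually (gt_mem_nhds one_pos), self_mem_nhdsWithin,
      nhdsWithin_le_nhds hmax, nhdsWithin_le_nhds (ne hγ γ0), nhdsWithin_le_nhds (ne hG G0)]
      with z a b c d e f
    have z0 := normSq_pos.2 c
    have A0 := normSq_pos.2 e
    have B0 := normSq_pos.2 f
    have a0 : 0 ≤ α z := div_nonneg (nn_nonneg _) A0.le
    have b0 : 0 ≤ β z := div_nonneg (nn_nonneg _) B0.le
    have i1 : 3 * β z < n * α z := by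
      refine (div_lt_div_iff_of_pos_right z0).1 ?_
      rw [mul_div_assoc, mul_div_assoc]
      exact a
    have i2 : (1 + β z) ^ (n + n) < (1 + α z) ^ (n * n) := by
      rw [← two_mul, pow_mul, pow_mul]
      refine pow_lt_pow_left₀ ?_ (by positivity) n0
      have := one_add_mul_le_pow (show -2 ≤ α z by linarith) n
      nlinarith
    have e1 : nn (γ z) = normSq (hm (γ z) (γ 0)) * (1 + α z) / nn (γ 0) := by
      simp only [hα, lagr]; field_simp; ring
    have e2 : nn (G z) = normSq (hm (G z) (G 0)) * (1 + β z) / nn (G 0) := by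
      simp only [hβ, lagr]; field_simp; ring
    have e3 : normSq (W z) * nn (γ z) ^ (n * n) / nn (G z) ^ (n + n) = normSq (φ z) *
        (1 + α z) ^ (n * n) / (1 + β z) ^ (n + n) * (nn (G 0) ^ (n + n) / nn (γ 0) ^ (n * n)) := by
      rw [e1, e2]
      simp only [hφ, map_div₀, map_mul, map_pow, div_pow, mul_pow]
      field_simp
    have e4 : normSq (W 0) * nn (γ 0) ^ (n * n) / nn (G 0) ^ (n + n) = normSq (φ 0) *
        (nn (G 0) ^ (n + n) / nn (γ 0) ^ (n * n)) := by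
      simp only [hφ, map_div₀, map_mul, map_pow, hm_self, normSq_ofReal, mul_pow]
      field_simp
    rw [e3, e4, mul_le_mul_iff_left₀ (by positivity), div_le_iff₀ (by positivity)] at d
    exact lt_of_mul_lt_mul_right (d.trans_lt (mul_lt_mul_of_pos_left i2 φ0)) (by positivity)
  have mx : IsLocalMax (norm ∘ φ) 0 := by
    rw [eventually_nhdsWithin_iff] at lt
    filter_upwards [lt] with z hz
    by_cases h : z = 0
    · rw [h]
    · have := hz h
      rw [normSq_eq_norm_sq, normSq_eq_norm_sq] at this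
      exact (pow_lt_pow_iff_left₀ (norm_nonneg _) (norm_nonneg _) two_ne_zero).1 this |>.le
  obtain ⟨z, h1, h2⟩ := (lt.and (nhdsWithin_le_nhds (eventually_eq_of_isLocalMax_norm dφ mx))).exists
  rw [show φ z = φ 0 from h2] at h1
  exact lt_irrefl _ h1

lemma Sm.wn (hS : LF S) {f g : E → ℂ} (h : Sm S q f) (h' : Sm S q g) (ξ : E) (n : ℕ) :
    Sm S q fun x => MvPolynomial.eval ξ (Wn n (Ty S f x) (Ty S g x)) := by
  have a : ∀ {f : E → ℂ}, Sm S q f → ∀ k m,
      Sm S q fun x => MvPolynomial.eval ξ (coeff k (X ^ m * Ty S f x)) := fun h k m => by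
    simp only [coeff_X_pow_mul', Ty, coeff_mk]
    split_ifs
    · simpa using (Sm.const _).mul (h.pj hS ξ (k - m))
    · simpa using Sm.const 0
  have b : ∀ k c, Sm S q fun x =>
      MvPolynomial.eval ξ (coeff k (col n (Ty S f x) (Ty S g x) c)) := fun k c => by
    induction c using Fin.addCases with
    | left i => simpa only [col, Fin.addCases_left] using a h k i
    | right i => simpa only [col, Fin.addCases_right] using a h' k i
  simp only [Wn, Wr, Matrix.det_apply', map_sum, map_mul, map_prod, Matrix.of_apply]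
  have c : ∀ᶠ x in 𝓝[S] q, ∀ k c : Fin (n + n), ContDiffWithinAt ℂ ∞ (fun x =>
      MvPolynomial.eval ξ (coeff k (col n (Ty S f x) (Ty S g x) c))) S x :=
    eventually_all.2 fun k => eventually_all.2 fun c => b k c
  filter_upwards [c] with x hx
  exact ContDiffWithinAt.sum fun σ _ => contDiffWithinAt_const.mul
    (contDiffWithinAt_prod fun i _ => hx _ _)

/-- the Gauss map as a vector -/
noncomputable def gv (S : Set E) (j : Fin 3) (p : E) : E := fun i => gs S j i p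

lemma gv_one {j : Fin 3} (hj : Ch S j q) : 1 ≤ nn (gv S j q) := by
  have a := norm_le_pi_norm (gv S j q) j
  rw [gv, gs_self hj, norm_one] at a
  nlinarith [sq_norm_le_nn (gv S j q)]

lemma cn_dot {j : Fin 3} (hj : Ch S j q) (v : E) :
    cn S q v = cn S q (Pi.single j 1) * dot (gv S j q) v := by
  rw [← dot_vecf, ← dot_smul_left]
  congr 1
  funext i
  simp only [vecf, gv, gs, Pi.smul_apply, smul_eq_mul]
  rw [mul_div_cancel₀ _ hj]

lemma LFs.ty_trans (hS : LFs S) (hq : q ∈ S) {j j' : Fin 3} (hj : Ch S j q) (hj' : Ch S j' q)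
    (i : Fin 3) : Ty S (gs S j' i) q = Ty S (gs S j' j) q * Ty S (gs S j i) q := by
  rw [← Ty_mul hS.toLF hq ((hS.gsm hq hj').2 j) ((hS.gsm hq hj).2 i)]
  exact Ty_congr hq ((hS.gsm hq hj).1.mono fun x hx => gs_trans hx i)

lemma LFs.bound (hS : LFs S) : ∃ C : ℝ, ∀ q ∈ {x ∈ S | nn x = 1}, ∃ j, Ch S j q ∧
    ∀ i, ‖fderivWithin ℂ (gs S j i) S q‖ ≤ C := by
  refine hS.toLF.compact.induction_on (p := fun s => ∃ C : ℝ, ∀ q ∈ s, ∃ j, Ch S j q ∧
    ∀ i, ‖fderivWithin ℂ (gs S j i) S q‖ ≤ C) ⟨0, by simp⟩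
    (fun s t h ⟨C, hC⟩ => ⟨C, fun q hq => hC q (h hq)⟩) ?_ ?_
  · rintro s t ⟨C, hC⟩ ⟨D, hD⟩
    refine ⟨max C D, fun q hq => ?_⟩
    rcases hq with hq | hq
    · exact (hC q hq).imp fun j h => ⟨h.1, fun i => (h.2 i).trans (le_max_left _ _)⟩
    · exact (hD q hq).imp fun j h => ⟨h.1, fun i => (h.2 i).trans (le_max_right _ _)⟩
  · intro x hx
    obtain ⟨j, hj⟩ := hS.toLF.ch hx.1
    have a : ∀ i, ∀ᶠ y in 𝓝[S] x, ‖fderivWithin ℂ (gs S j i) S y‖ <
        ‖fun i => fderivWithin ℂ (gs S j i) S x‖ + 1 := fun i =>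
      ((((hS.gsm hx.1 hj).2 i).self hx.1).fderivWithin_right (m := 0) hS.toLF.uq (by simp)
        hx.1).continuousWithinAt.norm.eventually (gt_mem_nhds (lt_add_one _ |>.trans_le' <|
          norm_le_pi_norm (fun i => fderivWithin ℂ (gs S j i) S x) i))
    exact ⟨_, nhdsWithin_mono _ (sep_subset _ _) ((hS.gsm hx.1 hj).1.and (eventually_all.2 a)),
      _, fun y hy => ⟨j, hy.1, fun i => (hy.2 i).le⟩⟩

/-- a holomorphic disc in `S` with given complex tangent direction -/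
lemma LF.disc (hS : LF S) (hq : q ∈ S) {e : E} (he : cn S q e = 0) :
    ∃ γ : ℂ → E, γ 0 = q ∧ HasDerivAt γ e 0 ∧ ∀ᶠ z in 𝓝 0, γ z ∈ S ∧ DifferentiableAt ℂ γ z := by
  obtain ⟨U, r, hU, h⟩ := hS.loc q hq
  obtain ⟨c, c0, hc⟩ := hS.con hq U r h hU
  obtain ⟨v, hv⟩ := exists_cf_one (h.ne q hU hq)
  obtain ⟨R, L, a, Da, A⟩ := exists_locA h hU e (v := v) (by simp [hv])
  have R0 := A.R0
  have L0 := A.L0
  obtain ⟨W, W0, hW⟩ := A.leaf h (ρ := R / 2 / (‖e‖ + L * ‖v‖ + 1)) (by positivity) (by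
    rw [div_mul_eq_mul_div, div_le_iff₀ (by positivity)]; nlinarith) hq
    (Metric.mem_ball_self (by positivity))
  have d : ∀ z ∈ Metric.ball (0 : ℂ) (R / 2 / (‖e‖ + L * ‖v‖ + 1)), HasDerivAt
      (fun z => q + z • e + W z • v) (e + a (q + z • e + W z • v) • v) z := fun z hz => by
    simpa using (((hasDerivAt_id z).smul_const e).const_add q).fun_add
      ((hW z hz).2.2.2.smul_const v)
  have a0 : a q = 0 := by
    have := A.eq q (Metric.mem_ball_self R0)
    rw [hc, mul_eq_zero] at he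
    simpa [hv, he.resolve_left (by exact_mod_cast c0)] using this
  refine ⟨fun z => q + z • e + W z • v, by simp [W0], ?_, ?_⟩
  · simpa [W0, a0] using d 0 (Metric.mem_ball_self (by positivity))
  · filter_upwards [Metric.ball_mem_nhds (0 : ℂ)
      (show 0 < R / 2 / (‖e‖ + L * ‖v‖ + 1) by positivity)] with z hz
    exact ⟨(hW z hz).1, (d z hz).differentiableAt⟩

theorem LFs.vanish (hS : LFs S) : ∃ n0 : ℕ, ∀ n, n0 ≤ n → ∀ i l j, ∀ q ∈ S, Ch S j q →
    Wn n (Ty S (gs S j i) q) (Ty S (gs S j l) q) = 0 := by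
  obtain ⟨C, hC⟩ := hS.bound
  obtain ⟨n0, hn0⟩ := exists_nat_gt (9 * C ^ 2)
  refine ⟨n0, fun n hn i l j q hq hj => MvPolynomial.funext fun ξ => ?_⟩
  have hL := hS.toLF
  set w : Fin 3 → E → ℂ := fun j x => MvPolynomial.eval ξ
    (Wn n (Ty S (gs S j i) x) (Ty S (gs S j l) x)) with hw
  set F : Fin 3 → E → ℝ := fun j x => normSq (w j x) * nn x ^ (n * n) / nn (gv S j x) ^ (n + n)
    with hF
  have sw : ∀ j, ∀ x ∈ S, Ch S j x → Sm S x (w j) := fun j x hx h =>
    ((hS.gsm hx h).2 i).wn hL ((hS.gsm hx h).2 l) ξ n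
  have tr : ∀ j j', ∀ x ∈ S, Ch S j x → Ch S j' x → F j' x = F j x := by
    intro j j' x hx h h'
    have u0 : 0 < normSq (gs S j' j x) := normSq_pos.2 (div_ne_zero h h')
    have e : gv S j' x = gs S j' j x • gv S j x := funext fun i => gs_trans h i
    have := gv_one h
    simp only [hF, hw, hS.ty_trans hx h h' i, hS.ty_trans hx h h' l, Wn_mul, Ty_zero, map_mul,
      map_pow, MvPolynomial.eval_C, e, nn_smul, mul_pow]
    field_simp
  have sc : ∀ j, ∀ x ∈ S, Ch S j x → ∀ t : ℂ, t ≠ 0 → F j (t • x) = F j x := by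
    intro j x hx h t ht
    have e : ∀ i, Ty S (gs S j i) x =
        rescale (MvPolynomial.C t) (Ty S (gs S j i) (t • x)) := fun i => by
      rw [← Ty_scale hL hx ht ((hS.gsm (hL.cone x hx t ht) ((hL.ch_scale hx ht).2 h)).2 i)]
      exact Ty_congr hx (eventually_mem_nhdsWithin.mono fun y hy => (hL.gs_scale hy ht j i).symm)
    have e2 : gv S j (t • x) = gv S j x := funext fun i => hL.gs_scale hx ht j i
    simp only [hF, hw, e i, e l, Wn_rescale n (MvPolynomial.C_ne_zero.2 ht), map_mul, map_pow,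
      MvPolynomial.eval_C, e2, nn_smul, mul_pow]
    ring
  choose! jc hjc using fun x (hx : x ∈ S) => hL.ch hx
  have cg : ∀ j, ∀ x ∈ S, Ch S j x → ContinuousWithinAt (gv S j) S x := fun j x hx h =>
    continuousWithinAt_pi.2 fun i => (((hS.gsm hx h).2 i).self hx).continuousWithinAt
  have ct : ContinuousOn (fun x => F (jc x) x) {x ∈ S | nn x = 1} := by
    intro x hx
    have h := hjc x hx.1
    refine ContinuousWithinAt.mono (t := S) (ContinuousWithinAt.congr_of_eventuallyEq_of_mem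
      (f := F (jc x)) ?_ ?_ hx.1) (sep_subset _ _)
    · exact ((continuous_normSq.continuousAt.comp_continuousWithinAt
        ((sw _ x hx.1 h).self hx.1).continuousWithinAt).mul
        (nn_cd.continuous.continuousWithinAt.pow _)).div
        ((nn_cd.continuous.continuousAt.comp_continuousWithinAt (cg _ x hx.1 h)).pow _)
        (pow_ne_zero _ (by linarith [gv_one h] : nn (gv S (jc x) x) ≠ 0))
    · filter_upwards [(hS.gsm hx.1 h).1, self_mem_nhdsWithin] with y a b
      exact tr _ _ y b a (hjc y b)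
  obtain ⟨c0, -, -, k1, k2⟩ := hL.unit hq
  obtain ⟨p, hp, hmax⟩ := hL.compact.exists_isMaxOn ⟨_, k1, k2⟩ ct
  obtain ⟨m, hm, hb⟩ := hC p hp
  have mx : ∀ x ∈ S, ∀ j, Ch S j x → F j x ≤ F m p := by
    intro x hx j h
    obtain ⟨c, c0, -, k1, k2⟩ := hL.unit hx
    rw [← sc j x hx h c c0, tr _ _ _ k1 (hjc _ k1) ((hL.ch_scale hx c0).2 h),
      tr _ _ _ hp.1 (hjc _ hp.1) hm]
    exact hmax (show c • x ∈ {x ∈ S | nn x = 1} from ⟨k1, k2⟩)
  have q0 : 0 < nn q := nn_pos fun h => hL.nz (h ▸ hq)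
  by_contra hne
  have w0 : w m p ≠ 0 := by
    intro h0
    have a := mx q hq j hj
    have b : 0 < F j q := by
      have := normSq_pos.2 (show w j q ≠ 0 by simpa using hne)
      have := gv_one hj
      simp only [hF]; positivity
    simp only [hF, h0, map_zero, zero_mul, zero_div] at a b
    linarith
  set e := crs (gv S m p) (star p) with he
  have e1 : dot (gv S m p) p = 0 := by
    have := (hL.con hp.1).self hL hp.1
    rw [cn_dot hm] at this
    exact (mul_eq_zero.1 this).resolve_left hm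
  have e2 : 1 ≤ nn e := by
    rw [he, lagr, nn_star, hp.2, hm_conj, hm_eq_dot, star_star, e1]
    simpa using gv_one hm
  have e3 : nn (crs p e) = nn e := by
    rw [lagr, hm_eq_dot, he, dot_crs_right, hp.2]; simp
  obtain ⟨γ, γ0, dγ, hγ⟩ := hL.disc hp.1 (e := e) (by rw [cn_dot hm, dot_comm, he, dot_crs_left, mul_zero])
  have tγ : Tendsto γ (𝓝 0) (𝓝[S] p) :=
    tendsto_nhdsWithin_iff.2 ⟨γ0 ▸ dγ.continuousAt, hγ.mono fun _ h => h.1⟩
  have df : ∀ {f : E → ℂ}, Sm S p f → ∀ᶠ z in 𝓝 0, DifferentiableAt ℂ (fun z => f (γ z)) z := by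
    intro f hf
    filter_upwards [tγ.eventually hf.fd, hγ, hγ.eventually_nhds] with z a b c
    exact (a.comp_hasDerivAt z b.2.hasDerivAt (c.mono fun _ h => h.1)).differentiableAt
  have dG : HasDerivAt (fun z => gv S m (γ z))
      (fun i => fderivWithin ℂ (gs S m i) S p e) 0 := hasDerivAt_pi.2 fun i =>
    (((hS.gsm hp.1 hm).2 i).fd.self_of_nhdsWithin hp.1).comp_hasDerivAt_of_eq 0 dγ
      (hγ.mono fun _ h => h.1) γ0.symm
  have g1 := gv_one hm
  refine maxp (n := n) (W := fun z => w m (γ z)) (hγ.mono fun _ h => h.2)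
    ((eventually_all.2 fun i => df ((hS.gsm hp.1 hm).2 i)).mono fun z h => differentiableAt_pi.2 h)
    (df (sw m p hp.1 hm)) dγ dG (by rw [γ0]; exact fun h => hL.nz (h ▸ hp.1))
    (by rw [γ0]; intro h; rw [show gv S m p = 0 from h, nn_zero] at g1; linarith) (by rwa [γ0]) ?_ ?_
  · change 3 * (nn (crs (gv S m (γ 0)) _) / nn (gv S m (γ 0)) ^ 2) < _
    rw [γ0, e3, hp.2]
    set G' : E := fun i => fderivWithin ℂ (gs S m i) S p e with hG'
    have C0 : 0 ≤ C := (norm_nonneg _).trans (hb 0)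
    have b1 : ‖G'‖ ≤ C * ‖e‖ := (pi_norm_le_iff_of_nonneg (by positivity)).2 fun i =>
      (ContinuousLinearMap.le_opNorm _ _).trans (by gcongr; exact hb i)
    have b2 : nn G' ≤ 3 * C ^ 2 * nn e := by
      have := pow_le_pow_left₀ (norm_nonneg _) b1 2
      nlinarith [nn_le G', sq_norm_le_nn e, sq_nonneg C]
    have b3 : nn (crs (gv S m p) G') / nn (gv S m p) ^ 2 ≤ nn G' := by
      rw [div_le_iff₀ (by positivity)]
      have := nn_crs_le (gv S m p) G'
      have := mul_nonneg (nn_nonneg G') (nn_nonneg (gv S m p))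
      nlinarith
    have b4 : (n0 : ℝ) ≤ n := by exact_mod_cast hn
    nlinarith
  · filter_upwards [tγ.eventually (hS.gsm hp.1 hm).1, hγ] with z a b
    rw [γ0]
    exact mx _ b.1 m a

end Pool.Agent.Lib.MP_4e4ac8_an
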