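import Pool.Agent.Lib.MP_4e4ac8_an.GAlg

/-!
Descent of divisibility from Taylor series to polynomials, and homogeneous components.
-/

set_option autoImplicit false
open PowerSeries
open MvPolynomial (homogeneousComponent eval)

namespace Pool.Agent.Lib.MP_4e4ac8_an

lemma exists_comp {B : Pol} (h : B ≠ 0) : ∃ k ≤ B.totalDegree, homogeneousComponent k B ≠ 0 := by
  by_contra hc
  push Not at hc
  apply h
  rw [← MvPolynomial.sum_homogeneousComponent B]
  exact Finset.sum_eq_zero fun k hk => hc k (Nat.lt_succ_iff.1 (Finset.mem_range.1 hk))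

lemma comp_rel (x : Fin 3 → ℂ) (c : ℂ) {A B : Pol}
    (h : ∀ t : ℂ, t ≠ 0 → eval (t • x) A = c * eval (t • x) B) (k : ℕ) :
    eval x (homogeneousComponent k A) = c * eval x (homogeneousComponent k B) := by
  let φ : Pol →ₐ[ℂ] Polynomial ℂ := MvPolynomial.aeval fun i => Polynomial.C (x i) * Polynomial.X
  have e1 : ∀ B k, (φ B).coeff k = eval x (homogeneousComponent k B) := fun B k => by
    have : (φ B : ℂ⟦X⟧) = PowerSeries.map (eval x) (sb 0 B) := by
      induction B using MvPolynomial.induction_on with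
      | C c => simp [φ, sb, PowerSeries.algebraMap_apply]
      | add p q hp hq => simp [hp, hq]
      | mul_X p i hp =>
        simp only [map_mul, Polynomial.coe_mul, hp]
        congr 1
        simp [φ, sb]
        ring
    rw [← Polynomial.coeff_coe, this, coeff_map, coeff_sb0]
  have e2 : ∀ B t, (φ B).eval t = eval (t • x) B := fun B t => by
    induction B using MvPolynomial.induction_on with
    | C c => simp [φ]
    | add p q hp hq => simp [hp, hq]
    | mul_X p i hp =>
      simp only [map_mul, Polynomial.eval_mul, hp]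
      congr 1
      simp [φ]
      ring
  have z : φ A - Polynomial.C c * φ B = 0 := Polynomial.eq_zero_of_infinite_isRoot _
    ((Set.finite_singleton (0 : ℂ)).infinite_compl.mono fun t ht => by
      simp [e2, h t ht])
  have := congrArg (fun p => Polynomial.coeff p k) z
  simpa [e1, sub_eq_zero] using this

lemma exists_prime_root (x : Fin 3 → ℂ) (a : Pol) :
    a ≠ 0 → eval x a = 0 → ∃ p, Prime p ∧ p ∣ a ∧ eval x p = 0 := by
  induction a using UniqueFactorizationMonoid.induction_on_prime with
  | h₁ => exact fun h => absurd rfl h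
  | h₂ u hu => exact fun _ h => absurd h (hu.map (eval x)).ne_zero
  | h₃ a p a0 hp ih =>
    intro _ h
    rw [map_mul, mul_eq_zero] at h
    rcases h with h | h
    · exact ⟨p, hp, dvd_mul_right _ _, h⟩
    · obtain ⟨p', h1, h2, h3⟩ := ih a0 h
      exact ⟨p', h1, h2.mul_left _, h3⟩

/-- divisibility of Taylor series descends to polynomials up to a factor not vanishing at `x` -/
lemma descend (x : Fin 3 → ℂ) {A B : Pol} {G : Pol⟦X⟧} (hG : Hg G) (h : sb x A = G * sb x B) :
    ∃ u, eval x u = 1 ∧ B ∣ u * A := by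
  set I : Ideal Pol := Ideal.span (Set.range fun i => MvPolynomial.X i + MvPolynomial.C ((-x) i))
    with hI
  have m1 : ∀ (N : ℕ) (D : Pol), X ^ N ∣ sb x D → D ∈ I ^ N := by
    intro N D hD
    rw [← tr_tr x D, ← MvPolynomial.sum_homogeneousComponent (tr x D), map_sum]
    refine Ideal.sum_mem _ fun k _ => ?_
    by_cases hk : k < N
    · rw [← coeff_sb0, sb_tr, zero_add, X_pow_dvd_iff.1 hD k hk, map_zero]
      exact zero_mem _
    · refine Ideal.pow_le_pow_right (not_lt.1 hk)
        ((Ideal.mem_span_pow_iff_exists_isHomogeneous _ _).2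
          ⟨MvPolynomial.map MvPolynomial.C (homogeneousComponent k (tr x D)),
            (MvPolynomial.homogeneousComponent_isHomogeneous k _).map _, ?_⟩)
      rw [MvPolynomial.eval_map]
      rfl
  have m2 : ∀ N : ℕ, ∃ D : Pol, X ^ N ∣ sb x D - G := fun N => by
    refine ⟨tr (-x) (∑ k ∈ Finset.range N, coeff k G), X_pow_dvd_iff.2 fun k hk => ?_⟩
    rw [sb_tr, add_neg_cancel, map_sub, coeff_sb0, map_sum]
    simp [MvPolynomial.homogeneousComponent_of_mem (hG _), hk]
  have sm : ∀ a b : Pol, a • Ideal.Quotient.mk (Ideal.span {B}) b =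
      Ideal.Quotient.mk (Ideal.span {B}) (a * b) := fun _ _ => rfl
  obtain ⟨ρ, hρ⟩ := (I.mem_iInf_smul_pow_eq_bot_iff
    (M := Pol ⧸ Ideal.span {B}) (Ideal.Quotient.mk _ A)).1 ((Submodule.mem_iInf _).2 fun N => by
      obtain ⟨D, hD⟩ := m2 N
      have a : A - D * B ∈ I ^ N := m1 N _ (by
        rw [map_sub, map_mul, h, ← sub_mul]
        exact (dvd_sub_comm.1 hD).mul_right _)
      have b : Ideal.Quotient.mk (Ideal.span {B}) A =
          (A - D * B) • Ideal.Quotient.mk (Ideal.span {B}) 1 := by
        rw [sm, mul_one, Ideal.Quotient.eq]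
        simpa using Ideal.mul_mem_left _ D (Ideal.mem_span_singleton_self B)
      rw [b]
      exact Submodule.smul_mem_smul a Submodule.mem_top)
  have k : I ≤ RingHom.ker (eval x) := Ideal.span_le.2 (by rintro _ ⟨i, rfl⟩; simp)
  refine ⟨1 - ρ, by rw [map_sub, map_one, RingHom.mem_ker.1 (k ρ.2), sub_zero], ?_⟩
  rw [sm, eq_comm, Ideal.Quotient.eq, Ideal.mem_span_singleton] at hρ
  convert hρ using 1
  ring

end Pool.Agent.Lib.MP_4e4ac8_an
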