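import Pool.Agent.Lib.MP_4e4ac8_an.Frankel

/-!
Two closed Levi-flat cones meet (the proof in `Frankel.lean`, written for two sets).
-/

set_option autoImplicit false
open Filter Topology Complex Asymptotics ComplexConjugate

namespace Pool.Agent.Lib.MP_4e4ac8_an

variable {S U : Set E} {r : E → ℝ}

/-- second order condition at a minimum of `Φ` on `S × S'` -/
lemma two_point' {S' U' : Set E} {r' : E → ℝ} (h : LocDef S U r) (h' : LocDef S' U' r') {p q : E}
    (hp : p ∈ U) (hpS : p ∈ S) (hq : q ∈ U') (hqS : q ∈ S') {Φ : E × E → ℝ}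
    (hΦ : ContDiff ℝ 1 Φ) (h0 : Φ (p, q) = 0) (hmin : ∀ x ∈ S, ∀ y ∈ S', 0 ≤ Φ (x, y))
    {ξ η w w' : E} {a a' κ : ℝ} (ha : a ≠ 0) (ha' : a' ≠ 0) (hκ : 0 < κ)
    (d1 : HasDerivAt (fun t : ℝ => Φ (p + t • w, q)) a 0)
    (d2 : HasDerivAt (fun t : ℝ => Φ (p + t • ξ, q)) 0 0)
    (d3 : HasDerivAt (fun t : ℝ => Φ (p + t • I • ξ, q)) 0 0)
    (d4 : HasDerivAt (fun t : ℝ => Φ (p, q + t • w')) a' 0)
    (d5 : HasDerivAt (fun t : ℝ => Φ (p, q + t • η)) 0 0)
    (d6 : HasDerivAt (fun t : ℝ => Φ (p, q + t • I • η)) 0 0)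
    (n1 : ∀ t : ℝ, Φ (p + t • ξ, q + t • η) ≤ -(κ * t ^ 2))
    (n2 : ∀ t : ℝ, Φ (p + t • I • ξ, q + t • I • η) ≤ -(κ * t ^ 2)) : False := by
  have hs : HasStrictFDerivAt Φ (fderiv ℝ Φ (p, q)) (p, q) :=
    hΦ.contDiffAt.hasStrictFDerivAt one_ne_zero
  set Φ' := fderiv ℝ Φ (p, q) with hΦ'
  have s1 : HasStrictFDerivAt (fun x => Φ (x, q)) (Φ'.comp (ContinuousLinearMap.inl ℝ E E)) p :=
    HasStrictFDerivAt.comp (f := fun x => (x, q)) p hs
      ((hasStrictFDerivAt_id p).prodMk (hasStrictFDerivAt_const q p))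
  have s2 : HasStrictFDerivAt (fun y => Φ (p, y)) (Φ'.comp (ContinuousLinearMap.inr ℝ E E)) q :=
    HasStrictFDerivAt.comp (f := fun y => (p, y)) q hs
      ((hasStrictFDerivAt_const p q).prodMk (hasStrictFDerivAt_id q))
  obtain ⟨l1, hl1⟩ := h.lagrange hp hpS s1 (Eventually.of_forall fun y hy => by
    rw [h0]; exact hmin y hy q hqS)
  obtain ⟨l2, hl2⟩ := h'.lagrange hq hqS s2 (Eventually.of_forall fun y hy => by
    rw [h0]; exact hmin p hpS y hy)
  have hl : ∀ (p v : E), HasDerivAt (fun t : ℝ => p + t • v) v 0 := fun p v => by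
    simpa using ((hasDerivAt_id (0 : ℝ)).smul_const v).const_add p
  have u1 : ∀ v b, HasDerivAt (fun t : ℝ => Φ (p + t • v, q)) b 0 → b = l1 * fderiv ℝ r p v := by
    intro v b hb
    have a : HasFDerivAt (fun x => Φ (x, q)) (l1 • fderiv ℝ r p) (p + (0 : ℝ) • v) := by
      simpa [hl1] using s1.hasFDerivAt
    have c := a.comp_hasDerivAt 0 (hl p v)
    simpa using c.unique hb |>.symm
  have u2 : ∀ v b, HasDerivAt (fun t : ℝ => Φ (p, q + t • v)) b 0 → b = l2 * fderiv ℝ r' q v := by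
    intro v b hb
    have a : HasFDerivAt (fun y => Φ (p, y)) (l2 • fderiv ℝ r' q) (q + (0 : ℝ) • v) := by
      simpa [hl2] using s2.hasFDerivAt
    have c := a.comp_hasDerivAt 0 (hl q v)
    simpa using c.unique hb |>.symm
  have z1 : l1 ≠ 0 := by
    rintro rfl; exact ha (by simpa using u1 _ _ d1)
  have z2 : l2 ≠ 0 := by
    rintro rfl; exact ha' (by simpa using u2 _ _ d4)
  have t1 : fderiv ℝ r p ξ = 0 := by simpa [z1] using u1 _ _ d2
  have t2 : fderiv ℝ r p (I • ξ) = 0 := by simpa [z1] using u1 _ _ d3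
  have t3 : fderiv ℝ r' q η = 0 := by simpa [z2] using u2 _ _ d5
  have t4 : fderiv ℝ r' q (I • η) = 0 := by simpa [z2] using u2 _ _ d6
  let Ψ : E × E → ℝ := fun z => Φ z - l1 * r z.1 - l2 * r' z.2
  have sΨ : HasStrictFDerivAt Ψ (0 : E × E →L[ℝ] ℝ) (p, q) := by
    have a1 := (HasStrictFDerivAt.comp (f := Prod.fst) (p, q)
      ((h.cd hp).hasStrictFDerivAt (by norm_num)) hasStrictFDerivAt_fst).const_mul l1
    have a2 := (HasStrictFDerivAt.comp (f := Prod.snd) (p, q)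
      ((h'.cd hq).hasStrictFDerivAt (by norm_num)) hasStrictFDerivAt_snd).const_mul l2
    have a3 := (hs.sub a1).sub a2
    have e : Φ' - l1 • (fderiv ℝ r p).comp (ContinuousLinearMap.fst ℝ E E) -
        l2 • (fderiv ℝ r' q).comp (ContinuousLinearMap.snd ℝ E E) = 0 := by
      refine ContinuousLinearMap.ext fun z => ?_
      have b1 := congrArg (fun L : E →L[ℝ] ℝ => L z.1) hl1
      have b2 := congrArg (fun L : E →L[ℝ] ℝ => L z.2) hl2
      have b3 : Φ' z = Φ' (z.1, 0) + Φ' (0, z.2) := by rw [← map_add]; simp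
      simp at b1 b2 ⊢
      rw [b3, b1, b2]; ring
    exact e ▸ a3
  have key : ∀ v v' : E, fderiv ℝ r p v = 0 → fderiv ℝ r' q v' = 0 →
      ∃ b : ℝ → ℝ, (∀ᶠ t in 𝓝 (0 : ℝ), 0 ≤ b t) ∧
        (fun t => b t - Ψ (p + t • v, q + t • v')) =o[𝓝 0] fun t : ℝ => t ^ 2 := by
    intro v v' hv hv'
    obtain ⟨x, x1, x2, x3⟩ := h.near hp hpS hv
    obtain ⟨y, y1, y2, y3⟩ := h'.near hq hqS hv'
    refine ⟨fun t => Ψ (x t, y t), ?_, ?_⟩
    · filter_upwards [x1, y1] with t a b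
      simp only [Ψ, a.2, b.2, mul_zero, sub_zero]
      exact hmin _ a.1 _ b.1
    · have tz : Tendsto (fun t : ℝ => ((x t, y t), (p + t • v, q + t • v'))) (𝓝 0)
          (𝓝 ((p, q), (p, q))) := by
        refine (x2.prodMk_nhds y2).prodMk_nhds ?_
        have : Continuous (fun t : ℝ => (p + t • v, q + t • v')) := by fun_prop
        simpa using this.tendsto 0
      have o := sΨ.isLittleO.comp_tendsto tz
      have o2 : (fun t => (x t - (p + t • v), y t - (q + t • v'))) =O[𝓝 0] fun t : ℝ => t ^ 2 :=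
        x3.prod_left y3
      exact (o.trans_isBigO o2).congr_left fun t => by simp
  obtain ⟨b1, p1, o1⟩ := key ξ η t1 t3
  obtain ⟨b2, p2, o2⟩ := key (I • ξ) (I • η) t2 t4
  have o3 := ((o1.add o2).sub ((h.second_sum hp hpS t1 t2).const_mul_left l1)).sub
    ((h'.second_sum hq hqS t3 t4).const_mul_left l2)
  have o4 := isLittleO_iff.1 o3 hκ
  have : ∀ᶠ t in 𝓝[>] (0 : ℝ), False := by
    filter_upwards [nhdsWithin_le_nhds p1, nhdsWithin_le_nhds p2, nhdsWithin_le_nhds o4,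
      self_mem_nhdsWithin] with t a1 a2 a3 a4
    have a5 : 0 < t := a4
    have m1 := n1 t
    have m2 := n2 t
    simp only [Ψ, Real.norm_eq_abs, abs_pow, sq_abs] at a3
    have a6 := (abs_le.1 a3).2
    have a7 : 0 < κ * t ^ 2 := by positivity
    linarith
  exact this.exists.elim fun _ h => h

/-- Frankel type intersection theorem for two hypersurfaces -/
theorem LF.frankel' {S' : Set E} (hS : LF S) (hT : LF S') (g g' : E →L[ℂ] E) (hg : ∀ v, g (g' v) = v)
    (hi : ∀ v, g v = 0 → v = 0) {x0 y0 : E} (hx0 : x0 ∈ S) (hy0 : y0 ∈ S')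
    (h0 : hm x0 (g y0) ≠ 0) : ∃ y ∈ S', g y ∈ S := by
  have gpos : ∀ y ∈ S', 0 < nn (g y) := fun y hy => nn_pos fun h => hT.nz (hi y h ▸ hy)
  set K := {x ∈ S | nn x = 1} with hK
  set K' := {x ∈ S' | nn x = 1} with hK'
  have hKc : IsCompact (K ×ˢ K') := hS.compact.prod hT.compact
  obtain ⟨c0, -, -, k1, k2⟩ := hS.unit hx0
  obtain ⟨c1, -, -, k3, k4⟩ := hT.unit hy0
  let f : E × E → ℝ := fun z => normSq (hm z.1 (g z.2)) / nn (g z.2)
  have cg : ContDiff ℝ 1 (fun z : E × E => g z.2) :=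
    (g.restrictScalars ℝ).contDiff.comp contDiff_snd
  have chm : ContDiff ℝ 1 (fun z : E × E => normSq (hm z.1 (g z.2))) := by
    have := ContDiff.norm_sq ℂ (hm_cd.comp (contDiff_fst.prodMk cg))
    simpa [normSq_eq_norm_sq, Function.comp_def] using this
  have cf' : ContinuousOn f (K ×ˢ K') :=
    chm.continuous.continuousOn.div (nn_cd.comp cg).continuous.continuousOn
      fun z hz => (gpos _ hz.2.1).ne'
  obtain ⟨⟨p, q0⟩, ⟨hp, hq0⟩, hmax⟩ := hKc.exists_isMaxOn
    ⟨(c0 • x0, c1 • y0), ⟨k1, k2⟩, k3, k4⟩ cf'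
  set m := f (p, q0) with hm0
  have ineq : ∀ x ∈ S, ∀ y ∈ S', normSq (hm x (g y)) ≤ m * nn x * nn (g y) := by
    intro x hx y hy
    obtain ⟨a, a0, a1, a2, a3⟩ := hS.unit hx
    obtain ⟨b, b0, b1, b2, b3⟩ := hT.unit hy
    have := hmax (show (a • x, b • y) ∈ K ×ˢ K' from ⟨⟨a2, a3⟩, b2, b3⟩)
    change normSq (hm (a • x) (g (b • y))) / nn (g (b • y)) ≤ m at this
    rw [div_le_iff₀ (gpos _ b2), map_smul, hm_smul_left, hm_smul_right, nn_smul, normSq_mul,
      normSq_mul, normSq_conj] at this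
    have pb : 0 < normSq b := normSq_pos.2 b0
    have t1 : normSq a * normSq (hm x (g y)) ≤ m * nn (g y) := by
      have : normSq b * (normSq a * normSq (hm x (g y))) ≤ normSq b * (m * nn (g y)) := by
        linarith
      exact le_of_mul_le_mul_left this pb
    have t2 := mul_le_mul_of_nonneg_right t1 (nn_nonneg x)
    calc normSq (hm x (g y)) = normSq a * nn x * normSq (hm x (g y)) := by rw [a1, one_mul]
      _ ≤ _ := by linarith
  have mpos : 0 < m := by
    by_contra hm'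
    have a := ineq x0 hx0 y0 hy0
    have b := normSq_pos.2 h0
    have c := mul_nonneg (nn_nonneg x0) (nn_nonneg (g y0))
    nlinarith
  have gq := gpos _ hq0.1
  have hm1 : normSq (hm p (g q0)) = m * nn (g q0) := by
    rw [hm0]; simp only [f]; field_simp
  set μ := Real.sqrt m with hμ
  have μpos : 0 < μ := Real.sqrt_pos.2 mpos
  have μ2 : μ * μ = m := Real.mul_self_sqrt mpos.le
  have hne : hm p (g q0) ≠ 0 := normSq_pos.1 (by rw [hm1]; positivity)
  set c : ℂ := conj (μ / hm p (g q0)) with hc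
  have c0' : c ≠ 0 := by
    rw [hc, map_ne_zero]; exact div_ne_zero (by exact_mod_cast μpos.ne') hne
  set y := c • q0 with hy
  have hyS : y ∈ S' := hT.cone _ hq0.1 _ c0'
  set q := g y with hq
  have e1 : hm p q = μ := by
    rw [hq, hy, map_smul, hm_smul_right, hc, conj_conj, div_mul_cancel₀ _ hne]
  have e2 : nn q = 1 := by
    rw [hq, hy, map_smul, nn_smul, hc, normSq_conj, normSq_div, normSq_ofReal, hm1, μ2]
    field_simp
  have e3 : nn p = 1 := hp.2
  have e4 : hm q p = μ := by rw [hm_conj, e1, conj_ofReal]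
  have e5 : hm p p = 1 := by rw [hm_self, e3]; simp
  have e6 : hm q q = 1 := by rw [hm_self, e2]; simp
  set w := q + (-μ : ℂ) • p with hw
  set w' := p + (-μ : ℂ) • q with hw'
  have nw : nn w = 1 - μ * μ := by
    rw [hw, nn_add, e1, e2, e3]; simp; ring
  have nw' : nn w' = 1 - μ * μ := by
    rw [hw', nn_add, e4, e2, e3]; simp; ring
  by_cases hw0 : w = 0
  · refine ⟨y, hyS, ?_⟩
    have : q = (μ : ℂ) • p := by
      rw [hw, neg_smul, ← sub_eq_add_neg, sub_eq_zero] at hw0; exact hw0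
    rw [← hq, this]
    exact hS.cone _ hp.1 _ (by exact_mod_cast μpos.ne')
  exfalso
  have s0 : 0 < 1 - μ * μ := nw ▸ nn_pos hw0
  have μ1 : μ < 1 := by nlinarith
  let ξ : E := ![conj (p 1 * q 2 - p 2 * q 1), conj (p 2 * q 0 - p 0 * q 2),
    conj (p 0 * q 1 - p 1 * q 0)]
  have x1 : hm ξ p = 0 := by simp [hm, ξ]; ring
  have x2 : hm ξ q = 0 := by simp [hm, ξ]; ring
  have x3 : nn ξ = 1 - μ * μ := by
    have : hm ξ ξ = hm p p * hm q q - hm p q * hm q p := by simp [hm, ξ]; ring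
    rw [hm_self, e1, e4, e5, e6] at this
    exact_mod_cast (by rw [this]; push_cast; ring : (nn ξ : ℂ) = ((1 - μ * μ : ℝ) : ℂ))
  have x4 : hm p ξ = 0 := by rw [hm_conj, x1, map_zero]
  have x5 : hm ξ ξ = ((1 - μ * μ : ℝ) : ℂ) := by rw [hm_self, x3]
  have w1 : hm w p = 0 := by rw [hw, hm_add_left, hm_smul_left, e4, e5]; ring
  have w2 : hm w q = ((1 - μ * μ : ℝ) : ℂ) := by
    rw [hw, hm_add_left, hm_smul_left, e1, e6]; push_cast; ring
  have w3 : hm w' q = 0 := by rw [hw', hm_add_left, hm_smul_left, e1, e6]; ring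
  have w4 : hm p w' = ((1 - μ * μ : ℝ) : ℂ) := by
    rw [hw', hm_add_right, hm_smul_right, e1, e5]; simp; ring
  let Φ : E × E → ℝ := fun z => m * nn z.1 * nn (g z.2) - normSq (hm z.1 (g z.2))
  have cΦ : ContDiff ℝ 1 Φ :=
    ((contDiff_const.mul (nn_cd.comp contDiff_fst)).mul (nn_cd.comp cg)).sub chm
  have F1 : ∀ (c : ℂ) (v : E), Φ (p + c • v, y) =
      m * (1 + 2 * (c * hm v p).re + normSq c * nn v) - normSq (μ + c * hm v q) := by
    intro c v
    simp only [Φ, ← hq]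
    rw [nn_add, e2, e3, hm_add_left, hm_smul_left, e1, mul_one]
  have F2 : ∀ (c : ℂ) (v : E), Φ (p, y + c • g' v) =
      m * (1 + 2 * (c * hm v q).re + normSq c * nn v) - normSq (μ + conj c * hm p v) := by
    intro c v
    simp only [Φ, map_add, map_smul, hg, ← hq]
    rw [nn_add, e2, e3, hm_add_right, hm_smul_right, e1, mul_one]
  have F3 : ∀ c : ℂ, Φ (p + c • ξ, y + c • g' ξ) ≤ -((1 - μ) * (1 - μ * μ) * μ * normSq c) := by
    intro c
    simp only [Φ, map_add, map_smul, hg, ← hq]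
    rw [nn_add, nn_add, e2, e3, hm_add_right, hm_smul_right, hm_add_left, hm_add_left,
      hm_smul_left, hm_smul_left, e1, x1, x2, x3, x4, x5]
    have a : (μ : ℂ) + c * 0 + conj c * (0 + c * ((1 - μ * μ : ℝ) : ℂ)) =
        ((μ + normSq c * (1 - μ * μ) : ℝ) : ℂ) := by
      rw [ofReal_add, ofReal_mul, normSq_eq_conj_mul_self]; ring
    rw [a, normSq_ofReal, ← μ2]
    simp only [mul_zero, zero_re, add_zero]
    have b := mul_nonneg (normSq_nonneg c) s0.le
    set u := normSq c * (1 - μ * μ) with hu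
    have : (1 - μ) * (1 - μ * μ) * μ * normSq c = (1 - μ) * μ * u := by rw [hu]; ring
    rw [this]
    have b1 : 0 ≤ (1 - μ) * μ * u := by have : 0 < 1 - μ := by linarith
                                        positivity
    have b2 : 0 ≤ (1 - μ * μ) * (u * u) := by positivity
    nlinarith
  obtain ⟨U1, r1, hU1, h1⟩ := hS.loc p hp.1
  obtain ⟨U2, r2, hU2, h2⟩ := hT.loc y hyS
  have rs : ∀ (t : ℝ) (v : E), t • v = (t : ℂ) • v := fun t v => (Complex.coe_smul t v).symm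
  have rs' : ∀ (t : ℝ) (v : E), t • I • v = ((t : ℂ) * I) • v := fun t v => by rw [rs, smul_smul]
  refine two_point' h1 h2 hU1 hp.1 hU2 hyS cΦ ?_ ?_ (ξ := ξ) (η := g' ξ) (w := w) (w' := g' w')
    (a := -(2 * μ * (1 - μ * μ))) (a' := -(2 * μ * (1 - μ * μ)))
    (κ := (1 - μ) * (1 - μ * μ) * μ) (by apply ne_of_lt; nlinarith) (by apply ne_of_lt; nlinarith)
    (by have : 0 < 1 - μ := by linarith
        positivity) ?_ ?_ ?_ ?_ ?_ ?_ ?_ ?_
  · simp only [Φ, ← hq]; rw [e1, e2, e3, normSq_ofReal, μ2]; ring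
  · intro a ha b hb
    have := ineq a ha b hb
    simp only [Φ]; linarith
  · refine quad_deriv 0 _ (m * (1 - μ * μ) - (1 - μ * μ) ^ 2) fun t => ?_
    rw [rs, F1, w1, w2, nw, ← ofReal_mul, ← ofReal_add, normSq_ofReal, normSq_ofReal, ← μ2]
    simp; ring
  · refine quad_deriv 0 _ (m * (1 - μ * μ)) fun t => ?_
    rw [rs, F1, x1, x2, x3, ← μ2]; simp; ring
  · refine quad_deriv 0 _ (m * (1 - μ * μ)) fun t => ?_
    rw [rs', F1, x1, x2, x3, ← μ2]; simp; ring
  · refine quad_deriv 0 _ (m * (1 - μ * μ) - (1 - μ * μ) ^ 2) fun t => ?_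
    rw [rs, F2, w3, w4, nw', conj_ofReal, ← ofReal_mul, ← ofReal_add, normSq_ofReal, normSq_ofReal,
      ← μ2]
    simp; ring
  · refine quad_deriv 0 _ (m * (1 - μ * μ)) fun t => ?_
    rw [rs, F2, x4, x2, x3, ← μ2]; simp; ring
  · refine quad_deriv 0 _ (m * (1 - μ * μ)) fun t => ?_
    rw [rs', F2, x4, x2, x3, ← μ2]; simp; ring
  · intro t
    have := F3 t
    rw [rs, rs]; simpa [pow_two] using this
  · intro t
    have := F3 (t * I)
    rw [rs', rs']; simpa [pow_two] using this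

end Pool.Agent.Lib.MP_4e4ac8_an
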