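import Mathlib

/-!
A family of subspaces cut out by linear forms which are stationary on it is locally constant.
-/

set_option autoImplicit false
open Filter Topology Set Asymptotics

namespace Pool.Agent.Lib.MP_4e4ac8_an

variable {Y V : Type} [NormedAddCommGroup Y] [NormedSpace ℝ Y] [AddCommGroup V] [Module ℂ V]

/-- the common kernel of a family of linear forms at the parameter `t` -/
def Zk (L : Set (Y → V →ₗ[ℂ] ℂ)) (t : Y) : Set V := {v | ∀ l ∈ L, l t v = 0}

/-- combinations of the first `N` basis vectors -/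
noncomputable def emb (b : Module.Basis ℕ ℂ V) (N : ℕ) : (Fin N → ℂ) →ₗ[ℂ] V :=
  Fintype.linearCombination ℂ fun k => b k

lemma emb_apply (b : Module.Basis ℕ ℂ V) (N : ℕ) (u : Fin N → ℂ) :
    emb b N u = ∑ k, u k • b k := Fintype.linearCombination_apply _ _ _

lemma emb_surj (b : Module.Basis ℕ ℂ V) (v : V) : ∃ N u, emb b N u = v := by
  obtain ⟨N, hN⟩ := (b.repr v).support.exists_nat_subset_range
  refine ⟨N, fun k => b.repr v k, ?_⟩
  rw [emb_apply, Fin.sum_univ_eq_sum_range (fun k => b.repr v k • b k) N]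
  conv_rhs => rw [← b.linearCombination_repr v, Finsupp.linearCombination_apply,
    Finsupp.sum_of_support_subset _ hN _ (by simp)]

lemma emb_ne (b : Module.Basis ℕ ℂ V) {N : ℕ} (u : Fin N → ℂ) : emb b N u + b N ≠ 0 := by
  intro h
  have := congrArg (fun v => b.repr v N) h
  simp [emb_apply, Nat.ne_of_lt (Fin.is_lt _)] at this

/-- the hypothesis on a linear form -/
def Stat (L : Set (Y → V →ₗ[ℂ] ℂ)) (Ω : Set Y) (l : Y → V →ₗ[ℂ] ℂ) : Prop :=
  ∀ v, ∀ t ∈ Ω, ContinuousAt (fun s => l s v) t ∧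
    (v ∈ Zk L t → l t v = 0 ∧ HasFDerivAt (fun s => l s v) (0 : Y →L[ℝ] ℂ) t)

lemma quant (b : Module.Basis ℕ ℂ V) {L : Set (Y → V →ₗ[ℂ] ℂ)} {Ω : Set Y}
    (hd : ∀ l ∈ L, Stat L Ω l) {t : Y} (ht : t ∈ Ω) {N : ℕ}
    (h : ∀ u, emb b N u ∈ Zk L t → u = 0) : ∃ M : Fin N → Y → V →ₗ[ℂ] ℂ, (∀ k, Stat L Ω (M k)) ∧
      ∀ᶠ s in 𝓝 t, ∀ u, ‖u‖ ≤ 2 * ‖fun k => M k s (emb b N u)‖ := by
  have sp : ∀ l ∈ Submodule.span ℂ L, Stat L Ω l := by
    intro l hl
    induction hl using Submodule.span_induction with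
    | mem l hl => exact hd l hl
    | zero => exact fun v t _ => ⟨continuousAt_const, fun _ => ⟨rfl, hasFDerivAt_const _ _⟩⟩
    | add l m _ _ a c => exact fun v t ht => ⟨(a v t ht).1.add (c v t ht).1, fun hv =>
        ⟨by simp [((a v t ht).2 hv).1, ((c v t ht).2 hv).1],
          by simpa using ((a v t ht).2 hv).2.fun_add ((c v t ht).2 hv).2⟩⟩
    | smul c l _ a => exact fun v t ht => ⟨(a v t ht).1.const_smul c, fun hv =>
        ⟨by simp [((a v t ht).2 hv).1], (((a v t ht).2 hv).2.const_mul c).congr_fderiv (by ext; simp)⟩⟩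
  let ev : (Y → V →ₗ[ℂ] ℂ) →ₗ[ℂ] (Fin N → ℂ) :=
    { toFun := fun l k => l t (b k), map_add' := fun _ _ => rfl, map_smul' := fun _ _ => rfl }
  have top : (Submodule.span ℂ L).map ev = ⊤ := by
    by_contra hn
    obtain ⟨f, f0, hf⟩ := Submodule.exists_le_ker_of_lt_top _ (lt_top_iff_ne_top.2 hn)
    have := h (fun k => f (Pi.single k 1)) fun l hl => by
      have := hf (Submodule.mem_map_of_mem (f := ev) (Submodule.subset_span hl))
      rw [LinearMap.mem_ker, pi_eq_sum_univ' (ev l)] at this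
      simpa [emb_apply, ev, mul_comm] using this
    exact f0 ((Pi.basisFun ℂ (Fin N)).ext fun k => by simpa using congrFun this k)
  choose M hM hM' using fun k : Fin N => (show (Pi.single k 1 : Fin N → ℂ) ∈
    (Submodule.span ℂ L).map ev from top ▸ Submodule.mem_top)
  refine ⟨M, fun k => sp _ (hM k), ?_⟩
  let A : Y → (Fin N → ℂ) →L[ℂ] (Fin N → ℂ) := fun s =>
    LinearMap.toContinuousLinearMap (LinearMap.pi fun k => M k s ∘ₗ emb b N)
  have c : ContinuousAt A t := continuousAt_clm_apply.2 fun u =>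
    continuousAt_pi.2 fun k => (sp _ (hM k) _ t ht).1
  have a1 : A t = ContinuousLinearMap.id ℂ _ := by
    ext1 u
    funext k
    have : ∀ l : Fin N, M k t (b l) = (Pi.single k 1 : Fin N → ℂ) l := congrFun (hM' k)
    simp [A, emb_apply, this, Pi.single_apply]
  have c2 : ContinuousAt (fun s => ‖ContinuousLinearMap.id ℂ _ - A s‖) t :=
    (continuousAt_const.sub c).norm
  filter_upwards [c2.eventually (gt_mem_nhds (show _ < 1 / 2 by simp [a1]))] with s hs u
  have a := (ContinuousLinearMap.id ℂ _ - A s).le_opNorm u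
  have a2 := norm_sub_norm_le u (A s u)
  have a3 := mul_le_mul_of_nonneg_right hs.le (norm_nonneg u)
  change ‖u - A s u‖ ≤ _ at a
  change _ ≤ 2 * ‖A s u‖
  linarith

theorem rigid [CompleteSpace Y] (b : Module.Basis ℕ ℂ V) {L : Set (Y → V →ₗ[ℂ] ℂ)} {Ω : Set Y}
    (hΩ : IsOpen Ω) (hd : ∀ l ∈ L, Stat L Ω l) (hne : ∀ t ∈ Ω, ∃ v, v ≠ 0 ∧ v ∈ Zk L t)
    (hdi : ∀ t ∈ Ω, ∀ s ∈ Ω, ∀ v, v ≠ 0 → v ∈ Zk L t → v ∈ Zk L s → Zk L s = Zk L t) :
    ∀ t ∈ Ω, ∀ᶠ s in 𝓝 t, Zk L s = Zk L t := by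
  classical
  set G : ℕ → Set Y := fun N => {t | t ∈ Ω ∧ ∀ u, emb b N u ∈ Zk L t → u = 0} with hG
  have oG : ∀ N, IsOpen (G N) := fun N => isOpen_iff_mem_nhds.2 fun t ht => by
    obtain ⟨M, h1, h2⟩ := quant b hd ht.1 ht.2
    filter_upwards [h2, hΩ.mem_nhds ht.1] with s a c
    refine ⟨c, fun u hu => norm_le_zero_iff.1 ((a u).trans (le_of_eq ?_))⟩
    rw [show (fun k => M k s (emb b N u)) = 0 from funext fun k => ((h1 k _ s c).2 hu).1]
    simp
  set O : Set Y := {t | ∀ᶠ s in 𝓝 t, Zk L s = Zk L t} with hO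
  have oO : IsOpen O := isOpen_iff_mem_nhds.2 fun t ht => by
    filter_upwards [Filter.Eventually.eventually_nhds ht] with s hs
    exact hs.mono fun _ h => h.trans hs.self_of_nhds.symm
  intro t0 h0
  by_contra h0'
  have ex : ∃ N, ∃ x ∈ Ω, x ∉ O ∧ ∃ J, IsOpen J ∧ x ∈ J ∧ ∀ y ∈ J, y ∉ O → y ∉ G N := by
    have : IsClosed Oᶜ := oO.isClosed_compl
    have d := dense_iUnion_interior_of_closed (f := fun N => {x : ↥Oᶜ | x.1 ∉ G N})
      (fun N => (oG N).isClosed_compl.preimage continuous_subtype_val) (by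
        refine eq_univ_of_forall fun x => mem_iUnion.2 ?_
        by_cases hx : x.1 ∈ Ω
        · obtain ⟨v, v0, hv⟩ := hne _ hx
          obtain ⟨N, u, rfl⟩ := emb_surj b v
          exact ⟨N, fun h => v0 (by rw [h.2 u hv, map_zero])⟩
        · exact ⟨0, fun h => hx h.1⟩)
    obtain ⟨x, hx, hx'⟩ := d.exists_mem_open (hΩ.preimage continuous_subtype_val)
      ⟨⟨t0, fun h => h0' h⟩, h0⟩
    obtain ⟨N, hN⟩ := mem_iUnion.1 hx
    obtain ⟨J, h1, h2, h3⟩ := mem_interior.1 hN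
    obtain ⟨J', h4, rfl⟩ := isOpen_induced_iff.1 h2
    exact ⟨N, x, hx', x.2, J', h4, h3, fun y hy hy' => h1 (show (⟨y, hy'⟩ : ↥Oᶜ) ∈ _ from hy)⟩
  obtain ⟨x, hx, hx', J, oJ, xJ, hJ⟩ := Nat.find_spec ex
  have mn := @Nat.find_min _ _ ex
  obtain ⟨m, hm⟩ : ∃ m, Nat.find ex = m + 1 := Nat.exists_eq_succ_of_ne_zero fun h =>
    hJ x xJ hx' (h ▸ ⟨hx, fun u _ => Subsingleton.elim _ _⟩)
  rw [hm] at hJ mn
  obtain ⟨t1, a1, a2, a3⟩ : ∃ y ∈ J, y ∉ O ∧ y ∈ G m := by
    by_contra hc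
    push Not at hc
    exact mn (Nat.lt_succ_self m) ⟨x, hx, hx', J, oJ, xJ, hc⟩
  obtain ⟨ε, ε0, hε⟩ := Metric.isOpen_iff.1 (oJ.inter (oG m)) t1 ⟨a1, a3⟩
  have pc := (convex_ball t1 ε).isPreconnected
  have cl : ∀ t ∈ Metric.ball t1 ε, t ∉ G (m + 1) := by
    intro t ht htG
    obtain ⟨v, v0, hv⟩ := hne t htG.1
    have sub := pc.subset_left_of_subset_union (u := interior {s | Zk L s = Zk L t})
      (v := {s | s ∈ Ω ∧ v ∉ Zk L s}) isOpen_interior (isOpen_iff_mem_nhds.2 fun s hs => by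
        obtain ⟨l, hl, hl'⟩ : ∃ l ∈ L, l s v ≠ 0 := by simpa [Zk] using hs.2
        filter_upwards [hΩ.mem_nhds hs.1, (hd l hl v s hs.1).1.eventually_ne hl'] with y a c
        exact ⟨a, fun h => c (h l hl)⟩)
      (disjoint_left.2 fun s h1 h2 => h2.2 (by rw [(interior_subset h1 :)]; exact hv))
      (fun s hs => by
        by_cases h : v ∈ Zk L s
        · have e := hdi t htG.1 s (hε hs).2.1 v v0 hv h
          have : s ∈ O := by
            by_contra h'
            exact hJ s (hε hs).1 h' ⟨(hε hs).2.1, e ▸ htG.2⟩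
          exact Or.inl (mem_interior_iff_mem_nhds.2 (e ▸ this))
        · exact Or.inr ⟨(hε hs).2.1, h⟩)
      ⟨t, ht, mem_interior_iff_mem_nhds.2 (by
        by_contra h'
        exact hJ t (hε ht).1 h' htG)⟩
    have := mem_interior_iff_mem_nhds.1 (sub (Metric.mem_ball_self ε0))
    exact a2 (Filter.Eventually.mono this fun s hs =>
      hs.trans (Filter.Eventually.self_of_nhds this).symm)
  have ex2 : ∀ t ∈ Metric.ball t1 ε, ∃ u, emb b m u + b m ∈ Zk L t := by
    intro t ht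
    obtain ⟨u, h1, h2⟩ : ∃ u, emb b (m + 1) u ∈ Zk L t ∧ u ≠ 0 := by
      simpa [hG, (hε ht).2.1] using cl t ht
    have e : emb b (m + 1) u = emb b m (Fin.init u) + u (Fin.last m) • b m := by
      simp [emb_apply, Fin.sum_univ_castSucc, Fin.init]
    have n : u (Fin.last m) ≠ 0 := fun h0 => h2 (by
      rw [e, h0, zero_smul, add_zero] at h1
      funext k
      induction k using Fin.lastCases with
      | last => exact h0
      | cast k => exact congrFun ((hε ht).2.2 _ h1) k)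
    refine ⟨(u (Fin.last m))⁻¹ • Fin.init u, fun l hl => ?_⟩
    have := h1 l hl
    rw [e] at this
    simp only [map_add, map_smul, smul_eq_mul] at this ⊢
    field_simp
    rw [this, mul_zero]
  choose! u hu using ex2
  have du : ∀ t ∈ Metric.ball t1 ε, HasFDerivAt u (0 : Y →L[ℝ] (Fin m → ℂ)) t := by
    intro t ht
    have tΩ := (hε ht).2.1
    obtain ⟨M, h1, h2⟩ := quant b hd tΩ (hε ht).2.2
    have d : HasFDerivAt (fun s k => M k s (emb b m (u t) + b m)) (0 : Y →L[ℝ] (Fin m → ℂ)) t :=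
      hasFDerivAt_pi'' fun k => by simpa using ((h1 k _ t tΩ).2 (hu t ht)).2
    rw [hasFDerivAt_iff_isLittleO] at d ⊢
    refine (IsBigO.of_bound 2 ?_).trans_isLittleO d
    filter_upwards [h2, Metric.isOpen_ball.mem_nhds ht] with s a c
    simp only [_root_.zero_apply, sub_zero]
    refine (a _).trans (le_of_eq ?_)
    rw [← norm_neg]
    congr 2
    funext k
    have k1 := ((h1 k _ t tΩ).2 (hu t ht)).1
    have k2 := ((h1 k _ s (hε c).2.1).2 (hu s c)).1
    simp only [map_add, map_sub, Pi.neg_apply, Pi.sub_apply] at k1 k2 ⊢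
    linear_combination k1 - k2
  refine a2 ?_
  filter_upwards [Metric.ball_mem_nhds t1 ε0] with s hs
  have e := Metric.isOpen_ball.is_const_of_fderiv_eq_zero pc
    (fun t ht => (du t ht).differentiableAt.differentiableWithinAt)
    (fun t ht => (du t ht).fderiv) hs (Metric.mem_ball_self ε0)
  exact hdi t1 a3.1 s (hε hs).2.1 _ (emb_ne b (u s)) (e ▸ hu t1 (Metric.mem_ball_self ε0))
    (hu s hs)

end Pool.Agent.Lib.MP_4e4ac8_an
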