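import Pool.Agent.Lib.MP_4e4ac8_an.G4
import Pool.Agent.Lib.MP_4e4ac8_an.GAlg2
import Pool.Agent.Lib.MP_4e4ac8_an.GRig
import Pool.Agent.Lib.MP_4e4ac8_an.GF

/-!
The Gauss map of a smooth closed Levi-flat cone is a rational map without base point on the cone.
-/

set_option autoImplicit false
open Filter Topology Complex Set PowerSeries ComplexConjugate
open MvPolynomial (homogeneousComponent eval)
open scoped ContDiff

namespace Pool.Agent.Lib.MP_4e4ac8_an

variable {S U : Set E} {r : E → ℝ} {q : E} {j : Fin 3}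

/-- polynomial triples proportional to the Gauss map to infinite order at `x` -/
def Zj (S : Set E) (j : Fin 3) (x : E) : Set (Fin 3 → Pol) :=
  {A | ∀ i, sb x (A i) = Ty S (gs S j i) x * sb x (A j)}

lemma LFs.ty_one (hS : LFs S) (hq : q ∈ S) (hj : Ch S j q) : Ty S (gs S j j) q = 1 := by
  rw [Ty_congr hq ((hS.gsm hq hj).1.mono fun x hx => gs_self hx), Ty_const]
  simp

lemma LFs.zj_ne (hS : LFs S) (hq : q ∈ S) (hj : Ch S j q) : ∃ A, A ≠ 0 ∧ A ∈ Zj S j q := by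
  obtain ⟨n0, h⟩ := hS.vanish
  have a : ∀ i, ∃ A B : Pol, A ≠ 0 ∧ sb q B = Ty S (gs S j i) q * sb q A := fun i => by
    obtain ⟨Q, P, h1, h2, h3, h4⟩ := kronecker (n0 := n0) (a := Ty S (gs S j i) q) fun n hn => by
      rw [← hS.ty_one hq hj]
      exact h n hn i j j q hq hj
    exact grade (Ty_hg _) h1 h2 h3 h4 q
  choose A B h1 h2 using a
  have e : ∀ i, sb q (B i * ∏ k ∈ Finset.univ.erase i, A k) =
      Ty S (gs S j i) q * sb q (∏ k, A k) := fun i => by
    rw [← Finset.mul_prod_erase _ _ (Finset.mem_univ i), map_mul, map_mul, h2, mul_assoc]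
  refine ⟨fun i => B i * ∏ k ∈ Finset.univ.erase i, A k, fun h0 => ?_, fun i => ?_⟩
  · have := e j
    rw [show B j * _ = 0 from congrFun h0 j, hS.ty_one hq hj, one_mul, map_zero] at this
    exact Finset.prod_ne_zero_iff.2 (fun k _ => h1 k) (sb_inj q this.symm)
  · simp only [e, hS.ty_one hq hj, one_mul]

lemma LFs.zj_trans (hS : LFs S) (hq : q ∈ S) {j' : Fin 3} (hj : Ch S j q) (hj' : Ch S j' q) :
    Zj S j q = Zj S j' q := by
  have a : ∀ {j j'}, Ch S j q → Ch S j' q → Zj S j q ⊆ Zj S j' q := by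
    intro j j' hj hj' A hA i
    have b := hS.ty_trans hq hj hj' j'
    rw [hS.ty_one hq hj'] at b
    rw [hS.ty_trans hq hj hj' i, hA i, hA j']
    linear_combination (Ty S (gs S j i) q * sb q (A j)) * b
  exact (a hj hj').antisymm (a hj' hj)

lemma zj_last {A : Fin 3 → Pol} (hA : A ∈ Zj S j q) (h0 : A ≠ 0) : A j ≠ 0 := fun h =>
  h0 (funext fun i => sb_inj q (by rw [hA i, h, map_zero, mul_zero]))

lemma zj_eq {p : E} {j' : Fin 3} {A : Fin 3 → Pol} (h0 : A ≠ 0) (h1 : A ∈ Zj S j q)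
    (h2 : A ∈ Zj S j' p) : Zj S j' p = Zj S j q := by
  have a : ∀ {p q j j'}, A ∈ Zj S j q → A ∈ Zj S j' p → Zj S j q ⊆ Zj S j' p := by
    intro p q j j' h1 h2 B hB i
    have w : A j' * B i = A i * B j' := sub_eq_zero.1 (sb_inj q (by
      rw [map_sub, map_mul, map_mul, h1 i, h1 j', hB i, hB j']; ring))
    have := congrArg (sb p) w
    rw [map_mul, map_mul, h2 i] at this
    exact mul_left_cancel₀ (fun h => zj_last h2 h0 (sb_inj p h)) (by linear_combination this)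
  exact (a h2 h1).antisymm (a h1 h2)

lemma LFs.zj_loc (hS : LFs S) (hq : q ∈ S) (hj : Ch S j q) :
    ∀ᶠ x in 𝓝[S] q, Zj S j x = Zj S j q := by
  have hL := hS.toLF
  obtain ⟨U, r, hU, h⟩ := hL.loc q hq
  obtain ⟨κ, k⟩ := h.ret hU hq
  let fm : Fin 3 → ℕ → E → E → (Fin 3 → Pol) →ₗ[ℂ] ℂ := fun i m ξ y =>
    { toFun := fun A => eval ξ (coeff m (sb (κ y) (A i) - Ty S (gs S j i) (κ y) * sb (κ y) (A j)))
      map_add' := fun A B => by
        simp only [Pi.add_apply, map_add, map_sub, mul_add]; ring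
      map_smul' := fun c A => by
        simp only [Pi.smul_apply, map_smul, mul_smul_comm, ← smul_sub, RingHom.id_apply]
        rw [LinearMap.map_smul_of_tower, MvPolynomial.smul_eval, smul_eq_mul] }
  set L : Set (E → (Fin 3 → Pol) →ₗ[ℂ] ℂ) := {l | ∃ i m ξ, l = fm i m ξ} with hLd
  have zk : ∀ y, Zk L y = Zj S j (κ y) := fun y => by
    ext A
    refine ⟨fun hA i => sub_eq_zero.1 (PowerSeries.ext fun m => MvPolynomial.funext fun ξ => ?_),
      ?_⟩
    · simpa [fm] using hA _ ⟨i, m, ξ, rfl⟩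
    · rintro hA _ ⟨i, m, ξ, rfl⟩
      simp [fm, hA i]
  set Ω := interior {y | κ y ∈ S ∧ Ch S j (κ y) ∧ DifferentiableAt ℝ κ y} with hΩ
  have qΩ : q ∈ Ω := mem_interior_iff_mem_nhds.2 (k.mem.and ((k.tend.eventually
    (hS.gsm hq hj).1).and ((k.sm.eventually (by simp)).mono fun y hy =>
      hy.differentiableAt (by norm_num))))
  obtain ⟨e⟩ : Nonempty ((Σ _ : Fin 3, Fin 3 →₀ ℕ) ≃ ℕ) := nonempty_equiv_of_countable
  have rg := rigid ((Pi.basis fun _ : Fin 3 => MvPolynomial.basisMonomials (Fin 3) ℂ).reindex e)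
    (L := L) (Ω := Ω) isOpen_interior ?_ (fun t ht => by
      rw [zk]; exact hS.zj_ne (interior_subset ht).1 (interior_subset ht).2.1)
    (fun t _ s _ v v0 a b => by rw [zk] at a b ⊢; rw [zk]; exact zj_eq v0 a b) q qΩ
  · filter_upwards [nhdsWithin_le_nhds rg, nhdsWithin_le_nhds k.fix, self_mem_nhdsWithin]
      with x a b c
    rwa [zk, zk, b c, k.self] at a
  rintro _ ⟨i, m, ξ, rfl⟩ A t ht
  set f : E → ℂ := fun x => eval x (A i) + -1 * (gs S j i x * eval x (A j)) with hf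
  have s1 : ∀ x ∈ S, Ch S j x → Sm S x f ∧
      Ty S f x = sb x (A i) - Ty S (gs S j i) x * sb x (A j) := fun x hx hc => by
    have g := (hS.gsm hx hc).2 i
    refine ⟨(Sm.poly _).add ((Sm.const _).mul (g.mul (Sm.poly _))), ?_⟩
    rw [hf, Ty_add hL hx (Sm.poly _) ((Sm.const _).mul (g.mul (Sm.poly _))),
      Ty_mul hL hx (Sm.const _) (g.mul (Sm.poly _)), Ty_mul hL hx g (Sm.poly _), Ty_const,
      Ty_poly hL hx, Ty_poly hL hx]
    simp [sub_eq_add_neg]
  have ev : ∀ᶠ y in 𝓝 t, κ y ∈ S ∧ Ch S j (κ y) ∧ DifferentiableAt ℝ κ y :=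
    mem_interior_iff_mem_nhds.1 ht
  obtain ⟨t1, t2, t3⟩ := ev.self_of_nhds
  have e1 : (fun s => fm i m ξ s A) =ᶠ[𝓝 t]
      fun s => (m.factorial : ℂ)⁻¹ * eval ξ (Pj S m f (κ s)) := by
    filter_upwards [ev] with y hy
    change eval ξ (coeff m _) = _
    rw [← (s1 _ hy.1 hy.2.1).2]
    simp [Ty]
  obtain ⟨D, hD, -⟩ := Pj_fd hL t1 (s1 _ t1 t2).1 ξ m
  refine ⟨(continuousAt_const.mul ((hD.restrictScalars ℝ).comp_hasFDerivAt t t3.hasFDerivAt
    (ev.mono fun _ h => h.1)).continuousAt).congr e1.symm, fun hA => ⟨hA _ ⟨i, m, ξ, rfl⟩, ?_⟩⟩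
  rw [zk] at hA
  have := ((Pj_flat hL t1 (s1 _ t1 t2).1 (by rw [(s1 _ t1 t2).2, hA i, sub_self]) ξ m).restrictScalars
    ℝ).comp_hasFDerivAt t t3.hasFDerivAt (ev.mono fun _ h => h.1)
  exact ((this.const_mul _).congr_of_eventuallyEq e1).congr_fderiv (by ext; simp)

lemma LF.part (hS : LF S) {P : E → Prop} (hP : ∀ q ∈ S, ∀ᶠ x in 𝓝[S] q, P x ↔ P q)
    (hne : ∃ x ∈ S, P x) : LF {x ∈ S | P x} := by
  classical
  refine ⟨hne, fun h => hS.nz h.1, ?_, fun x hx c hc => ⟨hS.cone x hx.1 c hc, ?_⟩, fun p hp => ?_⟩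
  · rw [← isOpen_compl_iff, isOpen_iff_mem_nhds]
    intro y hy
    simp only [mem_compl_iff, mem_insert_iff, mem_ofPred_eq, not_or, not_and] at hy
    by_cases h : y ∈ S
    · filter_upwards [eventually_nhdsWithin_iff.1 (hP y h), isOpen_compl_singleton.mem_nhds hy.1]
        with x a b
      rintro (h1 | h1)
      · exact b h1
      · exact hy.2 h ((a h1.1).1 h1.2)
    · filter_upwards [hS.cl.isOpen_compl.mem_nhds (show y ∉ insert 0 S from fun h' =>
        h'.elim hy.1 h)] with x a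
      exact fun h1 => a (h1.imp id fun h => h.1)
  · have := (isConnected_compl_singleton_of_one_lt_rank (E := ℂ) (by simp) 0).isPreconnected.constant
      (f := fun c : ℂ => decide (P (c • x))) (fun c hc => by
        have t : Tendsto (fun c : ℂ => c • x) (𝓝[{0}ᶜ] c) (𝓝[S] (c • x)) :=
          (continuous_id.smul continuous_const).continuousWithinAt.tendsto_nhdsWithin
            fun c hc => hS.cone x hx.1 c hc
        rw [ContinuousWithinAt, nhds_discrete, tendsto_pure]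
        exact (t.eventually (hP _ (hS.cone x hx.1 c hc))).mono fun _ h => decide_eq_decide.2 h)
      hc (show (1 : ℂ) ∈ _ from one_ne_zero)
    exact (decide_eq_decide.1 this).2 (by simpa using hx.2)
  · obtain ⟨U, r, hU, h⟩ := hS.loc p hp.1
    obtain ⟨W, h1, h2, h3⟩ := eventually_nhds_iff.1 (eventually_nhdsWithin_iff.1 (hP p hp.1))
    exact ⟨U ∩ W, r, ⟨hU, h3⟩, h.op.inter h2, h.sm.mono inter_subset_left,
      fun x hx => ⟨fun a => (h.zero x hx.1).1 a.1, fun a => ⟨(h.zero x hx.1).2 a,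
        (h1 x hx.2 ((h.zero x hx.1).2 a)).2 hp.2⟩⟩,
      fun x hx a => h.ne x hx.1 a.1, fun x hx a => h.levi x hx.1 a.1⟩

lemma LF.poly_zero (hS : LF S) {B : Pol} (h : ∀ x ∈ S, eval x B = 0) : B = 0 := by
  obtain ⟨q, hq⟩ := hS.ne
  refine sb_inj q ?_
  rw [← Ty_poly hS hq, Ty_congr hq (eventually_mem_nhdsWithin.mono h), Ty_const]
  simp

/-- a locally constant property is constant -/
lemma LF.all (hS : LF S) {P : E → Prop} (hP : ∀ q ∈ S, ∀ᶠ x in 𝓝[S] q, P x ↔ P q)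
    (hne : ∃ x ∈ S, P x) : ∀ x ∈ S, P x := by
  intro y hy
  by_contra hn
  have h1 := hS.part hP hne
  have h2 := hS.part (P := fun x => ¬P x) (fun q hq => (hP q hq).mono fun _ h => h.not) ⟨y, hy, hn⟩
  obtain ⟨x, hx, h⟩ : ∃ x ∈ {x ∈ S | P x}, hm x y ≠ 0 := by
    by_contra hc
    push Not at hc
    have := congrArg (eval y) (h1.poly_zero (B := ∑ i, MvPolynomial.X i * MvPolynomial.C (conj (y i)))
      fun x hx => by simpa [hm, Fin.sum_univ_three] using hc x hx)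
    have e : hm y y = 0 := by simpa [hm, Fin.sum_univ_three] using this
    rw [hm_self] at e
    exact (nn_pos fun h => hS.nz (h ▸ hy)).ne' (by exact_mod_cast e)
  obtain ⟨z, a, b⟩ := h1.frankel' h2 (ContinuousLinearMap.id ℂ E) (ContinuousLinearMap.id ℂ E)
    (fun _ => rfl) (fun _ h => h) hx ⟨hy, hn⟩ h
  exact a.2 b.2

/-- polynomial triples proportional to the Gauss map on `S` -/
def Val (S : Set E) (A : Fin 3 → Pol) : Prop :=
  ∀ x ∈ S, ∀ j, Ch S j x → ∀ i, eval x (A i) = gs S j i x * eval x (A j)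

lemma zj_val (hS : LF S) (hq : q ∈ S) {A : Fin 3 → Pol} (hA : A ∈ Zj S j q) (i : Fin 3) :
    eval q (A i) = gs S j i q * eval q (A j) := by
  have := congrArg (coeff 0) (hA i)
  rw [← Ty_poly hS hq, ← Ty_poly hS hq] at this
  simp only [coeff_mul, Ty_zero, Finset.Nat.antidiagonal_zero, Finset.sum_singleton,
    ← map_mul] at this
  exact MvPolynomial.C_injective _ _ this

lemma Val.zj (hS : LFs S) {A : Fin 3 → Pol} (hA : Val S A) (hq : q ∈ S) (hj : Ch S j q) :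
    A ∈ Zj S j q := fun i => by
  rw [← Ty_poly hS.toLF hq, ← Ty_poly hS.toLF hq,
    ← Ty_mul hS.toLF hq ((hS.gsm hq hj).2 i) (Sm.poly _)]
  refine Ty_congr hq ?_
  filter_upwards [(hS.gsm hq hj).1, self_mem_nhdsWithin] with x a b using hA x b j a i

lemma LFs.val (hS : LFs S) : ∃ A, A ≠ 0 ∧ Val S A := by
  have hL := hS.toLF
  obtain ⟨q, hq⟩ := hL.ne
  obtain ⟨j, hj⟩ := hL.ch hq
  obtain ⟨A, h0, hA⟩ := hS.zj_ne hq hj
  refine ⟨A, h0, fun x hx j' hj' => zj_val hL hx (hL.all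
    (P := fun x => ∀ j, Ch S j x → A ∈ Zj S j x) (fun p hp => ?_)
    ⟨q, hq, fun j' h => by rwa [← hS.zj_trans hq hj h]⟩ x hx j' hj')⟩
  obtain ⟨m, hm⟩ := hL.ch hp
  filter_upwards [(hS.gsm hp hm).1, hS.zj_loc hp hm, self_mem_nhdsWithin] with y a b c
  refine ⟨fun h j' h' => ?_, fun h j' h' => ?_⟩
  · rw [← hS.zj_trans hp hm h', ← b]; exact h m a
  · rw [← hS.zj_trans c a h', b]; exact h m hm

lemma Val.comp (hS : LF S) {A : Fin 3 → Pol} (hA : Val S A) (k : ℕ) :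
    Val S fun i => homogeneousComponent k (A i) := fun x hx j hj i =>
  comp_rel x _ (fun t ht => by
    rw [← hS.gs_scale hx ht]
    exact hA _ (hS.cone x hx t ht) j ((hS.ch_scale hx ht).2 hj) i) k

theorem LFs.alg (hS : LFs S) : ∃ (d : ℕ) (A : Fin 3 → Pol), (∀ i, (A i).IsHomogeneous d) ∧
    Val S A ∧ ∀ x ∈ S, ∀ j, Ch S j x → eval x (A j) ≠ 0 := by
  classical
  have hL := hS.toLF
  have c : ∀ A : Fin 3 → Pol, Val S A → ∀ i, A i ≠ 0 → ∃ k ≤ (A i).totalDegree,
      ∃ B : Fin 3 → Pol, B ≠ 0 ∧ Val S B ∧ ∀ i, (B i).IsHomogeneous k := fun A hA i h => by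
    obtain ⟨k, h1, h2⟩ := exists_comp h
    exact ⟨k, h1, _, fun h0 => h2 (congrFun h0 i), hA.comp hL k,
      fun i => MvPolynomial.homogeneousComponent_isHomogeneous k _⟩
  have ex : ∃ k, ∃ B : Fin 3 → Pol, B ≠ 0 ∧ Val S B ∧ ∀ i, (B i).IsHomogeneous k := by
    obtain ⟨A, h0, hA⟩ := hS.val
    obtain ⟨i, hi⟩ := Function.ne_iff.1 h0
    exact (c A hA i hi).imp fun _ h => h.2
  obtain ⟨A, h0, hA, hh⟩ := Nat.find_spec ex
  refine ⟨_, A, hh, hA, fun x hx j hj hz => ?_⟩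
  have z := hA.zj hS hx hj
  have a0 := zj_last z h0
  obtain ⟨p, p1, p2, p3⟩ := exists_prime_root x _ a0 hz
  have dv : ∀ i, p ∣ A i := fun i => by
    obtain ⟨u, u1, u2⟩ := descend x (Ty_hg _) (z i)
    refine (p1.dvd_or_dvd (p2.trans u2)).resolve_left ?_
    rintro ⟨w, rfl⟩
    simp [p3] at u1
  choose B hB using dv
  have vB : Val S B := fun y hy m hm => zj_val hL hy fun i => by
    have := hA.zj hS hy hm i
    rw [hB, hB, map_mul, map_mul] at this
    exact mul_left_cancel₀ (fun h => p1.ne_zero (sb_inj y h)) (by linear_combination this)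
  have b0 : B j ≠ 0 := fun h => a0 (by rw [hB, h, mul_zero])
  obtain ⟨k, k1, k2⟩ := c B vB j b0
  have d1 := (hh j).totalDegree a0
  rw [hB, MvPolynomial.totalDegree_mul_of_isDomain p1.ne_zero b0] at d1
  have d2 : p.totalDegree ≠ 0 := fun h => by
    rw [MvPolynomial.totalDegree_eq_zero_iff_eq_C] at h
    rw [h, MvPolynomial.eval_C] at p3
    exact p1.ne_zero (by rw [h, p3, map_zero])
  exact Nat.find_min ex (by omega) k2

end Pool.Agent.Lib.MP_4e4ac8_an
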