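import Pool.Agent.Lib.MP_4e4ac8_an.GAlg

/-!
The complex flow of a polynomial vector field, analytic in time and initial point.
-/

set_option autoImplicit false
open Filter Topology Set
open scoped ContDiff
open MvPolynomial (eval aeval)

namespace Pool.Agent.Lib.MP_4e4ac8_an

/-- continuous functions on the unit interval -/
abbrev CI := C(Icc (0 : ℝ) 1, ℂ)

lemma ci_cont (β : CI) : Continuous fun s : ℝ => β (projIcc 0 1 zero_le_one s) :=
  β.continuous.comp continuous_projIcc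

/-- the primitive vanishing at `0` -/
noncomputable def Jl : CI →L[ℂ] CI := LinearMap.mkContinuous
  { toFun := fun β => ⟨fun τ => ∫ s in (0 : ℝ)..τ, β (projIcc 0 1 zero_le_one s),
      (intervalIntegral.continuous_primitive (fun _ _ => (ci_cont β).intervalIntegrable _ _)
        0).comp continuous_subtype_val⟩
    map_add' := fun β γ => by
      ext τ
      simpa using intervalIntegral.integral_add ((ci_cont β).intervalIntegrable _ _)
        ((ci_cont γ).intervalIntegrable _ _)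
    map_smul' := fun c β => by
      ext τ
      simp } 1 fun β => by
  rw [one_mul, ContinuousMap.norm_le _ (norm_nonneg _)]
  intro τ
  refine (intervalIntegral.norm_integral_le_of_norm_le_const (C := ‖β‖)
    fun s _ => β.norm_coe_le_norm _).trans ?_
  rw [sub_zero, abs_of_nonneg τ.2.1]
  exact mul_le_of_le_one_right (norm_nonneg _) τ.2.2

lemma Jl_apply (β : CI) (τ : Icc (0 : ℝ) 1) :
    Jl β τ = ∫ s in (0 : ℝ)..τ, β (projIcc 0 1 zero_le_one s) := rfl

lemma aeval_ci (a : Fin 3 → CI) (B : Pol) (τ : Icc (0 : ℝ) 1) :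
    aeval a B τ = eval (fun i => a i τ) B := by
  induction B using MvPolynomial.induction_on with
  | C c => simp
  | add p q hp hq => simp [hp, hq]
  | mul_X p i hp => simp [hp]

lemma cd_aeval (B : Pol) : ContDiff ℂ ω fun a : Fin 3 → CI => aeval a B := by
  induction B using MvPolynomial.induction_on with
  | C c => simpa using contDiff_const
  | add p q hp hq => simpa using hp.add hq
  | mul_X p i hp => simpa using hp.mul (contDiff_apply ℂ CI i)

/-- the vector field of a polynomial triple -/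
noncomputable def Vf (P : Fin 3 → Pol) (x : Fin 3 → ℂ) : Fin 3 → ℂ := fun i => eval x (P i)

theorem flow (P : Fin 3 → Pol) (x0 : Fin 3 → ℂ) : ∃ Φ : ℂ × (Fin 3 → ℂ) → Fin 3 → ℂ,
    ContDiffAt ℂ ω Φ (0, x0) ∧ Φ (0, x0) = x0 ∧
    (∀ u, fderiv ℂ Φ (0, x0) u = u.2 + u.1 • Vf P x0) ∧
    ∀ W ∈ 𝓝 x0, ∀ᶠ u in 𝓝 ((0 : ℂ), x0), ∃ α : ℝ → Fin 3 → ℂ, α 0 = u.2 ∧ α 1 = Φ u ∧
      ∀ τ ∈ Icc (0 : ℝ) 1, α τ ∈ W ∧ HasDerivAt α (u.1 • Vf P (α τ)) τ := by
  let c : ℂ →L[ℂ] CI := ContinuousLinearMap.const ℂ (Icc (0 : ℝ) 1)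
  have hc : ∀ z τ, c z τ = z := fun _ _ => rfl
  let cst : (Fin 3 → ℂ) → Fin 3 → CI := fun y i => c (y i)
  let N : Fin 3 → (Fin 3 → CI) → CI := fun i a => Jl (aeval a (P i))
  have cN : ∀ i, ContDiff ℂ ω (N i) := fun i => Jl.contDiff.comp (cd_aeval _)
  let F : (ℂ × (Fin 3 → ℂ)) × (Fin 3 → CI) → Fin 3 → CI :=
    fun v i => v.2 i - c (v.1.2 i) - c v.1.1 * N i v.2
  have cF : ContDiffAt ℂ ω F ((0, x0), cst x0) :=
    (contDiff_pi.2 fun i => (((contDiff_apply ℂ CI i).comp contDiff_snd).sub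
      (c.contDiff.comp ((contDiff_apply ℂ ℂ i).comp contDiff_fst.snd))).sub
      ((c.contDiff.comp contDiff_fst.fst).mul ((cN i).comp contDiff_snd))).contDiffAt
  have dF : ∀ v i, fderiv ℂ F ((0, x0), cst x0) v i =
      v.2 i - c (v.1.2 i) - c v.1.1 * N i (cst x0) := by
    intro v i
    let T := (ℂ × (Fin 3 → ℂ)) × (Fin 3 → CI)
    let l1 : T →L[ℂ] CI := (ContinuousLinearMap.proj i).comp (ContinuousLinearMap.snd ℂ _ _)
    let l2 : T →L[ℂ] CI := c.comp ((ContinuousLinearMap.proj i).comp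
      ((ContinuousLinearMap.snd ℂ _ _).comp (ContinuousLinearMap.fst ℂ _ _)))
    let l3 : T →L[ℂ] CI := c.comp
      ((ContinuousLinearMap.fst ℂ _ _).comp (ContinuousLinearMap.fst ℂ _ _))
    have := ((l1.hasFDerivAt (x := ((0, x0), cst x0))).fun_sub l2.hasFDerivAt).fun_sub
      (l3.hasFDerivAt.fun_mul (((cN i).differentiable (by simp) _).hasFDerivAt.comp _
        hasFDerivAt_snd))
    have := congrArg (fun L : T →L[ℂ] CI => L v) ((hasFDerivAt_pi'.1
      (cF.differentiableAt (by simp)).hasFDerivAt i).unique this)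
    simpa [l1, l2, l3, T, mul_comm] using this
  have e2 : fderiv ℂ F ((0, x0), cst x0) ∘L .inr ℂ _ _ = ContinuousLinearMap.id ℂ _ :=
    ContinuousLinearMap.ext fun a => funext fun i => by simp [dF]
  have iv : (fderiv ℂ F ((0, x0), cst x0) ∘L .inr ℂ _ _).IsInvertible := by
    rw [e2]; exact ⟨ContinuousLinearEquiv.refl ℂ _, rfl⟩
  set ψ := cF.implicitFunction (by simp) iv with hψ
  have c1 : ContDiffAt ℂ ω ψ (0, x0) := cF.contDiffAt_implicitFunction _ iv
  have c2 : ψ (0, x0) = cst x0 := cF.implicitFunction_apply_self _ iv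
  have c3 : ∀ᶠ u in 𝓝 ((0 : ℂ), x0), F (u, ψ u) = F ((0, x0), cst x0) :=
    cF.eventually_apply_implicitFunction _ iv
  have c4 := (cF.hasStrictFDerivAt_implicitFunction (by simp) iv).hasFDerivAt
  let one : Icc (0 : ℝ) 1 := ⟨1, zero_le_one, le_rfl⟩
  let ev : (Fin 3 → CI) →L[ℂ] Fin 3 → ℂ := ContinuousLinearMap.pi fun i =>
    (ContinuousMap.evalCLM ℂ one).comp (ContinuousLinearMap.proj i)
  refine ⟨fun u => ev (ψ u), ev.contDiff.contDiffAt.comp _ c1, by simp only [c2]; rfl, fun u => ?_,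
    fun W hW => ?_⟩
  · rw [show fderiv ℂ (fun u => ev (ψ u)) _ = _ from (ev.hasFDerivAt.comp _ c4).fderiv, e2]
    funext i
    simp [dF, ev, hc]
    simp [N, cst, Jl_apply, aeval_ci, one, Vf, hc, add_comm]
  · obtain ⟨ε, ε0, hε⟩ := Metric.mem_nhds_iff.1 hW
    filter_upwards [c3, c1.continuousAt.eventually_mem (Metric.ball_mem_nhds _ ε0)] with u a b
    have a' : ∀ i τ, ψ u i τ = u.2 i + u.1 * Jl (aeval (ψ u) (P i)) τ := fun i τ => by
      have := congrArg (fun w : Fin 3 → CI => w i τ) a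
      simp [F, N, cst, hc] at this
      linear_combination this
    set α : ℝ → Fin 3 → ℂ := fun t i => u.2 i + u.1 *
      ∫ s in (0 : ℝ)..t, aeval (ψ u) (P i) (projIcc 0 1 zero_le_one s) with hα
    have e : ∀ τ : Icc (0 : ℝ) 1, α τ = fun i => ψ u i τ := fun τ => funext fun i => (a' i τ).symm
    refine ⟨α, funext fun i => by simp [hα], e one, fun τ hτ => ⟨hε ?_, hasDerivAt_pi.2 fun i => ?_⟩⟩
    · rw [c2, mem_ball_iff_norm] at b
      rw [e ⟨τ, hτ⟩, mem_ball_iff_norm, pi_norm_lt_iff ε0]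
      intro i
      exact (((ψ u - cst x0) i).norm_coe_le_norm ⟨τ, hτ⟩).trans_lt
        ((norm_le_pi_norm _ i).trans_lt b)
    · refine ((((ci_cont (aeval (ψ u) (P i))).integral_hasStrictDerivAt 0 τ).hasDerivAt.const_mul
        u.1).const_add (u.2 i)).congr_deriv ?_
      rw [projIcc_of_mem _ hτ, aeval_ci, ← e ⟨τ, hτ⟩]
      rfl

end Pool.Agent.Lib.MP_4e4ac8_an
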