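import Pool.Agent.Lib.MP_4e4ac8_an.G5
import Pool.Agent.Lib.MP_4e4ac8_an.HFlow

/-!
Holomorphic boxes in which a Levi-flat cone with algebraic Levi foliation is saturated.
-/

set_option autoImplicit false
open Filter Topology Complex Set Metric
open scoped ContDiff

namespace Pool.Agent.Lib.MP_4e4ac8_an

variable {S U : Set E} {r : E → ℝ} {q : E}

lemma gron01 {g g' : ℝ → ℝ} {K : ℝ}
    (h : ∀ τ ∈ Icc (0 : ℝ) 1, HasDerivAt g (g' τ) τ ∧ |g' τ| ≤ K * |g τ|) : g 0 = 0 ↔ g 1 = 0 := by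
  have a : ∀ {g g' : ℝ → ℝ}, (∀ τ ∈ Icc (0 : ℝ) 1, HasDerivAt g (g' τ) τ ∧ |g' τ| ≤ K * |g τ|) →
      g 0 = 0 → g 1 = 0 := fun h h0 =>
    eq_zero_of_abs_deriv_le_mul_abs_self_of_eq_zero_right (K := K)
      (fun t ht => (h t ht).1.continuousAt.continuousWithinAt)
      (fun t ht => (h t (Ico_subset_Icc_self ht)).1.hasDerivWithinAt) h0
      (fun t ht => (h t (Ico_subset_Icc_self ht)).2) 1 ⟨zero_le_one, le_rfl⟩
  refine ⟨a h, fun h1 => ?_⟩
  simpa using a (g := fun τ => g (1 - τ)) (g' := fun τ => -g' (1 - τ)) (fun τ hτ => by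
    have := h (1 - τ) ⟨by linarith [hτ.2], by linarith [hτ.1]⟩
    exact ⟨this.1.comp_const_sub 1 τ, by simpa using this.2⟩) (by simpa using h1)

/-- the polynomial triple `A` cuts out the complex tangent spaces of `S` -/
def Alg (S : Set E) (A : Fin 3 → Pol) : Prop :=
  ∀ x ∈ S, Vf A x ≠ 0 ∧ ∀ ξ, dot (Vf A x) ξ = 0 ↔ cn S x ξ = 0

lemma LFs.exists_alg (hS : LFs S) : ∃ A, Alg S A := by
  obtain ⟨d, A, -, h2, h3⟩ := hS.alg
  refine ⟨A, fun x hx => ?_⟩
  obtain ⟨j, hj⟩ := hS.toLF.ch hx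
  have e : Vf A x = MvPolynomial.eval x (A j) • gv S j x := funext fun i => by
    simp only [Vf, gv, Pi.smul_apply, smul_eq_mul, h2 x hx j hj i, mul_comm]
  refine ⟨fun h => h3 x hx j hj (congrFun h j), fun ξ => ?_⟩
  rw [e, dot_smul_left, cn_dot hj, mul_eq_zero, mul_eq_zero, or_iff_right (h3 x hx j hj),
    or_iff_right hj]

lemma cd_eval (B : Pol) : ContDiff ℂ ω fun x : E => MvPolynomial.eval x B := by
  induction B using MvPolynomial.induction_on with
  | C c => simpa using contDiff_const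
  | add p q hp hq => simpa using hp.add hq
  | mul_X p i hp => simpa using hp.mul (contDiff_apply ℂ ℂ i)

/-- the flow of a polynomial field of complex tangent vectors preserves `S` -/
lemma LF.flow (hS : LF S) (hq : q ∈ S) (P : Fin 3 → Pol) (hP : ∀ x ∈ S, cn S x (Vf P x) = 0) :
    ∃ Φ : ℂ × E → E, ContDiffAt ℂ ω Φ (0, q) ∧ Φ (0, q) = q ∧
      (∀ u, fderiv ℂ Φ (0, q) u = u.2 + u.1 • Vf P q) ∧
      ∀ᶠ u in 𝓝 ((0 : ℂ), q), Φ u ∈ S ↔ u.2 ∈ S := by
  obtain ⟨Φ, h1, h2, h3, h4⟩ := MP_4e4ac8_an.flow P q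
  refine ⟨Φ, h1, h2, h3, ?_⟩
  obtain ⟨U, r, hU, h⟩ := hS.loc q hq
  have cV : ContDiff ℝ 1 (Vf P) :=
    ((contDiff_pi.2 fun i => cd_eval (P i)).restrict_scalars ℝ).of_le le_top
  have b : ∀ c : ℂ, ∃ C : ℝ, 0 ≤ C ∧ ∀ᶠ y in 𝓝 q, |fderiv ℝ r y (c • Vf P y)| ≤ C * |r y| := by
    intro c
    simpa using h.bound_off hU hq (b := fun y => fderiv ℝ r y (c • Vf P y)) (g := fun _ => 0)
      (((h.cd1 hU).of_le (by norm_num)).clm_apply (cV.const_smul c).contDiffAt) contDiffAt_const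
      le_rfl (by
        filter_upwards [h.op.mem_nhds hU] with y hy hyS
        obtain ⟨ρ, ρ0, hρ⟩ := hS.con hyS U r h hy
        have := hP y hyS
        rw [hρ, mul_eq_zero, or_iff_right (by exact_mod_cast ρ0)] at this
        simp [← cf_re, this])
  obtain ⟨C1, -, b1⟩ := b 1
  obtain ⟨C2, -, b2⟩ := b I
  filter_upwards [h4 _ ((b1.and b2).and (h.op.mem_nhds hU)),
    continuousAt_fst.eventually_mem (ball_mem_nhds (0 : ℂ) one_pos)] with u ⟨α, a0, a1, a2⟩ hu
  have := gron01 (g := fun τ => r (α τ)) (K := C1 + C2) fun τ hτ =>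
    ⟨(h.fd (a2 τ hτ).1.2).comp_hasDerivAt τ (a2 τ hτ).2, by
      have e : u.1 • Vf P (α τ) = u.1.re • (1 : ℂ) • Vf P (α τ) + u.1.im • I • Vf P (α τ) := by
        conv_lhs => rw [← re_add_im u.1]
        rw [add_smul, mul_smul]; simp
      have n := (mem_ball_zero_iff.1 hu).le
      rw [e, map_add, ContinuousLinearMap.map_smul, ContinuousLinearMap.map_smul, smul_eq_mul,
        smul_eq_mul, add_mul]
      refine (abs_add_le _ _).trans (add_le_add ?_ ?_) <;> rw [abs_mul]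
      · exact (mul_le_of_le_one_left (abs_nonneg _) ((abs_re_le_norm _).trans n)).trans
          (a2 τ hτ).1.1.1
      · exact (mul_le_of_le_one_left (abs_nonneg _) ((abs_im_le_norm _).trans n)).trans
          (a2 τ hτ).1.1.2⟩
  rw [← a0, ← a1, h.zero _ (a2 0 ⟨le_rfl, zero_le_one⟩).1.2,
    h.zero _ (a2 1 ⟨zero_le_one, le_rfl⟩).1.2, this]

/-- a holomorphic chart in which `S` depends on the first coordinate only -/
structure Box (S : Set E) (q v : E) (Ψ T : E → E) : Prop where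
  a1 : AnalyticAt ℂ Ψ 0
  a2 : AnalyticAt ℂ T q
  e1 : Ψ 0 = q
  e2 : T q = 0
  li : ∀ᶠ w in 𝓝 0, T (Ψ w) = w
  ri : ∀ᶠ y in 𝓝 q, Ψ (T y) = y
  sat : ∀ᶠ w in 𝓝 0, Ψ w ∈ S ↔ q + w 0 • v ∈ S
  tv : cn S q v ≠ 0
  dir : 0 < nn (crs q (fderiv ℂ Ψ 0 (Pi.single 1 1)))

lemma LF.box (hS : LF S) (hq : q ∈ S) {A : Fin 3 → Pol} (hA : Alg S A) :
    ∃ v Ψ T, Box S q v Ψ T := by
  let l := star q
  let P : Fin 3 → Pol := ![A 1 * MvPolynomial.C (l 2) - A 2 * MvPolynomial.C (l 1),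
    A 2 * MvPolynomial.C (l 0) - A 0 * MvPolynomial.C (l 2),
    A 0 * MvPolynomial.C (l 1) - A 1 * MvPolynomial.C (l 0)]
  have hP : ∀ x, Vf P x = crs (Vf A x) l := fun x => by apply ext3 <;> simp [Vf, P, crs]
  obtain ⟨Φ, h1, h2, h3, h4⟩ := hS.flow hq P fun x hx =>
    ((hA x hx).2 _).1 (by rw [hP, dot_comm, dot_crs_left])
  set g := Vf A q with hg
  have g0 := nn_pos (hA q hq).1
  have q0 : 0 < nn q := nn_pos fun h => hS.nz (h ▸ hq)
  obtain ⟨v, gv⟩ : ∃ v, dot g v = 1 := ⟨(nn g : ℂ)⁻¹ • star g, by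
    rw [dot_smul_right, ← hm_eq_dot, hm_self, inv_mul_cancel₀ (by exact_mod_cast g0.ne')]⟩
  have gq : dot g q = 0 := ((hA q hq).2 q).2 ((hS.con hq).self hS hq)
  have e0 : 0 < nn (crs g l) := by
    rw [lagr, nn_star, hm_conj, hm_eq_dot, star_star, gq]
    simpa using mul_pos g0 q0
  let m : E → ℂ × E := fun w => (w 1, q + w 0 • v)
  have m0 : m 0 = (0, q) := by simp [m]
  have cm : ContDiff ℂ ω m := by fun_prop
  let Ψ : E → E := fun w => (1 + w 2) • Φ (m w)
  have c1 : ContDiffAt ℂ ω (fun w => Φ (m w)) 0 := ContDiffAt.comp 0 (m0 ▸ h1) cm.contDiffAt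
  have c2 : ContDiffAt ℂ ω Ψ 0 := ContDiffAt.smul (f := fun w : E => 1 + w 2) (by fun_prop) c1
  have Ψ0 : Ψ 0 = q := by simp [Ψ, m0, h2]
  have d : ∀ w, fderiv ℂ Ψ 0 w = w 0 • v + w 1 • crs g l + w 2 • q := fun w => by
    let p : Fin 3 → E →L[ℂ] ℂ := fun i => ContinuousLinearMap.proj i
    have a : HasFDerivAt m ((p 1).prod ((p 0).smulRight v)) 0 :=
      (p 1).hasFDerivAt.prodMk (((p 0).hasFDerivAt.smul_const v).const_add q)
    have b : HasFDerivAt Φ (fderiv ℂ Φ (0, q)) (m 0) :=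
      m0 ▸ (h1.differentiableAt (by simp)).hasFDerivAt
    rw [show fderiv ℂ Ψ 0 = _ from (((p 2).hasFDerivAt.const_add 1).fun_smul (b.comp 0 a)).fderiv]
    simp [p, h3, m0, h2, hP, hg]
  have inj : Function.Injective (fderiv ℂ Ψ 0) := (injective_iff_map_eq_zero _).2 fun w hw => by
    rw [d] at hw
    have a := congrArg (dot g) hw
    rw [dot_add_right, dot_add_right, dot_smul_right, dot_smul_right, dot_smul_right, gv, gq,
      dot_comm, dot_crs_left, dot_zero_right] at a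
    have w0 : w 0 = 0 := by simpa using a
    have b := congrArg (dot l) hw
    rw [w0, zero_smul, zero_add, dot_add_right, dot_smul_right, dot_smul_right, dot_comm,
      dot_crs_right, dot_comm, ← hm_eq_dot, hm_self, dot_zero_right] at b
    have w2 : w 2 = 0 := by simpa [q0.ne'] using b
    rw [w0, w2, zero_smul, zero_smul, zero_add, add_zero, smul_eq_zero] at hw
    exact ext3 w0 (hw.resolve_right fun h => by rw [h, nn_zero] at e0; exact lt_irrefl _ e0) w2
  let D : E ≃L[ℂ] E :=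
    (LinearEquiv.ofInjectiveEndo (fderiv ℂ Ψ 0 : E →ₗ[ℂ] E) inj).toContinuousLinearEquiv
  have dD : HasFDerivAt Ψ (D : E →L[ℂ] E) 0 := (c2.differentiableAt (by simp)).hasFDerivAt
  have st := c2.hasStrictFDerivAt' dD (by simp)
  refine ⟨v, Ψ, c2.localInverse dD (by simp), c2.analyticAt,
    (Ψ0 ▸ c2.to_localInverse dD (by simp)).analyticAt, Ψ0,
    Ψ0 ▸ c2.localInverse_apply_image dD (by simp), st.eventually_left_inverse,
    Ψ0 ▸ st.eventually_right_inverse, ?_, fun h => ?_, ?_⟩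
  · have c3 : ContinuousAt (fun w : E => (1 : ℂ) + w 2) 0 :=
      continuousAt_const.add (continuous_apply 2).continuousAt
    filter_upwards [cm.continuous.continuousAt.eventually (m0 ▸ h4),
      c3.eventually_ne (y := 0) (by simp)] with w a b
    refine Iff.trans ⟨fun h => ?_, fun h => hS.cone _ h _ b⟩ a
    simpa [Ψ, smul_smul, inv_mul_cancel₀ b] using hS.cone _ h _ (inv_ne_zero b)
  · exact one_ne_zero (gv.symm.trans (((hA q hq).2 v).2 h))
  · rw [d]
    simp only [Pi.single_apply]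
    simp only [Fin.isValue, Fin.reduceEq, ↓reduceIte, zero_smul, one_smul, zero_add, add_zero]
    rw [lagr, hm_eq_dot, dot_crs_right]
    simpa using mul_pos q0 e0

lemma taylor_q (h : ContDiffAt ℝ 2 r q) : ∃ L : ℝ, 0 ≤ L ∧ ∃ δ > 0, ∀ p ∈ ball q δ,
    ∀ p' ∈ ball q δ, |r p' - r p - fderiv ℝ r p (p' - p)| ≤ L * ‖p' - p‖ ^ 2 := by
  have c3 : ContDiffAt ℝ 1 (fderiv ℝ r) q := h.fderiv_right (by norm_num)
  obtain ⟨K, t, ht, hK⟩ := c3.exists_lipschitzOnWith
  obtain ⟨R, hR, hb⟩ := Metric.eventually_nhds_iff_ball.1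
    (Filter.Eventually.and ht (h.eventually (by simp)))
  refine ⟨K, K.2, R, hR, fun y hy y' hy' => ?_⟩
  have sub : segment ℝ y y' ⊆ ball q R := (convex_ball q R).segment_subset hy hy'
  have := (convex_segment y y').norm_image_sub_le_of_norm_hasFDerivWithin_le'
    (fun x hx => ((hb x (sub hx)).2.differentiableAt (by norm_num)).hasFDerivAt.hasFDerivWithinAt)
    (φ := fderiv ℝ r y) (C := K * ‖y' - y‖) (fun x hx => by
      have a1 := hK.dist_le_mul x (hb x (sub hx)).1 y (hb y hy).1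
      rw [dist_eq_norm, dist_eq_norm] at a1
      refine a1.trans (mul_le_mul_of_nonneg_left ?_ K.2)
      have := (segment_subset_closedBall_left y y') hx
      rwa [mem_closedBall, dist_eq_norm, dist_eq_norm, norm_sub_rev y y'] at this)
    (left_mem_segment ℝ y y') (right_mem_segment ℝ y y')
  rwa [mul_assoc, ← pow_two] at this

/-- a hypersurface which contains `S` near `q` agrees with it -/
lemma LocDef.eq_of_sub (h : LocDef S U r) (hq : q ∈ U) (hS : q ∈ S) {φ : E → ℝ}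
    {φ' : E →L[ℝ] ℝ} (hφ : HasStrictFDerivAt φ φ' q) (h0 : φ' ≠ 0)
    (hs : ∀ᶠ y in 𝓝 q, y ∈ S → φ y = 0) : ∀ᶠ y in 𝓝 q, φ y = 0 → y ∈ S := by
  obtain ⟨κ, k⟩ := h.ret hq hS
  obtain ⟨c, hc⟩ := h.lagrange hq hS hφ
    (hs.mono fun y a b => by rw [a b, hs.self_of_nhds hS])
  have c0 : c ≠ 0 := by rintro rfl; exact h0 (by simpa using hc)
  obtain ⟨ν, hν⟩ := exists_cf_one (h.ne q hq hS)
  have hν1 : fderiv ℝ r q ν = 1 := by rw [← cf_re, hν]; simp
  have d := (k.sm.hasStrictFDerivAt (by norm_num)).add (hφ.smul_const ν)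
  have t : Tendsto κ (𝓝 q) (𝓝 q) := k.tend.mono_right nhdsWithin_le_nhds
  have z : (fderiv ℝ r q).comp (fderiv ℝ κ q) = 0 := by
    have a : HasFDerivAt r (fderiv ℝ r q) (κ q) := by rw [k.self]; exact h.fd hq
    refine (a.comp q (k.sm.differentiableAt (by norm_num)).hasFDerivAt).unique
      ((hasFDerivAt_const (0 : ℝ) q).congr_of_eventuallyEq ?_)
    filter_upwards [k.mem, t.eventually_mem (h.op.mem_nhds hq)] with y a b
    exact (h.zero _ b).1 a
  have inj : Function.Injective (fderiv ℝ κ q + φ'.smulRight ν) :=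
    (injective_iff_map_eq_zero _).2 fun w hw => by
      have a := congrArg (fderiv ℝ r q) hw
      have b : fderiv ℝ r q (fderiv ℝ κ q w) = 0 := congrArg (fun L : E →L[ℝ] ℝ => L w) z
      have e : fderiv ℝ r q w = 0 := by simpa [b, hν1, hc, c0] using a
      simpa [hc, e, k.der w e] using hw
  let D : E ≃L[ℝ] E := (LinearEquiv.ofInjectiveEndo
    ((fderiv ℝ κ q + φ'.smulRight ν : E →L[ℝ] E) : E →ₗ[ℝ] E) inj).toContinuousLinearEquiv
  have li := HasStrictFDerivAt.eventually_left_inverse (f' := D) d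
  filter_upwards [li, t.eventually li, k.mem, t.eventually k.fix, t.eventually hs]
    with y a1 a2 a3 a4 a5 a6
  simp only [Pi.add_apply, a6, a4 a3, a5 a3] at a1 a2
  rwa [← a1, a2]

end Pool.Agent.Lib.MP_4e4ac8_an
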