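import Pool.Agent.Lib.MP_4e4ac8_an.H1

/-!
One step along a leaf which contracts the transverse direction, locally uniformly.
-/

set_option autoImplicit false
open Filter Topology Complex Set Metric
open scoped ContDiff

namespace Pool.Agent.Lib.MP_4e4ac8_an

variable {S U : Set E} {r : E → ℝ} {q v : E} {Ψ T : E → E}

/-- `G` is a conormal form of length one -/
def UC (S : Set E) (x : E) (G : E →L[ℂ] ℂ) : Prop :=
  (∃ c : ℂ, ∀ ξ, G ξ = c * cn S x ξ) ∧ nn (vecf G) = 1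

/-- a first integral `t` near `x` and a transverse disc `y` further along the leaf -/
structure Step (S : Set E) (ρ M θ θ' : ℝ) (x : E) (t : E → ℂ) (y : ℂ → E) (u : ℂ) : Prop where
  t1 : AnalyticAt ℂ t x
  t2 : DifferentiableOn ℂ t (ball x ρ)
  t3 : t x = 0
  t4 : ∀ z ∈ ball x ρ, ‖t z‖ ≤ 1
  t5 : UC S x (fderiv ℂ t x)
  y1 : DifferentiableOn ℂ y (ball 0 ρ)
  y2 : y 0 ∈ S ∧ nn (y 0) = 1
  y3 : ∀ s ∈ ball (0 : ℂ) ρ, ‖y s - y 0‖ ≤ 1
  sat : ∀ z ∈ ball x ρ, z ∈ S → y (t z) ∈ S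
  con : ∀ G, UC S (y 0) G → θ' ≤ ‖G (deriv y 0)‖ ∧ ‖G (deriv y 0)‖ ≤ θ
  u1 : ‖u‖ = 1
  u2 : ∀ s ∈ ball (0 : ℂ) ρ, y s ∈ S → |(u * s).im| ≤ M * ‖s‖ ^ 2

lemma Step.mono {ρ M θ θ' ρ1 M1 θ1 θ1' : ℝ} {x : E} {t : E → ℂ} {y : ℂ → E} {u : ℂ}
    (h : Step S ρ M θ θ' x t y u) (a : ρ1 ≤ ρ) (b : M ≤ M1) (c : θ ≤ θ1) (d : θ1' ≤ θ') :
    Step S ρ1 M1 θ1 θ1' x t y u :=
  ⟨h.t1, h.t2.mono (ball_subset_ball a), h.t3, fun z hz => h.t4 z (ball_subset_ball a hz), h.t5,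
    h.y1.mono (ball_subset_ball a), h.y2, fun z hz => h.y3 z (ball_subset_ball a hz),
    fun z hz => h.sat z (ball_subset_ball a hz),
    fun G hG => ⟨d.trans (h.con G hG).1, (h.con G hG).2.trans c⟩, h.u1,
    fun s hs hy => (h.u2 s (ball_subset_ball a hs) hy).trans (by gcongr)⟩

/-- the differential of the first coordinate -/
noncomputable def GT (T : E → E) (x : E) : E →L[ℂ] ℂ :=
  (ContinuousLinearMap.proj 0).comp (fderiv ℂ T x)

lemma GT_fd {x : E} (h : AnalyticAt ℂ T x) : HasFDerivAt (fun z => T z 0) (GT T x) x :=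
  hasFDerivAt_pi'.1 h.differentiableAt.hasFDerivAt 0

lemma GT_an {x : E} (h : AnalyticAt ℂ T x) : AnalyticAt ℂ (fun z => vecf (GT T z)) x :=
  analyticAt_pi_iff.2 fun i => ((ContinuousLinearMap.proj 0 : E →L[ℂ] ℂ).comp
    (ContinuousLinearMap.apply ℂ E (Pi.single i 1 : E))).analyticAt _ |>.comp h.fderiv

lemma vecf_pos {G : E →L[ℂ] ℂ} {ξ : E} (h : G ξ = 1) : 0 < nn (vecf G) := nn_pos fun h0 => by
  rw [← dot_vecf, h0, dot_comm, dot_zero_right] at h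
  exact zero_ne_one h

lemma cont_cf (h : LocDef S U r) {x : E} (hx : x ∈ U) (w : E) :
    ContinuousAt (fun x => cf (fderiv ℝ r x) w) x :=
  (contDiff_cf w).continuous.continuousAt.comp (h.cd1 hx).continuousAt

lemma ev_prod {α β : Type} [PseudoMetricSpace α] [PseudoMetricSpace β] {a : α} {b : β}
    {P : α × β → Prop} (h : ∀ᶠ p in 𝓝 (a, b), P p) :
    ∃ ρ > 0, ∀ x ∈ ball a ρ, ∀ y ∈ ball b ρ, P (x, y) := by
  obtain ⟨ρ, h0, h1⟩ := Metric.eventually_nhds_iff_ball.1 h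
  exact ⟨ρ, h0, fun x hx y hy => h1 _ (ball_prod_same a b ρ ▸ ⟨hx, hy⟩)⟩

namespace Box

lemma tT (B : Box S q v Ψ T) : Tendsto T (𝓝 q) (𝓝 0) := B.e2 ▸ B.a2.continuousAt.tendsto

lemma tΨ (B : Box S q v Ψ T) : Tendsto Ψ (𝓝 0) (𝓝 q) := B.e1 ▸ B.a1.continuousAt.tendsto

lemma tp (q v : E) : Tendsto (fun w : E => q + w 0 • v) (𝓝 0) (𝓝 q) := by
  have : Continuous fun w : E => q + w 0 • v := by fun_prop
  simpa using this.tendsto 0

lemma cfv (B : Box S q v Ψ T) (hS : LF S) (hq : q ∈ S) (h : LocDef S U r) (hU : q ∈ U) :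
    cf (fderiv ℝ r q) v ≠ 0 := fun h0 => by
  obtain ⟨c, -, hc⟩ := hS.con hq U r h hU
  exact B.tv (by rw [hc, h0, mul_zero])

lemma con (B : Box S q v Ψ T) (hS : LF S) (hq : q ∈ S) :
    ∀ᶠ x in 𝓝 q, x ∈ S → ∃ c : ℂ, ∀ ξ, GT T x ξ = c * cn S x ξ := by
  obtain ⟨U, r, hU, h⟩ := hS.loc q hq
  have t := (tp q v).comp B.tT
  have e1 : ∀ᶠ y in 𝓝 q, y ∈ S → r (q + T y 0 • v) = 0 := by
    filter_upwards [B.ri, B.tT.eventually B.sat, t.eventually_mem (h.op.mem_nhds hU)] with y a b c d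
    exact (h.zero _ c).1 (b.1 (a.symm ▸ d))
  filter_upwards [e1.eventually_nhds, h.op.mem_nhds hU, B.a2.eventually_analyticAt,
    t.eventually_mem (h.op.mem_nhds hU),
    t.eventually ((cont_cf h hU v).eventually_ne (B.cfv hS hq h hU))] with x a b c d e hx
  have d1 : HasStrictFDerivAt (fun z => T z 0) (GT T x) x :=
    hasStrictFDerivAt_pi'.1 c.hasStrictFDerivAt 0
  obtain ⟨κ, hκ⟩ := h.lagrange b hx (((h.cd d).hasStrictFDerivAt (by norm_num)).comp x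
    (((d1.smul_const v).const_add q).restrictScalars ℝ))
    (a.mono fun y h1 h2 => by simp only [Function.comp, h1 h2, a.self_of_nhds hx, le_refl])
  obtain ⟨ρ, ρ0, hρ⟩ := hS.con hx U r h b
  have ρ1 : (ρ : ℂ) ≠ 0 := by exact_mod_cast ρ0
  refine ⟨κ / ρ / cf (fderiv ℝ r (q + T x 0 • v)) v, fun ξ => ?_⟩
  have k := congrArg (fun D => cf D ξ) hκ
  have k2 : cf (fderiv ℝ r (q + T x 0 • v)) (GT T x ξ • v) = κ * cf (fderiv ℝ r x) ξ := by
    rw [← cf_smul, ← k, cf_apply, cf_apply]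
    simp [smul_smul]
  rw [map_smul, smul_eq_mul] at k2
  simp only [Function.comp] at e
  rw [hρ]
  field_simp
  exact k2

lemma one (B : Box S q v Ψ T) :
    ∀ᶠ w in 𝓝 0, GT T (Ψ w) (fderiv ℂ Ψ w (Pi.single 0 1)) = 1 := by
  filter_upwards [B.li.eventually_nhds, B.a1.eventually_analyticAt,
    B.tΨ.eventually B.a2.eventually_analyticAt] with w a b c
  have := (c.differentiableAt.hasFDerivAt.comp w b.differentiableAt.hasFDerivAt).unique
    ((hasFDerivAt_id w).congr_of_eventuallyEq a)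
  simpa [GT] using congrArg (fun L : E →L[ℂ] E => L (Pi.single 0 1) 0) this

lemma grow (B : Box S q v Ψ T) (q0 : q ≠ 0) : ∃ᶠ z : ℂ in 𝓝 0, nn (vecf (GT T q)) * nn q <
    nn (vecf (GT T (Ψ (z • Pi.single 1 1)))) * nn (Ψ (z • Pi.single 1 1)) := by
  by_contra hc
  simp only [not_frequently, not_lt] at hc
  have l : AnalyticAt ℂ (fun z : ℂ => z • (Pi.single 1 1 : E)) 0 := by fun_prop
  have a1 : AnalyticAt ℂ (fun z : ℂ => Ψ (z • (Pi.single 1 1 : E))) 0 :=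
    B.a1.comp_of_eq l (by simp)
  have e : Ψ ((0 : ℂ) • (Pi.single 1 1 : E)) = q := by simp [B.e1]
  have a2 : AnalyticAt ℂ (fun z : ℂ => vecf (GT T (Ψ (z • (Pi.single 1 1 : E))))) 0 :=
    (GT_an B.a2).comp_of_eq a1 e
  have g0 : 0 < nn (vecf (GT T q)) := vecf_pos (B.e1 ▸ B.one.self_of_nhds)
  have d : HasDerivAt (fun z : ℂ => Ψ (z • (Pi.single 1 1 : E)))
      (fderiv ℂ Ψ 0 (Pi.single 1 1)) 0 := by
    exact (B.a1.differentiableAt.hasFDerivAt.comp_hasDerivAt_of_eq (0 : ℂ)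
      ((hasDerivAt_id (0 : ℂ)).smul_const (Pi.single 1 1 : E)) (by simp)).congr_deriv (by simp)
  refine maxp (n := 1) (G := fun _ => vecf (GT T q))
    (W := fun z => hm (vecf (GT T (Ψ (z • (Pi.single 1 1 : E))))) (vecf (GT T q)))
    (a1.eventually_analyticAt.mono fun _ h => h.differentiableAt)
    (Eventually.of_forall fun _ => differentiableAt_const _)
    (a2.eventually_analyticAt.mono fun _ h =>
      (hasDerivAt_hm_left _ h.differentiableAt.hasDerivAt).differentiableAt)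
    d (hasDerivAt_const _ _) (by rwa [e]) (fun h => by simp [h, nn_zero] at g0)
    (by simp only [e, hm_self]; exact_mod_cast g0.ne') ?_ ?_
  · simp only [e, crs_zero_right, nn_zero]
    simpa using div_pos B.dir (pow_pos (nn_pos q0) 2)
  · filter_upwards [hc] with z hz
    simp only [e, hm_self, normSq_ofReal, mul_one, pow_one]
    refine div_le_div_of_nonneg_right ?_ (by positivity)
    have := mul_le_mul_of_nonneg_right (cs_hm (vecf (GT T (Ψ (z • (Pi.single 1 1 : E)))))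
      (vecf (GT T q))) (nn_nonneg (Ψ (z • (Pi.single 1 1 : E))))
    nlinarith

end Box

theorem LF.step_loc (hS : LF S) (hq : q ∈ S) (q1 : nn q = 1) {A : Fin 3 → Pol} (hA : Alg S A) :
    ∃ ρ M θ θ' : ℝ, 0 < ρ ∧ 0 ≤ M ∧ θ < 1 ∧ 0 < θ' ∧
      ∀ᶠ x in 𝓝 q, x ∈ S → ∃ t y u, Step S ρ M θ θ' x t y u := by
  obtain ⟨v, Ψ, T, B⟩ := hS.box hq hA
  obtain ⟨U, r, hU, h⟩ := hS.loc q hq
  obtain ⟨L, L0, δ, δ0, hL⟩ := taylor_q ((h.cd hU).of_le (by norm_num))
  have q0 : q ≠ 0 := fun h => hS.nz (h ▸ hq)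
  let Good : E → Prop := fun w => AnalyticAt ℂ Ψ w ∧ AnalyticAt ℂ T (Ψ w) ∧
    (Ψ w ∈ S ↔ q + w 0 • v ∈ S) ∧ GT T (Ψ w) (fderiv ℂ Ψ w (Pi.single 0 1)) = 1 ∧
    (Ψ w ∈ S → ∃ c : ℂ, ∀ ξ, GT T (Ψ w) ξ = c * cn S (Ψ w) ξ) ∧ Ψ w ≠ 0 ∧
    q + w 0 • v ∈ U ∧ q + w 0 • v ∈ ball q δ
  have gd : ∀ᶠ w in 𝓝 0, Good w := by
    filter_upwards [B.a1.eventually_analyticAt, B.tΨ.eventually B.a2.eventually_analyticAt, B.sat,
      B.one, B.tΨ.eventually (B.con hS hq), B.tΨ.eventually_ne q0,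
      (Box.tp q v).eventually_mem (h.op.mem_nhds hU),
      (Box.tp q v).eventually_mem (ball_mem_nhds q δ0)] with w a b c d e f g i
    exact ⟨a, b, c, d, e, f, g, i⟩
  have l : Tendsto (fun z : ℂ => z • (Pi.single 1 1 : E)) (𝓝 0) (𝓝 0) := by
    exact (continuous_id.smul continuous_const).tendsto' 0 0 (by simp)
  obtain ⟨z0, gr, g1⟩ := ((B.grow q0).and_eventually (l.eventually gd.eventually_nhds)).exists
  set w1 : E := z0 • Pi.single 1 1 with hw1
  have w10 : w1 0 = 0 := by simp [hw1]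
  let n : E → ℝ := fun x => nn (vecf (GT T x))
  let a : E → ℝ := fun x => √(n x)
  let t : E → E → ℂ := fun x z => ((a x)⁻¹ : ℝ) * (T z 0 - T x 0)
  let W : E → ℂ → E := fun x s => T x + w1 + ((a x : ℂ) * s) • Pi.single 0 1
  let c : E → ℝ := fun x => (√(nn (Ψ (T x + w1))))⁻¹
  let y : E → ℂ → E := fun x s => (c x : ℂ) • Ψ (W x s)
  let b : E → ℂ := fun x => cf (fderiv ℝ r (q + T x 0 • v)) v
  let k : E → ℝ := fun x => (√(n (Ψ (T x + w1))))⁻¹ * c x * a x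
  have W0 : ∀ x, W x 0 = T x + w1 := fun x => by simp [W]
  have cT := B.a2.continuousAt
  have n0 : 0 < n q := vecf_pos (B.e1 ▸ B.one.self_of_nhds)
  have ca : ContinuousAt a q := (continuousAt_nn (GT_an B.a2).continuousAt).sqrt
  have a0 : 0 < a q := Real.sqrt_pos.2 n0
  have e1 : T q + w1 = w1 := by rw [B.e2, zero_add]
  obtain ⟨p1, p2, -, p4, -, p6, -⟩ := g1.self_of_nhds
  have cX : ContinuousAt (fun x => Ψ (T x + w1)) q :=
    p1.continuousAt.comp_of_eq (cT.add continuousAt_const) e1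
  have X0 := nn_pos p6
  have cc : ContinuousAt c q := (continuousAt_nn cX).sqrt.inv₀ (by
    rw [e1]; exact (Real.sqrt_pos.2 X0).ne')
  have n1 : 0 < n (Ψ w1) := vecf_pos p4
  have ck : ContinuousAt k q := (((continuousAt_nn ((GT_an p2).continuousAt.comp_of_eq cX
    (by rw [e1]))).sqrt.inv₀ (by
      simp only [Function.comp, e1]; exact (Real.sqrt_pos.2 n1).ne')).mul cc).mul ca
  have k0 : 0 < k q := by
    simp only [k, c, e1]; positivity
  have k1 : k q < 1 := by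
    simp only [k, c, a, e1]
    rw [← mul_inv, ← Real.sqrt_mul n1.le, inv_mul_lt_one₀ (by positivity)]
    exact Real.sqrt_lt_sqrt n0.le (by simpa [q1] using gr)
  have b0 : b q ≠ 0 := by simpa [b, B.e2] using B.cfv hS hq h hU
  have cb : ContinuousAt b q := (cont_cf h hU v).comp_of_eq
    (continuousAt_const.add (((continuous_apply 0).continuousAt.comp cT).smul continuousAt_const))
    (by simp [B.e2])
  have cM : ContinuousAt (fun x => L * a x * ‖v‖ ^ 2 / ‖b x‖) q :=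
    ((continuousAt_const.mul ca).mul continuousAt_const).div cb.norm (norm_ne_zero_iff.2 b0)
  have cW : ∀ {Y : Type} [TopologicalSpace Y] {f : Y → E} {g : Y → ℂ} {p : Y}, ContinuousAt f p →
      ContinuousAt g p → f p = q → g p = 0 → Tendsto (fun p => W (f p) (g p)) (𝓝 p) (𝓝 w1) := by
    intro Y _ f g p hf hg e e'
    have := ((cT.comp_of_eq hf e).add (continuousAt_const (y := w1))).add
      (((continuous_ofReal.continuousAt.comp (ca.comp_of_eq hf e)).mul hg).smul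
        (continuousAt_const (y := (Pi.single 0 1 : E))))
    exact this.tendsto.trans (le_of_eq (by simp [e, e', B.e2]))
  have s1 : ContinuousAt (fun p : E × E => p.1 + p.2) (q, 0) := by fun_prop
  have s2 : Tendsto (fun p : E × E => p.1 + p.2) (𝓝 (q, 0)) (𝓝 q) := by
    simpa [ContinuousAt] using s1
  have ct : ContinuousAt (fun p : E × E => t p.1 (p.1 + p.2)) (q, 0) :=
    (continuous_ofReal.continuousAt.comp ((ca.inv₀ a0.ne').comp_of_eq continuousAt_fst rfl)).mul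
      (((continuous_apply 0).continuousAt.comp (cT.comp_of_eq s1 (by simp))).sub
        ((continuous_apply 0).continuousAt.comp (cT.comp_of_eq continuousAt_fst rfl)))
  obtain ⟨ρ1, ρ10, E1⟩ := ev_prod ((s2.eventually (B.a2.eventually_analyticAt.and
    (B.ri.and (B.tT.eventually gd)))).and ((ct.norm.eventually (gt_mem_nhds
      (show _ < 1 by simp [t]))).and
      ((cW continuousAt_fst ct rfl (by simp [t])).eventually g1)))
  have tW := cW (p := (q, (0 : ℂ))) continuousAt_fst continuousAt_snd rfl rfl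
  have cy : Tendsto (fun p : E × ℂ => ‖y p.1 p.2 - y p.1 0‖) (𝓝 (q, 0)) (𝓝 0) := by
    have c1 : Tendsto (fun p : E × ℂ => (c p.1 : ℂ)) (𝓝 (q, 0)) (𝓝 (c q)) :=
      continuous_ofReal.continuousAt.comp (cc.comp_of_eq continuousAt_fst rfl)
    exact ((c1.smul (p1.continuousAt.tendsto.comp tW)).sub (c1.smul
      (p1.continuousAt.tendsto.comp (cW (p := (q, (0 : ℂ))) (g := fun _ => 0) continuousAt_fst
        continuousAt_const rfl rfl)))).norm.trans (le_of_eq (by simp))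
  obtain ⟨ρ2, ρ20, E2⟩ := ev_prod ((tW.eventually g1).and (cy.eventually (gt_mem_nhds one_pos)))
  refine ⟨min ρ1 ρ2, L * a q * ‖v‖ ^ 2 / ‖b q‖ + 1, (1 + k q) / 2, k q / 2, lt_min ρ10 ρ20,
    by positivity, by linarith, by linarith, ?_⟩
  filter_upwards [ball_mem_nhds q ρ10, ball_mem_nhds q ρ20, ca.eventually (lt_mem_nhds a0),
    ck.eventually (Ioo_mem_nhds (show k q / 2 < k q by linarith)
      (show k q < (1 + k q) / 2 by linarith)),
    cM.eventually (gt_mem_nhds (lt_add_one _)), cb.eventually_ne b0] with x x1 x2 x3 x4 x5 x6 hx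
  have F1 := fun z (hz : z ∈ ball x (min ρ1 ρ2)) => E1 x x1 (z - x) (by
    rw [mem_ball_zero_iff, ← dist_eq_norm]; exact (mem_ball.1 hz).trans_le (min_le_left _ _))
  simp only [add_sub_cancel] at F1
  have F2 := fun s (hs : s ∈ ball (0 : ℂ) (min ρ1 ρ2)) =>
    E2 x x2 s (ball_subset_ball (min_le_right _ _) hs)
  have ρ0 := lt_min ρ10 ρ20
  obtain ⟨⟨f1, f2, f3⟩, -⟩ := F1 x (mem_ball_self ρ0)
  obtain ⟨⟨r1, r2, r3, r4, r5, r6, -⟩, -⟩ := F2 0 (mem_ball_self ρ0)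
  simp only [W0] at r1 r2 r3 r4 r5 r6
  have a1 : (a x : ℂ) ≠ 0 := by exact_mod_cast x3.ne'
  have c0 : 0 < c x := inv_pos.2 (Real.sqrt_pos.2 (nn_pos r6))
  have c1 : (c x : ℂ) ≠ 0 := by exact_mod_cast c0.ne'
  have pS : q + T x 0 • v ∈ S := f3.2.2.1.1 (f2.symm ▸ hx)
  have XS : Ψ (T x + w1) ∈ S := r3.2 (by simpa [w10] using pS)
  have dt : ∀ z, AnalyticAt ℂ T z → HasFDerivAt (t x) ((((a x)⁻¹ : ℝ) : ℂ) • GT T z) z :=
    fun z hz => ((GT_fd hz).sub_const _).const_mul _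
  have dy : ∀ s, AnalyticAt ℂ Ψ (W x s) → HasDerivAt (y x)
      ((c x : ℂ) • fderiv ℂ Ψ (W x s) ((a x : ℂ) • Pi.single 0 1)) s := fun s hs => by
    exact ((hs.differentiableAt.hasFDerivAt.comp_hasDerivAt s
      ((((hasDerivAt_id s).const_mul (a x : ℂ)).smul_const (Pi.single 0 1 : E)).const_add
        (T x + w1))).const_smul (c x : ℂ)).congr_deriv (by rw [mul_one])
  refine ⟨t x, y x, I * b x / ‖b x‖, analyticAt_const.mul ((analyticAt_pi_iff.1 f1 0).sub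
    analyticAt_const), fun z hz => (dt z (F1 z hz).1.1).differentiableAt.differentiableWithinAt,
    by simp [t], fun z hz => (F1 z hz).2.1.le, ?_,
    fun s hs => (dy s (F2 s hs).1.1).differentiableAt.differentiableWithinAt,
    ⟨by simpa only [y, W0] using hS.cone _ XS _ c1, ?_⟩, fun s hs => (F2 s hs).2.le,
    fun z hz zS => hS.cone _ ((F1 z hz).2.2.2.2.1.2 ?_) _ c1, fun G hG => ?_, by simp [x6],
    fun s hs ys => ?_⟩
  · rw [(dt x f1).fderiv]
    obtain ⟨κ, hκ⟩ := f3.2.2.2.2.1 (f2.symm ▸ hx)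
    rw [f2] at hκ
    refine ⟨⟨(((a x)⁻¹ : ℝ) : ℂ) * κ, fun ξ => by simp [hκ, mul_assoc]⟩, ?_⟩
    rw [show vecf _ = (((a x)⁻¹ : ℝ) : ℂ) • vecf (GT T x) from rfl, nn_smul, normSq_ofReal,
      ← mul_inv, Real.mul_self_sqrt (nn_nonneg _), inv_mul_cancel₀ (Real.sqrt_pos.1 x3).ne']
  · simp only [y, W0, c]
    rw [nn_smul, normSq_ofReal, ← mul_inv, Real.mul_self_sqrt (nn_nonneg _),
      inv_mul_cancel₀ (nn_pos r6).ne']
  · have := (F1 z hz).1.2.2.2.2.1.1 ((F1 z hz).1.2.1.symm ▸ zS)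
    simpa [W, t, w10, ← mul_assoc, a1] using this
  · rw [(dy 0 (W0 x ▸ r1)).deriv, W0]
    obtain ⟨⟨κ1, h1⟩, h2⟩ := hG
    simp only [y, W0] at h1
    obtain ⟨κ2, -, h3⟩ := hS.cn_scale XS c1
    obtain ⟨κ3, h4⟩ := r5 XS
    have κ0 : κ3 ≠ 0 := by rintro rfl; simp [h4] at r4
    have h5 : ∀ ξ, G ξ = κ1 * κ2 / κ3 * GT T (Ψ (T x + w1)) ξ := fun ξ => by
      rw [h1, h3, h4]; field_simp
    have h6 : ‖κ1 * κ2 / κ3‖ = (√(n (Ψ (T x + w1))))⁻¹ := by
      rw [show vecf G = (κ1 * κ2 / κ3) • vecf (GT T (Ψ (T x + w1))) from funext fun i => h5 _,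
        nn_smul, normSq_eq_norm_sq] at h2
      rw [← Real.sqrt_inv, eq_comm, Real.sqrt_eq_iff_mul_self_eq (inv_nonneg.2 (nn_nonneg _))
        (norm_nonneg _), ← pow_two]
      exact (eq_inv_of_mul_eq_one_left h2).symm
    have h7 : ‖G ((c x : ℂ) • fderiv ℂ Ψ (T x + w1) ((a x : ℂ) • Pi.single 0 1))‖ = k x := by
      rw [h5, map_smul, map_smul, map_smul, r4, norm_mul, h6]
      simp [k, abs_of_pos c0, abs_of_pos x3, mul_assoc]
    rw [h7]
    exact ⟨x4.1.le, x4.2.le⟩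
  · have g := (F2 s hs).1
    have pS' := g.2.2.1.1 (inv_smul_smul₀ c1 (Ψ (W x s)) ▸ hS.cone _ ys _ (inv_ne_zero c1))
    have := hL _ f3.2.2.2.2.2.2.2 _ g.2.2.2.2.2.2.2
    rw [(h.zero _ g.2.2.2.2.2.2.1).1 pS', (h.zero _ f3.2.2.2.2.2.2.1).1 pS,
      show q + W x s 0 • v - (q + T x 0 • v) = ((a x : ℂ) * s) • v by simp [W, w10, add_smul],
      ← cf_re, map_smul, norm_smul, norm_mul] at this
    have nb := norm_pos_iff.2 x6
    have e : (I * b x / ‖b x‖ * s).im = (s * b x).re / ‖b x‖ := by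
      rw [div_mul_eq_mul_div, div_ofReal_im]; simp; ring
    rw [e, abs_div, abs_of_pos nb, div_le_iff₀ nb]
    rw [div_lt_iff₀ nb] at x5
    simp only [sub_zero, zero_sub, abs_neg, smul_eq_mul, mul_assoc, re_ofReal_mul, abs_mul,
      abs_of_pos x3, norm_real, Real.norm_eq_abs] at this
    have i1 : |(s * b x).re| ≤ L * a x * ‖v‖ ^ 2 * ‖s‖ ^ 2 :=
      le_of_mul_le_mul_left (this.trans (le_of_eq (by ring))) x3
    nlinarith [sq_nonneg ‖s‖]

end Pool.Agent.Lib.MP_4e4ac8_an
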