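import Mathlib

/-!
A Koenigs type limit straightens curves which are invariant under a chain of contractions.
-/

set_option autoImplicit false
open Filter Topology Set Metric Complex

namespace Pool.Agent.Lib.MP_4e4ac8_an

theorem koenigs {f : ℕ → ℂ → ℂ} {Γ : ℕ → Set ℂ} {u : ℕ → ℂ} {ρ M θ θ' : ℝ} (ρ0 : 0 < ρ)
    (M0 : 0 ≤ M) (θ1 : θ < 1) (θ0 : 0 < θ') (hd : ∀ n, DifferentiableOn ℂ (f n) (ball 0 ρ))
    (h0 : ∀ n, f n 0 = 0) (hM : ∀ n, ∀ s ∈ ball (0 : ℂ) ρ, ‖f n s‖ ≤ M * ‖s‖)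
    (h1 : ∀ n, θ' ≤ ‖deriv (f n) 0‖ ∧ ‖deriv (f n) 0‖ ≤ θ) (hu : ∀ n, ‖u n‖ = 1)
    (hΓ : ∀ n, ∀ s ∈ ball (0 : ℂ) ρ, s ∈ Γ n →
      f n s ∈ Γ (n + 1) ∧ |(u n * s).im| ≤ M * ‖s‖ ^ 2) :
    ∃ φ : ℂ → ℂ, AnalyticAt ℂ φ 0 ∧ deriv φ 0 ≠ 0 ∧ φ 0 = 0 ∧
      ∀ᶠ s in 𝓝 (0 : ℂ), s ∈ Γ 0 → (φ s).im = 0 := by
  set g : ℕ → ℂ → ℂ := fun n => dslope (f n) 0 with hg
  have g1 : ∀ n, DifferentiableOn ℂ (g n) (ball 0 ρ) := fun n =>
    (differentiableOn_dslope (ball_mem_nhds 0 ρ0)).2 (hd n)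
  have g2 : ∀ n s, f n s = s * g n s := fun n s => by
    simpa [h0] using (sub_smul_dslope (f n) 0 s).symm
  have g3 : ∀ n, g n 0 = deriv (f n) 0 := fun n => dslope_same _ _
  have g4 : ∀ n, ∀ s ∈ ball (0 : ℂ) ρ, ‖g n s‖ ≤ M + 1 := fun n s hs => by
    by_cases h : s = 0
    · rw [h, g3]; linarith [(h1 n).2]
    · have := hM n s hs
      rw [g2, norm_mul, mul_comm] at this
      linarith [le_of_mul_le_mul_right this (norm_pos_iff.2 h)]
  set L := 2 * (M + 1) / ρ with hL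
  have L0 : 0 < L := by positivity
  have g5 : ∀ n, ∀ s ∈ ball (0 : ℂ) ρ, ‖g n s - g n 0‖ ≤ L * ‖s‖ := fun n s hs => by
    simpa [dist_eq_norm] using dist_le_div_mul_dist_of_mapsTo_ball (R₂ := 2 * (M + 1)) (g1 n)
      (fun z hz => by
        rw [mem_closedBall, dist_eq_norm]
        linarith [norm_sub_le (g n z) (g n 0), g4 n z hz, g4 n 0 (mem_ball_self ρ0)]) hs
  set ε := min ρ ((1 - θ) / 2 / L) with hε
  have ε0 : 0 < ε := lt_min ρ0 (by have := sub_pos.2 θ1; positivity)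
  have ε1 : ball (0 : ℂ) ε ⊆ ball 0 ρ := ball_subset_ball (min_le_left _ _)
  set κ := (1 + θ) / 2 with hκ
  have κ0 : 0 < κ := by linarith [(h1 0).1, (h1 0).2]
  have κ1 : κ < 1 := by linarith
  have g6 : ∀ n, ∀ s ∈ ball (0 : ℂ) ε, ‖g n s‖ ≤ κ := fun n s hs => by
    have a := g5 n s (ε1 hs)
    have b : L * ‖s‖ ≤ (1 - θ) / 2 := by
      rw [mul_comm, ← le_div_iff₀ L0]
      exact (mem_ball_zero_iff.1 hs).le.trans (min_le_right _ _)
    have c := norm_sub_norm_le (g n s) (g n 0)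
    rw [g3] at a c
    linarith [(h1 n).2]
  let h : ℕ → ℂ → ℂ := fun n => Nat.rec id (fun n h s => f n (h s)) n
  have hs : ∀ n s, h (n + 1) s = f n (h n s) := fun _ _ => rfl
  have inb : ∀ n, ∀ s ∈ ball (0 : ℂ) ε, ∀ z : ℂ, ‖z‖ ≤ κ ^ n * ‖s‖ → z ∈ ball (0 : ℂ) ε :=
    fun n s hs z hz => mem_ball_zero_iff.2 ((hz.trans (mul_le_of_le_one_left (norm_nonneg _)
      (pow_le_one₀ κ0.le κ1.le))).trans_lt (mem_ball_zero_iff.1 hs))
  have b1 : ∀ n, ∀ s ∈ ball (0 : ℂ) ε, ‖h n s‖ ≤ κ ^ n * ‖s‖ := fun n s hz => by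
    induction n with
    | zero => simp [h]
    | succ n ih =>
      rw [hs, g2, norm_mul, pow_succ, mul_right_comm]
      exact mul_le_mul ih (g6 n _ (inb n s hz _ ih)) (norm_nonneg _) (by positivity)
  have b2 : ∀ n, ∀ s ∈ ball (0 : ℂ) ε, h n s ∈ ball (0 : ℂ) ρ := fun n s hz =>
    ε1 (inb n s hz _ (b1 n s hz))
  have b3 : ∀ n, DifferentiableOn ℂ (h n) (ball 0 ε) := fun n => by
    induction n with
    | zero => exact differentiableOn_id
    | succ n ih => exact (hd n).comp ih (b2 n)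
  have μ0 : ∀ n, g n 0 ≠ 0 := fun n => norm_pos_iff.1 (by rw [g3]; linarith [(h1 n).1])
  set e : ℕ → ℂ → ℂ := fun n s => (g n (h n s) - g n 0) / g n 0 with he
  have e1 : ∀ n, DifferentiableOn ℂ (e n) (ball 0 ε) := fun n =>
    (((g1 n).comp (b3 n) (b2 n)).sub_const _).div_const _
  have pr := (Summable.hasProdLocallyUniformlyOn_nat_one_add (f := e) isOpen_ball
    ((summable_geometric_of_lt_one κ0.le κ1).mul_right (L * ε / θ'))
    (Eventually.of_forall fun n s hz => by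
      rw [he, norm_div, div_le_iff₀ (norm_pos_iff.2 (μ0 n))]
      refine (g5 n _ (b2 n s hz)).trans ?_
      have a := (mem_ball_zero_iff.1 hz).le
      calc L * ‖h n s‖ ≤ L * (κ ^ n * ε) := by
            gcongr; exact (b1 n s hz).trans (by gcongr)
        _ = κ ^ n * (L * ε / θ') * θ' := by field_simp
        _ ≤ _ := by gcongr; rw [g3]; exact (h1 n).1)
    fun n => (e1 n).continuousOn).tendstoLocallyUniformlyOn_finsetRange
  set p : ℂ → ℂ := fun s => ∏' i, (1 + e i s) with hp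
  have dp : DifferentiableOn ℂ p (ball 0 ε) := pr.differentiableOn
    (Eventually.of_forall fun N => DifferentiableOn.fun_finsetProd fun i _ => (e1 i).const_add 1)
    isOpen_ball
  have p0 : p 0 = 1 := by
    have : ∀ n, h n 0 = 0 := fun n => norm_le_zero_iff.1 (by simpa using b1 n 0 (mem_ball_self ε0))
    simp [hp, he, this]
  set l : ℕ → ℂ := fun N => ∏ k ∈ Finset.range N, g k 0 with hl
  have l0 : ∀ N, 0 < ‖l N‖ := fun N => norm_pos_iff.2 (Finset.prod_ne_zero_iff.2 fun k _ => μ0 k)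
  have l1 : Tendsto (fun N => ‖l N‖) atTop (𝓝 0) := squeeze_zero (fun _ => norm_nonneg _)
    (fun N => by
      rw [hl, norm_prod]
      simpa using Finset.prod_le_prod (s := Finset.range N) (g := fun _ => κ)
        (fun k _ => norm_nonneg (g k 0)) fun k _ => g6 k 0 (mem_ball_self ε0))
    (tendsto_pow_atTop_nhds_zero_of_lt_one κ0.le κ1)
  have l2 : ∀ N s, h N s = l N * (s * ∏ k ∈ Finset.range N, (1 + e k s)) := fun N s => by
    induction N with
    | zero => simp [h, hl]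
    | succ N ih =>
      have := μ0 N
      rw [hs, g2]
      simp only [hl, he, Finset.prod_range_succ] at ih ⊢
      conv_lhs => enter [1]; rw [ih]
      field_simp
      ring
  obtain ⟨c, hc, ψ, ψ1, ψ2⟩ := (isCompact_sphere (0 : ℂ) 1).tendsto_subseq
    (x := fun N => u N * l N / ‖l N‖) fun N => by simp [hu, (l0 N).ne']
  have ap : AnalyticAt ℂ p 0 := dp.analyticAt (ball_mem_nhds 0 ε0)
  refine ⟨fun s => c * (s * p s), analyticAt_const.mul (analyticAt_id.mul ap), ?_, by simp, ?_⟩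
  · rw [(((hasDerivAt_id' (0 : ℂ)).fun_mul ap.differentiableAt.hasDerivAt).const_mul c).deriv]
    simpa [p0] using norm_pos_iff.1 (show 0 < ‖c‖ by simp [mem_sphere_zero_iff_norm.1 hc])
  · filter_upwards [ball_mem_nhds (0 : ℂ) ε0] with s hz hs0
    have m : ∀ N, h N s ∈ Γ N := fun N => by
      induction N with
      | zero => exact hs0
      | succ N ih => exact (hΓ N _ (b2 N s hz) ih).1
    have t1 := (pr.tendsto_at hz).const_mul s
    have t2 := (continuous_im.tendsto _).comp (ψ2.mul (t1.comp ψ1.tendsto_atTop))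
    have t3 := (l1.mul (t1.norm.pow 2)).const_mul M
    rw [zero_mul, mul_zero] at t3
    refine tendsto_nhds_unique t2 ((squeeze_zero_norm (f := fun N => (u N * l N / ‖l N‖ *
      (s * ∏ k ∈ Finset.range N, (1 + e k s))).im) (fun N => ?_) t3).comp ψ1.tendsto_atTop)
    have a := (hΓ N _ (b2 N s hz) (m N)).2
    rw [l2, norm_mul, ← mul_assoc] at a
    rw [div_mul_eq_mul_div, div_ofReal_im, Real.norm_eq_abs, abs_div, abs_of_pos (l0 N),
      div_le_iff₀ (l0 N)]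
    refine a.trans (le_of_eq ?_)
    ring

end Pool.Agent.Lib.MP_4e4ac8_an
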