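import Pool.Agent.Lib.MP_4e4ac8_an.H2
import Pool.Agent.Lib.MP_4e4ac8_an.HKoe

/-!
A closed Levi-flat cone with algebraic Levi foliation is real analytic.
-/

set_option autoImplicit false
open Filter Topology Complex Set Metric
open scoped ContDiff

namespace Pool.Agent.Lib.MP_4e4ac8_an

variable {S : Set E} {q : E}

lemma LF.step (hS : LF S) {A : Fin 3 → Pol} (hA : Alg S A) :
    ∃ ρ M θ θ' : ℝ, 0 < ρ ∧ 0 ≤ M ∧ θ < 1 ∧ 0 < θ' ∧
      ∀ x ∈ {x ∈ S | nn x = 1}, ∃ t y u, Step S ρ M θ θ' x t y u := by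
  refine hS.compact.induction_on (p := fun s => ∃ ρ M θ θ' : ℝ, 0 < ρ ∧ 0 ≤ M ∧ θ < 1 ∧ 0 < θ' ∧
    ∀ x ∈ s, ∃ t y u, Step S ρ M θ θ' x t y u)
    ⟨1, 0, 0, 1, one_pos, le_rfl, one_pos, one_pos, by simp⟩
    (fun s t h ⟨ρ, M, θ, θ', a, b, c, d, e⟩ => ⟨ρ, M, θ, θ', a, b, c, d, fun x hx => e x (h hx)⟩)
    ?_ ?_
  · rintro s t ⟨ρ, M, θ, θ', a, b, c, d, e⟩ ⟨ρ1, M1, θ1, θ1', a1, b1, c1, d1, e1⟩
    refine ⟨min ρ ρ1, max M M1, max θ θ1, min θ' θ1', lt_min a a1, le_max_of_le_left b,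
      max_lt c c1, lt_min d d1, fun x hx => ?_⟩
    rcases hx with hx | hx
    · obtain ⟨t, y, u, h⟩ := e x hx
      exact ⟨t, y, u, h.mono (min_le_left _ _) (le_max_left _ _) (le_max_left _ _)
        (min_le_left _ _)⟩
    · obtain ⟨t, y, u, h⟩ := e1 x hx
      exact ⟨t, y, u, h.mono (min_le_right _ _) (le_max_right _ _) (le_max_right _ _)
        (min_le_right _ _)⟩
  · intro x hx
    obtain ⟨ρ, M, θ, θ', a, b, c, d, e⟩ := hS.step_loc hx.1 hx.2 hA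
    exact ⟨_, nhdsWithin_mono _ (sep_subset _ _) (eventually_nhdsWithin_iff.2 e),
      ρ, M, θ, θ', a, b, c, d, fun _ h => h⟩

lemma LF.first (hS : LF S) {A : Fin 3 → Pol} (hA : Alg S A) (hq : q ∈ S) (q1 : nn q = 1) :
    ∃ F : E → ℂ, AnalyticAt ℂ F q ∧ fderiv ℂ F q ≠ 0 ∧ ∀ᶠ z in 𝓝 q, z ∈ S → (F z).im = 0 := by
  obtain ⟨ρ, M, θ, θ', ρ0, M0, θ1, θ0, h⟩ := hS.step hA
  choose! t y u st using h
  obtain ⟨x, x0, xs⟩ : ∃ x : ℕ → E, x 0 = q ∧ ∀ n, x (n + 1) = y (x n) 0 :=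
    ⟨fun n => Nat.rec q (fun _ x => y x 0) n, rfl, fun _ => rfl⟩
  have hx : ∀ n, x n ∈ {x ∈ S | nn x = 1} := fun n => by
    induction n with
    | zero => rw [x0]; exact ⟨hq, q1⟩
    | succ n ih => rw [xs]; exact (st _ ih).y2
  have s := fun n => st _ (hx n)
  have b0 : ball (0 : ℂ) (min ρ (ρ * ρ)) ⊆ ball 0 ρ := ball_subset_ball (min_le_left _ _)
  have b1 : ∀ n, ∀ z ∈ ball (0 : ℂ) ρ, ‖y (x n) z - x (n + 1)‖ ≤ 1 / ρ * ‖z‖ := fun n z hz => by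
    simpa [dist_eq_norm, xs] using dist_le_div_mul_dist_of_mapsTo_ball (R₂ := 1) (s n).y1
      (fun w hw => mem_closedBall_iff_norm.2 ((s n).y3 w hw)) hz
  have b2 : ∀ n, ∀ z ∈ ball (0 : ℂ) (min ρ (ρ * ρ)), y (x n) z ∈ ball (x (n + 1)) ρ :=
    fun n z hz => mem_ball_iff_norm.2 ((b1 n z (b0 hz)).trans_lt (by
      rw [one_div, inv_mul_lt_iff₀ ρ0]
      exact (mem_ball_zero_iff.1 hz).trans_le (min_le_right _ _)))
  have b3 : ∀ n, ∀ z ∈ ball (x n) ρ, ‖t (x n) z‖ ≤ 1 / ρ * ‖z - x n‖ := fun n z hz => by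
    simpa [dist_eq_norm, (s n).t3] using dist_le_div_mul_dist_of_mapsTo_ball (R₂ := 1) (s n).t2
      (fun w hw => by simpa [(s n).t3] using (s n).t4 w hw) hz
  obtain ⟨φ, φ1, φ2, -, φ3⟩ := koenigs (f := fun n z => t (x (n + 1)) (y (x n) z))
    (Γ := fun n => {z | y (x n) z ∈ S}) (u := fun n => u (x n)) (M := M + 1 / ρ * (1 / ρ))
    (lt_min ρ0 (mul_pos ρ0 ρ0)) (by positivity) θ1 θ0
    (fun n => (s (n + 1)).t2.comp ((s n).y1.mono b0) (b2 n))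
    (fun n => by rw [← xs]; exact (s (n + 1)).t3)
    (fun n z hz => (b3 _ _ (b2 n z hz)).trans (by
      have := mul_le_mul_of_nonneg_left (b1 n z (b0 hz)) (show 0 ≤ 1 / ρ by positivity)
      nlinarith [mul_nonneg M0 (norm_nonneg z)]))
    (fun n => by
      have := ((s (n + 1)).t1.differentiableAt.hasFDerivAt.comp_hasDerivAt_of_eq (0 : ℂ)
        ((s n).y1.differentiableAt (ball_mem_nhds 0 ρ0)).hasDerivAt (xs n)).deriv
      rw [show deriv (fun z => t (x (n + 1)) (y (x n) z)) 0 = _ from this]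
      exact (s n).con _ (by rw [← xs]; exact (s (n + 1)).t5))
    (fun n => (s n).u1) fun n z hz h => ⟨(s (n + 1)).sat _ (b2 n z hz) h,
      ((s n).u2 z (b0 hz) h).trans (by gcongr; exact le_add_of_nonneg_right (by positivity))⟩
  have s0 : Step S ρ M θ θ' q (t q) (y q) (u q) := st q ⟨hq, q1⟩
  rw [x0] at φ3
  have tt : Tendsto (t q) (𝓝 q) (𝓝 0) := s0.t3 ▸ s0.t1.continuousAt.tendsto
  refine ⟨fun z => φ (t q z), φ1.comp_of_eq s0.t1 s0.t3, fun h0 => ?_, ?_⟩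
  · have := (φ1.differentiableAt.hasDerivAt.comp_hasFDerivAt_of_eq q
      s0.t1.differentiableAt.hasFDerivAt s0.t3.symm).fderiv
    rw [show fderiv ℂ (fun z => φ (t q z)) q = _ from this] at h0
    have := s0.t5.2
    rw [show vecf _ = 0 from funext fun i => (mul_eq_zero.1
      (congrArg (fun L : E →L[ℂ] ℂ => L (Pi.single i 1)) h0)).resolve_left φ2, nn_zero] at this
    exact zero_ne_one this
  · filter_upwards [tt.eventually φ3, ball_mem_nhds q ρ0] with z a b c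
    exact a (s0.sat z b c)

theorem LF.analytic (hS : LF S) {A : Fin 3 → Pol} (hA : Alg S A) (hq : q ∈ S) :
    ∃ V : Set E, IsOpen V ∧ q ∈ V ∧ ∃ F : E → ℂ, AnalyticOnNhd ℂ F V ∧
      ∀ z ∈ V, fderiv ℂ F z ≠ 0 ∧ (z ∈ S ↔ (F z).im = 0) := by
  obtain ⟨c, c0, -, k1, k2⟩ := hS.unit hq
  obtain ⟨F, h1, h2, h3⟩ := hS.first hA k1 k2
  obtain ⟨U, r, hU, h⟩ := hS.loc q hq
  have l : AnalyticAt ℂ (fun z : E => c • z) q := by fun_prop
  have a : AnalyticAt ℂ (fun z => F (c • z)) q := h1.comp_of_eq l rfl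
  have n : fderiv ℂ (fun z => F (c • z)) q ≠ 0 := fun h0 => h2 (ContinuousLinearMap.ext fun w => by
    have := (h1.differentiableAt.hasFDerivAt.comp q ((hasFDerivAt_id q).const_smul c)).fderiv
    rw [show fderiv ℂ (fun z => F (c • z)) q = _ from this] at h0
    simpa [c0] using congrArg (fun L : E →L[ℂ] ℂ => L w) h0)
  have sub : ∀ᶠ z in 𝓝 q, z ∈ S → (F (c • z)).im = 0 :=
    (l.continuousAt.eventually h3).mono fun z hz hs => hz (hS.cone z hs c c0)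
  have sup := h.eq_of_sub hU hq (imCLM.hasStrictFDerivAt.comp q
    (a.hasStrictFDerivAt.restrictScalars ℝ)) (fun h0 => n (ContinuousLinearMap.ext fun w => by
      have e := fun w => congrArg (fun L : E →L[ℝ] ℝ => L w) h0
      exact Complex.ext (by simpa using e (I • w)) (by simpa using e w))) sub
  obtain ⟨V, v1, v2, v3⟩ := _root_.eventually_nhds_iff.1 (a.eventually_analyticAt.and
    ((a.fderiv.continuousAt.eventually_ne n).and (sub.and sup)))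
  exact ⟨V, v2, v3, _, fun z hz => (v1 z hz).1,
    fun z hz => ⟨(v1 z hz).2.1, (v1 z hz).2.2.1, (v1 z hz).2.2.2⟩⟩

end Pool.Agent.Lib.MP_4e4ac8_an
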