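import Mathlib

set_option autoImplicit false
open Filter Topology Complex

namespace Pool.Agent.Lib.MP_4e4ac8_an

abbrev E := Fin 3 → ℂ

/-- `r` is a local defining function of `S` on `U` whose Levi form vanishes. -/
structure LocDef (S : Set E) (U : Set E) (r : E → ℝ) : Prop where
  op : IsOpen U
  sm : ContDiffOn ℝ 3 r U
  zero : ∀ q ∈ U, q ∈ S ↔ r q = 0
  ne : ∀ q ∈ U, q ∈ S → fderiv ℝ r q ≠ 0
  levi : ∀ q ∈ U, q ∈ S → ∀ ξ : E, fderiv ℝ r q ξ = 0 → fderiv ℝ r q (I • ξ) = 0 →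
    fderiv ℝ (fderiv ℝ r) q ξ ξ + fderiv ℝ (fderiv ℝ r) q (I • ξ) (I • ξ) = 0

/-- the complex linear form with real part `D` -/
noncomputable def cf (D : E →L[ℝ] ℝ) : E →L[ℂ] ℂ := StrongDual.extendRCLike (𝕜 := ℂ) D

lemma cf_apply (D : E →L[ℝ] ℝ) (v : E) : cf D v = (D v : ℂ) - I * (D (I • v) : ℂ) := rfl

lemma cf_re (D : E →L[ℝ] ℝ) (v : E) : (cf D v).re = D v := by simp [cf_apply]

lemma cf_im (D : E →L[ℝ] ℝ) (v : E) : (cf D v).im = -D (I • v) := by simp [cf_apply]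

lemma cf_I (D : E →L[ℝ] ℝ) (v : E) : D (I • v) = -(cf D v).im := by simp [cf_im]

lemma cf_eq_zero (D : E →L[ℝ] ℝ) (v : E) : cf D v = 0 ↔ D v = 0 ∧ D (I • v) = 0 := by
  rw [Complex.ext_iff, cf_re, cf_im]; simp

lemma exists_cf_one {D : E →L[ℝ] ℝ} (hD : D ≠ 0) : ∃ n, cf D n = 1 := by
  obtain ⟨v, hv⟩ : ∃ v, D v ≠ 0 := by
    by_contra h
    push Not at h
    exact hD (ContinuousLinearMap.ext h)
  have : cf D v ≠ 0 := fun h => hv ((cf_eq_zero D v).1 h).1
  exact ⟨(cf D v)⁻¹ • v, by rw [map_smul, smul_eq_mul, inv_mul_cancel₀ this]⟩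

lemma cf_smul (ρ : ℝ) (D : E →L[ℝ] ℝ) (v : E) : cf (ρ • D) v = ρ * cf D v := by
  simp only [cf_apply, _root_.smul_apply, smul_eq_mul]
  push_cast; ring

variable {S U : Set E} {r : E → ℝ}

namespace LocDef

lemma cd (h : LocDef S U r) {q : E} (hq : q ∈ U) : ContDiffAt ℝ 3 r q :=
  h.sm.contDiffAt (h.op.mem_nhds hq)

lemma cd1 (h : LocDef S U r) {q : E} (hq : q ∈ U) : ContDiffAt ℝ 2 (fderiv ℝ r) q :=
  (h.cd hq).fderiv_right (by norm_num)

lemma cd2 (h : LocDef S U r) {q : E} (hq : q ∈ U) : ContDiffAt ℝ 1 (fderiv ℝ (fderiv ℝ r)) q :=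
  (h.cd1 hq).fderiv_right (by norm_num)

lemma fd (h : LocDef S U r) {q : E} (hq : q ∈ U) : HasFDerivAt r (fderiv ℝ r q) q :=
  ((h.cd hq).differentiableAt (by norm_num)).hasFDerivAt

lemma fd1 (h : LocDef S U r) {q : E} (hq : q ∈ U) :
    HasFDerivAt (fderiv ℝ r) (fderiv ℝ (fderiv ℝ r) q) q :=
  ((h.cd1 hq).differentiableAt (by norm_num)).hasFDerivAt

lemma symm (h : LocDef S U r) {q : E} (hq : q ∈ U) (v w : E) :
    fderiv ℝ (fderiv ℝ r) q v w = fderiv ℝ (fderiv ℝ r) q w v :=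
  (h.cd hq).isSymmSndFDerivAt (by simp; norm_num) v w

lemma proj (h : LocDef S U r) {p : E} (hp : p ∈ U) (hS : p ∈ S) :
    ∃ C : ℝ, 0 ≤ C ∧ ∀ᶠ y in 𝓝 p, ∃ y' ∈ S, ‖y' - y‖ ≤ C * |r y| := by
  obtain ⟨v, hv⟩ := exists_cf_one (h.ne p hp hS)
  have hv1 : fderiv ℝ r p v = 1 := by rw [← cf_re, hv]; simp
  have hc : ContinuousAt (fun y => fderiv ℝ r y v) p :=
    (h.cd1 hp).continuousAt.clm_apply continuousAt_const
  have e1 : ∀ᶠ y in 𝓝 p, y ∈ U ∧ (1 / 2 : ℝ) < fderiv ℝ r y v :=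
    Filter.Eventually.and (h.op.mem_nhds hp) (hc.eventually (lt_mem_nhds (by simp only [hv1]; norm_num)))
  obtain ⟨δ, hδ, hb⟩ := Metric.eventually_nhds_iff.1 e1
  refine ⟨2 * ‖v‖, by positivity, ?_⟩
  have hr0 : r p = 0 := (h.zero p hp).1 hS
  have hcr : ContinuousAt (fun y => 2 * ‖v‖ * |r y|) p :=
    continuousAt_const.mul (h.cd hp).continuousAt.abs
  have e2 : ∀ᶠ y in 𝓝 p, 2 * ‖v‖ * |r y| < δ / 2 :=
    hcr.eventually (gt_mem_nhds (by simp [hr0, hδ]))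
  filter_upwards [e2, Metric.ball_mem_nhds p (half_pos hδ)] with y h2 h3
  set a := 2 * |r y| with ha
  have ha0 : 0 ≤ a := by positivity
  have hin : ∀ t ∈ Set.Icc (-a) a, dist (y + t • v) p < δ := by
    intro t ht
    have h4 : ‖t • v‖ ≤ a * ‖v‖ := by
      rw [norm_smul, Real.norm_eq_abs]
      exact mul_le_mul_of_nonneg_right (abs_le.2 ht) (norm_nonneg _)
    have h5 : dist (y + t • v) y = ‖t • v‖ := by simp [dist_eq_norm]
    have h6 := dist_triangle (y + t • v) y p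
    have h7 : dist y p < δ / 2 := h3
    nlinarith
  have hd : ∀ t ∈ Set.Icc (-a) a, HasDerivAt (fun t : ℝ => r (y + t • v))
      (fderiv ℝ r (y + t • v) v) t := by
    intro t ht
    have h1 : HasDerivAt (fun t : ℝ => y + t • v) v t := by
      simpa using ((hasDerivAt_id t).smul_const v).const_add y
    exact (h.fd (hb (hin t ht)).1).comp_hasDerivAt t h1
  have hcont : ContinuousOn (fun t : ℝ => r (y + t • v)) (Set.Icc (-a) a) :=
    fun t ht => (hd t ht).continuousAt.continuousWithinAt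
  have hm := (convex_Icc (-a) a).mul_sub_le_image_sub_of_le_deriv hcont
    (fun t ht => (hd t (interior_subset ht)).differentiableAt.differentiableWithinAt) (C := 1 / 2)
    (fun t ht => by
      rw [(hd t (interior_subset ht)).deriv]; exact (hb (hin t (interior_subset ht))).2.le)
  have z0 : (0 : ℝ) ∈ Set.Icc (-a) a := ⟨by linarith, ha0⟩
  have m1 := hm 0 z0 a ⟨by linarith, le_rfl⟩ ha0
  have m2 := hm (-a) ⟨le_rfl, by linarith⟩ 0 z0 (by linarith)
  simp only [zero_smul, add_zero] at m1 m2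
  have b1 := le_abs_self (r y)
  have b2 := neg_abs_le (r y)
  obtain ⟨t, ht, ht0⟩ := intermediate_value_Icc (by linarith : -a ≤ a) hcont
    (show (0 : ℝ) ∈ Set.Icc (r (y + (-a) • v)) (r (y + a • v)) from ⟨by linarith, by linarith⟩)
  refine ⟨y + t • v, (h.zero _ (hb (hin t ht)).1).2 ht0, ?_⟩
  rw [add_sub_cancel_left, norm_smul, Real.norm_eq_abs]
  have := mul_le_mul_of_nonneg_right (abs_le.2 ht) (norm_nonneg v)
  linarith

lemma bound_off (h : LocDef S U r) {p : E} (hp : p ∈ U) (hS : p ∈ S) {b g : E → ℝ}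
    (hb : ContDiffAt ℝ 1 b p) (hg : ContDiffAt ℝ 1 g p) {C1 : ℝ} (hC1 : 0 ≤ C1)
    (hbg : ∀ᶠ y in 𝓝 p, y ∈ S → |b y| ≤ C1 * |g y|) :
    ∃ C : ℝ, 0 ≤ C ∧ ∀ᶠ y in 𝓝 p, |b y| ≤ C * (|r y| + |g y|) := by
  obtain ⟨C, hC, hpr⟩ := h.proj hp hS
  obtain ⟨K1, t1, ht1, hK1⟩ := hb.exists_lipschitzOnWith
  obtain ⟨K2, t2, ht2, hK2⟩ := hg.exists_lipschitzOnWith
  have e1 : ∀ᶠ y in 𝓝 p, y ∈ t1 ∧ y ∈ t2 ∧ (y ∈ S → |b y| ≤ C1 * |g y|) :=
    Filter.Eventually.and ht1 (Filter.Eventually.and ht2 hbg)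
  obtain ⟨δ, hδ, hδb⟩ := Metric.eventually_nhds_iff.1 e1
  have hr0 : r p = 0 := (h.zero p hp).1 hS
  have hcr : ContinuousAt (fun y => C * |r y|) p :=
    continuousAt_const.mul (h.cd hp).continuousAt.abs
  have e2 : ∀ᶠ y in 𝓝 p, C * |r y| < δ / 2 :=
    hcr.eventually (gt_mem_nhds (by simp [hr0, hδ]))
  refine ⟨C1 + (K1 + C1 * K2) * C, by positivity, ?_⟩
  filter_upwards [e2, Metric.ball_mem_nhds p (half_pos hδ), hpr] with y h2 h3 ⟨y', hy', hyy⟩
  have h4 : dist y p < δ / 2 := h3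
  have h5 : dist y' p < δ := by
    have := dist_triangle y' y p
    rw [dist_eq_norm y' y] at this
    linarith
  obtain ⟨a1, a2, a3⟩ := hδb h5
  obtain ⟨b1, b2, -⟩ := hδb (show dist y p < δ by linarith)
  have l1 := hK1.dist_le_mul y' a1 y b1
  have l2 := hK2.dist_le_mul y' a2 y b2
  rw [Real.dist_eq, dist_eq_norm] at l1 l2
  have l3 := a3 hy'
  have l4 : |b y| ≤ |b y'| + |b y' - b y| := by
    have := abs_sub_abs_le_abs_sub (b y) (b y')
    rw [abs_sub_comm] at this; linarith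
  have l5 : |g y'| ≤ |g y| + |g y' - g y| := by
    have := abs_sub_abs_le_abs_sub (g y') (g y)
    linarith
  have k1 : (0 : ℝ) ≤ K1 := K1.2
  have k2 : (0 : ℝ) ≤ K2 := K2.2
  have l6 := mul_le_mul_of_nonneg_left hyy k1
  have l7 := mul_le_mul_of_nonneg_left hyy k2
  have l8 := mul_le_mul_of_nonneg_left (l5.trans (add_le_add le_rfl (l2.trans l7))) hC1
  have n1 := mul_nonneg hC1 (abs_nonneg (r y))
  have n2 : 0 ≤ (K1 + C1 * K2) * C * |g y| := by positivity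
  nlinarith

lemma lagrange (h : LocDef S U r) {p : E} (hp : p ∈ U) (hS : p ∈ S) {φ : E → ℝ}
    {φ' : E →L[ℝ] ℝ} (hφ : HasStrictFDerivAt φ φ' p)
    (hmin : ∀ᶠ y in 𝓝 p, y ∈ S → φ p ≤ φ y) : ∃ c : ℝ, φ' = c • fderiv ℝ r p := by
  have hr0 : r p = 0 := (h.zero p hp).1 hS
  have hex : IsLocalExtrOn φ {x | r x = r p} p := by
    left
    refine eventually_nhdsWithin_iff.2 ?_
    filter_upwards [hmin, h.op.mem_nhds hp] with y h1 h2 h3
    exact h1 ((h.zero y h2).2 (by rw [← hr0]; exact h3))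
  obtain ⟨a, b, hab, he⟩ := hex.exists_multipliers_of_hasStrictFDerivAt_1d
    ((h.cd hp).hasStrictFDerivAt (by norm_num)) hφ
  have hb : b ≠ 0 := by
    rintro rfl
    rw [zero_smul, add_zero, smul_eq_zero] at he
    rcases he with rfl | he
    · exact hab rfl
    · exact h.ne p hp hS he
  refine ⟨-(b⁻¹ * a), ?_⟩
  have : b • φ' = -(a • fderiv ℝ r p) := eq_neg_of_add_eq_zero_right he
  calc φ' = b⁻¹ • b • φ' := by rw [smul_smul, inv_mul_cancel₀ hb, one_smul]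
    _ = _ := by rw [this]; ext v; simp [mul_assoc]

/-- transport of conormals by a linear map sending `S` to `S` -/
lemma transport {U' : Set E} {r' : E → ℝ} (h : LocDef S U r) (h' : LocDef S U' r') {p : E}
    (hp : p ∈ U) (hS : p ∈ S) (g : E →L[ℂ] E) (hg : ∀ z ∈ S, g z ∈ S) (hgp : g p ∈ U') :
    ∃ c : ℝ, ∀ v, fderiv ℝ r' (g p) (g v) = c * fderiv ℝ r p v := by
  have h1 : HasStrictFDerivAt (fun y => r' (g y))
      ((fderiv ℝ r' (g p)).comp (g.restrictScalars ℝ)) p :=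
    ((h'.cd hgp).hasStrictFDerivAt (by norm_num)).comp p (g.restrictScalars ℝ).hasStrictFDerivAt
  obtain ⟨c, hc⟩ := h.lagrange hp hS h1 (by
    filter_upwards [g.continuous.continuousAt.eventually_mem (h'.op.mem_nhds hgp)] with y hy hyS
    rw [(h'.zero _ hgp).1 (hg p hS), (h'.zero _ hy).1 (hg y hyS)])
  exact ⟨c, fun v => by simpa using congrArg (fun L : E →L[ℝ] ℝ => L v) hc⟩

lemma polar (h : LocDef S U r) {q : E} (hq : q ∈ U) (hS : q ∈ S) {ξ ζ : E}
    (hξ : cf (fderiv ℝ r q) ξ = 0) (hζ : cf (fderiv ℝ r q) ζ = 0) :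
    fderiv ℝ (fderiv ℝ r) q ξ (I • ζ) - fderiv ℝ (fderiv ℝ r) q (I • ξ) ζ = 0 := by
  have lv : ∀ η, cf (fderiv ℝ r q) η = 0 →
      fderiv ℝ (fderiv ℝ r) q η η + fderiv ℝ (fderiv ℝ r) q (I • η) (I • η) = 0 := fun η hη =>
    h.levi q hq hS η ((cf_eq_zero _ _).1 hη).1 ((cf_eq_zero _ _).1 hη).2
  have a := lv ξ hξ
  have b := lv (I • ζ) (by rw [map_smul, hζ, smul_zero])
  have c := lv (ξ + I • ζ) (by rw [map_add, map_smul, hξ, hζ]; simp)
  have e : I • I • ζ = -ζ := by rw [smul_smul, I_mul_I]; simp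
  rw [smul_add, e] at c
  rw [e] at b
  simp only [map_add, map_neg, _root_.add_apply, _root_.neg_apply,
    neg_neg] at b c
  have s1 := h.symm hq ξ (I • ζ)
  have s2 := h.symm hq (I • ξ) ζ
  linarith

end LocDef

lemma gron {F : Type*} [NormedAddCommGroup F] [NormedSpace ℝ F] {f : E → F}
    {f' : E → E →L[ℝ] F} {u : E → E} {p : E} {K : ℝ} {γ : ℝ → E} {t0 : ℝ}
    (hf : ∀ᶠ y in 𝓝 p, HasFDerivAt f (f' y) y ∧ ‖f' y (u y)‖ ≤ K * ‖f y‖) (h0 : f p = 0)
    (hγ0 : γ t0 = p) (hγ : ∀ᶠ t in 𝓝 t0, HasDerivAt γ (u (γ t)) t) :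
    ∀ᶠ t in 𝓝[>] t0, f (γ t) = 0 := by
  have hc : ContinuousAt γ t0 := hγ.self_of_nhds.continuousAt
  have h1 := (hc.eventually (hγ0 ▸ hf)).and hγ
  obtain ⟨δ, hδ, hb⟩ := Metric.eventually_nhds_iff.1 h1
  have hd : ∀ t ∈ Set.Icc t0 (t0 + δ / 2), dist t t0 < δ := by
    intro t ht
    rw [Real.dist_eq, abs_lt]; constructor <;> linarith [ht.1, ht.2]
  have hder : ∀ t ∈ Set.Icc t0 (t0 + δ / 2),
      HasDerivAt (fun t => f (γ t)) (f' (γ t) (u (γ t))) t := fun t ht =>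
    (hb (hd t ht)).1.1.comp_hasDerivAt t (hb (hd t ht)).2
  have := eq_zero_of_abs_deriv_le_mul_abs_self_of_eq_zero_right (K := K)
    (fun t ht => (hder t ht).continuousAt.continuousWithinAt)
    (fun t ht => (hder t (Set.Ico_subset_Icc_self ht)).hasDerivWithinAt)
    (by simp [hγ0, h0]) (fun t ht => (hb (hd t (Set.Ico_subset_Icc_self ht))).1.2)
  filter_upwards [Ioc_mem_nhdsGT (show t0 < t0 + δ / 2 by linarith)] with t ht
  exact this t ⟨ht.1.le, ht.2⟩

namespace LocDef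

lemma cdX (h : LocDef S U r) {q : E} (hq : q ∈ U) (Y : E →L[ℂ] E) :
    ContDiffAt ℝ 2 (fun y => fderiv ℝ r y (Y y)) q :=
  (h.cd1 hq).clm_apply (Y.restrictScalars ℝ).contDiff.contDiffAt

lemma fdX (h : LocDef S U r) {q : E} (hq : q ∈ U) (Y : E →L[ℂ] E) :
    HasFDerivAt (fun y => fderiv ℝ r y (Y y))
      ((fderiv ℝ r q).comp (Y.restrictScalars ℝ) + (fderiv ℝ (fderiv ℝ r) q).flip (Y q)) q :=
  (h.fd1 hq).clm_apply (Y.restrictScalars ℝ).hasFDerivAt

/-- the real flow of a tangent linear vector field stays in `S` -/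
lemma stay (h : LocDef S U r) {p : E} (hp : p ∈ U) (hS : p ∈ S) (X : E →L[ℂ] E)
    (hX : ∀ q ∈ U, q ∈ S → fderiv ℝ r q (X q) = 0) {γ : ℝ → E} {t0 : ℝ} (hγ0 : γ t0 = p)
    (hγ : ∀ᶠ t in 𝓝 t0, HasDerivAt γ (X (γ t)) t) : ∀ᶠ t in 𝓝[>] t0, γ t ∈ S := by
  obtain ⟨C, hC, hb⟩ := h.bound_off hp hS (b := fun y => fderiv ℝ r y (X y)) (g := fun _ => 0)
    ((h.cdX hp X).of_le (by norm_num)) contDiffAt_const le_rfl (by
      filter_upwards [h.op.mem_nhds hp] with y hy hyS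
      simp [hX y hy hyS])
  have h1 := gron (f := r) (f' := fderiv ℝ r) (u := fun y => X y) (K := C) (by
      filter_upwards [h.op.mem_nhds hp, hb] with y hy hyb
      exact ⟨h.fd hy, by simpa using hyb⟩) ((h.zero p hp).1 hS) hγ0 hγ
  have hc : ContinuousAt γ t0 := hγ.self_of_nhds.continuousAt
  filter_upwards [h1, nhdsWithin_le_nhds (hc.eventually_mem (hγ0 ▸ h.op.mem_nhds hp))]
    with t a b
  exact (h.zero _ b).2 a

lemma dG_eq (h : LocDef S U r) {y : E} (hy : y ∈ U) (hS : y ∈ S) (X : E →L[ℂ] E)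
    (hX : ∀ q ∈ U, q ∈ S → fderiv ℝ r q (X q) = 0) {n : E} (hn : cf (fderiv ℝ r y) n = 1)
    (u : E) :
    fderiv ℝ r y (I • X u) + fderiv ℝ (fderiv ℝ r) y u (I • X y) =
      (fderiv ℝ (fderiv ℝ r) y n (I • X y) - fderiv ℝ (fderiv ℝ r) y (I • n) (X y)) *
        (cf (fderiv ℝ r y) u).re +
      (fderiv ℝ (fderiv ℝ r) y (I • n) (I • X y) + fderiv ℝ (fderiv ℝ r) y n (X y) -
        (fderiv ℝ r y (X n) + fderiv ℝ (fderiv ℝ r) y n (X y))) * (cf (fderiv ℝ r y) u).im +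
      (fderiv ℝ (fderiv ℝ r) y (u - cf (fderiv ℝ r y) u • n) n +
        fderiv ℝ (fderiv ℝ r) y (I • (u - cf (fderiv ℝ r y) u • n)) (I • n)) *
        fderiv ℝ r y (I • X y) := by
  obtain ⟨c, hc⟩ := h.lagrange hy hS (((h.cdX hy X).hasStrictFDerivAt' (h.fdX hy X) (by norm_num)))
    (by
      filter_upwards [h.op.mem_nhds hy] with z hz hzS
      rw [hX y hy hS, hX z hz hzS])
  set D := fderiv ℝ r y with hD
  set H := fderiv ℝ (fderiv ℝ r) y with hH
  have hc' : ∀ w, D (X w) + H w (X y) = c * D w := fun w => by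
    simpa using congrArg (fun L : E →L[ℝ] ℝ => L w) hc
  have n1 : D n = 1 := by rw [← cf_re, hn]; simp
  have hG : cf D (X y) = -I * (D (I • X y) : ℂ) := by
    rw [cf_apply, hX y hy hS]; simp
  set G := D (I • X y) with hGd
  set a := cf D u with ha
  set ξ := u - a • n with hξ
  set ζ := X y + G • (I • n) with hζ
  have k1 : cf D ξ = 0 := by rw [hξ, map_sub, map_smul, hn, ← ha]; simp
  have k2 : cf D ζ = 0 := by
    rw [hζ, map_add, hG, ← Complex.coe_smul, map_smul, map_smul, hn]; simp; ring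
  have pl : H ξ (I • ζ) - H (I • ξ) ζ = 0 := h.polar hy hS k1 k2
  have eI : ∀ w : E, I • I • w = -w := fun w => by rw [smul_smul, I_mul_I]; simp
  have e1 : u = ξ + a.re • n + a.im • (I • n) := by
    rw [hξ]
    have : a • n = a.re • n + a.im • (I • n) := by
      conv_lhs => rw [← Complex.re_add_im a]
      rw [add_smul, mul_smul]; simp
    rw [this]; abel
  have e2 : I • u = I • ξ + a.re • (I • n) - a.im • n := by
    conv_lhs => rw [e1]
    rw [smul_add, smul_add, smul_comm I a.re, smul_comm I a.im, eI]; simp [sub_eq_add_neg]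
  have e3 : I • ζ = I • X y - G • n := by
    rw [hζ, smul_add, smul_comm I G, eI]; simp [sub_eq_add_neg]
  have c1 := hc' (I • u)
  have c2 := hc' n
  have c3 : D (I • u) = -a.im := cf_I D u
  rw [map_smul] at c1
  have f1 : H u (I • X y) = H ξ (I • X y) + a.re * H n (I • X y) + a.im * H (I • n) (I • X y) := by
    conv_lhs => rw [e1]
    simp
  have f2 : H (I • u) (X y) = H (I • ξ) (X y) + a.re * H (I • n) (X y) - a.im * H n (X y) := by
    rw [e2]; simp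
  rw [e3, hζ] at pl
  simp only [map_sub, map_add, map_smul, smul_eq_mul] at pl
  rw [n1, mul_one] at c2
  rw [c3, ← c2] at c1
  linear_combination c1 + f1 - f2 + pl

/-- curves whose velocity is complex tangent up to the size of the normal part of `X`
stay in the set where `X` is complex tangent -/
lemma propagate (h : LocDef S U r) {p : E} (hp : p ∈ U) (hS : p ∈ S) (X : E →L[ℂ] E)
    (hX : ∀ q ∈ U, q ∈ S → fderiv ℝ r q (X q) = 0) (hG : fderiv ℝ r p (I • X p) = 0)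
    {u : E → E} (hu : ContDiffAt ℝ 1 u p) {C0 : ℝ} (hC0 : 0 ≤ C0)
    (hub : ∀ᶠ y in 𝓝 p, y ∈ S → ‖cf (fderiv ℝ r y) (u y)‖ ≤ C0 * |fderiv ℝ r y (I • X y)|)
    {γ : ℝ → E} {t0 : ℝ} (hγ0 : γ t0 = p) (hγ : ∀ᶠ t in 𝓝 t0, HasDerivAt γ (u (γ t)) t) :
    ∀ᶠ t in 𝓝[>] t0, γ t ∈ U ∧ γ t ∈ S ∧ fderiv ℝ r (γ t) (I • X (γ t)) = 0 := by
  obtain ⟨n0, hn0⟩ := exists_cf_one (h.ne p hp hS)
  have cD : ContinuousAt (fderiv ℝ r) p := (h.cd1 hp).continuousAt
  have cH : ContinuousAt (fderiv ℝ (fderiv ℝ r)) p := (h.cd2 hp).continuousAt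
  have ccf : ∀ w : E → E, ContinuousAt w p → ContinuousAt (fun y => cf (fderiv ℝ r y) (w y)) p := by
    intro w hw
    simp only [cf_apply]
    exact (Complex.continuous_ofReal.continuousAt.comp (cD.clm_apply hw)).sub
      (continuousAt_const.mul (Complex.continuous_ofReal.continuousAt.comp
        (cD.clm_apply (hw.const_smul I))))
  let n : E → E := fun y => (cf (fderiv ℝ r y) n0)⁻¹ • n0
  have c0 : ContinuousAt (fun y => cf (fderiv ℝ r y) n0) p := ccf _ continuousAt_const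
  have cn : ContinuousAt n p := (c0.inv₀ (by rw [hn0]; exact one_ne_zero)).smul continuousAt_const
  have hn : ∀ᶠ y in 𝓝 p, cf (fderiv ℝ r y) (n y) = 1 := by
    filter_upwards [c0.eventually_ne (show cf (fderiv ℝ r p) n0 ≠ 0 by
      rw [hn0]; exact one_ne_zero)] with y hy
    simp only [n, map_smul, smul_eq_mul]; exact inv_mul_cancel₀ hy
  have cX : ContinuousAt (fun y => X y) p := X.continuous.continuousAt
  have cu : ContinuousAt u p := hu.continuousAt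
  have cHH : ∀ v w : E → E, ContinuousAt v p → ContinuousAt w p →
      ContinuousAt (fun y => fderiv ℝ (fderiv ℝ r) y (v y) (w y)) p :=
    fun v w hv hw => (cH.clm_apply hv).clm_apply hw
  have cξ : ContinuousAt (fun y => u y - cf (fderiv ℝ r y) (u y) • n y) p :=
    cu.sub ((ccf u cu).smul cn)
  let c1 : E → ℝ := fun y =>
    fderiv ℝ (fderiv ℝ r) y (n y) (I • X y) - fderiv ℝ (fderiv ℝ r) y (I • n y) (X y)
  let c2 : E → ℝ := fun y =>
    fderiv ℝ (fderiv ℝ r) y (I • n y) (I • X y) + fderiv ℝ (fderiv ℝ r) y (n y) (X y) -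
        (fderiv ℝ r y (X (n y)) + fderiv ℝ (fderiv ℝ r) y (n y) (X y))
  let c3 : E → ℝ := fun y =>
    fderiv ℝ (fderiv ℝ r) y (u y - cf (fderiv ℝ r y) (u y) • n y) (n y) +
        fderiv ℝ (fderiv ℝ r) y (I • (u y - cf (fderiv ℝ r y) (u y) • n y)) (I • n y)
  have k1 : ContinuousAt c1 p :=
    (cHH _ _ cn (cX.const_smul I)).sub (cHH _ _ (cn.const_smul I) cX)
  have k2 : ContinuousAt c2 p :=
    ((cHH _ _ (cn.const_smul I) (cX.const_smul I)).add (cHH _ _ cn cX)).sub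
      ((cD.clm_apply (X.continuous.continuousAt.comp cn)).add (cHH _ _ cn cX))
  have k3 : ContinuousAt c3 p :=
    (cHH _ _ cξ cn).add (cHH _ _ (cξ.const_smul I) (cn.const_smul I))
  have bd : ∀ c : E → ℝ, ContinuousAt c p → ∀ᶠ y in 𝓝 p, |c y| < |c p| + 1 :=
    fun c hc => hc.abs.eventually (gt_mem_nhds (by linarith))
  have cG : ContDiffAt ℝ 1 (fun y => fderiv ℝ r y (I • X y)) p :=
    (h.cdX hp (I • X)).of_le (by norm_num)
  have cB : ContDiffAt ℝ 1
      (fun y => fderiv ℝ r y (I • X (u y)) + fderiv ℝ (fderiv ℝ r) y (u y) (I • X y)) p :=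
    (((h.cd1 hp).of_le (by norm_num)).clm_apply
      (((I • X).restrictScalars ℝ).contDiff.contDiffAt.comp p hu)).add
      (((h.cd2 hp).clm_apply hu).clm_apply ((I • X).restrictScalars ℝ).contDiff.contDiffAt)
  obtain ⟨C1, hC1, hb1⟩ := h.bound_off hp hS cB cG
    (C1 := (|c1 p| + 1) * C0 + (|c2 p| + 1) * C0 + (|c3 p| + 1)) (by positivity) (by
      filter_upwards [h.op.mem_nhds hp, hn, hub, bd _ k1, bd _ k2, bd _ k3]
        with y hy hny hb a1 a2 a3 hyS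
      rw [h.dG_eq hy hyS X hX hny (u y)]
      change |c1 y * _ + c2 y * _ + c3 y * _| ≤ _
      have r1 := (Complex.abs_re_le_norm _).trans (hb hyS)
      have r2 := (Complex.abs_im_le_norm _).trans (hb hyS)
      have t1 := mul_le_mul a1.le r1 (abs_nonneg _) (by positivity)
      have t2 := mul_le_mul a2.le r2 (abs_nonneg _) (by positivity)
      have t3 := mul_le_mul_of_nonneg_right a3.le (abs_nonneg (fderiv ℝ r y (I • X y)))
      refine (abs_add_three _ _ _).trans ?_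
      rw [abs_mul, abs_mul, abs_mul]
      linarith)
  obtain ⟨C2, hC2, hb2⟩ := h.bound_off hp hS (b := fun y => fderiv ℝ r y (u y))
    (((h.cd1 hp).of_le (by norm_num)).clm_apply hu) cG hC0 (by
      filter_upwards [hub] with y hb hyS
      rw [← cf_re]
      exact (Complex.abs_re_le_norm _).trans (hb hyS))
  have h1 := gron (f := fun y => (r y, fderiv ℝ r y (I • X y)))
    (f' := fun y => (fderiv ℝ r y).prod ((fderiv ℝ r y).comp ((I • X).restrictScalars ℝ) +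
      (fderiv ℝ (fderiv ℝ r) y).flip ((I • X) y))) (u := u) (K := 2 * (C1 + C2)) (by
      filter_upwards [h.op.mem_nhds hp, hb1, hb2] with y hy b1 b2
      refine ⟨(h.fd hy).prodMk (h.fdX hy (I • X)), ?_⟩
      have m1 : |r y| ≤ ‖(r y, fderiv ℝ r y (I • X y))‖ := norm_fst_le (r y, fderiv ℝ r y (I • X y))
      have m2 : |fderiv ℝ r y (I • X y)| ≤ ‖(r y, fderiv ℝ r y (I • X y))‖ :=
        norm_snd_le (r y, fderiv ℝ r y (I • X y))
      have m3 := norm_nonneg (r y, fderiv ℝ r y (I • X y))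
      rw [Prod.norm_def]
      apply max_le
      · change |fderiv ℝ r y (u y)| ≤ _
        nlinarith
      · change |fderiv ℝ r y (I • X (u y)) + fderiv ℝ (fderiv ℝ r) y (u y) (I • X y)| ≤ _
        nlinarith)
    (by simp [(h.zero p hp).1 hS, hG]) hγ0 hγ
  have hc : ContinuousAt γ t0 := hγ.self_of_nhds.continuousAt
  filter_upwards [h1, nhdsWithin_le_nhds (hc.eventually_mem (hγ0 ▸ h.op.mem_nhds hp))]
    with t a b
  rw [Prod.mk_eq_zero] at a
  exact ⟨b, (h.zero _ b).2 a.1, a.2⟩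

end LocDef

end Pool.Agent.Lib.MP_4e4ac8_an
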