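import Pool.Agent.Lib.MP_4e4ac8_an.Cone

set_option autoImplicit false
open Filter Topology Complex Asymptotics ComplexConjugate

namespace Pool.Agent.Lib.MP_4e4ac8_an

variable {S U : Set E} {r : E → ℝ}

section
variable {V : Type*} [NormedAddCommGroup V] [NormedSpace ℂ V] [CompleteSpace V]

/-- the complex flow of `X` -/
noncomputable def fl (X : V →L[ℂ] V) (w : ℂ) : V →L[ℂ] V := NormedSpace.exp (w • X)

lemma fl_add (X : V →L[ℂ] V) (a b : ℂ) (v : V) : fl X (a + b) v = fl X a (fl X b v) := by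
  simp only [fl, exp_smul_add]; rfl

lemma fl_zero (X : V →L[ℂ] V) (v : V) : fl X 0 v = v := by simp [fl]

lemma fl_inv (X : V →L[ℂ] V) (a : ℂ) (v : V) : fl X a (fl X (-a) v) = v := by
  rw [← fl_add, add_neg_cancel, fl_zero]

lemma fl_inv' (X : V →L[ℂ] V) (a : ℂ) (v : V) : fl X (-a) (fl X a v) = v := by
  rw [← fl_add, neg_add_cancel, fl_zero]

lemma fl_deriv (X : V →L[ℂ] V) (w : ℂ) : HasDerivAt (fl X) (X * fl X w) w :=
  hasDerivAt_exp_smul_const' (𝕂 := ℂ) X w

lemma fl_comm (X : V →L[ℂ] V) (w : ℂ) : X * fl X w = fl X w * X :=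
  (fl_deriv X w).unique (hasDerivAt_exp_smul_const (𝕂 := ℂ) X w)

lemma fl_comm' (X : V →L[ℂ] V) (w : ℂ) (v : V) : X (fl X w v) = fl X w (X v) :=
  congrArg (fun L : V →L[ℂ] V => L v) (fl_comm X w)

lemma fl_ray (X : V →L[ℂ] V) (d : ℂ) (p : V) (t : ℝ) :
    HasDerivAt (fun t : ℝ => fl X (t * d) p) (d • X (fl X (t * d) p)) t := by
  have a : HasDerivAt (fun w => fl X w p) (X (fl X (t * d) p)) (t * d) := by
    simpa using (fl_deriv X (t * d)).clm_apply (hasDerivAt_const _ p)
  have b : HasDerivAt (fun t : ℝ => (t : ℂ) * d) d t := by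
    simpa using (Complex.ofRealCLM.hasDerivAt (x := t)).mul_const d
  exact a.scomp t b

lemma fl_ne (X : V →L[ℂ] V) (w : ℂ) {p : V} (hp : p ≠ 0) : fl X w p ≠ 0 := fun h =>
  hp (by rw [← fl_inv' X w p, h, map_zero])

/-- commutator with `X` -/
noncomputable def adj (X : V →L[ℂ] V) : (V →L[ℂ] V) →L[ℂ] (V →L[ℂ] V) :=
  ContinuousLinearMap.mul ℂ (V →L[ℂ] V) X - (ContinuousLinearMap.mul ℂ (V →L[ℂ] V)).flip X

lemma adj_apply (X M : V →L[ℂ] V) : adj X M = X * M - M * X := rfl

lemma adj_apply' (X M : V →L[ℂ] V) (v : V) : adj X M v = X (M v) - M (X v) := rfl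

lemma conj_deriv (X M : V →L[ℂ] V) (w : ℂ) :
    HasDerivAt (fun w => fl X w * M * fl X (-w)) (adj X (fl X w * M * fl X (-w))) w := by
  have b : HasDerivAt (fun w => fl X (-w)) ((-1 : ℂ) • (X * fl X (-w))) w :=
    (fl_deriv X (-w)).scomp w (hasDerivAt_neg' w)
  have c := ((fl_deriv X w).mul_const M).mul b
  have e : X * fl X w * M * fl X (-w) + fl X w * M * ((-1 : ℂ) • (X * fl X (-w))) =
      adj X (fl X w * M * fl X (-w)) := by
    simp only [adj_apply, fl_comm X (-w), neg_smul, one_smul, mul_neg, mul_assoc, sub_eq_add_neg]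
  exact e ▸ c

end

lemma fl_mem (hS : LF S) {X : E →L[ℂ] E} (hX : Tan S X) (t : ℝ) {p : E} (hp : p ∈ S) :
    fl X t p ∈ S := by
  have p0 : p ≠ 0 := fun h => hS.nz (h ▸ hp)
  have hc : Continuous fun s : ℝ => fl X (s * t) p :=
    continuous_iff_continuousAt.2 fun s => (fl_ray X t p s).continuousAt
  have cl : IsClosed {s : ℝ | fl X (s * t) p ∈ S} := by
    have : {s : ℝ | fl X (s * t) p ∈ S} = (fun s : ℝ => fl X (s * t) p) ⁻¹' insert 0 S := by
      ext s
      exact ⟨fun h => Or.inr h, fun h => h.resolve_left (fl_ne X _ p0)⟩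
    rw [this]; exact hS.cl.preimage hc
  have := (cl.inter isClosed_Icc).Icc_subset_of_forall_mem_nhdsWithin (a := 0) (b := 1)
    (by simpa [fl_zero] using hp) (fun s hs => by
      obtain ⟨U, r, hU, h⟩ := hS.loc _ hs.1
      exact h.stay hU hs.1 ((t : ℂ) • X) (fun q hq hqS => by
        have := hX U r h q hq hqS
        rw [_root_.smul_apply, Complex.coe_smul, map_smul, this, smul_zero])
        (γ := fun s : ℝ => fl X (s * t) p) rfl (Eventually.of_forall fun s => fl_ray X t p s))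
  simpa using this ⟨zero_le_one, le_rfl⟩

lemma fl_mem_Zs (hS : LF S) {X : E →L[ℂ] E} (hX : Tan S X) (d : ℂ) {p : E} (hp : p ∈ Zs S X) :
    fl X d p ∈ Zs S X := by
  have p0 : p ≠ 0 := fun h => hS.nz (h ▸ hp.1)
  have hc : Continuous fun s : ℝ => fl X (s * d) p :=
    continuous_iff_continuousAt.2 fun s => (fl_ray X d p s).continuousAt
  have cl := Zs_closed hS X hc fun s => fl_ne X _ p0
  have := (cl.inter isClosed_Icc).Icc_subset_of_forall_mem_nhdsWithin (a := 0) (b := 1)
    (by simpa [fl_zero] using hp) (fun s hs => by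
      obtain ⟨U, r, hU, h⟩ := hS.loc _ hs.1.1
      have := h.propagate hU hs.1.1 X (hX U r h) (hs.1.2 U r h hU) (u := fun y => d • X y)
        ((d • X).restrictScalars ℝ).contDiff.contDiffAt (norm_nonneg d) (by
          filter_upwards [h.op.mem_nhds hU] with y hy hyS
          rw [map_smul, cf_apply, hX U r h y hy hyS]
          simp)
        (γ := fun s : ℝ => fl X (s * d) p) rfl (Eventually.of_forall fun s => fl_ray X d p s)
      filter_upwards [this] with t ht
      exact mem_Zs_of_one hS hX h ht.1 ht.2.1 ht.2.2)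
  simpa using this ⟨zero_le_one, le_rfl⟩

lemma ker_span (b : E →L[ℂ] ℂ) {n u v : E} (hb : b n = 1) (hu : u ≠ 0) (huv : ∀ ν : ℂ, ν • u ≠ v)
    (h1 : b u = 0) (h2 : b v = 0) {x : E} (hx : b x = 0) : ∃ α β : ℂ, α • u + β • v = x := by
  have hb' : (b : Module.Dual ℂ E) ≠ 0 := by
    intro h
    have : b n = 0 := congrArg (fun L : Module.Dual ℂ E => L n) h
    rw [hb] at this; exact one_ne_zero this
  have f1 := Module.Dual.finrank_ker_add_one_of_ne_zero hb'
  have f2 := finrank_span_eq_card ((LinearIndependent.pair_iff' hu).2 huv)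
  have e : Set.range ![u, v] = {u, v} := by simp [Set.pair_comm]
  rw [e] at f2
  have le : Submodule.span ℂ {u, v} ≤ LinearMap.ker (b : Module.Dual ℂ E) := by
    rw [Submodule.span_le]
    rintro _ (rfl | rfl)
    · exact h1
    · exact h2
  have eq := Submodule.eq_of_le_of_finrank_eq le (by
    rw [f2]
    simp only [Module.finrank_fin_fun, Fintype.card_fin] at f1 ⊢
    omega)
  exact Submodule.mem_span_pair.1 (eq ▸ (show x ∈ LinearMap.ker (b : Module.Dual ℂ E) from hx))

lemma prop_of_ker {a b : E →L[ℂ] ℂ} {n : E} (hb : b n = 1) (h : ∀ x, b x = 0 → a x = 0) (x : E) :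
    a x = a n * b x := by
  have := h (x - b x • n) (by rw [map_sub, map_smul, hb]; simp)
  rw [map_sub, map_smul, sub_eq_zero] at this
  rw [this, smul_eq_mul, mul_comm]

/-- every point where `X` is complex tangent is an eigenvector -/
theorem Zs_eigen (hS : LF S) {X : E →L[ℂ] E} (hX : Tan S X) {p : E} (hp : p ∈ Zs S X) :
    ∃ ν : ℂ, X p = ν • p := by
  by_contra hne
  push Not at hne
  have p0 : p ≠ 0 := fun h => hS.nz (h ▸ hp.1)
  obtain ⟨a, ha⟩ := hS.exists_con hp.1
  obtain ⟨n, hn⟩ := ha.one hS hp.1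
  have a1 : a p = 0 := ha.self hS hp.1
  have a2 : a (X p) = 0 := (mem_Zs hS hX hp.1 ha).1 hp
  let F : ℂ → (E →L[ℂ] E) := fun w => fl X w * a.smulRight p * fl X (-w)
  have hF : ∀ w, HasDerivAt F (adj X (F w)) w := conj_deriv X _
  have Fv : ∀ w v, F w v = a (fl X (-w) v) • fl X w p := fun w v => by
    simp [F, mul_apply_eq_comp]
  have F0 : ∀ v, F 0 v = a v • p := fun v => by rw [Fv, neg_zero, fl_zero, fl_zero]
  obtain ⟨ν, hν⟩ := eigen_of_cone hS.realCone (adj X) F hF (by
      intro h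
      have := F0 n
      rw [h, hn, one_smul] at this
      exact p0 this.symm) (by
    intro w
    have z := fl_mem_Zs hS hX w hp
    obtain ⟨a', ha'⟩ := hS.exists_con z.1
    obtain ⟨n', hn'⟩ := ha'.one hS z.1
    have b0 : (a.comp (fl X (-w))) (fl X w n) = 1 := by
      rw [ContinuousLinearMap.comp_apply, fl_inv', hn]
    have pr := prop_of_ker (a := a') b0 (fun x hx => by
      obtain ⟨α, β, rfl⟩ := ker_span _ b0 (u := fl X w p) (v := X (fl X w p)) (fl_ne X w p0)
        (fun ν h => hne ν (by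
          have := congrArg (fl X (-w)) h
          rw [map_smul, fl_comm', fl_inv', fl_inv'] at this
          exact this.symm))
        (by rw [ContinuousLinearMap.comp_apply, fl_inv', a1])
        (by rw [ContinuousLinearMap.comp_apply, fl_comm', fl_inv', a2]) hx
      rw [map_add, map_smul, map_smul, ha'.self hS z.1, (mem_Zs hS hX z.1 ha').1 z]; simp)
    refine ⟨a' (fl X w n), fun h => ?_, fun t => ?_⟩
    · have := pr n'
      rw [h, hn', zero_mul] at this
      exact one_ne_zero this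
    · refine ⟨fl X t (fl X w p), fl_mem hS hX t z.1, _,
        ha'.transport hS z.1 (fl X t) (fl X (-t)) (fl_inv X t) (fun y hy => fl_mem hS hX t hy), ?_⟩
      refine ContinuousLinearMap.ext fun v => ?_
      rw [_root_.smul_apply, Fv, ContinuousLinearMap.smulRight_apply,
        ContinuousLinearMap.comp_apply, pr (fl X (-t) v), ContinuousLinearMap.comp_apply,
        ← fl_add, ← fl_add, smul_smul, neg_add, add_comm w])
  have := congrArg (fun L : E →L[ℂ] E => L n) hν
  simp only [adj_apply', F0, hn, one_smul, _root_.smul_apply] at this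
  exact hne (ν + a (X n)) (by rw [add_smul, ← this]; abel)

/-- horizontal curves through an eigenvector in `Zs` -/
lemma horiz (hS : LF S) {X : E →L[ℂ] E} (hX : Tan S X) (h : LocDef S U r) {p v : E} (hU : p ∈ U)
    (hp : p ∈ Zs S X) {ν : ℂ} (hν : X p = ν • p) (hv : cf (fderiv ℝ r p) v = 0) :
    ∃ (γ : ℝ → E) (n : E → E), γ 0 = p ∧
      (∀ᶠ t in 𝓝 (0 : ℝ), HasDerivAt γ (v - cf (fderiv ℝ r (γ t)) v • n (γ t)) t) ∧
      ∀ᶠ t in 𝓝[>] (0 : ℝ), γ t ∈ U ∧ γ t ∈ Zs S X ∧ X (γ t) = ν • γ t := by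
  obtain ⟨n0, hn0⟩ := exists_cf_one (h.ne p hU hp.1)
  have ccf : ∀ w : E, ContDiffAt ℝ 1 (fun y => cf (fderiv ℝ r y) w) p := by
    intro w
    simp only [cf_apply]
    have cD : ContDiffAt ℝ 1 (fderiv ℝ r) p := (h.cd1 hU).of_le (by norm_num)
    exact (Complex.ofRealCLM.contDiff.contDiffAt.comp p (cD.clm_apply contDiffAt_const)).sub
      (contDiffAt_const.mul
        (Complex.ofRealCLM.contDiff.contDiffAt.comp p (cD.clm_apply contDiffAt_const)))
  let n : E → E := fun y => (cf (fderiv ℝ r y) n0)⁻¹ • n0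
  have cn : ContDiffAt ℝ 1 n p :=
    ((ccf n0).inv (by rw [hn0]; exact one_ne_zero)).smul contDiffAt_const
  have cu : ContDiffAt ℝ 1 (fun y => v - cf (fderiv ℝ r y) v • n y) p :=
    contDiffAt_const.sub ((ccf v).smul cn)
  obtain ⟨γ, γ0, ε, hε, hγ⟩ := cu.exists_forall_mem_closedBall_exists_eq_forall_mem_Ioo_hasDerivAt₀ 0
  have hγ' : ∀ᶠ t in 𝓝 (0 : ℝ), HasDerivAt γ (v - cf (fderiv ℝ r (γ t)) v • n (γ t)) t := by
    filter_upwards [Ioo_mem_nhds (show 0 - ε < 0 by linarith) (show 0 < 0 + ε by linarith)] with t ht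
    exact hγ t ht
  have pr := h.propagate hU hp.1 X (hX U r h) (hp.2 U r h hU) cu le_rfl (by
    filter_upwards [(ccf n0).continuousAt.eventually_ne (show cf (fderiv ℝ r p) n0 ≠ 0 by
      rw [hn0]; exact one_ne_zero)] with y hy _
    simp only [n, map_sub, map_smul, smul_eq_mul, inv_mul_cancel₀ hy]
    simp) γ0 hγ'
  have p0 : p ≠ 0 := fun h => hS.nz (h ▸ hp.1)
  have cγ : ContinuousAt γ 0 := hγ'.self_of_nhds.continuousAt
  have fin := (Module.End.finite_hasEigenvalue (X : Module.End ℂ E))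
  have ev : ∀ᶠ t in 𝓝 (0 : ℝ), ∀ ν' ∈ {μ | Module.End.HasEigenvalue (X : Module.End ℂ E) μ},
      ν' ≠ ν → X (γ t) - ν' • γ t ≠ 0 := by
    refine (eventually_all_finite fin).2 fun ν' _ => ?_
    by_cases hh : ν' = ν
    · exact Eventually.of_forall fun t h => absurd hh h
    · have c : ContinuousAt (fun t => X (γ t) - ν' • γ t) 0 :=
        (X.continuous.continuousAt.comp cγ).sub (cγ.const_smul ν')
      filter_upwards [c.eventually_ne (y := 0) (by
        simp only [γ0, hν, ← sub_smul]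
        exact smul_ne_zero (sub_ne_zero.2 (Ne.symm hh)) p0)] with t ht _ using ht
  refine ⟨γ, n, γ0, hγ', ?_⟩
  filter_upwards [pr, nhdsWithin_le_nhds ev] with t a b
  have z := mem_Zs_of_one hS hX h a.1 a.2.1 a.2.2
  refine ⟨a.1, z, ?_⟩
  obtain ⟨ν', h'⟩ := Zs_eigen hS hX z
  by_cases hh : ν' = ν
  · rw [h', hh]
  · exact absurd (sub_eq_zero.2 h') (b ν' (Module.End.hasEigenvalue_of_hasEigenvector
      ⟨Module.End.mem_eigenspace_iff.2 h', fun h0 => hS.nz (h0 ▸ z.1)⟩) hh)

lemma ker_eigen (hS : LF S) {X : E →L[ℂ] E} (hX : Tan S X) {p v : E} (hp : p ∈ Zs S X) {ν : ℂ}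
    (hν : X p = ν • p) {a : E →L[ℂ] ℂ} (ha : Con S p a) (hv : a v = 0) : X v = ν • v := by
  obtain ⟨U, r, hU, h⟩ := hS.loc p hp.1
  obtain ⟨ρ, hρ0, hρ⟩ := ha U r h hU
  rw [hρ, mul_eq_zero] at hv
  have hv' := hv.resolve_left (by exact_mod_cast hρ0)
  obtain ⟨γ, n, γ0, d, e⟩ := horiz hS hX h hU hp hν hv'
  have d0 := d.self_of_nhds
  rw [γ0, hv', zero_smul, sub_zero] at d0
  have d1 : HasDerivAt (fun t => X (γ t) - ν • γ t) (X v - ν • v) 0 :=
    ((X.restrictScalars ℝ).hasFDerivAt.comp_hasDerivAt 0 d0).sub (d0.const_smul ν)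
  refine sub_eq_zero.1 (tendsto_nhds_unique d1.tendsto_slope_zero_right
    (tendsto_const_nhds.congr' ?_))
  filter_upwards [e] with t ht
  simp [ht.2.2, γ0, hν]

lemma eigen_ker (hS : LF S) {X : E →L[ℂ] E} (hX : Tan S X) {p v n : E} (hp : p ∈ Zs S X) {ν : ℂ}
    (hν : X p = ν • p) (hn : X n ≠ ν • n) {a : E →L[ℂ] ℂ} (ha : Con S p a) (hv : X v = ν • v) :
    a v = 0 := by
  by_contra h0
  apply hn
  have := ker_eigen hS hX hp hν ha (v := n - (a n / a v) • v) (by
    rw [map_sub, map_smul, smul_eq_mul, div_mul_cancel₀ _ h0, sub_self])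
  rw [map_sub, map_smul, hv, smul_sub, smul_comm ν] at this
  exact sub_left_injective this

lemma plane_mem (hS : LF S) {X : E →L[ℂ] E} (hX : Tan S X) {p v n : E} (hp : p ∈ Zs S X) {ν : ℂ}
    (hν : X p = ν • p) (hn : X n ≠ ν • n) (hv : X v = ν • v) (h0 : ∀ t : ℝ, p + t • v ≠ 0) :
    p + v ∈ Zs S X := by
  have cl := Zs_closed hS X (γ := fun t : ℝ => p + t • v) (by fun_prop) h0
  have := (cl.inter isClosed_Icc).Icc_subset_of_forall_mem_nhdsWithin (a := 0) (b := 1)
    (by simpa using hp) (fun s hs => by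
      have z : p + s • v ∈ Zs S X := hs.1
      obtain ⟨U, r, hU, h⟩ := hS.loc _ z.1
      have hq : X (p + s • v) = ν • (p + s • v) := by
        rw [← Complex.coe_smul, map_add, map_smul, hν, hv, smul_add, smul_comm ν]
      have k : ∀ y ∈ U, y ∈ Zs S X → X y = ν • y → cf (fderiv ℝ r y) v = 0 := fun y a b c =>
        eigen_ker hS hX b c hn (con_of_one h a b.1 one_ne_zero fun v => by simp) hv
      obtain ⟨γ, m, γ0, d, e⟩ := horiz hS hX h hU z hq (k _ hU z hq)
      obtain ⟨δ, hδ, hb⟩ := (nhdsGT_basis (0 : ℝ)).eventually_iff.1 (e.and (nhdsWithin_le_nhds d))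
      have der : ∀ t ∈ Set.Ico 0 δ, HasDerivAt (fun t => γ t - t • v) 0 t := by
        intro t ht
        have dv : HasDerivAt γ v t := by
          rcases ht.1.eq_or_lt with rfl | h1
          · have := d.self_of_nhds
            rwa [γ0, k _ hU z hq, zero_smul, sub_zero] at this
          · obtain ⟨⟨a, b, c⟩, d'⟩ := hb ⟨h1, ht.2⟩
            rwa [k _ a b c, zero_smul, sub_zero] at d'
        have := dv.fun_sub ((hasDerivAt_id t).smul_const v)
        simpa using this
      have cst := constant_of_has_deriv_right_zero (f := fun t => γ t - t • v) (a := 0) (b := δ / 2)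
        (fun t ht => (der t ⟨ht.1, by linarith [ht.2]⟩).continuousAt.continuousWithinAt)
        (fun t ht => (der t ⟨ht.1, by linarith [ht.2]⟩).hasDerivWithinAt)
      filter_upwards [Ioo_mem_nhdsGT (show s < s + δ / 2 by linarith)] with t ht
      have m1 : t - s ∈ Set.Icc 0 (δ / 2) := ⟨by linarith [ht.1], by linarith [ht.2]⟩
      have m2 := cst _ m1
      have m3 := (hb ⟨show 0 < t - s by linarith [ht.1], show t - s < δ by linarith [ht.2]⟩).1.2.1
      simp only [γ0, zero_smul, sub_zero] at m2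
      have m4 : γ (t - s) = p + t • v := by
        rw [eq_add_of_sub_eq m2, add_assoc, ← add_smul]; simp
      exact m4 ▸ m3)
  simpa using this ⟨zero_le_one, le_rfl⟩

/-- the cone contains no punctured complex plane that is its own complex tangent space -/
theorem no_line (hS : LF S) {p e n : E} {b : E →L[ℂ] ℂ} (hb : b n = 1)
    (hm : ∀ s θ : ℝ, ((s : ℂ) * exp (θ * I)) • e + (1 - s : ℂ) • p ∈ S ∧ ∀ a,
      Con S (((s : ℂ) * exp (θ * I)) • e + (1 - s : ℂ) • p) a → a n ≠ 0) : False := by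
  classical
  let H : ℝ × ℝ → E := fun z => ((z.1 : ℂ) * exp (z.2 * I)) • e + (1 - z.1 : ℂ) • p
  have cH : Continuous H := by fun_prop
  choose a ha using fun z : ℝ × ℝ => hS.exists_con (hm z.1 z.2).1
  have an : ∀ z, a z n ≠ 0 := fun z => (hm z.1 z.2).2 _ (ha z)
  let ψ : ℝ × ℝ → ℂ := fun z => a z n / conj (a z n)
  have ψ0 : ∀ z, ψ z ≠ 0 := fun z => div_ne_zero (an z) ((map_ne_zero _).2 (an z))
  have cψ : Continuous ψ := by
    refine continuous_iff_continuousAt.2 fun z => ?_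
    obtain ⟨U, r, hU, h⟩ := hS.loc (H z) (hm z.1 z.2).1
    have k : Continuous fun D : E →L[ℝ] ℝ => cf D n := by
      simp only [cf_apply]; fun_prop
    have c1 : ContinuousAt (fun z => cf (fderiv ℝ r (H z)) n) z :=
      k.continuousAt.comp (ContinuousAt.comp (f := H) (h.cd1 hU).continuousAt cH.continuousAt)
    have c0 : cf (fderiv ℝ r (H z)) n ≠ 0 := by
      obtain ⟨ρ, -, hρ⟩ := ha z U r h hU
      intro h0
      apply an z
      rw [hρ]; exact mul_eq_zero_of_right _ h0
    refine (c1.div (continuous_conj.continuousAt.comp c1) ((map_ne_zero _).2 c0)).congr ?_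
    filter_upwards [cH.continuousAt.eventually_mem (h.op.mem_nhds hU)] with y hy
    obtain ⟨ρ, hρ0, hρ⟩ := ha y U r h hy
    have hc' : (ρ : ℂ) ≠ 0 := by exact_mod_cast hρ0
    simp only [ψ, hρ, map_mul, conj_ofReal, Pi.div_apply, Function.comp]
    rw [mul_div_mul_left _ _ hc']
  have cov := Complex.isCoveringMap_exp
  obtain ⟨L, ⟨-, hL⟩, -⟩ := cov.existsUnique_continuousMap_lifts
    (⟨fun z => ⟨ψ z, ψ0 z⟩, cψ.subtype_mk _⟩ : C(ℝ × ℝ, {z : ℂ // z ≠ 0})) (0, 0) (log (ψ (0, 0)))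
    (Subtype.ext (exp_log (ψ0 _)))
  have hL' : ∀ z, exp (L z) = ψ z := fun z => congrArg Subtype.val (congrFun hL z)
  have cst : ∀ f : ℝ → ℂ, Continuous f → (∀ x y, exp (f x) = exp (f y)) → ∀ x y, f x = f y :=
    fun f hf he => cov.const_of_comp hf fun x y => Subtype.ext (he x y)
  have rel : ∀ (z z' : ℝ × ℝ) (c : ℂ), c ≠ 0 → H z' = c • H z → ψ z' = ψ z * (conj c / c) := by
    intro z z' c hc hz
    obtain ⟨ρ, hρ0, hρ⟩ := ((ha z).cone hS (hm z.1 z.2).1 hc).unique hS
      (hS.cone _ (hm z.1 z.2).1 c hc) (show Con S (c • H z) (a z') from hz ▸ ha z')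
    have hc' : (ρ : ℂ) ≠ 0 := by exact_mod_cast hρ0
    have h1 : conj c ≠ 0 := (map_ne_zero _).2 hc
    have h2 : conj (a z n) ≠ 0 := (map_ne_zero _).2 (an z)
    simp only [ψ, hρ, map_mul, conj_ofReal, _root_.smul_apply, smul_eq_mul, map_inv₀]
    field_simp
  have s1 := cst (fun s => L (s, 2 * Real.pi) - L (s, 0)) (by fun_prop) (by
    have : ∀ s : ℝ, exp (L (s, 2 * Real.pi) - L (s, 0)) = 1 := fun s => by
      rw [exp_sub, hL', hL', rel (s, 0) (s, 2 * Real.pi) 1 one_ne_zero (by simp [H])]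
      simp [ψ0]
    intro x y; rw [this, this]) 0 1
  have s2 := cst (fun θ => L (0, θ)) (by fun_prop) (by
    intro x y
    rw [hL', hL', rel (0, y) (0, x) 1 one_ne_zero (by simp [H])]; simp) (2 * Real.pi) 0
  have s3 := cst (fun θ => L (1, θ) + 2 * (θ * I)) (by fun_prop) (by
    have : ∀ θ : ℝ, exp (L (1, θ) + 2 * (θ * I)) = ψ (1, 0) := fun θ => by
      rw [exp_add, hL', rel (1, 0) (1, θ) (exp (θ * I)) (exp_ne_zero _) (by simp [H]),
        ← exp_conj, ← exp_sub, mul_assoc, ← exp_add]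
      simp
      ring_nf
      simp
    intro x y; rw [this, this]) (2 * Real.pi) 0
  have : (Real.pi : ℂ) * I = 0 := by
    push_cast at s3
    linear_combination (s3 + s1 - s2) / 4
  simp [Real.pi_ne_zero] at this

/-- a linear vector field tangent to the cone is a multiple of the radial field -/
theorem LF.scalar_of_tan (hS : LF S) {X : E →L[ℂ] E} (hX : Tan S X) : ∃ c : ℂ, ∀ v, X v = c • v := by
  obtain ⟨p, hp⟩ := Zs_nonempty hS hX
  obtain ⟨ν, hν⟩ := Zs_eigen hS hX hp
  refine ⟨ν, ?_⟩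
  by_contra hne
  push Not at hne
  obtain ⟨n, hn⟩ := hne
  have p0 : p ≠ 0 := fun h => hS.nz (h ▸ hp.1)
  obtain ⟨b, hb⟩ := hS.exists_con hp.1
  obtain ⟨m, hm⟩ := hb.one hS hp.1
  obtain ⟨e, he, hep⟩ : ∃ e, b e = 0 ∧ ∀ c : ℂ, c • p ≠ e := by
    by_contra hc
    push Not at hc
    have hb' : (b : Module.Dual ℂ E) ≠ 0 := by
      intro h
      have : b m = 0 := congrArg (fun L : Module.Dual ℂ E => L m) h
      rw [hm] at this; exact one_ne_zero this
    have f1 := Module.Dual.finrank_ker_add_one_of_ne_zero hb'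
    have le : LinearMap.ker (b : Module.Dual ℂ E) ≤ Submodule.span ℂ {p} := fun x hx =>
      Submodule.mem_span_singleton.2 (hc x hx)
    have f2 := Submodule.finrank_mono le
    rw [finrank_span_singleton p0] at f2
    simp only [Module.finrank_fin_fun] at f1
    omega
  have ee : X e = ν • e := ker_eigen hS hX hp hν hb he
  have all : ∀ α β : ℂ, (α = 0 → β ≠ 0) → α • e + β • p ∈ Zs S X := by
    intro α β h
    by_cases hα : α = 0
    · rw [hα, zero_smul, zero_add]; exact Zs_cone hS hX hp (h hα)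
    · have := plane_mem hS hX hp hν hn (v := α • e + (β - 1) • p)
        (by rw [map_add, map_smul, map_smul, ee, hν, smul_add, smul_comm ν, smul_comm ν]) (by
          intro t ht
          by_cases h0 : t = 0
          · rw [h0, zero_smul, add_zero] at ht; exact p0 ht
          · have h1 : (t : ℂ) * α ≠ 0 := mul_ne_zero (by exact_mod_cast h0) hα
            apply hep (-(((t : ℂ) * α)⁻¹ * (1 + t * (β - 1))))
            have h2 : ((t : ℂ) * α) • e = -((1 + t * (β - 1)) • p) := by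
              rw [eq_neg_iff_add_eq_zero, ← ht, ← Complex.coe_smul]; module
            rw [neg_smul, mul_smul, ← smul_neg, ← h2, smul_smul, inv_mul_cancel₀ h1, one_smul])
      have e1 : p + (α • e + (β - 1) • p) = α • e + β • p := by module
      rwa [e1] at this
  refine no_line hS (p := p) (e := e) hm fun s θ => ?_
  have z := all (s * exp (θ * I)) (1 - s) (fun h => by
    rw [(mul_eq_zero.1 h).resolve_right (exp_ne_zero _)]; simp)
  refine ⟨z.1, fun a ha h0 => ?_⟩
  have hz : X (((s : ℂ) * exp (θ * I)) • e + (1 - s : ℂ) • p) =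
      ν • (((s : ℂ) * exp (θ * I)) • e + (1 - s : ℂ) • p) := by
    rw [map_add, map_smul, map_smul, ee, hν, smul_add, smul_comm ν, smul_comm ν]
  have := eigen_ker hS hX hp hν hn hb (ker_eigen hS hX z hz ha h0)
  rw [hm] at this
  exact one_ne_zero this

/-- the stabiliser is discrete modulo scalars -/
theorem LF.discrete (hS : LF S) : ∃ ε : ℝ, 0 < ε ∧ ∀ g : E →L[ℂ] E, (∀ z ∈ S, g z ∈ S) →
    ‖g - ContinuousLinearMap.id ℂ E‖ < ε → ∃ c : ℂ, ∀ v, g v = c • v := by
  by_contra hc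
  push Not at hc
  have hs : Tendsto (fun n : ℕ => 1 / ((n : ℝ) + 1)) atTop (𝓝 0) :=
    tendsto_one_div_add_atTop_nhds_zero_nat
  choose g hg1 hg2 hg3 using fun n : ℕ => hc (1 / ((n : ℝ) + 1)) (by positivity)
  have tg : Tendsto g atTop (𝓝 (ContinuousLinearMap.id ℂ E)) :=
    tendsto_iff_norm_sub_tendsto_zero.2 (squeeze_zero (fun _ => norm_nonneg _) (fun n => (hg2 n).le) hs)
  let e0 : E := Pi.single 0 1
  let τ : (E →L[ℂ] E) → ℂ := fun A => A e0 0
  have cτ : Continuous τ := by fun_prop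
  have tc : Tendsto (fun n => τ (g n)) atTop (𝓝 1) := by
    simpa [τ, e0, Function.comp_def] using (cτ.tendsto _).comp tg
  let Y : ℕ → (E →L[ℂ] E) := fun n => (τ (g n))⁻¹ • g n - ContinuousLinearMap.id ℂ E
  have tY : Tendsto Y atTop (𝓝 0) := by
    simpa using ((tc.inv₀ one_ne_zero).smul tg).sub_const (ContinuousLinearMap.id ℂ E)
  have ev : ∀ᶠ n in atTop, τ (g n) ≠ 0 ∧ Y n ≠ 0 := by
    filter_upwards [tc.eventually_ne one_ne_zero] with n hn
    refine ⟨hn, fun h => ?_⟩
    obtain ⟨v, hv⟩ := hg3 n (τ (g n))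
    apply hv
    have := congrArg (fun L : E →L[ℂ] E => L v) (sub_eq_zero.1 h)
    simp only [_root_.smul_apply, ContinuousLinearMap.id_apply] at this
    conv_rhs => rw [← this]
    rw [smul_smul, mul_inv_cancel₀ hn, one_smul]
  let W : ℕ → (E →L[ℂ] E) := fun n => ((‖Y n‖⁻¹ : ℝ) : ℂ) • Y n
  have : ProperSpace (E →L[ℂ] E) := FiniteDimensional.proper ℂ _
  obtain ⟨X, hX, φ, hφ, hl⟩ := (isCompact_sphere (0 : E →L[ℂ] E) 1).tendsto_subseq' (x := W)
    (ev.mono fun n hn => by
      have := norm_ne_zero_iff.2 hn.2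
      simp [W, norm_smul, this]).frequently
  have tan : Tan S X := by
    intro U r h q hq hqS
    refine tan_limit h hq tendsto_const_nhds (w := fun n => W (φ n) q)
      (((ContinuousLinearMap.apply ℂ E q).continuous.tendsto X).comp hl)
      (s := fun n => ‖Y (φ n)‖) (by simpa using (tY.comp hφ.tendsto_atTop).norm) ?_
    filter_upwards [hφ.tendsto_atTop.eventually ev] with n hn
    have h0 := norm_ne_zero_iff.2 hn.2
    refine ⟨h0, hqS, ?_⟩
    have e : q + ‖Y (φ n)‖ • W (φ n) q = (τ (g (φ n)))⁻¹ • g (φ n) q := by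
      simp only [W, _root_.smul_apply, Complex.coe_smul, smul_smul, mul_inv_cancel₀ h0, one_smul]
      simp [Y]
    rw [e]
    exact hS.cone _ (hg1 _ q hqS) _ (inv_ne_zero hn.1)
  obtain ⟨c, hc⟩ := hS.scalar_of_tan tan
  have t0 : τ X = 0 := by
    refine tendsto_nhds_unique ((cτ.tendsto X).comp hl) (tendsto_const_nhds.congr' ?_)
    filter_upwards [hφ.tendsto_atTop.eventually ev] with n hn
    have h1 : (τ (g (φ n)))⁻¹ * g (φ n) e0 0 = 1 := inv_mul_cancel₀ hn.1
    simp only [Function.comp, τ, W, Y, _root_.smul_apply, _root_.sub_apply, Pi.smul_apply,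
      Pi.sub_apply, smul_eq_mul, ContinuousLinearMap.id_apply] at h1 ⊢
    rw [h1]; simp [e0]
  have c0 : c = 0 := by simpa [τ, hc, e0] using t0
  have : X = 0 := ContinuousLinearMap.ext fun v => by rw [hc, c0]; simp
  rw [this] at hX
  simp at hX

end Pool.Agent.Lib.MP_4e4ac8_an
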